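import Pool.Agent.P.MP_9a7e1f_lc.St1

/-! The constructible sets of a transitive model form a transitive model. -/

set_option linter.unusedSectionVars false

namespace Pool.Agent.P.MP_9a7e1f_lc

open ZFSet Pool.Agent.P.MP_3ab3de_lc

namespace LModP

/-- the ordinals of `M` -/
def OM (M : Set ZF) : Set ZF := {α | α ∈ M ∧ IsOrdinal α}

theorem lm_eq (M : Set ZF) : LM M = LO (OM M) := by
  ext x
  exact ⟨fun ⟨α, h1, h2, h3⟩ => ⟨α, ⟨h1, h2⟩, h3⟩, fun ⟨α, h1, h3⟩ => ⟨α, h1.1, h1.2, h3⟩⟩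

/-- a bound of the free variables -/
def bnd : Fml → ℕ
  | .mem i j => i + j + 1
  | .eq i j => i + j + 1
  | .bot => 0
  | .imp φ ψ => bnd φ + bnd ψ
  | .all φ => bnd φ - 1

theorem sat_bnd (N : Set ZF) (φ : Fml) :
    ∀ v w : Env, (∀ n < bnd φ, v n = w n) → (Sat N φ v ↔ Sat N φ w) := by
  induction φ with
  | mem i j =>
    exact fun v w h => by
      rw [sat_mem, sat_mem, h i (by simp only [bnd]; omega), h j (by simp only [bnd]; omega)]
  | eq i j =>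
    exact fun v w h => by
      rw [sat_eq, sat_eq, h i (by simp only [bnd]; omega), h j (by simp only [bnd]; omega)]
  | bot => exact fun _ _ _ => Iff.rfl
  | imp a b h1 h2 =>
    exact fun v w h => imp_congr (h1 v w fun n hn => h n (by simp only [bnd]; omega))
      (h2 v w fun n hn => h n (by simp only [bnd]; omega))
  | all a h1 =>
    refine fun v w h => forall_congr' fun x => imp_congr_right fun _ => h1 _ _ fun n hn => ?_
    cases n with
    | zero => rfl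
    | succ n => exact h n (by simp only [bnd]; omega)

/-- the assignment coded by a finite function -/
noncomputable def env (n : ℕ) (t : ZF) : Env := fun k => app t (num (n - 1 - k))

/-- a function on the numeral `n` -/
def Fu (n : ℕ) (t : ZF) : Prop := ∃ S, IsFunc (num n) S t

theorem isFunc_ins {n : ℕ} {S t : ZF} (h : IsFunc (num n) S t) (a : ZF) :
    IsFunc (num (n + 1)) (insert a S) (insert (pair (num n) a) t) := by
  refine ⟨fun p hp => ?_, fun k hk => ?_⟩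
  · rcases mem_insert_iff.1 hp with rfl | hp
    · exact pair_mem_prod.2 ⟨mem_insert _ _, mem_insert _ _⟩
    · obtain ⟨k, hk, y, hy, rfl⟩ := h.exists_pair hp
      exact pair_mem_prod.2 ⟨mem_insert_of_mem _ hk, mem_insert_of_mem _ hy⟩
  · rcases mem_insert_iff.1 hk with rfl | hk
    · refine ⟨a, mem_insert _ _, fun y hy => ?_⟩
      rcases mem_insert_iff.1 hy with e | hy
      exacts [(pair_inj.1 e).2, absurd (h.mem hy).1 (mem_irrefl _)]
    · refine ⟨_, mem_insert_of_mem _ (h.app_mem hk), fun y hy => ?_⟩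
      rcases mem_insert_iff.1 hy with e | hy
      · exact absurd ((pair_inj.1 e).1 ▸ hk) (mem_irrefl _)
      · exact (h.app_eq hy).symm

theorem Fu.ins {n : ℕ} {t : ZF} (h : Fu n t) (a : ZF) : Fu (n + 1) (insert (pair (num n) a) t) :=
  h.elim fun S h => ⟨insert a S, isFunc_ins h a⟩

theorem Fu.env_ins {n : ℕ} {t : ZF} (h : Fu n t) (a : ZF) :
    ∀ k < n + 1, env (n + 1) (insert (pair (num n) a) t) k = cons a (env n t) k := by
  obtain ⟨S, h⟩ := h
  intro k hk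
  cases k with
  | zero => exact (isFunc_ins h a).app_eq (mem_insert _ _)
  | succ k =>
    have e : n + 1 - 1 - (k + 1) = n - 1 - k := by omega
    simp only [env, e, cons_succ]
    exact (isFunc_ins h a).app_eq
      (mem_insert_of_mem _ (h.app_mem (num_mem_num.2 (by omega))))

theorem Fu.sat_ins {N : Set ZF} {φ : Fml} {n : ℕ} {t : ZF} (h : Fu n t) (hn : bnd φ ≤ n + 1)
    (a : ZF) : Sat N φ (env (n + 1) (insert (pair (num n) a) t)) ↔ Sat N φ (cons a (env n t)) :=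
  sat_bnd N φ _ _ fun k hk => h.env_ins a k (by omega)

theorem Fu.iff {n k : ℕ} {t a : ZF} (h : Fu n t) (hk : k < n) :
    pair (num (n - 1 - k)) a ∈ t ↔ a = env n t k := by
  obtain ⟨S, h⟩ := h
  exact ⟨fun h1 => (h.app_eq h1).symm, fun e => e ▸ h.app_mem (num_mem_num.2 (by omega))⟩

variable {M : Set ZF} [hM : TModel M]

theorem oc : OC (OM M) :=
  ⟨fun _ h => h.2, ⟨∅, empty_mem, isOrdinal_empty⟩, fun α h =>
    ⟨by have := In.mk' h.1; exact In.mem _, isOrdinal_succ h.2⟩⟩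

theorem trnL : Trn (LM M) := lm_eq M ▸ oc.trn

theorem emptyL : ∅ ∈ LM M := lm_eq M ▸ oc.empty

theorem numL (n : ℕ) : num n ∈ LM M := lm_eq M ▸ oc.num n

theorem upairL {a b : ZF} (ha : a ∈ LM M) (hb : b ∈ LM M) : ({a, b} : ZF) ∈ LM M := by
  rw [lm_eq] at *; exact oc.upair ha hb

theorem singL {a : ZF} (ha : a ∈ LM M) : ({a} : ZF) ∈ LM M := by
  rw [lm_eq] at *; exact oc.singleton ha

theorem pairL {a b : ZF} (ha : a ∈ LM M) (hb : b ∈ LM M) : pair a b ∈ LM M := by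
  rw [lm_eq] at *; exact oc.pair ha hb

theorem insL {a b : ZF} (ha : a ∈ LM M) (hb : b ∈ LM M) : insert a b ∈ LM M := by
  rw [lm_eq] at *; exact oc.insert ha hb

theorem subM {x : ZF} (h : x ∈ LM M) : x ∈ M := by
  obtain ⟨α, h1, -, h3⟩ := h
  have := In.mk' h1
  exact tr (In.mem (LS α)) h3

instance dfL {a : Env → ZF} [Tm M a] : Df M (fun v => a v ∈ LM M) :=
  (inferInstance : Df M (fun v => ∃ α ∈ M, IsOrdinal α ∧ a v ∈ LS α))

theorem bdd {b : ZF} (hb : b ∈ M) (h : ∀ x ∈ b, x ∈ LM M) : ∃ β ∈ OM M, b ⊆ LS β := by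
  obtain ⟨c, hc, h1⟩ := collect (M := M) (fun x α => IsOrdinal α ∧ x ∈ LS α) inferInstance hb h
  have := In.mk' hc
  refine ⟨ZFSet.sUnion (ZFSet.sep IsOrdinal c), ⟨In.mem _,
    isOrdinal_sUnion fun x hx => (mem_sep.1 hx).2⟩, fun x hx => ?_⟩
  obtain ⟨α, h2, h3, h4⟩ := h1 x hx
  exact LS_mono (fun y hy => mem_sUnion.2 ⟨α, mem_sep.2 ⟨h2, h3⟩, hy⟩) h4

theorem opM {b x y w : ZF} (j : ℕ) (hb : b ∈ M) (h : ∀ z ∈ b, z ∈ LM M) (hx : x ∈ LM M)
    (hy : y ∈ LM M) (hw : w ∈ LM M) (e : ∀ z ∈ LM M, z ∈ b ↔ Op z (num j) x y w) : b ∈ LM M := by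
  obtain ⟨β, h1, h2⟩ := bdd hb h
  rw [lm_eq] at *
  exact oc.opL (oc.num j) hx hy hw h1 h2 e

theorem opS {T x y w : ZF} {P : ZF → Prop} (j : ℕ) (hP : Df M (fun v => P (v 0))) (hT : T ∈ LM M)
    (hx : x ∈ LM M) (hy : y ∈ LM M) (hw : w ∈ LM M)
    (e : ∀ z, z ∈ T ∧ P z ↔ Op z (num j) x y w) : ZFSet.sep P T ∈ LM M :=
  opM j (sep_mem' P hP (subM hT)) (fun z hz => trnL T hT z (mem_sep.1 hz).1) hx hy hw
    fun z _ => mem_sep.trans (e z)

theorem lev (j : ℕ) {β : ZF} (hβ : β ∈ OM M) : ∃ δ ∈ OM M, LS β ⊆ LS δ ∧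
    ZFSet.sep (fun z => Op z (num j) ∅ ∅ ∅) (LS δ) ∈ LM M := by
  obtain ⟨γ, h1, h2⟩ : code (num j) ∅ ∅ ∅ ∈ LO (OM M) :=
    oc.pair oc.empty (oc.pair (oc.num j) (oc.pair oc.empty (oc.pair oc.empty oc.empty)))
  obtain ⟨δ, h3, h4, h5⟩ := oc.max hβ h1
  refine ⟨δ, h3, h4, ?_⟩
  have : ZFSet.sep (fun z => Op z (num j) ∅ ∅ ∅) (LS δ) = uu (LS δ) (code (num j) ∅ ∅ ∅) ∅ := by
    ext z
    rw [uu, mem_sep, mem_sep, psi_code]
  rw [this, lm_eq]
  exact ⟨_, oc.succ δ h3, uu_mem_LS (mem_insert _ _) (h5 h2) (empty_mem_LS _)⟩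

theorem ordL (α : ZF) : α ∈ M → IsOrdinal α → α ∈ LM M := by
  induction α using ZFSet.inductionOn with
  | h α ih =>
    intro hα ho
    obtain ⟨β, h1, h2⟩ := bdd hα fun x hx => ih x hx (tr hα hx) (ho.mem hx)
    obtain ⟨δ, h3, h4, h5⟩ := lev 2 h1
    have e : ∀ z, z ∈ ZFSet.sep (fun z => Op z (num 2) ∅ ∅ ∅) (LS δ) ↔ z ∈ LS δ ∧ IsOrdinal z :=
      fun z => by simp [Op, num_inj]
    have h6 : IsOrdinal (ZFSet.sep (fun z => Op z (num 2) ∅ ∅ ∅) (LS δ)) :=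
      isOrdinal_iff_forall_mem_isOrdinal.2 ⟨fun x hx y hy => (e y).2
        ⟨LS_trans h3.2 x ((e x).1 hx).1 hy, ((e x).1 hx).2.mem hy⟩, fun x hx => ((e x).1 hx).2⟩
    rcases (ho.subset_iff_eq_or_mem h6).1 fun x hx => (e x).2 ⟨h4 (h2 hx), ho.mem hx⟩ with h7 | h7
    exacts [h7 ▸ h5, trnL _ h5 _ h7]

theorem sup {b : ZF} (hb : b ∈ M) (h : ∀ x ∈ b, x ∈ LM M) : ∃ Y ∈ LM M, b ⊆ Y := by
  obtain ⟨β, h1, h2⟩ := bdd hb h
  obtain ⟨δ, -, h4, h5⟩ := lev 4 h1
  exact ⟨_, h5, fun x hx => mem_sep.2 ⟨h4 (h2 hx), by simp [Op]⟩⟩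

theorem dfSat (φ : Fml) : Df M (fun v => Sat (LM M) φ v) := by
  induction φ with
  | mem i j => exact Df.mem0 i j
  | eq i j => exact Df.eq0 i j
  | bot => exact Df.bot
  | imp φ ψ h1 h2 => exact @Df.imp M _ _ h1 h2
  | all φ ih =>
    refine (Df.allM (P := fun v x => x ∈ LM M → Sat (LM M) φ (cons x v))
      ((@Df.imp M (fun v => v 0 ∈ LM M) _ inferInstance ih).congr fun v _ => ?_)).congr
      fun v _ => ⟨fun h x _ hx => h x hx, fun h x hx => h x (subM hx) hx⟩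
    have : (cons (v 0) fun n => v (n + 1)) = v := by
      funext i; cases i <;> rfl
    rw [this]

theorem dfEnv (φ : Fml) (n : ℕ) : Df M (fun v => Sat (LM M) φ (env n (v 0))) :=
  df_subst (dfSat φ) (fun k v => app (v 0) (num (n - 1 - k))) fun _ => inferInstance

theorem dfEnv2 (φ : Fml) (n : ℕ) : Df M (fun v => Sat (LM M) φ (cons (v 1) (env n (v 0)))) := by
  refine (df_subst (dfSat φ) (cns (fun v => v 1) fun k v => app (v 0) (num (n - 1 - k)))
    (tm_cns inferInstance fun _ => inferInstance)).congr fun v _ => ?_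
  have : cons (v 1) (env n (v 0)) =
      fun i => cns (fun v : Env => v 1) (fun k v => app (v 0) (num (n - 1 - k))) i v := by
    funext i; cases i <;> rfl
  rw [this]

theorem extL {T Y : ZF} (n : ℕ) (hT : T ∈ LM M) (hY : Y ∈ LM M) :
    bun (fun t => img (fun a => insert (pair (num n) a) t) Y) T ∈ LM M := by
  have := In.mk' (subM hT)
  have := In.mk' (subM hY)
  refine opM 5 (In.mem _) (fun z hz => ?_) hT hY (numL n) fun z _ => ?_
  · obtain ⟨t, ht, hz⟩ := mem_bun.1 hz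
    obtain ⟨a, ha, rfl⟩ := mem_img.1 hz
    exact insL (pairL (numL n) (trnL Y hY a ha)) (trnL T hT t ht)
  · simp [Op, num_inj, eq_comm]

theorem dlem (φ : Fml) : ∀ n T, bnd φ ≤ n → T ∈ LM M → (∀ t ∈ T, Fu n t) →
    ZFSet.sep (fun t => Sat (LM M) φ (env n t)) T ∈ LM M := by
  induction φ with
  | mem i j =>
    intro n T hn hT h
    simp only [bnd] at hn
    refine opS 6 (dfEnv _ n) hT hT (numL (n - 1 - i)) (numL (n - 1 - j)) fun z => ?_
    have : Op z (num 6) T (num (n - 1 - i)) (num (n - 1 - j)) ↔ z ∈ T ∧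
        ∃ a b, pair (num (n - 1 - i)) a ∈ z ∧ pair (num (n - 1 - j)) b ∈ z ∧ a ∈ b := by
      simp only [Op, num_inj]; simp
    rw [this, sat_mem]
    refine and_congr_right fun hz => ?_
    simp only [(h z hz).iff (show i < n by omega), (h z hz).iff (show j < n by omega)]
    simp
  | eq i j =>
    intro n T hn hT h
    simp only [bnd] at hn
    refine opS 7 (dfEnv _ n) hT hT (numL (n - 1 - i)) (numL (n - 1 - j)) fun z => ?_
    have : Op z (num 7) T (num (n - 1 - i)) (num (n - 1 - j)) ↔ z ∈ T ∧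
        ∃ a, pair (num (n - 1 - i)) a ∈ z ∧ pair (num (n - 1 - j)) a ∈ z := by
      simp only [Op, num_inj]; simp
    rw [this, sat_eq]
    refine and_congr_right fun hz => ?_
    simp only [(h z hz).iff (show i < n by omega), (h z hz).iff (show j < n by omega)]
    simp
  | bot =>
    intro n T _ _ _
    have : ZFSet.sep (fun t => Sat (LM M) .bot (env n t)) T = ∅ := by
      ext z; simp [sat_bot]
    rw [this]
    exact emptyL
  | imp φ ψ h1 h2 =>
    intro n T hn hT h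
    simp only [bnd] at hn
    refine opS 8 (dfEnv _ n) hT hT (h1 n T (by omega) hT h) (h2 n T (by omega) hT h) fun z => ?_
    simp only [Op, num_inj, sat_imp, mem_sep]
    simp only [Nat.reduceEqDiff, false_and, true_and, false_or, or_false]
    tauto
  | all φ ih =>
    intro n T hn hT h
    simp only [bnd] at hn
    have d1 := dfEnv (M := M) (.all φ) n
    have d2 := dfEnv2 (M := M) φ n
    obtain ⟨b, hb, h1⟩ := collect (M := M)
      (fun t a => a ∈ LM M ∧ ¬ Sat (LM M) φ (cons a (env n t))) inferInstance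
      (sep_mem' (fun t => ¬ Sat (LM M) (.all φ) (env n t)) inferInstance (subM hT)) fun t ht => by
        have h2 := (mem_sep.1 ht).2
        rw [sat_all] at h2
        push Not at h2
        obtain ⟨x, h3, h4⟩ := h2
        exact ⟨x, subM h3, h3, h4⟩
    obtain ⟨Y, hY, h2⟩ := sup (sep_mem' (fun x => x ∈ LM M) inferInstance hb)
      fun x hx => (mem_sep.1 hx).2
    have h3 := ih (n + 1) _ (by omega) (extL n hT hY) fun t ht => by
      obtain ⟨s, hs, ht⟩ := mem_bun.1 ht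
      obtain ⟨a, -, rfl⟩ := mem_img.1 ht
      exact (h s hs).ins a
    refine opS 9 d1 hT (pairL hT hY) h3 (numL n) fun z => ?_
    have : ∀ D, Op z (num 9) (pair T Y) D (num n) ↔ z ∈ T ∧
        ∀ a ∈ Y, insert (pair (num n) a) z ∈ D := fun D => by
      simp only [Op, num_inj, pair_inj]; simp
    rw [this]
    refine and_congr_right fun hz => ⟨fun h4 a ha => mem_sep.2 ⟨mem_bun.2 ⟨z, hz, img_mem ha⟩,
      ((h z hz).sat_ins (by omega) a).2 (h4 a (trnL Y hY a ha))⟩, fun h4 => by_contra fun h5 => ?_⟩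
    obtain ⟨a, ha, h6, h7⟩ := h1 z (mem_sep.2 ⟨hz, h5⟩)
    exact h7 (((h z hz).sat_ins (by omega) a).1 (mem_sep.1 (h4 a (h2 (mem_sep.2 ⟨ha, h6⟩)))).2)

theorem codeL (n : ℕ) : ∀ v : Env, EIn (LM M) v →
    ∃ t ∈ LM M, Fu n t ∧ ∀ k < n, env n t k = v k := by
  induction n with
  | zero =>
    exact fun v _ => ⟨∅, emptyL, ⟨∅, fun _ h => absurd h (notMem_empty _),
      fun _ h => absurd h (notMem_empty _)⟩, fun _ h => absurd h (by omega)⟩
  | succ n ih =>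
    intro v hv
    obtain ⟨t, h1, h2, h3⟩ := ih (fun k => v (k + 1)) (hv.ren _)
    refine ⟨_, insL (pairL (numL n) (hv 0)) h1, h2.ins _, fun k hk => ?_⟩
    rw [h2.env_ins _ k hk]
    cases k with
    | zero => rfl
    | succ k => exact h3 k (by omega)

theorem dfCons {N : Set ZF} {P : Env → Prop} (h : Df N P) {v : Env} (hv : EIn N v) :
    Df N (fun w => P (cons (w 0) v)) := by
  refine (df_subst h (cns (fun w => w 0) fun k _ => v k)
    (tm_cns inferInstance fun k => In.mk' (hv k))).congr fun w _ => ?_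
  have : cons (w 0) v = fun i => cns (fun w : Env => w 0) (fun k _ => v k) i w := by
    funext i; cases i <;> rfl
  rw [this]

theorem dfCons2 {N : Set ZF} {P : Env → Prop} (h : Df N P) {v : Env} (hv : EIn N v) (i j : ℕ) :
    Df N (fun w => P (cons (w i) (cons (w j) v))) := by
  refine (df_subst h (cns (fun w => w i) (cns (fun w => w j) fun k _ => v k))
    (tm_cns inferInstance (tm_cns inferInstance fun k => In.mk' (hv k)))).congr fun w _ => ?_
  have : cons (w i) (cons (w j) v) =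
      fun k => cns (fun w : Env => w i) (cns (fun w => w j) fun k _ => v k) k w := by
    funext k
    rcases k with _ | _ | k <;> rfl
  rw [this]

theorem sepF (φ : Fml) {v : Env} (hv : EIn (LM M) v) {a : ZF} (ha : a ∈ LM M) :
    ZFSet.sep (fun x => Sat (LM M) φ (cons x v)) a ∈ LM M := by
  obtain ⟨t, h1, h2, h3⟩ := codeL (bnd φ) v hv
  have h4 := dlem φ (bnd φ + 1) _ (by omega) (extL (bnd φ) (singL h1) ha) fun s hs => by
    obtain ⟨s', hs', hs⟩ := mem_bun.1 hs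
    obtain ⟨a, -, rfl⟩ := mem_img.1 hs
    rw [mem_singleton.1 hs']
    exact h2.ins a
  refine opS 10 (dfCons (dfSat φ) fun n => subM (hv n)) ha (pairL ha h4) h1 (numL (bnd φ))
    fun z => ?_
  have : ∀ D, Op z (num 10) (pair a D) t (num (bnd φ)) ↔ z ∈ a ∧
      insert (pair (num (bnd φ)) z) t ∈ D := fun D => by
    simp only [Op, num_inj, pair_inj]; simp
  rw [this]
  refine and_congr_right fun hz => ?_
  have h5 : insert (pair (num (bnd φ)) z) t ∈
      bun (fun t => img (fun a => insert (pair (num (bnd φ)) a) t) a) {t} :=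
    mem_bun.2 ⟨t, mem_singleton.2 rfl, img_mem hz⟩
  rw [mem_sep, h2.sat_ins (by omega), and_iff_right h5]
  refine sat_bnd _ _ _ _ fun k hk => ?_
  cases k with
  | zero => rfl
  | succ k => exact (h3 k (by omega)).symm

theorem sepL (P : ZF → Prop) (h : Df (LM M) (fun v => P (v 0))) {a : ZF} (ha : a ∈ LM M) :
    ZFSet.sep P a ∈ LM M := by
  obtain ⟨φ, ρ, h⟩ := h
  have hb := sepF (φ.ren (fun n => Sum.elim (fun _ => 0) (fun _ => n + 1) (ρ n)))
    (ein_elim (fun _ => ha) ρ) ha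
  convert hb using 1
  ext x
  rw [mem_sep, mem_sep]
  refine and_congr_right fun hx => Iff.trans ?_ (sat_ren _ _ _).symm
  refine (h (fun _ => x) fun _ => trnL a ha x hx).trans ?_
  have : (fun n => cons x (fun n => Sum.elim (fun _ => a) Subtype.val (ρ n))
      (Sum.elim (fun _ => 0) (fun _ => n + 1) (ρ n))) =
      fun n => Sum.elim (fun _ => x) Subtype.val (ρ n) := by
    funext n
    rcases e : ρ n with k | c
    · rfl
    · simp [e]
  rw [this]

theorem defL (Q : ZF → Prop) (h : Df (LM M) (fun v => Q (v 0))) {b : ZF} (hb : b ∈ M)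
    (h1 : ∀ z ∈ b, z ∈ LM M) (e : ∀ z ∈ LM M, z ∈ b ↔ Q z) : b ∈ LM M := by
  obtain ⟨Y, hY, h2⟩ := sup hb h1
  convert sepL Q h hY using 1
  ext z
  rw [mem_sep]
  exact ⟨fun hz => ⟨h2 hz, (e z (h1 z hz)).1 hz⟩, fun hz => (e z (trnL Y hY z hz.1)).2 hz.2⟩

theorem d0L (Q : ZF → ZF → ZF → ZF → Prop) (h : D0 (fun v => Q (v 0) (v 1) (v 2) (v 3)))
    (s t r u : Env → ZF) [hs : Tm (LM M) s] [ht : Tm (LM M) t] [hr : Tm (LM M) r]
    [hu : Tm (LM M) u] : Df (LM M) (fun v => Q (s v) (t v) (r v) (u v)) :=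
  df_subst (h.df trnL) (cns s (cns t (cns r fun _ => u)))
    (tm_cns hs (tm_cns ht (tm_cns hr fun _ => hu)))

theorem llL (α : ZF) : α ∈ M → IsOrdinal α → graph LL α ∈ LM M ∧ LS α ∈ LM M ∧ LW α ∈ LM M := by
  induction α using ZFSet.inductionOn with
  | h α ih =>
    intro hα ho
    have := In.mk' hα
    have := In.mk' (ordL α hα ho)
    have h0 : ∀ β ∈ α, pair β (LL β) ∈ LM M := fun β hβ => by
      obtain ⟨-, h1, h2⟩ := ih β hβ (tr hα hβ) (ho.mem hβ)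
      rw [LL_eq]
      exact pairL (ordL β (tr hα hβ) (ho.mem hβ)) (pairL h1 h2)
    have hg : graph LL α ∈ LM M := by
      refine defL (fun p => ∃ f ∈ LM M, Hier f ∧ p ∈ f ∧ ∃ β ∈ α, ∃ S W, p = pair β (pair S W))
        (Df.exM (P := fun v f => Hier f ∧ v 0 ∈ f ∧ ∃ β ∈ α, ∃ S W, v 0 = pair β (pair S W))
          (d0L (fun f p α _ => Hier f ∧ p ∈ f ∧ ∃ β ∈ α, ∃ S W, p = pair β (pair S W))
            inferInstance (fun v => v 0) (fun v => v 1) (fun _ => α) (fun _ => α)))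
        (In.mem _) (fun z hz => ?_) fun z _ => ⟨fun hz => ?_, ?_⟩
      · obtain ⟨β, hβ, rfl⟩ := mem_graph.1 hz
        exact h0 β hβ
      · obtain ⟨β, hβ, rfl⟩ := mem_graph.1 hz
        have e : graph LL (insert β β) = insert (pair β (LL β)) (graph LL β) := by
          ext p
          simp only [mem_graph, mem_insert_iff, exists_eq_or_imp]
          rw [eq_comm]
        refine ⟨graph LL (insert β β), ?_, hier_graph (isOrdinal_succ (ho.mem hβ)),
          pair_mem_graph.2 ⟨mem_insert _ _, rfl⟩, β, hβ, _, _, by rw [LL_eq]⟩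
        rw [e]
        exact insL (h0 β hβ) (ih β hβ (tr hα hβ) (ho.mem hβ)).1
      · rintro ⟨f, -, h1, h2, β, hβ, S, W, rfl⟩
        exact lev_graph.2 ⟨hβ, h1.sound β S W h2⟩
    have := In.mk' hg
    have hS : LS α ∈ LM M := by
      refine defL (fun u => u = ∅ ∨ ∃ β ∈ α, ∃ S W, pair β (pair S W) ∈ graph LL α ∧
          ∃ c ∈ S, ∃ d ∈ S, IsU u S c d)
        (d0L (fun u α g _ => u = ∅ ∨ ∃ β ∈ α, ∃ S W, pair β (pair S W) ∈ g ∧
          ∃ c ∈ S, ∃ d ∈ S, IsU u S c d) inferInstance (fun v => v 0) (fun _ => α)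
          (fun _ => graph LL α) (fun _ => α))
        (In.mem _) (fun z hz => ⟨α, hα, ho, hz⟩) fun z _ => mem_LS.trans (or_congr Iff.rfl ⟨?_, ?_⟩)
      · rintro ⟨β, hβ, c, hc, d, hd, e⟩
        exact ⟨β, hβ, _, _, lev_graph.2 ⟨hβ, rfl, rfl⟩, c, hc, d, hd, isU_iff.2 e⟩
      · rintro ⟨β, hβ, S, W, h1, c, hc, d, hd, e⟩
        obtain ⟨-, rfl, rfl⟩ := lev_graph.1 h1
        exact ⟨β, hβ, c, hc, d, hd, isU_iff.1 e⟩
    have := In.mk' hS
    refine ⟨hg, hS, ?_⟩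
    have e2 : ∀ u u', LtF (graph LL α) α u u' ↔ LtL lT α u u' :=
      fun u u' => LtL.congr fun β hβ S W => by rw [lev_graph]; simp [hβ]
    refine defL (fun p => ∃ u ∈ LS α, ∃ u' ∈ LS α, p = pair u u' ∧ LtF (graph LL α) α u u')
      (d0L (fun p S g α => ∃ u ∈ S, ∃ u' ∈ S, p = pair u u' ∧ LtF g α u u') inferInstance
        (fun v => v 0) (fun _ => LS α) (fun _ => graph LL α) (fun _ => α))
      (In.mem _) (fun z hz => ?_) fun z _ => by simp only [mem_LW, e2]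
    obtain ⟨u, hu, u', hu', rfl, -⟩ := mem_LW.1 hz
    exact pairL ⟨α, hα, ho, hu⟩ ⟨α, hα, ho, hu'⟩

theorem choiceL (a : ZF) (ha : a ∈ LM M) : ∃ f ∈ LM M, ∀ x ∈ a, (∃ y, y ∈ x) →
    ∃ y ∈ x, pair x y ∈ f ∧ ∀ z, pair x z ∈ f → z = y := by
  obtain ⟨α, hα, ho, h1⟩ := id ha
  have hW := (llL α hα ho).2.2
  have := In.mk' hα
  have := In.mk' (subM ha)
  have := In.mk' ha
  have := In.mk' hW
  have e : ∀ p, p ∈ ZFSet.sep (fun p => ∃ x ∈ a, ∃ y ∈ x, p = pair x y ∧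
      ∀ y' ∈ x, pair y' y ∉ LW α) (prod a (ZFSet.sUnion a)) ↔
      ∃ x ∈ a, ∃ y ∈ x, p = pair x y ∧ ∀ y' ∈ x, pair y' y ∉ LW α := fun p => by
    rw [mem_sep, and_iff_right_iff_imp]
    rintro ⟨x, hx, y, hy, rfl, -⟩
    exact pair_mem_prod.2 ⟨hx, mem_sUnion.2 ⟨x, hx, hy⟩⟩
  refine ⟨_, defL (fun p => ∃ x ∈ a, ∃ y ∈ x, p = pair x y ∧ ∀ y' ∈ x, pair y' y ∉ LW α)
    (d0L (fun p a W _ => ∃ x ∈ a, ∃ y ∈ x, p = pair x y ∧ ∀ y' ∈ x, pair y' y ∉ W) inferInstance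
      (fun v => v 0) (fun _ => a) (fun _ => LW α) (fun _ => a))
    (In.mem _) (fun z hz => ?_) fun z _ => e z, fun x hx ⟨y, hy⟩ => ?_⟩
  · obtain ⟨x, hx, y, hy, rfl, -⟩ := (e z).1 hz
    exact pairL (trnL a ha x hx) (trnL x (trnL a ha x hx) y hy)
  · have h2 : x ⊆ LS α := LS_trans ho x (LS_trans ho a h1 hx)
    obtain ⟨u, hu, h3, h4⟩ := LW_min ho (fun y => y ∈ x) ⟨y, h2 hy, hy⟩
    refine ⟨u, h3, (e _).2 ⟨x, hx, u, h3, rfl, h4⟩, fun z hz => ?_⟩
    obtain ⟨x', -, z', h5, e', h6⟩ := (e _).1 hz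
    obtain ⟨rfl, rfl⟩ := pair_inj.1 e'
    rcases LW_tri ho (h2 h5) hu with h7 | h7 | h7
    exacts [h7, absurd h7 (h4 z h5), absurd h7 (h6 u h3)]

theorem replL (φ : Fml) (v : Env) (hv : ∀ n, v n ∈ LM M) (a : ZF) (ha : a ∈ LM M)
    (hu : ∀ x ∈ a, ∃! y, y ∈ LM M ∧ Sat (LM M) φ (cons y (cons x v))) :
    ∃ b ∈ LM M, ∀ y, y ∈ b ↔ y ∈ LM M ∧ ∃ x ∈ a, Sat (LM M) φ (cons y (cons x v)) := by
  have d1 := dfCons2 (dfSat (M := M) φ) (fun n => subM (hv n)) 0 1
  obtain ⟨b, hb, e⟩ := repl' (M := M) (fun x y => y ∈ LM M ∧ Sat (LM M) φ (cons y (cons x v)))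
    inferInstance (subM ha) fun x hx => by
      obtain ⟨y, h1, h2⟩ := hu x hx
      exact ⟨y, ⟨subM h1.1, h1⟩, fun z hz => h2 z hz.2⟩
  have e2 : ∀ y, y ∈ b ↔ y ∈ LM M ∧ ∃ x ∈ a, Sat (LM M) φ (cons y (cons x v)) := fun y =>
    (e y).trans ⟨fun ⟨_, x, hx, h1, h2⟩ => ⟨h1, x, hx, h2⟩,
      fun ⟨h1, x, hx, h2⟩ => ⟨subM h1, x, hx, h1, h2⟩⟩
  have := In.mk' ha
  have d2 := dfCons2 (Df.sat (M := LM M) φ) hv 1 0
  refine ⟨b, defL (fun y => ∃ x ∈ LM M, x ∈ a ∧ Sat (LM M) φ (cons y (cons x v)))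
    (Df.exM (P := fun w x => x ∈ a ∧ Sat (LM M) φ (cons (w 0) (cons x v))) inferInstance) hb
    (fun z hz => ((e2 z).1 hz).1) fun z hz => (e2 z).trans ?_, e2⟩
  exact ⟨fun ⟨_, x, hx, h⟩ => ⟨x, trnL a ha x hx, hx, h⟩, fun ⟨x, _, hx, h⟩ => ⟨hz, x, hx, h⟩⟩

theorem unionL (a : ZF) (ha : a ∈ LM M) : ZFSet.sUnion a ∈ LM M :=
  opM 1 (hM.union a (subM ha)) (fun z hz => by
    obtain ⟨x, hx, h⟩ := mem_sUnion.1 hz
    exact trnL x (trnL a ha x hx) z h) ha emptyL emptyL fun z _ => by simp [Op, num_inj]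

theorem powerL (a : ZF) (ha : a ∈ LM M) : ∃ c ∈ LM M, ∀ x ∈ LM M, x ∈ c ↔ x ⊆ a := by
  have e : ∀ x ∈ LM M, x ∈ ZFSet.sep (fun x => x ∈ LM M) (pw M a) ↔ x ⊆ a := fun x hx => by
    simp [hx, subM hx]
  exact ⟨_, opM 3 (sep_mem' (fun x => x ∈ LM M) inferInstance (pw_mem (subM ha)))
    (fun z hz => (mem_sep.1 hz).2) ha emptyL emptyL fun z hz => (e z hz).trans
      (by simp [Op, num_inj]), e⟩

end LModP

open LModP in
theorem lmod : S_LMod := fun _ hM =>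
  ⟨⟨trnL, fun _ ha _ hb => upairL ha hb, unionL, ordL _ hM.infinity isOrdinal_omega, powerL,
    fun φ _ hv _ ha => ⟨_, sepF φ hv ha, fun _ => mem_sep⟩, replL, choiceL⟩,
    fun _ ⟨α, h1, h2, h3⟩ => ⟨α, ordL α h1 h2, h2, h3⟩⟩

end Pool.Agent.P.MP_9a7e1f_lc
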