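import Pool.Agent.P.MP_9a7e1f_lc.St1
import Pool.Agent.P.MP_3ab3de_lc.MinCtm

/-! Skolem hulls inside a model of `V = L`, their collapse, and transfer of bounded formulas. -/

set_option linter.unusedSectionVars false

namespace Pool.Agent.P.MP_9a7e1f_lc

open ZFSet Pool.Agent.P.MP_3ab3de_lc

namespace HullP

variable {M : Set ZF} [hM : TModel M]

/-- a definable partial function is given by a term -/
theorem tm_of_uniq (R : ZF → ZF → Prop) (h : Df M (fun v => R (v 0) (v 1)))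
    (hu : ∀ x y y', R x y → R x y' → y = y') :
    ∃ F : ZF → ZF, Tm M (fun v => F (v 0)) ∧ ∀ x, (∃ y ∈ M, R x y) → R x (F x) := by
  classical
  have := fun s t [Tm M s] [Tm M t] => h.two s t
  let F : ZF → ZF := fun x => if h : ∃ y ∈ M, R x y then h.choose else ∅
  have h1 : ∀ x, (∃ y ∈ M, R x y) → F x ∈ M ∧ R x (F x) := fun x hx => by
    simp only [F, dif_pos hx]
    exact hx.choose_spec
  have h2 : ∀ x, ¬ (∃ y ∈ M, R x y) → F x = ∅ := fun x hx => dif_neg hx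
  refine ⟨F, ⟨fun v _ => ?_, (inferInstance : Df M (fun v => R (v 1) (v 0) ∨
    (¬ (∃ y ∈ M, R (v 1) y) ∧ v 0 = ∅))).congr fun v hv => ?_⟩, fun x hx => (h1 x hx).2⟩
  · by_cases hx : ∃ y ∈ M, R (v 0) y
    exacts [(h1 _ hx).1, (h2 _ hx).symm ▸ empty_mem]
  · by_cases hx : ∃ y ∈ M, R (v 1) y
    · exact ⟨fun e => Or.inl (e ▸ (h1 _ hx).2), fun e => e.elim (fun e => hu _ _ _ e (h1 _ hx).2)
        fun e => absurd hx e.1⟩
    · exact ⟨fun e => Or.inr ⟨hx, e.trans (h2 _ hx)⟩, fun e => e.elim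
        (fun e => absurd ⟨_, hv 0, e⟩ hx) fun e => e.2.trans (h2 _ hx).symm⟩

/-- the least witness -/
def Least (M : Set ZF) (Q : ZF → ZF → Prop) (x y : ZF) : Prop :=
  ∃ α ∈ M, IsOrdinal α ∧ y ∈ LS α ∧ Q x y ∧ (∀ β ∈ α, ∀ y' ∈ LS β, ¬ Q x y') ∧
    ∀ y' ∈ LS α, Q x y' → pair y' y ∉ LW α

/-- definable Skolem functions -/
theorem exists_sk (hV : VL M) (Q : ZF → ZF → Prop) (h : Df M (fun v => Q (v 0) (v 1))) :
    ∃ F : ZF → ZF, Tm M (fun v => F (v 0)) ∧ ∀ x, (∃ y ∈ M, Q x y) → Q x (F x) := by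
  have := fun s t [Tm M s] [Tm M t] => h.two s t
  obtain ⟨F, h1, h2⟩ := tm_of_uniq (M := M) (Least M Q) (by unfold Least; infer_instance) (by
    rintro x y y' ⟨α, -, a1, a2, a3, a4, a5⟩ ⟨β, -, b1, b2, b3, b4, b5⟩
    rcases a1.mem_trichotomous b1 with h | rfl | h
    · exact absurd a3 (b4 α h y a2)
    · rcases LW_tri a1 a2 b2 with h | h | h
      exacts [h, absurd h (b5 y a2 a3), absurd h (a5 y' b2 b3)]
    · exact absurd b3 (a4 β h y' b2))
  refine ⟨F, h1, fun x ⟨y, hy, hQ⟩ => ?_⟩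
  obtain ⟨α, hα, h3, h4⟩ := hV y hy
  obtain ⟨α, ⟨hα, h3, h4⟩, h5⟩ := exists_min
    (P := fun α => α ∈ M ∧ IsOrdinal α ∧ ∃ y ∈ LS α, Q x y) ⟨α, hα, h3, y, h4, hQ⟩
  obtain ⟨u, h6, h7, h8⟩ := LW_min h3 (Q x) h4
  have := In.mk' hα
  obtain ⟨_, -, -, -, h9, -⟩ := h2 x ⟨u, tr (In.mem (LS α)) h6, α, hα, h3, h6, h7,
    fun β hβ y' hy' hq => h5 β hβ ⟨tr hα hβ, h3.mem hβ, y', hy', hq⟩, fun y' _ hq => h8 y' hq⟩
  exact h9

/-- one step of the closure -/
theorem step (hV : VL M) {R : ZF} (hR : Inf M R) (l : List (ZF → ZF → Prop))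
    (hl : ∀ Q ∈ l, Df M (fun v => Q (v 0) (v 1))) :
    ∃ G : ZF → ZF, Tm M (fun v => G (v 0)) ∧ (∀ Y ∈ M, Le M Y R → Le M (G Y) R) ∧ ∀ Y,
      ∅ ∈ G Y ∧ (∀ a ∈ Y, ∀ b ∈ Y, insert a b ∈ G Y) ∧
      ∀ Q ∈ l, ∀ x ∈ Y, (∃ y ∈ M, Q x y) → ∃ y ∈ G Y, Q x y := by
  induction l with
  | nil =>
    refine ⟨fun Y => insert ∅ (img (fun p => insert (fst p) (snd p)) (prod Y Y)), inferInstance,
      fun Y hY h => ?_, fun Y => ⟨mem_insert _ _, fun a ha b hb => mem_insert_of_mem _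
        (mem_img.2 ⟨pair a b, pair_mem_prod.2 ⟨ha, hb⟩, by simp⟩), fun _ h => absurd h (by simp)⟩⟩
    have := In.mk' hY
    exact hR.insert empty_mem (In.mem _) (hR.img _ inferInstance (In.mem _) (hR.prod h h))
  | cons Q l ih =>
    obtain ⟨G, h1, h2, h3⟩ := ih fun Q' h => hl Q' (List.mem_cons_of_mem _ h)
    obtain ⟨F, h4, h5⟩ := exists_sk hV Q (hl Q List.mem_cons_self)
    have := fun s [Tm M s] => h1.one s
    have := fun s [Tm M s] => h4.one s
    refine ⟨fun Y => G Y ∪ img F Y, inferInstance, fun Y hY h => ?_, fun Y =>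
      ⟨mem_union.2 (Or.inl (h3 Y).1), fun a ha b hb => mem_union.2 (Or.inl ((h3 Y).2.1 a ha b hb)),
        fun Q' hQ' x hx hy => ?_⟩⟩
    · have := In.mk' hY
      exact hR.union (In.mem _) (In.mem _) (h2 Y hY h) (hR.img F h4 hY h)
    · rcases List.mem_cons.1 hQ' with rfl | hQ'
      · exact ⟨F x, mem_union.2 (Or.inr (img_mem hx)), h5 x hy⟩
      · exact ((h3 Y).2.2 Q' hQ' x hx hy).imp fun y hy => ⟨mem_union.2 (Or.inl hy.1), hy.2⟩

/-- the closure -/
theorem close (hV : VL M) {R : ZF} (hR : Inf M R) {X : ZF} (hX : X ∈ M) (hX' : Le M X R)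
    (l : List (ZF → ZF → Prop)) (hl : ∀ Q ∈ l, Df M (fun v => Q (v 0) (v 1))) :
    ∃ H ∈ M, X ⊆ H ∧ Le M H R ∧ Ins H ∧ ∀ Q ∈ l, Wit M H Q := by
  obtain ⟨G, h1, h2, h3⟩ := step hV hR l hl
  have := fun s [Tm M s] => h1.one s
  have := In.mk' hX
  let T := rc fun _ g => X ∪ bun (fun p => snd p ∪ G (snd p)) g
  have hT : Tm M (fun v => T (v 0)) := tm_rc inferInstance
  have := fun s [Tm M s] => hT.one s
  have e : ∀ n, T n = X ∪ bun (fun m => T m ∪ G (T m)) n := fun n => by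
    rw [show T n = _ from rc_eq _ n]
    congr 1
    ext y
    simp only [mem_bun, mem_graph]
    constructor
    · rintro ⟨_, ⟨m, hm, rfl⟩, h⟩
      exact ⟨m, hm, by simpa using h⟩
    · rintro ⟨m, hm, h⟩
      exact ⟨_, ⟨m, hm, rfl⟩, by simpa using h⟩
  have up : ∀ m n : ℕ, m < n → ∀ y, y ∈ T (num m) ∪ G (T (num m)) → y ∈ T (num n) :=
    fun m n h y hy => by
      rw [e]
      exact mem_union.2 (Or.inr (mem_bun.2 ⟨_, num_mem_num.2 h, hy⟩))
  have le : ∀ n : ℕ, Le M (T (num n)) R := fun n => by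
    induction n using Nat.strong_induction_on with
    | _ n ih =>
      rw [e]
      refine hR.union hX (In.mem _) hX' (hR.bun _ inferInstance (In.mem _)
        ((fn_num n).le (In.mem _) hR) fun m hm => ?_)
      obtain ⟨k, hk, rfl⟩ := mem_num.1 hm
      exact hR.union (In.mem _) (In.mem _) (ih k hk) (h2 _ (In.mem _) (ih k hk))
  have mem : ∀ y, y ∈ bun T om ↔ ∃ n : ℕ, y ∈ T (num n) := fun y => by
    rw [mem_bun]
    constructor
    · rintro ⟨_, hn, h⟩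
      obtain ⟨n, rfl⟩ := mem_omega.1 hn
      exact ⟨n, h⟩
    · exact fun ⟨n, h⟩ => ⟨_, num_mem_omega n, h⟩
  have nx : ∀ n : ℕ, ∀ y ∈ G (T (num n)), y ∈ bun T om := fun n y hy =>
    (mem y).2 ⟨n + 1, up n _ (Nat.lt_succ_self n) y (mem_union.2 (Or.inr hy))⟩
  refine ⟨bun T om, In.mem _, fun y hy => (mem y).2 ⟨0, ?_⟩,
    hR.bun T hT hM.infinity hR.omLe fun n hn => ?_, ⟨nx 0 _ (h3 _).1, fun a ha b hb => ?_⟩,
    fun Q hQ x hx hy => ?_⟩
  · rw [e]
    exact mem_union.2 (Or.inl hy)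
  · obtain ⟨n, rfl⟩ := mem_omega.1 hn
    exact le n
  · obtain ⟨m, ha⟩ := (mem a).1 ha
    obtain ⟨n, hb⟩ := (mem b).1 hb
    exact nx (m + n + 1) _ ((h3 _).2.1 a (up m _ (by omega) a (mem_union.2 (Or.inl ha))) b
      (up n _ (by omega) b (mem_union.2 (Or.inl hb))))
  · obtain ⟨n, hx⟩ := (mem x).1 hx
    exact ((h3 _).2.2 Q hQ x hx hy).imp fun y hy => ⟨nx n y hy.1, hy.2⟩

/-- decoding of nested pairs -/
noncomputable def dcd (x : ZF) (n : ℕ) : ZF := fst (snd^[n] x)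

/-- the first values of an assignment as nested pairs -/
noncomputable def cd : ℕ → Env → ZF
  | 0, _ => ∅
  | k + 1, v => pair (v 0) (cd k fun n => v (n + 1))

omit hM in
theorem dcd_cd (k : ℕ) : ∀ (v : Env) (n : ℕ), n < k → dcd (cd k v) n = v n := by
  induction k with
  | zero => exact fun _ _ h => absurd h (Nat.not_lt_zero _)
  | succ k ih =>
    intro v n h
    cases n with
    | zero => simp [dcd, cd]
    | succ n =>
      have := ih (fun n => v (n + 1)) n (by omega)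
      simpa [dcd, cd] using this

omit hM in
theorem cd_mem {H : ZF} (h : Ins H) (k : ℕ) : ∀ v : Env, (∀ n, v n ∈ H) → cd k v ∈ H := by
  induction k with
  | zero => exact fun _ _ => h.1
  | succ k ih => exact fun v hv => h.pair (hv 0) (ih _ fun n => hv (n + 1))

theorem tm_iter (n : ℕ) : Tm M (fun v => snd^[n] (v 0)) := by
  induction n with
  | zero => exact Tm.var 0
  | succ n ih =>
    simp only [Function.iterate_succ_apply']
    infer_instance

theorem tm_dcd (n : ℕ) : Tm M (fun v => dcd (v 0) n) := by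
  have := tm_iter (M := M) n
  unfold dcd
  infer_instance

/-- the Tarski-Vaught test -/
theorem tv (φ : Fml) : ∃ l : List (ZF → ZF → Prop), (∀ Q ∈ l, Df M (fun v => Q (v 0) (v 1))) ∧
    ∀ H ∈ M, Ins H → (∀ Q ∈ l, Wit M H Q) → ∀ v : Env, (∀ n, v n ∈ H) →
      (Sat (H : Set ZF) φ v ↔ Sat M φ v) := by
  induction φ with
  | mem i j => exact ⟨[], by simp, fun _ _ _ _ _ _ => Iff.rfl⟩
  | eq i j => exact ⟨[], by simp, fun _ _ _ _ _ _ => Iff.rfl⟩
  | bot => exact ⟨[], by simp, fun _ _ _ _ _ _ => Iff.rfl⟩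
  | imp φ ψ h1 h2 =>
    obtain ⟨l, h1, h1'⟩ := h1
    obtain ⟨l', h2, h2'⟩ := h2
    exact ⟨l ++ l', fun Q hQ => (List.mem_append.1 hQ).elim (h1 Q) (h2 Q), fun H hH hI hW v hv =>
      imp_congr (h1' H hH hI (fun Q hQ => hW Q (List.mem_append_left _ hQ)) v hv)
        (h2' H hH hI (fun Q hQ => hW Q (List.mem_append_right _ hQ)) v hv)⟩
  | all ψ ih =>
    obtain ⟨l, h1, h2⟩ := ih
    obtain ⟨k, hk⟩ := MinP.fin_dep ψ
    refine ⟨(fun x y => ¬ Sat M ψ (cons y (dcd x))) :: l, fun Q hQ => ?_, fun H hH hI hW v hv => ?_⟩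
    · rcases List.mem_cons.1 hQ with rfl | hQ
      · refine @Df.not M _ ((df_subst (Df.sat ψ) (cns (fun v => v 1) fun i v => dcd (v 0) i)
          (tm_cns (Tm.var 1) tm_dcd)).congr fun v _ => ?_)
        have : cons (v 1) (dcd (v 0)) =
            fun i => cns (fun v : Env => v 1) (fun i v => dcd (v 0) i) i v := by
          funext i; cases i <;> rfl
        rw [this]
      · exact h1 Q hQ
    · have h3 : ∀ x ∈ H, (Sat (H : Set ZF) ψ (cons x v) ↔ Sat M ψ (cons x v)) := fun x hx =>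
        h2 H hH hI (fun Q hQ => hW Q (List.mem_cons_of_mem _ hQ)) _ fun n => by
          cases n
          exacts [hx, hv _]
      have h4 : ∀ y, Sat M ψ (cons y (dcd (cd k v))) ↔ Sat M ψ (cons y v) := fun y =>
        hk M _ _ fun n hn => by
          cases n with
          | zero => rfl
          | succ n => exact dcd_cd k v n (by omega)
      rw [sat_all, sat_all]
      refine ⟨fun h y hy => by_contra fun h5 => ?_, fun h x hx => (h3 x hx).2 (h x (tr hH hx))⟩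
      obtain ⟨y', h6, h7⟩ := hW _ List.mem_cons_self _ (cd_mem hI k v hv)
        ⟨y, hy, fun h8 => h5 ((h4 y).1 h8)⟩
      exact h7 ((h4 y').2 ((h3 y' h6).1 (h y' h6)))

theorem tvs (l0 : List Fml) : ∃ l : List (ZF → ZF → Prop),
    (∀ Q ∈ l, Df M (fun v => Q (v 0) (v 1))) ∧
    ∀ H ∈ M, Ins H → (∀ Q ∈ l, Wit M H Q) → ∀ φ ∈ l0, ∀ v : Env, (∀ n, v n ∈ H) →
      (Sat (H : Set ZF) φ v ↔ Sat M φ v) := by
  induction l0 with
  | nil => exact ⟨[], by simp, fun _ _ _ _ _ h => absurd h (by simp)⟩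
  | cons φ l0 ih =>
    obtain ⟨l, h1, h1'⟩ := tv (M := M) φ
    obtain ⟨l', h2, h2'⟩ := ih
    refine ⟨l ++ l', fun Q hQ => (List.mem_append.1 hQ).elim (h1 Q) (h2 Q),
      fun H hH hI hW ψ hψ => ?_⟩
    rcases List.mem_cons.1 hψ with rfl | hψ
    exacts [h1' H hH hI fun Q hQ => hW Q (List.mem_append_left _ hQ),
      h2' H hH hI (fun Q hQ => hW Q (List.mem_append_right _ hQ)) ψ hψ]

/-- the witness relation of extensionality -/
def QE (x y : ZF) : Prop := (y ∈ fst x ↔ y ∉ snd x)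

theorem col_inj {H : ZF} (hH : H ∈ M) (hI : Ins H) (hW : Wit M H QE) (x : ZF) :
    x ∈ H → ∀ y ∈ H, col H x = col H y → x = y := by
  induction x using ZFSet.inductionOn with
  | h x ih =>
    intro hx y hy e
    by_contra hne
    have h1 : ∃ z ∈ M, QE (pair x y) z := by
      by_contra h
      refine hne (ZFSet.ext fun z => ⟨fun hz => by_contra fun hz' => h ⟨z, tr (tr hH hx) hz, ?_⟩,
        fun hz => by_contra fun hz' => h ⟨z, tr (tr hH hy) hz, ?_⟩⟩) <;> simp [QE, hz, hz']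
    obtain ⟨z, hz, h2⟩ := hW _ (hI.pair hx hy) h1
    simp only [QE, fst_pair, snd_pair] at h2
    by_cases h : z ∈ x
    · obtain ⟨y', h3, h4, h5⟩ := mem_col.1 (e ▸ mem_col.2 ⟨z, h, hz, rfl⟩ : col H z ∈ col H y)
      exact h2.1 h (ih z h hz y' h4 h5.symm ▸ h3)
    · have h' : z ∈ y := by_contra fun h' => h (h2.2 h')
      obtain ⟨x', h3, h4, h5⟩ := mem_col.1 (e ▸ mem_col.2 ⟨z, h', hz, rfl⟩ : col H z ∈ col H x)
      exact h (ih x' h3 h4 z hz h5 ▸ h3)

omit hM in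
theorem sat_col {H : ZF} (hi : ∀ x ∈ H, ∀ y ∈ H, col H x = col H y → x = y) (φ : Fml) :
    ∀ v : Env, (∀ n, v n ∈ H) →
      (Sat (col H '' (H : Set ZF)) φ (fun n => col H (v n)) ↔ Sat (H : Set ZF) φ v) := by
  induction φ with
  | mem i j =>
    refine fun v hv => ⟨fun h => ?_, fun h => mem_col.2 ⟨_, h, hv i, rfl⟩⟩
    obtain ⟨y, h1, h2, h3⟩ := mem_col.1 h
    exact sat_mem.2 (hi y h2 _ (hv i) h3 ▸ h1)
  | eq i j => exact fun v hv => ⟨fun h => hi _ (hv i) _ (hv j) h, fun h => congrArg (col H) h⟩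
  | bot => exact fun _ _ => Iff.rfl
  | imp a b h1 h2 => exact fun v hv => imp_congr (h1 v hv) (h2 v hv)
  | all a ih =>
    intro v hv
    rw [sat_all, sat_all, Set.forall_mem_image]
    refine forall_congr' fun x => imp_congr_right fun hx => Iff.trans ?_ (ih _ fun n => ?_)
    · have : cons (col H x) (fun n => col H (v n)) = fun n => col H (cons x v n) := by
        funext n; cases n <;> rfl
      rw [this]
    · cases n
      exacts [hx, hv _]

omit hM in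
theorem trn_col (H : ZF) : Trn (col H '' (H : Set ZF)) := by
  rintro _ ⟨x, -, rfl⟩ y hy
  obtain ⟨z, -, h, rfl⟩ := mem_col.1 hy
  exact ⟨z, h, rfl⟩

omit hM in
theorem fmls (l0 : List (Env → Prop)) (h : ∀ P ∈ l0, D0 P) : ∃ l : List Fml, ∀ P ∈ l0, ∃ φ ∈ l,
    ∀ w : Set ZF, Trn w → ∀ v, EIn w v → (P v ↔ Sat w φ v) := by
  induction l0 with
  | nil => exact ⟨[], by simp⟩
  | cons P l0 ih =>
    obtain ⟨l, hl⟩ := ih fun P' hP' => h P' (List.mem_cons_of_mem _ hP')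
    obtain ⟨φ, hφ⟩ := h P List.mem_cons_self
    refine ⟨φ :: l, fun P' hP' => ?_⟩
    rcases List.mem_cons.1 hP' with rfl | hP'
    · exact ⟨φ, List.mem_cons_self, hφ⟩
    · exact (hl P' hP').imp fun ψ hψ => ⟨List.mem_cons_of_mem _ hψ.1, hψ.2⟩

end HullP

open HullP in
theorem hull : S_Hull := by
  intro M hM hV R hR X hX hX' l hl l0 hl0
  obtain ⟨lf, hf⟩ := fmls l0 hl0
  obtain ⟨l', h1, h2⟩ := tvs (M := M) lf
  obtain ⟨H, hH, h3, h4, h5, h6⟩ := close hV hR hX hX' (QE :: (l ++ l')) fun Q hQ => by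
    rcases List.mem_cons.1 hQ with rfl | hQ
    · unfold QE; infer_instance
    · exact (List.mem_append.1 hQ).elim (hl Q) (h1 Q)
  have hi := col_inj hH h5 (h6 _ List.mem_cons_self)
  refine ⟨H, hH, h3, h4, h5, fun Q hQ => h6 Q (List.mem_cons_of_mem _ (List.mem_append_left _ hQ)),
    hi, fun P hP v hv => ?_⟩
  obtain ⟨φ, hφ, e⟩ := hf P hP
  rw [e M (trn_model M) v fun n => tr hH (hv n), e _ (trn_col H) _ fun n => ⟨_, hv n, rfl⟩,
    sat_col hi φ v hv]
  exact (h2 H hH h5 (fun Q hQ => h6 Q (List.mem_cons_of_mem _ (List.mem_append_right _ hQ))) φ hφ v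
    hv).symm

end Pool.Agent.P.MP_9a7e1f_lc
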