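import Pool.Agent.P.MP_9a7e1f_lc.St1

/-! Condensation: the level at a successor cardinal, countable subsets and countable hulls. -/

set_option linter.unusedSectionVars false

namespace Pool.Agent.P.MP_9a7e1f_lc

open ZFSet Pool.Agent.P.MP_3ab3de_lc

namespace Hull2P

variable {M : Set ZF} [hM : TModel M]

theorem le_LS {R k : ZF} (hR : Inf M R) (hk : Hart M R k) (δ : ZF) : δ ∈ k → Le M (LS δ) R := by
  induction δ using ZFSet.inductionOn with
  | h δ ih =>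
    intro hδ
    have := In.mk' (tr hk.mem hδ)
    refine (hR.insert empty_mem (In.mem _) (hR.bun (fun β => img (fun p => uu (LS β) (fst p) (snd p))
      (prod (LS β) (LS β))) inferInstance (In.mem δ) (hk.le δ hδ) fun β hβ => ?_)).mono
      fun u hu => ?_
    · have := In.mk' (tr (In.mem (M := M) δ) hβ)
      have h := ih β hβ (hk.ord.mem_trans hβ hδ)
      exact hR.img _ inferInstance (In.mem _) (hR.prod h h)
    · rcases mem_LS.1 hu with rfl | ⟨β, hβ, c, hc, d, hd, rfl⟩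
      · exact mem_insert _ _
      · exact mem_insert_of_mem _ (mem_bun.2 ⟨β, hβ,
          mem_img.2 ⟨pair c d, pair_mem_prod.2 ⟨hc, hd⟩, by simp⟩⟩)

theorem lim {R k : ZF} (hR : Inf M R) (hk : Hart M R k) {γ : ZF} (hγ : γ ∈ k) :
    ∃ δ ∈ k, γ ∈ δ ∧ Lim δ := by
  obtain ⟨f, hf, h0, h1⟩ := dc (M := M) (fun _ x y => y = insert x x) inferInstance hk.mem hγ
    fun _ x hx => ⟨_, hk.succ hR hx, rfl⟩
  have := In.mk' hf
  have ho : IsOrdinal (bun (app f) om) := isOrdinal_sUnion fun x hx => by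
    obtain ⟨n, hn, rfl⟩ := mem_img.1 hx
    obtain ⟨n, rfl⟩ := mem_omega.1 hn
    exact hk.ord.mem (h1 n).1
  have h2 : γ ∈ bun (app f) om :=
    mem_bun.2 ⟨_, num_mem_omega (0 + 1), by rw [(h1 0).2, h0]; exact mem_insert _ _⟩
  refine ⟨_, hk.mem_of_le ho (hR.bun _ inferInstance hM.infinity hR.omLe fun n hn => ?_), h2, ho,
    ?_, fun β hβ => ?_⟩
  · obtain ⟨n, rfl⟩ := mem_omega.1 hn
    exact hk.le _ (h1 n).1
  · refine (isOrdinal_empty.mem_or_subset ho).resolve_right fun h => notMem_empty γ (h h2)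
  · obtain ⟨n, hn, h3⟩ := mem_bun.1 hβ
    obtain ⟨n, rfl⟩ := mem_omega.1 hn
    have h4 := hk.ord.mem (h1 n).1
    refine mem_bun.2 ⟨_, num_mem_omega (n + 1), ?_⟩
    rw [(h1 n).2, mem_succ_iff (isOrdinal_succ (h4.mem h3)) h4]
    intro z hz
    rcases mem_insert_iff.1 hz with rfl | hz
    exacts [h3, h4.mem_trans hz h3]

/-- a set lies in a level listed by an initial part of the hierarchy -/
def PH (v : Env) : Prop := Hier (v 0) ∧ pair (v 1) (pair (v 2) (v 3)) ∈ v 0 ∧ v 4 ∈ v 2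

theorem d0_PH : D0 PH := by
  change D0 (fun v => Hier (v 0) ∧ pair (v 1) (pair (v 2) (v 3)) ∈ v 0 ∧ v 4 ∈ v 2)
  infer_instance

/-- the parameters that describe the place of `c` in the hierarchy -/
noncomputable def par (β c : ZF) : ZF := {graph LL (insert β β), β, LS β, LW β, c}

theorem fn_par (β c : ZF) : Fn (par β c) :=
  ((((fn_singleton _).insert _).insert _).insert _).insert _

instance tm_par {a b : Env → ZF} [Tm M a] [Tm M b] : Tm M (fun v => par (a v) (b v)) := by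
  unfold par; infer_instance

theorem cond {H β c : ZF} (hβ : IsOrdinal β) (hc : c ∈ LS β) (h : par β c ⊆ H)
    (e : ∀ v : Env, (∀ n, v n ∈ H) → (PH v ↔ PH (fun n => col H (v n)))) :
    IsOrdinal (col H β) ∧ col H c ∈ LS (col H β) ∧ col H (LS β) = LS (col H β) := by
  obtain ⟨h1, h2, h3⟩ := (e (cons (graph LL (insert β β)) (cons β (cons (LS β) (cons (LW β)
    fun _ => c)))) fun n => h (by
      rcases n with _ | _ | _ | _ | n <;> simp [par])).1
    ⟨hier_graph (isOrdinal_succ hβ), lev_graph.2 ⟨mem_insert _ _, rfl, rfl⟩, hc⟩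
  have h4 : col H (LS β) = LS (col H β) := (h1.sound _ _ _ h2).1
  exact ⟨(h1 _ _ _ h2).1, h4 ▸ h3, h4⟩

theorem le_col {H R x : ZF} (hR : Inf M R) (hH : H ∈ M) (h : Le M H R) : Le M (col H x) R := by
  have := In.mk' hH
  refine (hR.img (col H) inferInstance hH h).mono fun z hz => ?_
  obtain ⟨y, -, h1, rfl⟩ := mem_col.1 hz
  exact img_mem h1

theorem small (h : S_Hull) (hV : VL M) {R k : ZF} (hR : Inf M R) (hk : Hart M R k) {c : ZF}
    (hc : c ∈ M) (h1 : c ⊆ LS k) (h2 : Le M c R) : c ∈ LS k := by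
  obtain ⟨η, hη, h3⟩ := hk.bdd_wit hR (fun x ξ => x ∈ LS ξ) inferInstance hc h2
    fun x hx => (hart_lim hk hR).mem_LS.1 (h1 hx)
  have h4 : c ⊆ LS η := fun x hx => by
    obtain ⟨ξ, hξ, h5⟩ := h3 x hx
    exact LS_mono ((hk.ord.mem hη).subset_of_mem hξ) h5
  obtain ⟨β, hβ, ho, h5⟩ := hV c hc
  have := In.mk' hc
  have := In.mk' hβ
  have := In.mk' (tr hk.mem hη)
  obtain ⟨H, hH, h6, h7, -, -, -, h8⟩ := h M hV R hR (LS η ∪ par β c) (In.mem _)
    (hR.union (In.mem _) (In.mem _) (le_LS hR hk η hη) ((fn_par β c).le (In.mem _) hR))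
    [] (by simp) [PH] (by simpa using d0_PH)
  obtain ⟨h9, h10, -⟩ := cond ho h5 (fun x hx => h6 (mem_union.2 (Or.inr hx))) (h8 PH (by simp))
  rw [col_fix (LS_trans (hk.ord.mem hη)) (fun x hx => h6 (mem_union.2 (Or.inl hx))) c h4] at h10
  exact LS_mono (hk.ord.subset_of_mem (hk.mem_of_le h9 (le_col hR hH h7))) h10

theorem not_cov {κ S : ZF} (hκ : Hart M om κ) (hS : S ∈ M) : ¬ Cov κ S := by
  rintro ⟨g, hg, h1, h2⟩
  refine hκ.not_le ⟨g, tr hS hg, fun ξ hξ => ?_⟩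
  obtain ⟨n, h3, h4⟩ := h2 ξ hξ
  exact ⟨n, isNat_iff.1 h4, app_eq h3 fun z hz => h1 n z ξ hz h3⟩

end Hull2P

open Hull2P

theorem lk (h : S_Hull) : S_LK := by
  intro M hM hV R k hR hk
  refine ⟨fun δ => ?_, le_LS hR hk, fun c hc => small h hV hR hk hc, fun γ hγ => lim hR hk hγ⟩
  induction δ using ZFSet.inductionOn with
  | h δ ih =>
    intro hδ
    exact small h hV hR hk (tr hk.mem hδ) (fun y hy => ih y hy (hk.ord.mem_trans hy hδ))
      (hk.le δ hδ)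

theorem cnt (h : S_LK) : S_Cnt := by
  intro M hM hV R k hR hk X hX ⟨f, hf, h1⟩
  have hL := h M hV R k hR hk
  have := In.mk' hk.mem
  have := In.mk' hf
  have h2 : Le M (LS k) k := hk.layers hR (In.mem _) LS inferInstance
    (fun y hy => (hart_lim hk hR).mem_LS.1 hy) hL.le
  have h3 : cs M k ⊆ LS k := fun c hc => by
    obtain ⟨⟨h4, h5⟩, h6⟩ := mem_cs.1 hc
    exact hL.small c h5 (fun x hx => hL.ord (h4 hx)) (h6.trans hR.omLe hR.mem)
  refine Le.trans (b := cs M k) (Le.of_fun (fun c => img (app f) c) inferInstance (In.mem _)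
    fun c hc => ?_) (h2.mono h3) hk.mem
  obtain ⟨⟨h4, h5⟩, h6⟩ := mem_cs.1 hc
  obtain ⟨g, hg, h7⟩ := skolem (M := M) (fun y x => x ∈ k ∧ app f x = y) inferInstance h5
    fun y hy => by
      obtain ⟨x, hx, e⟩ := h1 y (h4 hy)
      exact ⟨x, tr hk.mem hx, hx, e⟩
  have := In.mk' hg
  have := In.mk' h5
  refine ⟨img (app g) c, mem_cs.2 ⟨⟨fun x hx => ?_, In.mem _⟩,
    inf_omega.img _ inferInstance h5 h6⟩, ?_⟩
  · obtain ⟨y, hy, rfl⟩ := mem_img.1 hx
    exact (h7 y hy).1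
  · ext y
    simp only [mem_img]
    constructor
    · rintro ⟨_, ⟨z, hz, rfl⟩, rfl⟩
      rwa [(h7 z hz).2]
    · exact fun hy => ⟨_, ⟨y, hy, rfl⟩, (h7 y hy).2⟩

theorem h1 (h : S_Hull) (h' : S_LK) : S_H1 := by
  intro M hM hV κ hκ X hX l hl
  have hL := h' M hV om κ inf_omega hκ
  obtain ⟨β, hβ, ho, h1⟩ := hV X hX
  have := In.mk' hX
  have := In.mk' hβ
  have := In.mk' hκ.mem
  obtain ⟨H, hH, h2, h3, h4, h5, h6, h7⟩ := h M hV om inf_omega (insert κ (par β X)) (In.mem _)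
    (((fn_par β X).insert κ).le (In.mem _) inf_omega)
    ((fun x y => y = fst x) :: (fun x y => y = snd x) ::
      (fun x f => ∀ y ∈ x, ∃ n ∈ om, app f n = y) :: (fun x y => y = app (fst x) (snd x)) :: l)
    (by
      simp only [List.forall_mem_cons]
      exact ⟨inferInstance, inferInstance, inferInstance, inferInstance, hl⟩)
    [PH, fun v => ¬ Cov (v 0) (v 1)]
    (by
      simp only [List.forall_mem_cons]
      exact ⟨d0_PH, inferInstance, by simp⟩)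
  simp only [List.forall_mem_cons] at h5 h7
  obtain ⟨w1, w2, w3, w4, w5⟩ := h5
  obtain ⟨e1, e2, -⟩ := h7
  have hp : par β X ⊆ H := fun x hx => h2 (mem_insert_of_mem _ hx)
  have hcnt : ∀ x ∈ H, Le M x om → x ⊆ H := fun x hx hc y hy => by
    obtain ⟨f, hf, h8⟩ := w3 x hx hc
    obtain ⟨n, hn, rfl⟩ := h8 y hy
    have h9 := h4.pair hf (h4.om hn)
    have := In.mk' (tr hH h9)
    obtain ⟨z, hz, e⟩ := w4 _ h9 ⟨_, In.mem _, rfl⟩
    rw [fst_pair, snd_pair] at e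
    exact e ▸ hz
  have hc2 : ∀ x ∈ H, x ∈ LS κ → x ⊆ H := fun x hx hx' => by
    obtain ⟨δ, hδ, h8⟩ := (hart_lim hκ inf_omega).mem_LS.1 hx'
    exact hcnt x hx ((hL.le δ hδ).mono (LS_trans (hκ.ord.mem hδ) x h8))
  have hY : ∀ x ∈ H ∩ LS κ, x ⊆ H ∩ LS κ := fun x hx y hy =>
    mem_inter.2 ⟨hc2 x (mem_inter.1 hx).1 (mem_inter.1 hx).2 hy,
      LS_trans hκ.ord x (mem_inter.1 hx).2 hy⟩
  have hfix : ∀ x ∈ H, x ∈ LS κ → col H x = x := fun x hx hx' =>
    col_fix hY (fun y hy => (mem_inter.1 hy).1) x (hY x (mem_inter.2 ⟨hx, hx'⟩))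
  have hκ' : col H κ = H ∩ κ := by
    ext z
    rw [mem_col, mem_inter]
    constructor
    · rintro ⟨y, h8, h9, rfl⟩
      rw [hfix y h9 (hL.ord h8)]
      exact ⟨h9, h8⟩
    · exact fun hz => ⟨z, hz.2, hz.1, hfix z hz.1 (hL.ord hz.2)⟩
  obtain ⟨h8, h9, h10⟩ := cond ho h1 hp e1
  refine ⟨H, ⟨hH, h3, hp (by simp [par]), h4, h6, fun a b hab => ?_, hcnt, hfix, ?_,
    col H β, h8, h9, ?_⟩, w5⟩
  · have := In.mk' (tr hH hab)
    obtain ⟨x, hx, e⟩ := w1 _ hab ⟨_, In.mem _, rfl⟩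
    obtain ⟨y, hy, e'⟩ := w2 _ hab ⟨_, In.mem _, rfl⟩
    rw [fst_pair] at e
    rw [snd_pair] at e'
    exact ⟨e ▸ hx, e' ▸ hy⟩
  · refine hκ.mem_of_le (ord_of_trans_subset hκ.ord (fun x hx => (mem_inter.1 hx).2)
      fun x hx y hy => ?_) (h3.mono fun x hx => (mem_inter.1 hx).1)
    obtain ⟨h11, h12⟩ := mem_inter.1 hx
    exact mem_inter.2 ⟨hc2 x h11 (hL.ord h12) hy, hκ.ord.mem_trans hy h12⟩
  · rw [← hκ', ← h10]
    refine (e2 (cons κ fun _ => LS β) fun n => ?_).1 (not_cov hκ (In.mem (LS β)))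
    rcases n with _ | n
    exacts [h2 (mem_insert _ _), hp (by simp [par])]

end Pool.Agent.P.MP_9a7e1f_lc

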