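import Pool.Agent.P.MP_3ab3de_lc.Defs

/-! The projective hierarchy, projective ordinals and the alephs, read inside a transitive
model `N` of ZFC. -/

namespace Pool.Agent.P.MP_9a7e1f_lc

open ZFSet Pool.Agent.P.MP_3ab3de_lc

/-- The von Neumann numeral of a natural number. -/
noncomputable def nm (k : ℕ) : ZFSet.{0} := Ordinal.toZFSet k

variable (N : Set ZFSet.{0})

/-- `x` is a real of `N`: a function `ω → ω` lying in `N`. -/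
def Real (x : ZFSet.{0}) : Prop := x ∈ N ∧ IsFunc ZFSet.omega ZFSet.omega x

/-- `e` is a point of `(ω^ω)^k` in `N`, written as a function `k × ω → ω`. -/
def Pt (k : ℕ) (e : ZFSet.{0}) : Prop :=
  e ∈ N ∧ IsFunc (prod (nm k) ZFSet.omega) ZFSet.omega e

/-- The point `(e, y)` of `(ω^ω)^(k+1)`, for `e` in `(ω^ω)^k` and a real `y`:
`e ∪ {((k, n), j) | (n, j) ∈ y}`. -/
noncomputable def app1 (k : ℕ) (e y : ZFSet.{0}) : ZFSet.{0} :=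
  e ∪ ZFSet.sep (fun p => ∃ n j, pair n j ∈ y ∧ p = pair (pair (nm k) n) j)
    (prod (prod {nm k} ZFSet.omega) ZFSet.omega)

/-- The point `(x, y)` of the plane `(ω^ω)^2`. -/
noncomputable def pt2 (x y : ZFSet.{0}) : ZFSet.{0} := app1 1 (app1 0 ∅ x) y

/-- `U` is an open subset of `(ω^ω)^k` in the product topology. -/
def IsOpn (k : ℕ) (U : ZFSet.{0}) : Prop :=
  ∀ e ∈ U, Pt N k e ∧ ∃ s : ZFSet.{0}, s ⊆ e ∧ (s : Set ZFSet.{0}).Finite ∧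
    ∀ e', Pt N k e' → s ⊆ e' → e' ∈ U

/-- `Sigma N n k A`: the set `A ∈ N` is a boldface `Σ¹ₙ` subset of `(ω^ω)^k`.  Level `0` is the
open sets; a set of level `n + 1` is the projection of the complement of a set of level `n`. -/
def Sigma (n : ℕ) : ℕ → ZFSet.{0} → Prop :=
  Nat.rec (motive := fun _ => ℕ → ZFSet.{0} → Prop)
    (fun k A => A ∈ N ∧ IsOpn N k A)
    (fun _ S k A => A ∈ N ∧ ∃ C, S (k + 1) C ∧
      ∀ e, e ∈ A ↔ Pt N k e ∧ ∃ y, Real N y ∧ app1 k e y ∉ C) n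

/-- `A` is boldface `Δ¹ₙ`: both `A` and its complement in `(ω^ω)^k` are `Σ¹ₙ`. -/
def Delta (n k : ℕ) (A : ZFSet.{0}) : Prop :=
  Sigma N n k A ∧ ∃ A', Sigma N n k A' ∧ ∀ e, e ∈ A' ↔ Pt N k e ∧ e ∉ A

/-- `R ⊆ (ω^ω)^2` is a prewellordering of the reals of length `α`: some function `ρ ∈ N` maps the
reals onto the ordinal `α`, and `(x, y) ∈ R` iff `ρ x ≤ ρ y`. -/
def PwoLen (R α : ZFSet.{0}) : Prop :=
  IsOrdinal α ∧ ∃ B ∈ N, (∀ x, x ∈ B ↔ Real N x) ∧ ∃ ρ ∈ N, IsFunc B α ρ ∧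
    (∀ ξ ∈ α, ∃ x, pair x ξ ∈ ρ) ∧
    ∀ x y ξ η, pair x ξ ∈ ρ → pair y η ∈ ρ → (pt2 x y ∈ R ↔ ξ ⊆ η)

/-- `d` is the projective ordinal `δ¹ₘ` of `N`: the supremum of the lengths of the `Δ¹ₘ`
prewellorderings of the reals. -/
def ProjOrd (m : ℕ) (d : ZFSet.{0}) : Prop :=
  IsOrdinal d ∧ (∀ R α, Delta N m 2 R → PwoLen N R α → α ⊆ d) ∧
    ∀ b, IsOrdinal b → (∀ R α, Delta N m 2 R → PwoLen N R α → α ⊆ b) → d ⊆ b

/-- `κ` is the cardinal `ω_n` of `N`: `ω_0 = ω`, and `ω_(n+1)` is the least ordinal that has no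
injection in `N` into `ω_n`. -/
def Aleph (n : ℕ) : ZFSet.{0} → Prop :=
  Nat.rec (motive := fun _ => ZFSet.{0} → Prop) (fun κ => κ = ZFSet.omega)
    (fun _ A κ => ∃ μ, A μ ∧ κ ∈ N ∧ IsOrdinal κ ∧ ¬ CardLE N κ μ ∧ ∀ ξ ∈ κ, CardLE N ξ μ) n

end Pool.Agent.P.MP_9a7e1f_lc
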