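import Pool.Agent.P.MP_3ab3de_lc.Iface
import Pool.Agent.P.MP_9a7e1f_lc.Defs

/-! Absolute (bounded) predicates: one formula defines them in every transitive class. -/

set_option linter.unusedSectionVars false

namespace Pool.Agent.P.MP_9a7e1f_lc

open ZFSet Pool.Agent.P.MP_3ab3de_lc

/-- transitive class -/
def Trn (w : Set ZF) : Prop := ∀ x ∈ w, ∀ y ∈ x, y ∈ w

theorem trn_model (M : Set ZF) [hM : TModel M] : Trn M := hM.trans

theorem trn_coe {a : ZF} (h : IsTransitive a) : Trn (a : Set ZF) := fun x hx _ hy => h x hx hy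

theorem Trn.fst {w : Set ZF} (hw : Trn w) {a b : ZF} (h : pair a b ∈ w) : a ∈ w :=
  hw _ (hw _ h {a} (by simp [pair])) _ (by simp)

theorem Trn.snd {w : Set ZF} (hw : Trn w) {a b : ZF} (h : pair a b ∈ w) : b ∈ w :=
  hw _ (hw _ h {a, b} (by simp [pair])) _ (by simp)

/-- absolute predicates -/
class D0 (P : Env → Prop) : Prop where
  out : ∃ φ : Fml, ∀ w : Set ZF, Trn w → ∀ v, EIn w v → (P v ↔ Sat w φ v)

/-- terms whose graph is absolute -/
class T0 (t : Env → ZF) : Prop where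
  out : D0 (fun v => v 0 = t (fun n => v (n + 1)))

class Occ0 (t : Env → ZF → ZF) : Prop where
  out : ∀ w, Trn w → ∀ v x, t v x ∈ w → x ∈ w

class Void0 (P : Env → ZF → Prop) : Prop where
  out : ∀ w, Trn w → ∀ v, EIn w v → ∀ x, P v x → x ∈ w

class Triv0 (P : Env → ZF → Prop) : Prop where
  out : ∀ w, Trn w → ∀ v, EIn w v → ∀ x, x ∉ w → P v x

namespace D0

theorem congr {P Q : Env → Prop} (h : D0 P) (H : ∀ v, Q v ↔ P v) : D0 Q := by
  obtain ⟨φ, h⟩ := h
  exact ⟨φ, fun w hw v hv => (H v).trans (h w hw v hv)⟩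

theorem ren {P : Env → Prop} (h : D0 P) (σ : ℕ → ℕ) : D0 (fun v => P (fun n => v (σ n))) := by
  obtain ⟨φ, h⟩ := h
  exact ⟨φ.ren σ, fun w hw v hv => (h w hw _ (hv.ren σ)).trans (sat_ren _ _ _).symm⟩

theorem df {P : Env → Prop} (h : D0 P) {w : Set ZF} (hw : Trn w) : Df w P := by
  obtain ⟨φ, h⟩ := h
  exact (Df.sat φ).congr fun v hv => h w hw v hv

theorem bot : D0 (fun _ => False) := ⟨.bot, fun _ _ _ _ => Iff.rfl⟩

instance mem0 (i j : ℕ) : D0 (fun v => v i ∈ v j) := ⟨.mem i j, fun _ _ _ _ => Iff.rfl⟩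

instance eq0 (i j : ℕ) : D0 (fun v => v i = v j) := ⟨.eq i j, fun _ _ _ _ => Iff.rfl⟩

instance imp {P Q : Env → Prop} [h1 : D0 P] [h2 : D0 Q] : D0 (fun v => P v → Q v) := by
  obtain ⟨φ, h1⟩ := h1
  obtain ⟨ψ, h2⟩ := h2
  exact ⟨.imp φ ψ, fun w hw v hv => imp_congr (h1 w hw v hv) (h2 w hw v hv)⟩

instance all {P : Env → ZF → Prop} [t : Triv0 P]
    [h : D0 (fun v => P (fun n => v (n + 1)) (v 0))] : D0 (fun v => ∀ x, P v x) := by
  obtain ⟨φ, h⟩ := h
  refine ⟨.all φ, fun w hw v hv => ⟨fun H x hx => (h w hw (cons x v) (hv.cons hx)).1 (H x),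
    fun H x => ?_⟩⟩
  by_cases hx : x ∈ w
  exacts [(h w hw (cons x v) (hv.cons hx)).2 (H x hx), t.out w hw v hv x hx]

instance not {P : Env → Prop} [D0 P] : D0 (fun v => ¬ P v) := @imp _ _ _ bot

instance and {P Q : Env → Prop} [D0 P] [D0 Q] : D0 (fun v => P v ∧ Q v) :=
  (inferInstance : D0 (fun v => ¬ (P v → ¬ Q v))).congr (fun _ => by tauto)

instance or {P Q : Env → Prop} [D0 P] [D0 Q] : D0 (fun v => P v ∨ Q v) :=
  (inferInstance : D0 (fun v => ¬ P v → Q v)).congr (fun _ => by tauto)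

instance iff {P Q : Env → Prop} [D0 P] [D0 Q] : D0 (fun v => P v ↔ Q v) :=
  (inferInstance : D0 (fun v => (P v → Q v) ∧ (Q v → P v))).congr (fun _ => iff_def)

instance ex {P : Env → ZF → Prop} [t : Void0 P]
    [h : D0 (fun v => P (fun n => v (n + 1)) (v 0))] : D0 (fun v => ∃ x, P v x) := by
  have : Triv0 (fun v x => ¬ P v x) := ⟨fun w hw v hv x H H' => H (t.out w hw v hv x H')⟩
  exact (@not _ (@all (fun v x => ¬ P v x) this (@not _ h))).congr (fun _ => by simp)

instance (priority := low) const (p : Prop) : D0 (fun _ => p) := by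
  by_cases h : p
  · exact (@not _ bot).congr (fun _ => by simp [h])
  · exact bot.congr (fun _ => by simp [h])

instance (priority := low) ren' {P : Env → Prop} [h : D0 P] (ρ : ℕ → ℕ) :
    D0 (fun v => P (fun n => v (ρ n))) := h.ren ρ

end D0

instance T0.var (i : ℕ) : T0 (fun v => v i) := ⟨D0.eq0 0 (i + 1)⟩

instance (priority := low) T0.ren {t : Env → ZF} [h : T0 t] (ρ : ℕ → ℕ) :
    T0 (fun v => t (fun n => v (ρ n))) := ⟨h.out.ren (cns 0 (fun n => ρ n + 1))⟩

instance Occ0.id : Occ0 (fun _ x => x) := ⟨fun _ _ _ _ h => h⟩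

instance Occ0.pair1 {a b : Env → ZF → ZF} [h : Occ0 a] : Occ0 (fun v x => pair (a v x) (b v x)) :=
  ⟨fun w hw v x H => h.out w hw v x (hw.fst H)⟩

instance Occ0.pair2 {a b : Env → ZF → ZF} [h : Occ0 b] : Occ0 (fun v x => pair (a v x) (b v x)) :=
  ⟨fun w hw v x H => h.out w hw v x (hw.snd H)⟩

section

variable {P Q : Env → ZF → Prop} {R : Env → ZF → ZF → Prop} {t : Env → ZF → ZF}

instance Void0.mem {j : ℕ} [h : Occ0 t] : Void0 (fun v x => t v x ∈ v j) :=
  ⟨fun w hw v hv x H => h.out w hw v x (hw _ (hv j) _ H)⟩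

instance Void0.eq1 {j : ℕ} [h : Occ0 t] : Void0 (fun v x => t v x = v j) :=
  ⟨fun w hw v hv x H => h.out w hw v x (H ▸ hv j)⟩

instance Void0.eq2 {j : ℕ} [h : Occ0 t] : Void0 (fun v x => v j = t v x) :=
  ⟨fun w hw v hv x H => h.out w hw v x (H ▸ hv j)⟩

instance Void0.and2 [h : Void0 Q] : Void0 (fun v x => P v x ∧ Q v x) :=
  ⟨fun w hw v hv x H => h.out w hw v hv x H.2⟩

instance Void0.and1 [h : Void0 P] : Void0 (fun v x => P v x ∧ Q v x) :=
  ⟨fun w hw v hv x H => h.out w hw v hv x H.1⟩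

instance Void0.or [h : Void0 P] [h' : Void0 Q] : Void0 (fun v x => P v x ∨ Q v x) :=
  ⟨fun w hw v hv x H => H.elim (h.out w hw v hv x) (h'.out w hw v hv x)⟩

instance Void0.ex [h : ∀ y, Void0 (fun v x => R v x y)] : Void0 (fun v x => ∃ y, R v x y) :=
  ⟨fun w hw v hv x ⟨y, H⟩ => (h y).out w hw v hv x H⟩

instance Triv0.imp2 [h : Triv0 Q] : Triv0 (fun v x => P v x → Q v x) :=
  ⟨fun w hw v hv x H _ => h.out w hw v hv x H⟩

instance Triv0.imp1 [h : Void0 P] : Triv0 (fun v x => P v x → Q v x) :=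
  ⟨fun w hw v hv x H H' => absurd (h.out w hw v hv x H') H⟩

instance Triv0.not [h : Void0 P] : Triv0 (fun v x => ¬ P v x) :=
  ⟨fun w hw v hv x H H' => H (h.out w hw v hv x H')⟩

instance Triv0.iff [h : Void0 P] [h' : Void0 Q] : Triv0 (fun v x => P v x ↔ Q v x) :=
  ⟨fun w hw v hv x H => iff_of_false (fun H' => H (h.out w hw v hv x H'))
    (fun H' => H (h'.out w hw v hv x H'))⟩

instance Triv0.all [h : ∀ y, Triv0 (fun v x => R v x y)] : Triv0 (fun v x => ∀ y, R v x y) :=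
  ⟨fun w hw v hv x H y => (h y).out w hw v hv x H⟩

end

section terms

variable {s t : Env → ZF} [hs : T0 s] [ht : T0 t]

instance (priority := low) D0.eqv {i : ℕ} : D0 (fun v => v i = t v) :=
  ht.out.ren (cns i fun n => n)

instance (priority := low) D0.eqv' {i : ℕ} : D0 (fun v => t v = v i) :=
  (D0.eqv (t := t) (i := i)).congr fun _ => eq_comm

instance (priority := low) D0.memv {j : ℕ} : D0 (fun v => t v ∈ v j) :=
  (inferInstance : D0 (fun v => ∃ x, x ∈ v j ∧ x = t v)).congr fun _ => by simp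

instance D0.ne {i : ℕ} : D0 (fun v => v i ≠ t v) := D0.not

instance D0.subset {i j : ℕ} : D0 (fun v => v i ⊆ v j) :=
  (inferInstance : D0 (fun v => ∀ x, x ∈ v i → x ∈ v j)).congr fun _ => subset_def

instance T0.empty : T0 (fun _ => ∅) :=
  ⟨(inferInstance : D0 (fun v => ∀ x, x ∈ v 0 → False)).congr fun _ => by
    simp [eq_empty]⟩

instance T0.upair : T0 (fun v => ({s v, t v} : ZF)) :=
  ⟨(inferInstance : D0 (fun v => s (fun n => v (n + 1)) ∈ v 0 ∧ t (fun n => v (n + 1)) ∈ v 0 ∧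
    ∀ x, x ∈ v 0 → x = s (fun n => v (n + 1)) ∨ x = t (fun n => v (n + 1)))).congr fun v => by
      constructor
      · intro h; rw [h]; simp
      · rintro ⟨h1, h2, h3⟩
        ext x
        simp only [mem_insert_iff, mem_singleton]
        exact ⟨h3 x, fun h => h.elim (· ▸ h1) (· ▸ h2)⟩⟩

instance T0.singleton : T0 (fun v => ({s v} : ZF)) :=
  ⟨(T0.upair (s := s) (t := s)).out.congr fun v => by simp⟩

instance T0.pair : T0 (fun v => pair (s v) (t v)) := by
  have : T0 (fun v => ({{s v}, {s v, t v}} : ZF)) := inferInstance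
  exact this

instance T0.insert {j : ℕ} : T0 (fun v => insert (s v) (v j)) :=
  ⟨(inferInstance : D0 (fun v => s (fun n => v (n + 1)) ∈ v 0 ∧ v (j + 1) ⊆ v 0 ∧
    ∀ x, x ∈ v 0 → x = s (fun n => v (n + 1)) ∨ x ∈ v (j + 1))).congr fun v => by
      constructor
      · intro h; rw [h]
        exact ⟨mem_insert _ _, fun _ hx => mem_insert_of_mem _ hx, fun x hx => mem_insert_iff.1 hx⟩
      · rintro ⟨h1, h2, h3⟩
        ext x
        rw [mem_insert_iff]
        exact ⟨h3 x, fun h => h.elim (· ▸ h1) (fun h => h2 h)⟩⟩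

theorem t0_num_aux (k : ℕ) : (∀ j ≤ k, D0 (fun v => v 0 = num j)) := by
  induction k with
  | zero =>
    intro j hj
    obtain rfl : j = 0 := by omega
    exact T0.empty.out
  | succ k ih =>
    intro j hj
    rcases Nat.lt_or_ge j (k + 1) with h | h
    · exact ih j (by omega)
    obtain rfl : j = k + 1 := by omega
    have : T0 (fun _ => num k) := ⟨ih k le_rfl⟩
    refine (inferInstance : D0 (fun v => ∃ x, x ∈ v 0 ∧ x = num k ∧ v 0 = insert x x)).congr
      fun v => ⟨fun h => ⟨num k, by rw [h]; exact mem_insert _ _, rfl, h⟩, ?_⟩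
    rintro ⟨x, -, rfl, h⟩
    exact h

instance T0.num (k : ℕ) : T0 (fun _ => num k) := ⟨t0_num_aux k k le_rfl⟩

end terms

instance d0_isTransitive {i : ℕ} : D0 (fun v => IsTransitive (v i)) := by
  unfold IsTransitive; infer_instance

instance d0_isOrdinal {i : ℕ} : D0 (fun v => IsOrdinal (v i)) :=
  (inferInstance : D0 (fun v => IsTransitive (v i) ∧ ∀ y ∈ v i, IsTransitive y)).congr
    fun _ => isOrdinal_iff_forall_mem_isTransitive

/-- zero or a successor -/
def ZS (n : ZF) : Prop := n = ∅ ∨ ∃ m ∈ n, n = insert m m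

/-- natural number -/
def IsNat (n : ZF) : Prop := IsOrdinal n ∧ ZS n ∧ ∀ m ∈ n, ZS m

instance d0_zs {i : ℕ} : D0 (fun v => ZS (v i)) := by unfold ZS; infer_instance

instance d0_isNat {i : ℕ} : D0 (fun v => IsNat (v i)) := by unfold IsNat; infer_instance

theorem isNat_iff {n : ZF} : IsNat n ↔ n ∈ om := by
  have hz : ∀ k, ZS (num k) := fun k => by
    cases k
    exacts [Or.inl rfl, Or.inr ⟨_, mem_insert _ _, rfl⟩]
  constructor
  · induction n using ZFSet.inductionOn with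
    | h n ih =>
      rintro ⟨h1, rfl | ⟨m, hm, e⟩, h3⟩
      · exact omega_zero
      · rw [e]
        exact omega_succ (ih m hm ⟨h1.mem hm, h3 m hm, fun k hk => h3 k (h1.mem_trans hk hm)⟩)
  · intro h
    obtain ⟨k, rfl⟩ := mem_omega.1 h
    refine ⟨isOrdinal_omega.mem h, hz k, fun m hm => ?_⟩
    obtain ⟨j, -, rfl⟩ := mem_num.1 hm
    exact hz j

theorem nm_eq (k : ℕ) : nm k = num k := (num_toZFSet k).symm

end Pool.Agent.P.MP_9a7e1f_lc
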