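import Pool.Agent.P.MP_9a7e1f_lc.D0

/-! A constructible hierarchy `LS` generated by one absolute operation, with well-orders `LW`. -/

set_option linter.unusedSectionVars false

namespace Pool.Agent.P.MP_9a7e1f_lc

open ZFSet Pool.Agent.P.MP_3ab3de_lc

/-- at most one element -/
def Sm (c : ZF) : Prop := ∀ a ∈ c, ∀ b ∈ c, a = b

/-- the basic operations -/
def Op (z j x y w : ZF) : Prop :=
  (j = num 0 ∧ (z ∈ x ∨ z = y)) ∨ (j = num 1 ∧ ∃ a ∈ x, z ∈ a) ∨ (j = num 2 ∧ IsOrdinal z) ∨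
  (j = num 3 ∧ z ⊆ x) ∨ j = num 4 ∨ (j = num 5 ∧ ∃ t ∈ x, ∃ a ∈ y, z = insert (pair w a) t) ∨
  (j = num 6 ∧ z ∈ x ∧ ∃ a b, pair y a ∈ z ∧ pair w b ∈ z ∧ a ∈ b) ∨
  (j = num 7 ∧ z ∈ x ∧ ∃ a, pair y a ∈ z ∧ pair w a ∈ z) ∨
  (j = num 8 ∧ z ∈ x ∧ (z ∈ y → z ∈ w)) ∨
  (j = num 9 ∧ ∃ T Y, x = pair T Y ∧ z ∈ T ∧ ∀ a ∈ Y, ∃ t ∈ y, t = insert (pair w a) z) ∨
  (j = num 10 ∧ ∃ A D, x = pair A D ∧ z ∈ A ∧ ∃ t ∈ D, t = insert (pair w z) y)

/-- code of an operation -/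
noncomputable def code (j x y w : ZF) : ZF := pair ∅ (pair j (pair x (pair y w)))

def Psi0 (z c d : ZF) : Prop :=
  (Sm c ∧ (z ∈ c ∨ z = d)) ∨
    (¬ Sm c ∧ ∃ j x y w, c = pair ∅ (pair j (pair x (pair y w))) ∧ Op z j x y w)

noncomputable def uu (X c d : ZF) : ZF := ZFSet.sep (fun z => Psi0 z c d) X

def IsU (u X c d : ZF) : Prop := (∀ z ∈ u, z ∈ X ∧ Psi0 z c d) ∧ ∀ z ∈ X, Psi0 z c d → z ∈ u

theorem isU_iff {u X c d : ZF} : IsU u X c d ↔ u = uu X c d := by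
  constructor
  · rintro ⟨h1, h2⟩
    ext z
    rw [uu, mem_sep]
    exact ⟨h1 z, fun h => h2 z h.1 h.2⟩
  · rintro rfl
    exact ⟨fun z hz => mem_sep.1 hz, fun z h1 h2 => mem_sep.2 ⟨h1, h2⟩⟩

instance d0_sm {i : ℕ} : D0 (fun v => Sm (v i)) := by unfold Sm; infer_instance

set_option synthInstance.maxSize 4096 in
instance d0_op {a b c d e : ℕ} : D0 (fun v => Op (v a) (v b) (v c) (v d) (v e)) := by
  unfold Op; infer_instance

instance d0_psi {a b c : ℕ} : D0 (fun v => Psi0 (v a) (v b) (v c)) := by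
  unfold Psi0; infer_instance

instance d0_isU {a b c d : ℕ} : D0 (fun v => IsU (v a) (v b) (v c) (v d)) := by
  unfold IsU; infer_instance

theorem pair_ne_empty (a b : ZF) : pair a b ≠ ∅ := fun h =>
  notMem_empty {a} (h ▸ (by simp [pair] : ({a} : ZF) ∈ pair a b))

theorem not_sm_code (j x y w : ZF) : ¬ Sm (code j x y w) := fun h => by
  have := h {∅} (by simp [code, pair]) {∅, pair j (pair x (pair y w))} (by simp [code, pair])
  have h2 : pair j (pair x (pair y w)) ∈ ({∅} : ZF) := by rw [this]; simp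
  exact pair_ne_empty _ _ (mem_singleton.1 h2)

theorem psi_code {z j x y w d : ZF} : Psi0 z (code j x y w) d ↔ Op z j x y w := by
  simp only [Psi0, not_sm_code, false_and, not_false_eq_true, true_and, false_or]
  constructor
  · rintro ⟨j', x', y', w', e, h⟩
    simp only [code, pair_inj, true_and] at e
    obtain ⟨rfl, rfl, rfl, rfl⟩ := e
    exact h
  · exact fun h => ⟨j, x, y, w, rfl, h⟩

theorem psi_sm {z c d : ZF} (h : Sm c) : Psi0 z c d ↔ z ∈ c ∨ z = d := by simp [Psi0, h]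

/-- the order of one level, from the earlier levels -/
def LtL (lev : ZF → ZF → ZF → Prop) (α u u' : ZF) : Prop :=
  ∃ β ∈ α, ∃ S W, lev β S W ∧ ∃ c ∈ S, ∃ d ∈ S, IsU u S c d ∧
    ∀ β' ∈ α, ∀ S' W', lev β' S' W' → ∀ c' ∈ S', ∀ d' ∈ S', IsU u' S' c' d' →
      β ∈ β' ∨ (β = β' ∧ (pair c c' ∈ W ∨ (c = c' ∧ pair d d' ∈ W)))

noncomputable def SS (g : ZF) : ZF :=
  insert ∅ (bun (fun p => bun (fun c => img (fun d => uu (fst (snd p)) c d) (fst (snd p)))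
    (fst (snd p))) g)

noncomputable def PhiL (α g : ZF) : ZF :=
  pair (SS g) (ZFSet.sep (fun p => ∃ u u', p = pair u u' ∧
    LtL (fun β S W => pair β (pair S W) ∈ g) α u u') (prod (SS g) (SS g)))

noncomputable def LL : ZF → ZF := rc PhiL

/-- the levels -/
noncomputable def LS (α : ZF) : ZF := fst (LL α)

/-- the well-orders of the levels -/
noncomputable def LW (α : ZF) : ZF := snd (LL α)

/-- the true levels -/
def lT (β S W : ZF) : Prop := S = LS β ∧ W = LW β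

theorem LL_eq (α : ZF) : LL α = pair (LS α) (LW α) := by
  rw [LS, LW, LL, rc_eq, PhiL, fst_pair, snd_pair]

theorem lev_graph {o β S W : ZF} : pair β (pair S W) ∈ graph LL o ↔ β ∈ o ∧ lT β S W := by
  rw [pair_mem_graph, LL_eq, pair_inj, lT, eq_comm, eq_comm (a := W)]

theorem LtL.congr {l l' : ZF → ZF → ZF → Prop} {α u u' : ZF}
    (h : ∀ β ∈ α, ∀ S W, l β S W ↔ l' β S W) : LtL l α u u' ↔ LtL l' α u u' := by
  unfold LtL
  refine exists_congr fun β => and_congr_right fun hβ => exists_congr fun S => exists_congr fun W =>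
    and_congr (h β hβ S W) (exists_congr fun c => and_congr_right fun _ => exists_congr fun d =>
      and_congr_right fun _ => and_congr_right fun _ => forall_congr' fun β' =>
        imp_congr_right fun hβ' => forall_congr' fun S' => forall_congr' fun W' =>
          imp_congr (h β' hβ' S' W') Iff.rfl)

theorem mem_LS {α u : ZF} :
    u ∈ LS α ↔ u = ∅ ∨ ∃ β ∈ α, ∃ c ∈ LS β, ∃ d ∈ LS β, u = uu (LS β) c d := by
  rw [LS, LL, rc_eq, PhiL, fst_pair, SS, mem_insert_iff]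
  simp only [mem_bun, mem_img, mem_graph]
  refine or_congr Iff.rfl ⟨?_, ?_⟩
  · rintro ⟨_, ⟨β, hβ, rfl⟩, c, hc, d, hd, rfl⟩
    simp only [snd_pair] at hc hd ⊢
    exact ⟨β, hβ, c, hc, d, hd, rfl⟩
  · rintro ⟨β, hβ, c, hc, d, hd, rfl⟩
    refine ⟨_, ⟨β, hβ, rfl⟩, c, ?_, d, ?_, ?_⟩ <;> simp only [snd_pair]
    exacts [hc, hd, rfl]

theorem mem_LW {α p : ZF} :
    p ∈ LW α ↔ ∃ u ∈ LS α, ∃ u' ∈ LS α, p = pair u u' ∧ LtL lT α u u' := by
  have e : LS α = SS (graph LL α) := by rw [LS, LL, rc_eq, PhiL, fst_pair]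
  have e2 : ∀ u u', LtL (fun β S W => pair β (pair S W) ∈ graph LL α) α u u' ↔ LtL lT α u u' :=
    fun u u' => LtL.congr fun β hβ S W => by rw [lev_graph]; simp [hβ]
  rw [LW, LL, rc_eq, PhiL, snd_pair, mem_sep]
  change p ∈ prod (SS (graph LL α)) (SS (graph LL α)) ∧
    (∃ u u', p = pair u u' ∧ LtL (fun β S W => pair β (pair S W) ∈ graph LL α) α u u') ↔ _
  rw [← e]
  constructor
  · rintro ⟨h, u, u', rfl, h'⟩
    exact ⟨u, (pair_mem_prod.1 h).1, u', (pair_mem_prod.1 h).2, rfl, (e2 u u').1 h'⟩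
  · rintro ⟨u, hu, u', hu', rfl, h⟩
    exact ⟨pair_mem_prod.2 ⟨hu, hu'⟩, u, u', rfl, (e2 u u').2 h⟩

theorem pair_mem_LW {α u u' : ZF} :
    pair u u' ∈ LW α ↔ u ∈ LS α ∧ u' ∈ LS α ∧ LtL lT α u u' := by
  rw [mem_LW]
  constructor
  · rintro ⟨a, ha, b, hb, e, h⟩
    obtain ⟨rfl, rfl⟩ := pair_inj.1 e
    exact ⟨ha, hb, h⟩
  · rintro ⟨h1, h2, h3⟩
    exact ⟨u, h1, u', h2, rfl, h3⟩

theorem empty_mem_LS (α : ZF) : ∅ ∈ LS α := mem_LS.2 (Or.inl rfl)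

theorem LS_mono {α β : ZF} (h : α ⊆ β) : LS α ⊆ LS β := fun u hu => by
  rcases mem_LS.1 hu with e | ⟨γ, hγ, r⟩
  exacts [mem_LS.2 (Or.inl e), mem_LS.2 (Or.inr ⟨γ, h hγ, r⟩)]

theorem LS_trans {α : ZF} (h : IsOrdinal α) : IsTransitive (LS α) := fun u hu z hz => by
  rcases mem_LS.1 hu with rfl | ⟨β, hβ, c, -, d, -, rfl⟩
  exacts [absurd hz (notMem_empty _), LS_mono (h.subset_of_mem hβ) (mem_sep.1 hz).1]

theorem uu_mem_LS {α β c d : ZF} (h : β ∈ α) (hc : c ∈ LS β) (hd : d ∈ LS β) :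
    uu (LS β) c d ∈ LS α := mem_LS.2 (Or.inr ⟨β, h, c, hc, d, hd, rfl⟩)

theorem ltL_iff {α u u' : ZF} : LtL lT α u u' ↔ ∃ β ∈ α, ∃ c ∈ LS β, ∃ d ∈ LS β,
    u = uu (LS β) c d ∧ ∀ β' ∈ α, ∀ c' ∈ LS β', ∀ d' ∈ LS β', u' = uu (LS β') c' d' →
      β ∈ β' ∨ (β = β' ∧ (pair c c' ∈ LW β ∨ (c = c' ∧ pair d d' ∈ LW β))) := by
  unfold LtL lT
  constructor
  · rintro ⟨β, hβ, _, _, ⟨rfl, rfl⟩, c, hc, d, hd, h1, h2⟩
    exact ⟨β, hβ, c, hc, d, hd, isU_iff.1 h1, fun β' hβ' c' hc' d' hd' e =>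
      h2 β' hβ' _ _ ⟨rfl, rfl⟩ c' hc' d' hd' (isU_iff.2 e)⟩
  · rintro ⟨β, hβ, c, hc, d, hd, h1, h2⟩
    refine ⟨β, hβ, _, _, ⟨rfl, rfl⟩, c, hc, d, hd, isU_iff.2 h1, ?_⟩
    rintro β' hβ' _ _ ⟨rfl, rfl⟩ c' hc' d' hd' e
    exact h2 β' hβ' c' hc' d' hd' (isU_iff.1 e)

theorem LW_aux (α : ZF) : IsOrdinal α →
    (∀ P : ZF → Prop, (∃ u ∈ LS α, P u) → ∃ u ∈ LS α, P u ∧ ∀ u', P u' → pair u' u ∉ LW α) ∧
    ∀ u ∈ LS α, ∀ u' ∈ LS α, u = u' ∨ pair u u' ∈ LW α ∨ pair u' u ∈ LW α := by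
  induction α using ZFSet.inductionOn with
  | h α ih =>
    intro hα
    -- least code of a family
    have key : ∀ P : ZF → Prop, (∃ β ∈ α, ∃ c ∈ LS β, ∃ d ∈ LS β, P (uu (LS β) c d)) →
        ∃ β ∈ α, ∃ c ∈ LS β, ∃ d ∈ LS β, P (uu (LS β) c d) ∧
          ∀ β' ∈ α, ∀ c' ∈ LS β', ∀ d' ∈ LS β', P (uu (LS β') c' d') →
            β' ∉ β ∧ (β' = β → pair c' c ∉ LW β ∧ (c' = c → pair d' d ∉ LW β)) := by
      intro P h
      obtain ⟨β, ⟨hβ, h1⟩, h2⟩ := exists_min h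
      obtain ⟨c, hc, ⟨d0, hd0, h3⟩, h4⟩ := (ih β hβ (hα.mem hβ)).1
        (fun c => ∃ d ∈ LS β, P (uu (LS β) c d)) h1
      obtain ⟨d, hd, h5, h6⟩ := (ih β hβ (hα.mem hβ)).1 (fun d => P (uu (LS β) c d)) ⟨d0, hd0, h3⟩
      refine ⟨β, hβ, c, hc, d, hd, h5, fun β' hβ' c' hc' d' hd' h7 =>
        ⟨fun h8 => h2 β' h8 ⟨hβ', c', hc', d', hd', h7⟩, ?_⟩⟩
      rintro rfl
      exact ⟨h4 c' ⟨d', hd', h7⟩, by rintro rfl; exact h6 d' h7⟩
    constructor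
    · intro P ⟨u, hu, hP⟩
      by_cases h : ∃ β ∈ α, ∃ c ∈ LS β, ∃ d ∈ LS β, P (uu (LS β) c d)
      · obtain ⟨β, hβ, c, hc, d, hd, h1, h2⟩ := key P h
        refine ⟨_, uu_mem_LS hβ hc hd, h1, fun u' hu' h3 => ?_⟩
        obtain ⟨β', hβ', c', hc', d', hd', rfl, h4⟩ := ltL_iff.1 (pair_mem_LW.1 h3).2.2
        obtain ⟨h5, h6⟩ := h2 β' hβ' c' hc' d' hd' hu'
        rcases h4 β hβ c hc d hd rfl with h7 | ⟨rfl, h7 | ⟨rfl, h7⟩⟩
        exacts [h5 h7, (h6 rfl).1 h7, (h6 rfl).2 rfl h7]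
      · refine ⟨u, hu, hP, fun u' hu' h3 => h ?_⟩
        obtain ⟨β', hβ', c', hc', d', hd', rfl, -⟩ := ltL_iff.1 (pair_mem_LW.1 h3).2.2
        exact ⟨β', hβ', c', hc', d', hd', hu'⟩
    · have k2 : ∀ u ∈ LS α, ∀ u' ∈ LS α, u ≠ u' → ∀ β ∈ α, ∀ c ∈ LS β, ∀ d ∈ LS β,
          u = uu (LS β) c d → (∀ β' ∈ α, ∀ c' ∈ LS β', ∀ d' ∈ LS β', u' = uu (LS β') c' d' →
            β' ∉ β ∧ (β' = β → pair c' c ∉ LW β ∧ (c' = c → pair d' d ∉ LW β))) →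
          pair u u' ∈ LW α := by
        intro u hu u' hu' hne β hβ c hc d hd e h
        refine pair_mem_LW.2 ⟨hu, hu', ltL_iff.2 ⟨β, hβ, c, hc, d, hd, e,
          fun β' hβ' c' hc' d' hd' e' => ?_⟩⟩
        obtain ⟨h1, h2⟩ := h β' hβ' c' hc' d' hd' e'
        rcases (hα.mem hβ).mem_trichotomous (hα.mem hβ') with h3 | rfl | h3
        · exact Or.inl h3
        · refine Or.inr ⟨rfl, ?_⟩
          rcases (ih β hβ (hα.mem hβ)).2 c hc c' hc' with rfl | h4 | h4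
          · rcases (ih β hβ (hα.mem hβ)).2 d hd d' hd' with rfl | h5 | h5
            exacts [absurd (e.trans e'.symm) hne, Or.inr ⟨rfl, h5⟩, absurd h5 ((h2 rfl).2 rfl)]
          exacts [Or.inl h4, absurd h4 (h2 rfl).1]
        · exact absurd h3 h1
      intro u hu u' hu'
      by_cases hne : u = u'
      · exact Or.inl hne
      obtain ⟨β, hβ, c, hc, d, hd, h1, h2⟩ := key (fun x => x = u ∨ x = u') (by
        rcases mem_LS.1 hu with rfl | ⟨β, hβ, c, hc, d, hd, rfl⟩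
        · rcases mem_LS.1 hu' with rfl | ⟨β, hβ, c, hc, d, hd, rfl⟩
          exacts [absurd rfl hne, ⟨β, hβ, c, hc, d, hd, Or.inr rfl⟩]
        · exact ⟨β, hβ, c, hc, d, hd, Or.inl rfl⟩)
      rcases h1 with h1 | h1
      · exact Or.inr (Or.inl (k2 u hu u' hu' hne β hβ c hc d hd h1.symm
          fun β' hβ' c' hc' d' hd' e => h2 β' hβ' c' hc' d' hd' (Or.inr e.symm)))
      · exact Or.inr (Or.inr (k2 u' hu' u hu (Ne.symm hne) β hβ c hc d hd h1.symm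
          fun β' hβ' c' hc' d' hd' e => h2 β' hβ' c' hc' d' hd' (Or.inl e.symm)))

theorem LW_min {α : ZF} (hα : IsOrdinal α) (P : ZF → Prop) (h : ∃ u ∈ LS α, P u) :
    ∃ u ∈ LS α, P u ∧ ∀ u', P u' → pair u' u ∉ LW α := (LW_aux α hα).1 P h

theorem LW_tri {α : ZF} (hα : IsOrdinal α) {u u' : ZF} (hu : u ∈ LS α) (hu' : u' ∈ LS α) :
    u = u' ∨ pair u u' ∈ LW α ∨ pair u' u ∈ LW α := (LW_aux α hα).2 u hu u' hu'

/-- the recursion equations at one level, given the earlier levels in `f` -/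
def HS (f α S : ZF) : Prop :=
  ∅ ∈ S ∧ (∀ u ∈ S, u = ∅ ∨ ∃ β ∈ α, ∃ S' W', pair β (pair S' W') ∈ f ∧
    ∃ c ∈ S', ∃ d ∈ S', IsU u S' c d) ∧
  ∀ β ∈ α, ∀ S' W', pair β (pair S' W') ∈ f → ∀ c ∈ S', ∀ d ∈ S', ∃ u ∈ S, IsU u S' c d

def LtF (f α u u' : ZF) : Prop := LtL (fun β S W => pair β (pair S W) ∈ f) α u u'

def HW (f α S W : ZF) : Prop :=
  (∀ p ∈ W, ∃ u ∈ S, ∃ u' ∈ S, p = pair u u' ∧ LtF f α u u') ∧
    ∀ u ∈ S, ∀ u' ∈ S, LtF f α u u' → pair u u' ∈ W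

/-- `f` is an initial part of the hierarchy -/
def Hier (f : ZF) : Prop :=
  ∀ α S W, pair α (pair S W) ∈ f → IsOrdinal α ∧ (∀ β ∈ α, ∃ S' W', pair β (pair S' W') ∈ f) ∧
    HS f α S ∧ HW f α S W

instance d0_ltF {a b c d : ℕ} : D0 (fun v => LtF (v a) (v b) (v c) (v d)) := by
  unfold LtF LtL; infer_instance

instance d0_hs {a b c : ℕ} : D0 (fun v => HS (v a) (v b) (v c)) := by
  unfold HS; infer_instance

instance d0_hw {a b c d : ℕ} : D0 (fun v => HW (v a) (v b) (v c) (v d)) := by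
  unfold HW; infer_instance

instance d0_hier {a : ℕ} : D0 (fun v => Hier (v a)) := by
  unfold Hier; infer_instance

theorem hs_iff {f α S : ZF} (h : ∀ β ∈ α, ∀ S W, pair β (pair S W) ∈ f ↔ lT β S W) :
    HS f α S ↔ S = LS α := by
  constructor
  · rintro ⟨h1, h2, h3⟩
    ext u
    rw [mem_LS]
    constructor
    · intro hu
      rcases h2 u hu with e | ⟨β, hβ, S', W', h4, c, hc, d, hd, h5⟩
      · exact Or.inl e
      · obtain ⟨rfl, rfl⟩ := (h β hβ S' W').1 h4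
        exact Or.inr ⟨β, hβ, c, hc, d, hd, isU_iff.1 h5⟩
    · rintro (rfl | ⟨β, hβ, c, hc, d, hd, rfl⟩)
      · exact h1
      · obtain ⟨u, hu, h5⟩ := h3 β hβ _ _ ((h β hβ _ _).2 ⟨rfl, rfl⟩) c hc d hd
        exact isU_iff.1 h5 ▸ hu
  · rintro rfl
    refine ⟨empty_mem_LS α, fun u hu => (mem_LS.1 hu).imp id ?_, fun β hβ S' W' h4 c hc d hd => ?_⟩
    · rintro ⟨β, hβ, c, hc, d, hd, e⟩
      exact ⟨β, hβ, _, _, (h β hβ _ _).2 ⟨rfl, rfl⟩, c, hc, d, hd, isU_iff.2 e⟩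
    · obtain ⟨rfl, rfl⟩ := (h β hβ S' W').1 h4
      exact ⟨_, uu_mem_LS hβ hc hd, isU_iff.2 rfl⟩

theorem hw_iff {f α W : ZF} (h : ∀ β ∈ α, ∀ S W, pair β (pair S W) ∈ f ↔ lT β S W) :
    HW f α (LS α) W ↔ W = LW α := by
  have e : ∀ u u', LtF f α u u' ↔ LtL lT α u u' := fun u u' => LtL.congr h
  simp only [HW, e]
  constructor
  · rintro ⟨h1, h2⟩
    ext p
    rw [mem_LW]
    exact ⟨h1 p, by rintro ⟨u, hu, u', hu', rfl, h3⟩; exact h2 u hu u' hu' h3⟩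
  · rintro rfl
    exact ⟨fun p hp => mem_LW.1 hp, fun u hu u' hu' h3 => pair_mem_LW.2 ⟨hu, hu', h3⟩⟩

theorem Hier.sound {f : ZF} (h : Hier f) (α : ZF) :
    ∀ S W, pair α (pair S W) ∈ f → lT α S W := by
  induction α using ZFSet.inductionOn with
  | h α ih =>
    intro S W h1
    obtain ⟨-, h2, h3, h4⟩ := h α S W h1
    have e : ∀ β ∈ α, ∀ S W, pair β (pair S W) ∈ f ↔ lT β S W := fun β hβ S W =>
      ⟨ih β hβ S W, by
        rintro ⟨rfl, rfl⟩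
        obtain ⟨S', W', h5⟩ := h2 β hβ
        obtain ⟨rfl, rfl⟩ := ih β hβ S' W' h5
        exact h5⟩
    obtain rfl := (hs_iff e).1 h3
    exact ⟨rfl, (hw_iff e).1 h4⟩

theorem Hier.lev {f α S W : ZF} (h : Hier f) (h1 : pair α (pair S W) ∈ f) :
    ∀ β ∈ α, ∀ S W, pair β (pair S W) ∈ f ↔ lT β S W := fun β hβ S' W' =>
  ⟨h.sound β S' W', by
    rintro ⟨rfl, rfl⟩
    obtain ⟨S', W', h5⟩ := (h α S W h1).2.1 β hβ
    obtain ⟨rfl, rfl⟩ := h.sound β S' W' h5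
    exact h5⟩

theorem hier_graph {o : ZF} (ho : IsOrdinal o) : Hier (graph LL o) := by
  intro α S W h
  obtain ⟨hα, rfl, rfl⟩ := lev_graph.1 h
  have e : ∀ β ∈ α, ∀ S W, pair β (pair S W) ∈ graph LL o ↔ lT β S W := fun β hβ S W => by
    rw [lev_graph]; simp [ho.mem_trans hβ hα]
  exact ⟨ho.mem hα, fun β hβ => ⟨_, _, (e β hβ _ _).2 ⟨rfl, rfl⟩⟩, (hs_iff e).2 rfl,
    (hw_iff e).2 rfl⟩

variable {M : Set ZF} [hM : TModel M]

instance df_psi0 {a b c : Env → ZF} [Tm M a] [Tm M b] [Tm M c] :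
    Df M (fun v => Psi0 (a v) (b v) (c v)) :=
  Df.three ((d0_psi (a := 0) (b := 1) (c := 2)).df (trn_model M)) a b c

instance tm_uu {a b c : Env → ZF} [Tm M a] [Tm M b] [Tm M c] :
    Tm M (fun v => uu (a v) (b v) (c v)) := by unfold uu; infer_instance

instance df_isU {a b c d : Env → ZF} [Tm M a] [Tm M b] [Tm M c] [Tm M d] :
    Df M (fun v => IsU (a v) (b v) (c v) (d v)) := by unfold IsU; infer_instance

instance tm_SS {a : Env → ZF} [Tm M a] : Tm M (fun v => SS (a v)) := by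
  unfold SS; infer_instance

set_option synthInstance.maxSize 2048 in
instance df_ltF {a b c d : Env → ZF} [Tm M a] [Tm M b] [Tm M c] [Tm M d] :
    Df M (fun v => LtF (a v) (b v) (c v) (d v)) := by
  unfold LtF LtL; beta_reduce; infer_instance

instance tm_LL {a : Env → ZF} [Tm M a] : Tm M (fun v => LL (a v)) :=
  (tm_rc (Φ := PhiL) (show Tm M (fun v => pair (SS (v 1)) (ZFSet.sep (fun p => ∃ u u',
    p = pair u u' ∧ LtF (v 1) (v 0) u u') (prod (SS (v 1)) (SS (v 1))))) from inferInstance)).one a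

instance tm_LS {a : Env → ZF} [Tm M a] : Tm M (fun v => LS (a v)) := by unfold LS; infer_instance

instance tm_LW {a : Env → ZF} [Tm M a] : Tm M (fun v => LW (a v)) := by unfold LW; infer_instance

instance df_hier {a : Env → ZF} [Tm M a] : Df M (fun v => Hier (a v)) :=
  Df.one ((d0_hier (a := 0)).df (trn_model M)) a

/-- every set is constructible -/
def VL (M : Set ZF) : Prop := ∀ x ∈ M, ∃ α ∈ M, IsOrdinal α ∧ x ∈ LS α

/-- the constructible sets of `M` -/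
def LM (M : Set ZF) : Set ZF := {x | ∃ α ∈ M, IsOrdinal α ∧ x ∈ LS α}

end Pool.Agent.P.MP_9a7e1f_lc
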