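import Pool.Agent.P.MP_9a7e1f_lc.L

/-! General tools: substitution, finite sets, nodes, closed sets, levels, collapses. -/

set_option linter.unusedSectionVars false

namespace Pool.Agent.P.MP_9a7e1f_lc

open ZFSet Pool.Agent.P.MP_3ab3de_lc

theorem df_sat_subst {M : Set ZF} (φ : Fml) : ∀ F : ℕ → Env → ZF, (∀ i, Tm M (F i)) →
    Df M (fun v => Sat M φ (fun i => F i v)) := by
  induction φ with
  | mem i j => exact fun F h => @Df.mem M _ _ (h i) (h j)
  | eq i j => exact fun F h => @Df.eq M _ _ (h i) (h j)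
  | bot => exact fun _ _ => Df.bot
  | imp φ ψ h1 h2 => exact fun F h => @Df.imp M _ _ (h1 F h) (h2 F h)
  | all φ ih =>
    intro F h
    refine Df.allM (P := fun v x => Sat M φ (cons x fun i => F i v))
      ((ih (cns (fun v => v 0) fun i v => F i fun n => v (n + 1)) fun i => ?_).congr fun v _ => ?_)
    · cases i with
      | zero => exact Tm.var 0
      | succ i => exact @Tm.ren M _ (h i) _
    · have : (cons (v 0) fun i => F i fun n => v (n + 1)) =
          fun i => cns (fun v => v 0) (fun i v => F i fun n => v (n + 1)) i v := by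
        funext i; cases i <;> rfl
      rw [this]

/-- substitution of definable terms for all the variables -/
theorem df_subst {M : Set ZF} {P : Env → Prop} (h : Df M P) (F : ℕ → Env → ZF)
    (hF : ∀ i, Tm M (F i)) : Df M (fun v => P (fun i => F i v)) := by
  obtain ⟨φ, ρ, h⟩ := h
  refine (df_sat_subst φ (fun n => Sum.elim F (fun c _ => c.1) (ρ n)) fun n => ?_).congr
    fun v hv => (h _ fun i => (hF i).mem v hv).trans ?_
  · cases ρ n with
    | inl k => exact hF k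
    | inr c => exact In.mk' c.2
  · have : (fun n => Sum.elim (fun i => F i v) Subtype.val (ρ n)) =
        fun n => Sum.elim F (fun c _ => c.1) (ρ n) v := by
      funext n; cases ρ n <;> rfl
    rw [this]

theorem tm_cns {M : Set ZF} {a : Env → ZF} {F : ℕ → Env → ZF} (ha : Tm M a) (hF : ∀ i, Tm M (F i))
    (i : ℕ) : Tm M (cns a F i) := by
  cases i
  exacts [ha, hF _]

/-- finite -/
def Fn (p : ZF) : Prop := (p : Set ZF).Finite

theorem fn_empty : Fn ∅ := by simp [Fn]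

theorem Fn.subset {a b : ZF} (h : Fn b) (h' : a ⊆ b) : Fn a := Set.Finite.subset h fun _ hx => h' hx

theorem Fn.insert {b : ZF} (h : Fn b) (a : ZF) : Fn (insert a b) :=
  (Set.Finite.insert a h).subset fun x hx => by simpa using hx

theorem fn_singleton (a : ZF) : Fn {a} := (Set.finite_singleton a).subset fun x hx => by simpa using hx

theorem Fn.union {a b : ZF} (h : Fn a) (h' : Fn b) : Fn (a ∪ b) :=
  (Set.Finite.union h h').subset fun x hx => by simpa using hx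

theorem Fn.img {a : ZF} (h : Fn a) (F : ZF → ZF) : Fn (img F a) :=
  (Set.Finite.image F h).subset fun x hx => by simpa using hx

theorem Fn.bun {a : ZF} (h : Fn a) {F : ZF → ZF} (h' : ∀ x ∈ a, Fn (F x)) : Fn (bun F a) :=
  (Set.Finite.biUnion h h').subset fun x hx => by simpa using hx

theorem fn_num (n : ℕ) : Fn (num n) := by
  induction n with
  | zero => exact fn_empty
  | succ n ih => exact ih.insert _

theorem Fn.ind {Q : ZF → Prop} {a : ZF} (h : Fn a) (h0 : Q ∅)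
    (h1 : ∀ x b, x ∈ a → b ⊆ a → Fn b → x ∉ b → Q b → Q (Insert.insert x b)) : Q a := by
  have key : ∀ s : Set ZF, s.Finite → ∀ b : ZF, (b : Set ZF) = s → b ⊆ a → Q b := by
    intro s hs
    induction s, hs using Set.Finite.induction_on with
    | empty =>
      intro b hb _
      have : b = ∅ := (eq_empty b).2 fun x hx => (hb ▸ hx : x ∈ (∅ : Set ZF))
      rwa [this]
    | @insert x s hx hs ih =>
      intro b hb hba
      have hb' : ∀ y, y ∈ b ↔ y = x ∨ y ∈ s := fun y => by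
        rw [← Set.mem_insert_iff, ← hb]; rfl
      have e : ((b \ {x} : ZF) : Set ZF) = s := by
        ext y
        simp only [SetLike.mem_coe, mem_sdiff, mem_singleton, hb']
        exact ⟨fun h => h.1.resolve_left h.2, fun h => ⟨Or.inr h, fun e => hx (e ▸ h)⟩⟩
      have hs' : b \ {x} ⊆ a := fun y hy => hba (mem_sdiff.1 hy).1
      have e2 : b = Insert.insert x (b \ {x}) := by
        ext y
        simp only [mem_insert_iff, mem_sdiff, mem_singleton]
        by_cases hy : y = x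
        · simp [hy, hb']
        · simp [hy]
      rw [e2]
      exact h1 x _ (hba ((hb' x).2 (Or.inl rfl))) hs' (show Set.Finite _ from e ▸ hs) (by simp)
        (ih _ e hs')
  exact key _ h a rfl fun _ h => h

/-- a finite set is enumerated by a numeral -/
theorem Fn.enum {a : ZF} (h : Fn a) : ∃ (n : ℕ) (f : ZF), Fn f ∧ IsFunc (num n) a f ∧
    ∀ x ∈ a, ∃ k ∈ num n, pair k x ∈ f := by
  refine h.ind (Q := fun b => ∃ (n : ℕ) (f : ZF), Fn f ∧ IsFunc (num n) b f ∧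
    ∀ x ∈ b, ∃ k ∈ num n, pair k x ∈ f) ⟨0, ∅, fn_empty, ⟨fun _ h => absurd h (notMem_empty _),
      fun _ h => absurd h (notMem_empty _)⟩, fun _ h => absurd h (notMem_empty _)⟩ ?_
  rintro x b - - - - ⟨n, f, h1, h2, h3⟩
  refine ⟨n + 1, Insert.insert (pair (num n) x) f, h1.insert _, ⟨fun p hp => ?_, fun k hk => ?_⟩,
    fun y hy => ?_⟩
  · rcases mem_insert_iff.1 hp with rfl | hp
    · exact pair_mem_prod.2 ⟨mem_insert _ _, mem_insert _ _⟩
    · obtain ⟨k, hk, y, hy, rfl⟩ := h2.exists_pair hp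
      exact pair_mem_prod.2 ⟨mem_insert_of_mem _ hk, mem_insert_of_mem _ hy⟩
  · rcases mem_insert_iff.1 hk with rfl | hk
    · refine ⟨x, mem_insert _ _, fun y hy => ?_⟩
      rcases mem_insert_iff.1 hy with e | hy
      exacts [(pair_inj.1 e).2, absurd (h2.mem hy).1 (mem_irrefl _)]
    · refine ⟨_, mem_insert_of_mem _ (h2.app_mem hk), fun y hy => ?_⟩
      rcases mem_insert_iff.1 hy with e | hy
      · exact absurd ((pair_inj.1 e).1 ▸ hk) (mem_irrefl _)
      · exact (h2.app_eq hy).symm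
  · rcases mem_insert_iff.1 hy with rfl | hy
    · exact ⟨_, mem_insert _ _, mem_insert _ _⟩
    · obtain ⟨k, hk, h4⟩ := h3 y hy
      exact ⟨k, mem_insert_of_mem _ hk, mem_insert_of_mem _ h4⟩

/-- closed under adding an element -/
def Ins (u : ZF) : Prop := ∅ ∈ u ∧ ∀ a ∈ u, ∀ b ∈ u, insert a b ∈ u

/-- transitive and closed under adding an element -/
def Clo (u : ZF) : Prop := IsTransitive u ∧ Ins u

theorem Ins.fin {u a : ZF} (h : Ins u) (ha : Fn a) (h' : a ⊆ u) : a ∈ u :=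
  ha.ind (Q := fun b => b ∈ u) h.1 fun x _ hx _ _ _ hb => h.2 x (h' hx) _ hb

theorem Ins.singleton {u a : ZF} (h : Ins u) (ha : a ∈ u) : ({a} : ZF) ∈ u :=
  h.fin (fn_singleton a) fun x hx => mem_singleton.1 hx ▸ ha

theorem Ins.upair {u a b : ZF} (h : Ins u) (ha : a ∈ u) (hb : b ∈ u) : ({a, b} : ZF) ∈ u :=
  h.2 a ha _ (h.singleton hb)

theorem Ins.pair {u a b : ZF} (h : Ins u) (ha : a ∈ u) (hb : b ∈ u) : pair a b ∈ u :=
  h.upair (h.singleton ha) (h.upair ha hb)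

theorem Ins.num {u : ZF} (h : Ins u) (n : ℕ) : num n ∈ u := by
  induction n with
  | zero => exact h.1
  | succ n ih => exact h.2 _ ih _ ih

theorem Ins.om {u : ZF} (h : Ins u) : om ⊆ u := fun x hx => by
  obtain ⟨n, rfl⟩ := mem_omega.1 hx
  exact h.num n

theorem Clo.fst {u a b : ZF} (h : Clo u) (hp : pair a b ∈ u) : a ∈ u := (trn_coe h.1).fst hp

theorem Clo.snd {u a b : ZF} (h : Clo u) (hp : pair a b ∈ u) : b ∈ u := (trn_coe h.1).snd hp

instance d0_ins {a : ℕ} : D0 (fun v => Ins (v a)) :=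
  (inferInstance : D0 (fun v => ∅ ∈ v a ∧ ∀ x ∈ v a, ∀ y ∈ v a, insert x y ∈ v a))

instance d0_clo {a : ℕ} : D0 (fun v => Clo (v a)) := by unfold Clo; infer_instance

/-- the finite subsets -/
noncomputable def fs (X : ZF) : ZF := ZFSet.sep Fn (powerset X)

theorem mem_fs {X c : ZF} : c ∈ fs X ↔ c ⊆ X ∧ Fn c := by simp [fs]

/-- a function from an ordinal at most `ω` to `ω` -/
def Sq (s : ZF) : Prop := ∀ a ∈ s, ∃ k j, a = pair k j ∧ IsNat k ∧ IsNat j ∧
  (∀ k' ∈ k, ∃ j', pair k' j' ∈ s) ∧ ∀ j', pair k j' ∈ s → j' = j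

instance d0_sq {a : ℕ} : D0 (fun v => Sq (v a)) := by unfold Sq; infer_instance

/-- the nodes: finite sequences of naturals -/
noncomputable def Nds : ZF := ZFSet.sep Sq (fs (prod om om))

theorem Sq.subset {s : ZF} (h : Sq s) : s ⊆ prod om om := fun a ha => by
  obtain ⟨k, j, rfl, h1, h2, -⟩ := h a ha
  exact pair_mem_prod.2 ⟨isNat_iff.1 h1, isNat_iff.1 h2⟩

theorem mem_Nds {s : ZF} : s ∈ Nds ↔ Fn s ∧ Sq s := by
  rw [Nds, mem_sep, mem_fs]
  exact ⟨fun h => ⟨h.1.2, h.2⟩, fun h => ⟨⟨h.2.subset, h.1⟩, h.2⟩⟩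

theorem Sq.uniq {s k j j' : ZF} (h : Sq s) (h1 : pair k j ∈ s) (h2 : pair k j' ∈ s) : j = j' := by
  obtain ⟨k0, j0, e, -, -, -, h3⟩ := h _ h1
  obtain ⟨rfl, rfl⟩ := pair_inj.1 e
  exact (h3 j' h2).symm

theorem Sq.down {s k j k' : ZF} (h : Sq s) (h1 : pair k j ∈ s) (h2 : k' ∈ k) :
    ∃ j', pair k' j' ∈ s := by
  obtain ⟨k0, j0, e, -, -, h3, -⟩ := h _ h1
  obtain ⟨rfl, rfl⟩ := pair_inj.1 e
  exact h3 k' h2

theorem sq_of_isFunc {n s : ZF} (hn : IsOrdinal n) (hn' : n ⊆ om) (h : IsFunc n om s) : Sq s := by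
  intro a ha
  obtain ⟨k, hk, j, hj, rfl⟩ := h.exists_pair ha
  exact ⟨k, j, rfl, isNat_iff.2 (hn' hk), isNat_iff.2 hj,
    fun k' hk' => ⟨_, h.app_mem (hn.mem_trans hk' hk)⟩, fun j' hj' => h.uniq hj' ha⟩

/-- two sequences inside a third one are comparable -/
theorem Sq.comp {s t x : ZF} (hs : Sq s) (ht : Sq t) (hx : Sq x) (h1 : s ⊆ x) (h2 : t ⊆ x) :
    s ⊆ t ∨ t ⊆ s := by
  by_contra h
  simp only [not_or, subset_def, not_forall] at h
  obtain ⟨⟨a, ha, ha'⟩, b, hb, hb'⟩ := h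
  obtain ⟨k, j, rfl, h3, -⟩ := hs a ha
  obtain ⟨k', j', rfl, h4, -⟩ := ht b hb
  rcases h3.1.mem_trichotomous h4.1 with h5 | rfl | h5
  · obtain ⟨i, hi⟩ := ht.down hb h5
    exact ha' (hx.uniq (h2 hi) (h1 ha) ▸ hi)
  · exact ha' (hx.uniq (h2 hb) (h1 ha) ▸ hb)
  · obtain ⟨i, hi⟩ := hs.down ha h5
    exact hb' (hx.uniq (h1 hi) (h2 hb) ▸ hi)

theorem nds_iff {s : ZF} : s ∈ Nds ↔ ∃ n : ℕ, IsFunc (num n) om s := by
  rw [mem_Nds]
  constructor
  · rintro ⟨h1, h2⟩
    have h3 : ∀ n : ℕ, (∃ j, pair (num n) j ∈ s) → num n ∈ dom s := fun n ⟨j, hj⟩ =>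
      mem_dom.2 ⟨_, hj, fst_pair _ _⟩
    have h4 : ∃ n : ℕ, ¬ ∃ j, pair (num n) j ∈ s := by
      by_contra h
      simp only [not_exists, not_not, not_forall] at h
      exact Set.infinite_of_injective_forall_mem (f := num) (fun _ _ => num_inj.1)
        (fun n => h3 n (h n)) (h1.img fst)
    classical
    refine ⟨Nat.find h4, fun a ha => ?_, fun k hk => ?_⟩
    · obtain ⟨k, j, rfl, h5, h6, h7, -⟩ := h2 a ha
      obtain ⟨m, rfl⟩ := mem_omega.1 (isNat_iff.1 h5)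
      refine pair_mem_prod.2 ⟨num_mem_num.2 (by_contra fun h8 => Nat.find_spec h4 ?_),
        isNat_iff.1 h6⟩
      rcases (not_lt.1 h8).eq_or_lt with e | e
      exacts [⟨j, e ▸ ha⟩, h7 _ (num_mem_num.2 e)]
    · obtain ⟨m, hm, rfl⟩ := mem_num.1 hk
      obtain ⟨j, hj⟩ := not_not.1 (Nat.find_min h4 hm)
      exact ⟨j, hj, fun j' hj' => h2.uniq hj' hj⟩
  · rintro ⟨n, h⟩
    refine ⟨((fn_num n).img fun k => pair k (app s k)).subset fun a ha => ?_,
      sq_of_isFunc (isOrdinal_omega.mem (num_mem_omega n))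
        (isOrdinal_omega.subset_of_mem (num_mem_omega n)) h⟩
    obtain ⟨k, hk, j, -, rfl⟩ := h.exists_pair ha
    exact mem_img.2 ⟨k, hk, by rw [h.app_eq ha]⟩

/-- limit ordinal -/
def Lim (δ : ZF) : Prop := IsOrdinal δ ∧ ∅ ∈ δ ∧ ∀ β ∈ δ, insert β β ∈ δ

/-- the union of the levels in `O` -/
def LO (O : Set ZF) : Set ZF := {x | ∃ α ∈ O, x ∈ LS α}

/-- a class of ordinals without a largest element -/
structure OC (O : Set ZF) : Prop where
  ord : ∀ α ∈ O, IsOrdinal α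
  ne : O.Nonempty
  succ : ∀ α ∈ O, insert α α ∈ O

namespace OC

variable {O : Set ZF} (h : OC O)
include h

theorem trn : Trn (LO O) := fun x ⟨α, h1, h2⟩ _ hy => ⟨α, h1, LS_trans (h.ord α h1) x h2 hy⟩

theorem max {α β : ZF} (ha : α ∈ O) (hb : β ∈ O) : ∃ γ ∈ O, LS α ⊆ LS γ ∧ LS β ⊆ LS γ := by
  rcases (h.ord α ha).subset_total (h.ord β hb) with h1 | h1
  exacts [⟨β, hb, LS_mono h1, fun _ h => h⟩, ⟨α, ha, fun _ h => h, LS_mono h1⟩]

theorem empty : ∅ ∈ LO O := h.ne.imp fun α hα => ⟨hα, empty_mem_LS α⟩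

theorem uuL {b c d β : ZF} (hc : c ∈ LO O) (hd : d ∈ LO O) (hβ : β ∈ O) (hb : b ⊆ LS β)
    (e : ∀ z ∈ LO O, z ∈ b ↔ Psi0 z c d) : b ∈ LO O := by
  obtain ⟨α1, h1, h2⟩ := hc
  obtain ⟨α2, h3, h4⟩ := hd
  obtain ⟨α3, h5, h6, h7⟩ := h.max h1 h3
  obtain ⟨γ, h8, h9, h10⟩ := h.max h5 hβ
  refine ⟨_, h.succ γ h8, ?_⟩
  have : b = uu (LS γ) c d := by
    ext z
    rw [uu, mem_sep]
    exact ⟨fun hz => ⟨h10 (hb hz), (e z ⟨β, hβ, hb hz⟩).1 hz⟩, fun hz => (e z ⟨γ, h8, hz.1⟩).2 hz.2⟩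
  rw [this]
  exact uu_mem_LS (mem_insert _ _) (h9 (h6 h2)) (h9 (h7 h4))

theorem singleton {a : ZF} (ha : a ∈ LO O) : ({a} : ZF) ∈ LO O := by
  obtain ⟨α, h1, h2⟩ := id ha
  refine h.uuL h.empty ha h1 (fun z hz => mem_singleton.1 hz ▸ h2) fun z _ => ?_
  rw [psi_sm fun _ h => absurd h (notMem_empty _)]
  simp

theorem upair {a b : ZF} (ha : a ∈ LO O) (hb : b ∈ LO O) : ({a, b} : ZF) ∈ LO O := by
  obtain ⟨α, h1, h2⟩ := id ha
  obtain ⟨β, h3, h4⟩ := id hb
  obtain ⟨γ, h5, h6, h7⟩ := h.max h1 h3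
  refine h.uuL (h.singleton ha) hb h5 (fun z hz => ?_) fun z _ => ?_
  · rcases mem_pair.1 hz with rfl | rfl
    exacts [h6 h2, h7 h4]
  · rw [psi_sm fun x hx y hy => (mem_singleton.1 hx).trans (mem_singleton.1 hy).symm]
    simp

theorem pair {a b : ZF} (ha : a ∈ LO O) (hb : b ∈ LO O) : pair a b ∈ LO O :=
  h.upair (h.singleton ha) (h.upair ha hb)

/-- a bounded set given by one of the operations -/
theorem opL {b j x y w β : ZF} (hj : j ∈ LO O) (hx : x ∈ LO O) (hy : y ∈ LO O) (hw : w ∈ LO O)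
    (hβ : β ∈ O) (hb : b ⊆ LS β) (e : ∀ z ∈ LO O, z ∈ b ↔ Op z j x y w) : b ∈ LO O :=
  h.uuL (c := code j x y w) (h.pair h.empty (h.pair hj (h.pair hx (h.pair hy hw)))) h.empty hβ hb
    fun z hz => (e z hz).trans psi_code.symm

theorem insert {a b : ZF} (ha : a ∈ LO O) (hb : b ∈ LO O) : insert a b ∈ LO O := by
  obtain ⟨α, h1, h2⟩ := id ha
  obtain ⟨β, h3, h4⟩ := id hb
  obtain ⟨γ, h5, h6, h7⟩ := h.max h1 h3
  refine h.opL (j := num 0) h.empty hb ha h.empty h5 (fun z hz => ?_) fun z _ => ?_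
  · rcases mem_insert_iff.1 hz with rfl | hz
    exacts [h6 h2, LS_trans (h.ord γ h5) b (h7 h4) hz]
  · simp [Op, num_inj, or_comm]

theorem num (n : ℕ) : num n ∈ LO O := by
  induction n with
  | zero => exact h.empty
  | succ n ih => exact h.insert ih ih

end OC

theorem Lim.oc {δ : ZF} (h : Lim δ) : OC (δ : Set ZF) :=
  ⟨fun _ hα => h.1.mem hα, ⟨∅, h.2.1⟩, h.2.2⟩

theorem Lim.mem_LS {δ x : ZF} (h : Lim δ) : x ∈ LS δ ↔ ∃ β ∈ δ, x ∈ LS β := by
  constructor
  · intro hx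
    rcases MP_9a7e1f_lc.mem_LS.1 hx with rfl | ⟨β, hβ, c, hc, d, hd, rfl⟩
    exacts [⟨∅, h.2.1, empty_mem_LS _⟩, ⟨_, h.2.2 β hβ, uu_mem_LS (mem_insert _ _) hc hd⟩]
  · rintro ⟨β, hβ, hx⟩
    exact LS_mono (h.1.subset_of_mem hβ) hx

theorem Lim.clo {δ : ZF} (h : Lim δ) : Clo (LS δ) :=
  ⟨LS_trans h.1, empty_mem_LS δ, fun _ ha _ hb =>
    h.mem_LS.2 (h.oc.insert (h.mem_LS.1 ha) (h.mem_LS.1 hb))⟩

/-- the collapse of `H` -/
noncomputable def col (H : ZF) : ZF → ZF := rc fun _ g => img snd (res g H)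

theorem mem_col {H x z : ZF} : z ∈ col H x ↔ ∃ y ∈ x, y ∈ H ∧ col H y = z := by
  rw [show col H x = _ from rc_eq _ x]
  simp only [mem_img, mem_res, mem_graph]
  constructor
  · rintro ⟨_, ⟨⟨y, hy, rfl⟩, h⟩, rfl⟩
    exact ⟨y, hy, by simpa using h, by simp; rfl⟩
  · rintro ⟨y, hy, h, rfl⟩
    exact ⟨_, ⟨⟨y, hy, rfl⟩, by simpa using h⟩, by simp; rfl⟩

theorem col_of_subset {H x : ZF} (h : x ⊆ H) : col H x = img (col H) x := by
  ext z
  rw [mem_col, mem_img]
  exact exists_congr fun y => and_congr_right fun hy => and_iff_right (h hy)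

theorem col_pair {H a b : ZF} (h : Ins H) (ha : a ∈ H) (hb : b ∈ H) :
    col H (pair a b) = pair (col H a) (col H b) := by
  have h1 : ∀ x ∈ H, ∀ y ∈ H, col H {x, y} = {col H x, col H y} := fun x hx y hy => by
    ext z
    simp [mem_col, hx, hy, eq_comm]
  have h2 : col H {a} = {col H a} := by simpa using h1 a ha a ha
  rw [pair, h1 _ (h.singleton ha) _ (h.upair ha hb), h1 a ha b hb, h2, pair]

/-- the collapse fixes transitive subsets -/
theorem col_fix {H Y : ZF} (hY : IsTransitive Y) (h : Y ⊆ H) (x : ZF) : x ⊆ Y → col H x = x := by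
  induction x using ZFSet.inductionOn with
  | h x ih =>
    intro hx
    ext z
    rw [mem_col]
    exact ⟨fun ⟨y, h1, _, h3⟩ => h3 ▸ (ih y h1 (hY y (hx h1))).symm ▸ h1,
      fun hz => ⟨z, hz, h (hx hz), ih z hz (hY z (hx hz))⟩⟩

variable {M : Set ZF} [hM : TModel M]

instance tm_col {H : ZF} [In M H] {a : Env → ZF} [Tm M a] : Tm M (fun v => col H (a v)) :=
  (tm_rc (M := M) (Φ := fun _ g => img snd (res g H)) inferInstance).one a

theorem Fn.mem {a : ZF} (h : Fn a) (h' : ∀ x ∈ a, x ∈ M) : a ∈ M :=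
  h.ind (Q := fun b => b ∈ M) empty_mem fun x b hx _ _ _ hb => by
    have := In.mk' (h' x hx)
    have := In.mk' hb
    exact In.mem _

theorem fn_iff {a : ZF} (ha : a ∈ M) : Fn a ↔ ∃ n ∈ om, Le M a n := by
  constructor
  · intro h
    obtain ⟨n, f, h1, h2, h3⟩ := h.enum
    refine ⟨_, num_mem_omega n, f, h1.mem fun p hp => ?_, fun y hy => ?_⟩
    · obtain ⟨k, hk, y, hy, rfl⟩ := h2.exists_pair hp
      have := In.mk' (tr (In.mem (M := M) (num n)) hk)
      have := In.mk' (tr ha hy)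
      exact In.mem _
    · exact (h3 y hy).imp fun k hk => ⟨hk.1, h2.app_eq hk.2⟩
  · rintro ⟨_, hn, f, -, h⟩
    obtain ⟨n, rfl⟩ := mem_omega.1 hn
    exact ((fn_num n).img (app f)).subset fun y hy => mem_img.2 (h y hy)

instance df_fn {a : Env → ZF} [h : Tm M a] : Df M (fun v => Fn (a v)) :=
  (inferInstance : Df M (fun v => ∃ n ∈ om, Le M (a v) n)).congr fun v hv => fn_iff (h.mem v hv)

theorem Fn.le {a R : ZF} (h : Fn a) (ha : a ∈ M) (hR : Inf M R) : Le M a R := by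
  obtain ⟨n, hn, h1⟩ := (fn_iff ha).1 h
  exact h1.trans (hR.omLe.mono (isOrdinal_omega.subset_of_mem hn)) hR.mem

instance tm_fs {a : Env → ZF} [h : Tm M a] : Tm M (fun v => fs (a v)) :=
  (inferInstance : Tm M (fun v => ZFSet.sep Fn (pw M (a v)))).congr fun v hv => by
    ext c
    rw [mem_fs, mem_sep, mem_pw]
    exact ⟨fun h' => ⟨⟨h'.1, h'.2.mem fun x hx => tr (h.mem v hv) (h'.1 hx)⟩, h'.2⟩,
      fun h' => ⟨h'.1.1, h'.2⟩⟩

theorem le_fs {X R : ZF} (hR : Inf M R) (hX : X ∈ M) (h : Le M X R) : Le M (fs X) R := by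
  have := In.mk' hX
  have key : ∀ n : ℕ, Le M (ZFSet.sep (fun f => IsFunc (num n) X f) (fs (prod om X))) R := by
    intro n
    induction n with
    | zero =>
      refine (hR.singleton empty_mem).mono fun f hf => mem_singleton.2 ((eq_empty f).2 fun p hp => ?_)
      obtain ⟨k, hk, -⟩ := (mem_sep.1 hf).2.exists_pair hp
      exact notMem_empty _ hk
    | succ n ih =>
      refine (hR.img (fun z => insert (pair (num n) (fst z)) (snd z)) inferInstance (In.mem _)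
        (hR.prod h ih)).mono fun f hf => ?_
      obtain ⟨h1, h2⟩ := mem_sep.1 hf
      refine mem_img.2 ⟨pair (app f (num n)) (res f (num n)), pair_mem_prod.2
        ⟨h2.app_mem' (mem_insert _ _), mem_sep.2 ⟨mem_fs.2 ⟨fun p hp => (mem_fs.1 h1).1
          (res_subset _ _ hp), (mem_fs.1 h1).2.subset (res_subset _ _)⟩,
          h2.res fun _ hk => mem_insert_of_mem _ hk⟩⟩, ?_⟩
      ext p
      simp only [fst_pair, snd_pair, mem_insert_iff, mem_res]
      constructor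
      · rintro (rfl | hp)
        exacts [h2.app_mem (mem_insert _ _), hp.1]
      · intro hp
        obtain ⟨k, hk, y, -, rfl⟩ := h2.exists_pair hp
        rcases mem_insert_iff.1 hk with rfl | hk
        exacts [Or.inl (by rw [h2.app_eq hp]), Or.inr ⟨hp, by simpa using hk⟩]
  refine (hR.img (fun f => img snd f) inferInstance (In.mem _) (hR.bun (fun n => ZFSet.sep
    (fun f => IsFunc n X f) (fs (prod om X))) inferInstance hM.infinity hR.omLe fun n hn => ?_)).mono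
    fun c hc => ?_
  · obtain ⟨n, rfl⟩ := mem_omega.1 hn
    exact key n
  · obtain ⟨h1, h2⟩ := mem_fs.1 hc
    obtain ⟨n, f, h3, h4, h5⟩ := h2.enum
    have h6 : IsFunc (num n) X f := ⟨fun p hp => by
      obtain ⟨k, hk, y, hy, rfl⟩ := h4.exists_pair hp
      exact pair_mem_prod.2 ⟨hk, h1 hy⟩, h4.2⟩
    refine mem_img.2 ⟨f, mem_bun.2 ⟨_, num_mem_omega n, mem_sep.2 ⟨mem_fs.2 ⟨fun p hp => ?_, h3⟩,
      h6⟩⟩, ?_⟩
    · obtain ⟨k, hk, y, hy, rfl⟩ := h6.exists_pair hp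
      exact pair_mem_prod.2 ⟨isOrdinal_omega.mem_trans hk (num_mem_omega n), hy⟩
    · ext y
      rw [mem_img]
      constructor
      · rintro ⟨p, hp, rfl⟩
        obtain ⟨k, -, y, hy, rfl⟩ := h4.exists_pair hp
        simpa using hy
      · intro hy
        obtain ⟨k, -, hk⟩ := h5 y hy
        exact ⟨_, hk, snd_pair _ _⟩

instance df_isNat {a : Env → ZF} [Tm M a] : Df M (fun v => IsNat (a v)) :=
  Df.one ((d0_isNat (i := 0)).df (trn_model M)) a

instance df_sq {a : Env → ZF} [Tm M a] : Df M (fun v => Sq (a v)) :=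
  Df.one ((d0_sq (a := 0)).df (trn_model M)) a

instance df_clo {a : Env → ZF} [Tm M a] : Df M (fun v => Clo (a v)) :=
  Df.one ((d0_clo (a := 0)).df (trn_model M)) a

instance in_Nds : In M Nds := by unfold Nds; infer_instance

theorem le_Nds : Le M Nds om :=
  (le_fs inf_omega (In.mem _) inf_omega.sq).mono sep_subset

theorem hart_inf {R k : ZF} (h : Hart M R k) (hR : Inf M R) : Inf M k := by
  have := In.mk' h.mem
  refine ⟨h.mem, h.layers hR (In.mem _) (fun ξ => prod ξ ξ) inferInstance (fun y hy => ?_)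
    fun ξ hξ => hR.prod (h.le ξ hξ) (h.le ξ hξ),
    Le.of_subset h.mem (h.ord.subset_of_mem (h.omega hR))⟩
  obtain ⟨a, ha, b, hb, rfl⟩ := mem_prod.1 hy
  have h1 := h.union ha hb
  exact ⟨_, h.succ hR h1, pair_mem_prod.2
    ⟨(mem_succ_iff (h.ord.mem ha) (h.ord.mem h1)).2 fun _ hx => mem_union.2 (Or.inl hx),
      (mem_succ_iff (h.ord.mem hb) (h.ord.mem h1)).2 fun _ hx => mem_union.2 (Or.inr hx)⟩⟩

theorem hart_lim {R k : ZF} (h : Hart M R k) (hR : Inf M R) : Lim k :=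
  ⟨h.ord, h.zero hR, fun _ hβ => h.succ hR hβ⟩

end Pool.Agent.P.MP_9a7e1f_lc
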