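import Pool.Agent.P.MP_9a7e1f_lc.Calc1

/-! Closure properties of projective predicates: monotonicity and the sets they define. -/

set_option linter.unusedSectionVars false

namespace Pool.Agent.P.MP_9a7e1f_lc

open ZFSet Pool.Agent.P.MP_3ab3de_lc

namespace CalcP

theorem fin_dep (φ : Fml) :
    ∃ k, ∀ N (v w : Env), (∀ n < k, v n = w n) → (Sat N φ v ↔ Sat N φ w) := by
  induction φ with
  | mem i j =>
    exact ⟨i + j + 1, fun N v w h => by rw [sat_mem, sat_mem, h i (by omega), h j (by omega)]⟩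
  | eq i j =>
    exact ⟨i + j + 1, fun N v w h => by rw [sat_eq, sat_eq, h i (by omega), h j (by omega)]⟩
  | bot => exact ⟨0, fun _ _ _ _ => Iff.rfl⟩
  | imp a b h1 h2 =>
    obtain ⟨k, h1⟩ := h1
    obtain ⟨m, h2⟩ := h2
    exact ⟨k + m, fun N v w h => imp_congr (h1 N v w fun n hn => h n (by omega))
      (h2 N v w fun n hn => h n (by omega))⟩
  | all a h1 =>
    obtain ⟨k, h1⟩ := h1
    refine ⟨k, fun N v w h => forall_congr' fun x => imp_congr_right fun _ => h1 N _ _ fun n hn => ?_⟩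
    cases n with
    | zero => rfl
    | succ n => exact h n (by omega)

variable {N : Set ZF} [hM : TModel N]

theorem df_dep {P : Env → Prop} (h : Df N P) : ∃ k, ∀ v w, EIn N v → EIn N w →
    (∀ i < k, v i = w i) → (P v ↔ P w) := by
  obtain ⟨φ, ρ, h⟩ := h
  obtain ⟨k0, h1⟩ := fin_dep φ
  obtain ⟨k, h2⟩ := fin_bound (R := fun n m => ∀ i, ρ n = Sum.inl i → i < m)
    (fun n => by
      rcases ρ n with i | c
      · exact ⟨i + 1, fun j e => by rw [← Sum.inl_injective e]; omega⟩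
      · exact ⟨0, fun j e => absurd e (by simp)⟩)
    (fun n a b h hab i e => lt_of_lt_of_le (h i e) hab) k0
  refine ⟨k, fun v w hv hw e => (h v hv).trans ((h1 N _ _ fun n hn => ?_).trans (h w hw).symm)⟩
  have h3 := h2 n hn
  rcases e' : ρ n with i | c
  · exact e i (h3 i e')
  · rfl

theorem df_fin {R : ℕ → Env → Prop} (h : ∀ i, Df N (R i)) (k : ℕ) :
    Df N (fun v => ∀ i < k, R i v) := by
  induction k with
  | zero => exact (Df.const True).congr fun _ _ => by simp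
  | succ k ih =>
    exact (@Df.and _ _ _ ih (h k)).congr fun _ _ => Nat.forall_lt_succ_right

theorem exists_code {v : Env} (hv : EIn N v) (k : ℕ) : ∃ g ∈ N, ∀ i < k, app g (num i) = v i := by
  classical
  induction k with
  | zero => exact ⟨∅, empty_mem, fun _ h => absurd h (Nat.not_lt_zero _)⟩
  | succ k ih =>
    obtain ⟨g, hg, h⟩ := ih
    have := In.mk' hg
    have := In.mk' (hv k)
    refine ⟨graph (fun n => if n = num k then v k else app g n) om, In.mem _, fun i hi => ?_⟩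
    rw [app_graph (num_mem_omega i)]
    rcases Nat.lt_succ_iff_lt_or_eq.1 hi with h1 | rfl
    · rw [if_neg fun e => absurd (num_inj.1 e) (by omega), h i h1]
    · rw [if_pos rfl]

theorem mono0 (P : Env → Prop) (hP : SG N 0 P) : SG N 1 P := by
  obtain ⟨⟨P', h1, h2⟩, h3⟩ := hP
  obtain ⟨k, h4⟩ := df_dep h1
  have hg : ∀ g ∈ N, EIn N fun i => app g (num i) := fun g hg i => by
    have := In.mk' hg
    exact In.mem _
  refine ⟨fun v => ∃ g ∈ N, (∀ i < k, Real N (app g (num i))) ∧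
    (∀ i < k, ∀ j ∈ app (v 0) ∅, app (v (i + 1)) j = app (app g (num i)) j) ∧
      ¬ P' fun i => app g (num i), ⟨⟨_, Df.exM (@Df.and _ _ _ ?_ (@Df.and _ _ _ ?_
        (@Df.not _ _ ?_))), fun _ _ => Iff.rfl⟩, ?_⟩, fun v hv => ?_⟩
  · exact df_fin (R := fun i v => Real N (app (v 0) (num i))) (fun _ => inferInstance) k
  · exact df_fin (R := fun i v => ∀ j ∈ app (v 1) ∅, app (v (i + 2)) j = app (app (v 0) (num i)) j)
      (fun _ => inferInstance) k
  · exact df_subst h1 (fun i v => app (v 0) (num i)) fun _ => inferInstance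
  · rintro v hv ⟨g, h5, h6, h7, h8⟩
    obtain ⟨m, hm⟩ := mem_omega.1 (real_app (hv 0) omega_zero)
    refine ⟨k + m + 1, fun w _ ha => ⟨g, h5, h6, fun i hi j hj => ?_, h8⟩⟩
    have e : app (v 0) ∅ = app (w 0) ∅ := ha 0 (by omega) 0 (by omega)
    rw [← e] at hj
    rw [← h7 i hi j hj]
    rw [← hm] at hj
    obtain ⟨l, hl, rfl⟩ := mem_num.1 hj
    exact (ha (i + 1) (by omega) l (by omega)).symm
  · constructor
    · intro hp
      obtain ⟨m, h5⟩ := h3 v hv hp
      refine ⟨cst (num m), real_cst (num_mem_omega m), ?_⟩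
      rintro ⟨g, h6, h7, h8, h9⟩
      have h10 : RE N fun i => if i < k then app g (num i) else v i := fun i => by
        beta_reduce
        split_ifs with h
        exacts [h7 i h, hv i]
      refine h9 ((h4 _ _ (re_ein h10) (hg g h6) fun i hi => if_pos hi).1
        ((h2 _ h10).1 (h5 _ h10 fun i _ j hj => ?_)))
      split_ifs with h
      · exact h8 i h _ (by rw [cons_zero, app_cst (num_mem_omega m) omega_zero]; exact num_mem_num.2 hj)
      · rfl
    · rintro ⟨y, -, h5⟩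
      obtain ⟨g, h6, h7⟩ := exists_code (re_ein hv) k
      by_contra hp
      exact h5 ⟨g, h6, fun i hi => h7 i hi ▸ hv i, fun i hi j _ => by rw [h7 i hi]; rfl,
        fun h8 => hp ((h2 v hv).2 ((h4 _ _ (hg g h6) (re_ein hv) h7).1 h8))⟩

theorem mono (n : ℕ) : ∀ P : Env → Prop, SG N n P → SG N (n + 1) P := by
  induction n with
  | zero => exact mono0
  | succ n ih => exact fun P ⟨Q, h1, h2⟩ => ⟨Q, ih Q h1, h2⟩

/-! ### points -/

/-- the coordinates of a point -/
noncomputable def crd (k : ℕ) (e : ZF) (i : ℕ) : ZF :=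
  if i < k then graph (fun n => app e (pair (num (k - 1 - i)) n)) om else cst ∅

theorem tm_crd (k i : ℕ) (a : Env → ZF) [Tm N a] : Tm N (fun v => crd k (a v) i) := by
  unfold crd
  split_ifs <;> infer_instance

instance df_pt {k : ℕ} {a : Env → ZF} [Tm N a] : Df N (fun v => Pt N k (a v)) := by
  unfold Pt; rw [nm_eq]; infer_instance

instance tm_app1 {k : ℕ} {a b : Env → ZF} [Tm N a] [Tm N b] :
    Tm N (fun v => app1 k (a v) (b v)) := by
  unfold app1; rw [nm_eq]; infer_instance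

theorem pt_func {k : ℕ} {e : ZF} (h : Pt N k e) : IsFunc (prod (num k) om) om e := nm_eq k ▸ h.2

theorem re_crd {k : ℕ} {e : ZF} (h : Pt N k e) : RE N (crd k e) := fun i => by
  have := In.mk' h.1
  unfold crd
  split_ifs with hi
  · exact ⟨In.mem _, graph_isFunc fun n hn => (pt_func h).app_mem'
      (pair_mem_prod.2 ⟨num_mem_num.2 (by omega), hn⟩)⟩
  · exact real_cst omega_zero

theorem mem_app1 {k : ℕ} {e y p : ZF} (hy : Real N y) :
    p ∈ app1 k e y ↔ p ∈ e ∨ ∃ n j, pair n j ∈ y ∧ p = pair (pair (num k) n) j := by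
  rw [app1, nm_eq, mem_union, mem_sep]
  refine or_congr_right ⟨fun h => h.2, fun h => ⟨?_, h⟩⟩
  obtain ⟨n, j, h1, rfl⟩ := h
  exact pair_mem_prod.2 ⟨pair_mem_prod.2 ⟨mem_singleton.2 rfl, (hy.2.mem h1).1⟩, (hy.2.mem h1).2⟩

theorem pt_app1 {k : ℕ} {e y : ZF} (he : Pt N k e) (hy : Real N y) : Pt N (k + 1) (app1 k e y) := by
  have := In.mk' he.1
  have := In.mk' hy.1
  have hf := pt_func he
  refine ⟨In.mem _, ?_⟩
  rw [nm_eq]
  refine ⟨fun p hp => ?_, fun z hz => ?_⟩
  · rcases (mem_app1 hy).1 hp with h | ⟨n, j, h, rfl⟩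
    · obtain ⟨z, hz, j, hj, rfl⟩ := hf.exists_pair h
      obtain ⟨a, ha, n, hn, rfl⟩ := mem_prod.1 hz
      exact pair_mem_prod.2 ⟨pair_mem_prod.2 ⟨mem_insert_of_mem _ ha, hn⟩, hj⟩
    · exact pair_mem_prod.2 ⟨pair_mem_prod.2 ⟨mem_insert _ _, (hy.2.mem h).1⟩, (hy.2.mem h).2⟩
  · obtain ⟨a, ha, n, hn, rfl⟩ := mem_prod.1 hz
    rcases mem_insert_iff.1 ha with rfl | ha
    · refine ⟨app y n, (mem_app1 hy).2 (Or.inr ⟨n, _, hy.2.app_mem hn, rfl⟩), fun j hj => ?_⟩
      rcases (mem_app1 hy).1 hj with h | ⟨n', j', h, e⟩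
      · exact absurd (pair_mem_prod.1 (hf.mem h).1).1 (mem_irrefl _)
      · obtain ⟨e1, rfl⟩ := pair_inj.1 e
        obtain ⟨-, rfl⟩ := pair_inj.1 e1
        exact (hy.2.app_eq h).symm
    · refine ⟨app e (pair a n), (mem_app1 hy).2 (Or.inl (hf.app_mem (pair_mem_prod.2 ⟨ha, hn⟩))),
        fun j hj => ?_⟩
      rcases (mem_app1 hy).1 hj with h | ⟨n', j', h, e⟩
      · exact (hf.app_eq h).symm
      · obtain ⟨e1, rfl⟩ := pair_inj.1 e
        obtain ⟨rfl, -⟩ := pair_inj.1 e1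
        exact absurd ha (mem_irrefl _)

theorem crd_app1 {k : ℕ} {e y : ZF} (he : Pt N k e) (hy : Real N y) :
    crd (k + 1) (app1 k e y) = cons y (crd k e) := by
  have hf := pt_func (pt_app1 he hy)
  funext i
  cases i with
  | zero =>
    rw [cons_zero, crd, if_pos (by omega)]
    conv_rhs => rw [← graph_app hy]
    exact graph_congr fun n hn =>
      hf.app_eq ((mem_app1 hy).2 (Or.inr ⟨n, _, hy.2.app_mem hn, rfl⟩))
  | succ i =>
    rw [cons_succ, crd, crd]
    by_cases hi : i < k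
    · rw [if_pos (by omega), if_pos hi, show k + 1 - 1 - (i + 1) = k - 1 - i by omega]
      exact graph_congr fun n hn => hf.app_eq ((mem_app1 hy).2 (Or.inl ((pt_func he).app_mem
        (pair_mem_prod.2 ⟨num_mem_num.2 (by omega), hn⟩))))
    · rw [if_neg (by omega), if_neg hi]

theorem pt_pw {k : ℕ} {e : ZF} (h : Pt N k e) : e ∈ pw N (prod (prod (num k) om) om) :=
  mem_pw.2 ⟨(pt_func h).1, h.1⟩

theorem sigma_mem {n k : ℕ} {A : ZF} (h : Sigma N n k A) : A ∈ N := by
  cases n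
  exacts [h.1, h.1]

theorem sigma_of (n : ℕ) : ∀ (k : ℕ) (P : Env → Prop), SG N n P →
    ∃ A, Sigma N n k A ∧ ∀ e, e ∈ A ↔ Pt N k e ∧ P (crd k e) := by
  induction n with
  | zero =>
    rintro k P ⟨⟨P', h1, h2⟩, h3⟩
    have h4 : Df N (fun v => P' (crd k (v 0))) :=
      df_subst h1 (fun i v => crd k (v 0) i) fun i => tm_crd k i _
    have key : ∀ e, e ∈ ZFSet.sep (fun e => Pt N k e ∧ P' (crd k e))
        (pw N (prod (prod (num k) om) om)) ↔ Pt N k e ∧ P (crd k e) := fun e => by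
      rw [mem_sep]
      exact ⟨fun h => ⟨h.2.1, (h2 _ (re_crd h.2.1)).2 h.2.2⟩,
        fun h => ⟨pt_pw h.1, h.1, (h2 _ (re_crd h.1)).1 h.2⟩⟩
    refine ⟨_, ⟨sep_mem' _ inferInstance (In.mem _), fun e he => ?_⟩, key⟩
    obtain ⟨h5, h6⟩ := (key e).1 he
    obtain ⟨m, h7⟩ := h3 _ (re_crd h5) h6
    have h8 : ∀ a ∈ num k, ∀ b ∈ num m, pair (pair a b) (app e (pair a b)) ∈ e := fun a ha b hb =>
      (pt_func h5).app_mem (pair_mem_prod.2 ⟨ha, isOrdinal_omega.mem_trans hb (num_mem_omega m)⟩)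
    refine ⟨h5, bun (fun a => img (fun b => pair (pair a b) (app e (pair a b))) (num m)) (num k),
      fun p hp => ?_, (fn_num k).bun fun a _ => (fn_num m).img _, fun e' he' hs =>
        (key e').2 ⟨he', h7 _ (re_crd he') fun i _ j hj => ?_⟩⟩
    · obtain ⟨a, ha, hp⟩ := mem_bun.1 hp
      obtain ⟨b, hb, rfl⟩ := mem_img.1 hp
      exact h8 a ha b hb
    · unfold crd
      split_ifs with hi
      · rw [app_graph (num_mem_omega j), app_graph (num_mem_omega j)]
        exact ((pt_func he').app_eq (hs (mem_bun.2 ⟨_, num_mem_num.2 (by omega),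
          img_mem (num_mem_num.2 hj)⟩))).symm
      · rfl
  | succ n ih =>
    rintro k P ⟨Q, h1, h2⟩
    obtain ⟨C, h3, h4⟩ := ih (k + 1) Q h1
    have := In.mk' (sigma_mem h3)
    have key : ∀ e, e ∈ ZFSet.sep (fun e => Pt N k e ∧ ∃ y, Real N y ∧ app1 k e y ∉ C)
        (pw N (prod (prod (num k) om) om)) ↔ Pt N k e ∧ ∃ y, Real N y ∧ app1 k e y ∉ C := fun e => by
      rw [mem_sep]
      exact ⟨fun h => h.2, fun h => ⟨pt_pw h.1, h⟩⟩
    refine ⟨_, ⟨In.mem _, C, h3, key⟩, fun e => (key e).trans (and_congr_right fun he => ?_)⟩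
    rw [h2 _ (re_crd he)]
    refine exists_congr fun y => and_congr_right fun hy => not_congr ?_
    rw [h4, crd_app1 he hy]
    exact and_iff_right (pt_app1 he hy)

theorem pt_zero : Pt N 0 ∅ := by
  refine ⟨empty_mem, fun _ h => absurd h (notMem_empty _), fun z hz => ?_⟩
  obtain ⟨a, ha, -⟩ := mem_prod.1 hz
  rw [nm_eq] at ha
  exact absurd ha (notMem_empty _)

theorem delta (n : ℕ) (P : Env → Prop) (h1 : SG N n P) (h2 : SG N n (fun v => ¬ P v)) :
    ∃ R, Delta N n 2 R ∧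
      ∀ x y, Real N x → Real N y → (pt2 x y ∈ R ↔ P (cons x fun _ => y)) := by
  obtain ⟨A, h3, h4⟩ := sigma_of n 2 _ (ren n _ (cns 1 fun _ => 0) h1)
  obtain ⟨A', h5, h6⟩ := sigma_of n 2 _ (ren n _ (cns 1 fun _ => 0) h2)
  refine ⟨A, ⟨h3, A', h5, fun e => (h6 e).trans (and_congr_right fun he => ?_)⟩,
    fun x y hx hy => ?_⟩
  · rw [h4]
    exact not_congr (and_iff_right he).symm
  · have h7 := pt_app1 pt_zero hx
    rw [h4, pt2, crd_app1 h7 hy, crd_app1 pt_zero hx]
    refine (and_iff_right (pt_app1 h7 hy)).trans (iff_of_eq (congrArg P ?_))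
    funext i
    cases i <;> rfl

end CalcP

theorem calc' : S_Calc := fun _ _ =>
  ⟨CalcP.ren, CalcP.mono, CalcP.neg, fun n => (CalcP.and_or n).1, fun n => (CalcP.and_or n).2,
    CalcP.ex, CalcP.alln, CalcP.exn, CalcP.delta⟩

end Pool.Agent.P.MP_9a7e1f_lc
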