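import Pool.Agent.P.MP_9a7e1f_lc.St1

/-! Closure properties of projective predicates: continuous substitution and coding of reals. -/

set_option linter.unusedSectionVars false

namespace Pool.Agent.P.MP_9a7e1f_lc

open ZFSet Pool.Agent.P.MP_3ab3de_lc

namespace CalcP

variable {N : Set ZF} [hM : TModel N]

instance df_real {a : Env → ZF} [Tm N a] : Df N (fun v => Real N (a v)) := by
  unfold Real; infer_instance

instance void_real {t : Env → ZF → ZF} [h : Occ N t] : Void N (fun v x => Real N (t v x)) :=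
  ⟨fun v _ x H => h.out v x H.1⟩

instance tm_cst {a : Env → ZF} [Tm N a] : Tm N (fun v => cst (a v)) := by
  unfold cst; infer_instance

theorem re_ein {v : Env} (h : RE N v) : EIn N v := fun i => (h i).1

theorem re_cons {v : Env} (h : RE N v) {y : ZF} (hy : Real N y) : RE N (cons y v) := by
  intro n; cases n
  exacts [hy, h _]

theorem re_tail {v : Env} (h : RE N v) : RE N (fun n => v (n + 1)) := fun _ => h _

theorem real_app {y n : ZF} (hy : Real N y) (hn : n ∈ om) : app y n ∈ om := hy.2.app_mem' hn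

theorem graph_app {y : ZF} (hy : Real N y) : graph (app y) om = y := by
  refine (IsFunc.eq_of_subset (graph_isFunc fun n hn => real_app hy hn) hy.2 fun p hp => ?_)
  obtain ⟨n, hn, rfl⟩ := mem_graph.1 hp
  exact hy.2.app_mem hn

theorem cst_isFunc {j : ZF} (hj : j ∈ om) : IsFunc om om (cst j) := by
  refine ⟨fun p hp => ?_, fun n hn => ⟨j, pair_mem_prod.2 ⟨hn, mem_singleton.2 rfl⟩,
    fun z hz => mem_singleton.1 (pair_mem_prod.1 hz).2⟩⟩
  obtain ⟨a, ha, b, hb, rfl⟩ := mem_prod.1 hp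
  exact pair_mem_prod.2 ⟨ha, mem_singleton.1 hb ▸ hj⟩

theorem real_cst {j : ZF} (hj : j ∈ om) : Real N (cst j) := by
  have := In.mk' (tr hM.infinity hj)
  exact ⟨In.mem _, cst_isFunc hj⟩

theorem app_cst {j n : ZF} (hj : j ∈ om) (hn : n ∈ om) : app (cst j) n = j :=
  (cst_isFunc hj).app_eq (pair_mem_prod.2 ⟨hn, mem_singleton.2 rfl⟩)

theorem agr_mono {m m' : ℕ} {v w : Env} (h : Agr m' v w) (hm : m ≤ m') : Agr m v w :=
  fun i hi j hj => h i (by omega) j (by omega)

/-- locally constant -/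
def LC (N : Set ZF) (t : Env → ZF) : Prop :=
  ∀ v, RE N v → ∃ m, ∀ w, RE N w → Agr m v w → t v = t w

theorem lc_const (c : ZF) : LC N (fun _ => c) := fun _ _ => ⟨0, fun _ _ _ => rfl⟩

theorem LC.two {s t : Env → ZF} (hs : LC N s) (ht : LC N t) (G : ZF → ZF → ZF) :
    LC N (fun v => G (s v) (t v)) := fun v hv => by
  obtain ⟨m, h1⟩ := hs v hv
  obtain ⟨m', h2⟩ := ht v hv
  exact ⟨m + m', fun w hw ha => by
    beta_reduce
    rw [h1 w hw (agr_mono ha (by omega)), h2 w hw (agr_mono ha (by omega))]⟩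

/-- continuous definable operations on reals -/
structure RT (N : Set ZF) (t : Env → ZF) : Prop where
  tm : Tm N t
  re : ∀ v, RE N v → Real N (t v)
  lc : ∀ j ∈ om, LC N (fun v => app (t v) j)

theorem rt_var (i : ℕ) : RT N (fun v => v i) :=
  ⟨inferInstance, fun _ hv => hv i, fun j hj v _ => by
    obtain ⟨j, rfl⟩ := mem_omega.1 hj
    exact ⟨i + j + 1, fun w _ ha => ha i (by omega) j (by omega)⟩⟩

theorem rt_const {c : ZF} (hc : Real N c) : RT N (fun _ => c) :=
  ⟨In.mk' hc.1, fun _ _ => hc, fun _ _ => lc_const _⟩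

theorem RT.shift {t : Env → ZF} (h : RT N t) : RT N (fun v => t fun n => v (n + 1)) :=
  ⟨@Tm.ren N _ h.tm _, fun _ hv => h.re _ (re_tail hv), fun j hj v hv => by
    obtain ⟨m, h1⟩ := h.lc j hj _ (re_tail hv)
    exact ⟨m + 1, fun w hw ha => h1 _ (re_tail hw) fun i hi k hk =>
      ha (i + 1) (by omega) k (by omega)⟩⟩

theorem RT.val {t : Env → ZF} (h : RT N t) : RT N (fun v => cst (app (t v) ∅)) := by
  have := h.tm
  refine ⟨inferInstance, fun v hv => real_cst (real_app (h.re v hv) omega_zero), fun j _ => ?_⟩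
  exact (h.lc ∅ omega_zero).two (lc_const j) fun a b => app (cst a) b

theorem rt_cns {a : Env → ZF} {F : ℕ → Env → ZF} (ha : RT N a) (hF : ∀ i, RT N (F i)) (i : ℕ) :
    RT N (cns a F i) := by
  cases i
  exacts [ha, hF _]

theorem fin_bound {R : ℕ → ℕ → Prop} (h1 : ∀ i, ∃ m, R i m) (h2 : ∀ i m m', R i m → m ≤ m' → R i m')
    (k : ℕ) : ∃ m, ∀ i < k, R i m := by
  induction k with
  | zero => exact ⟨0, fun _ h => absurd h (Nat.not_lt_zero _)⟩
  | succ k ih =>
    obtain ⟨m, h3⟩ := ih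
    obtain ⟨m', h4⟩ := h1 k
    refine ⟨m + m', fun i hi => ?_⟩
    rcases Nat.lt_succ_iff_lt_or_eq.1 hi with h | rfl
    exacts [h2 _ _ _ (h3 i h) (by omega), h2 _ _ _ h4 (by omega)]

theorem cont {F : ℕ → Env → ZF} (hF : ∀ i, RT N (F i)) {v : Env} (hv : RE N v) (m : ℕ) :
    ∃ m', ∀ w, RE N w → Agr m' v w → Agr m (fun i => F i v) (fun i => F i w) := by
  obtain ⟨m', h⟩ := fin_bound (R := fun i m' => ∀ j < m, ∀ w, RE N w → Agr m' v w →
      app (F i v) (num j) = app (F i w) (num j))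
    (fun i => fin_bound (R := fun j m' => ∀ w, RE N w → Agr m' v w →
        app (F i v) (num j) = app (F i w) (num j))
      (fun j => (hF i).lc _ (num_mem_omega j) v hv)
      (fun j a b h hab w hw ha => h w hw (agr_mono ha hab)) m)
    (fun i a b h hab j hj w hw ha => h j hj w hw (agr_mono ha hab)) m
  exact ⟨m', fun w hw ha i hi j hj => h i hi j hj w hw ha⟩

/-- continuous substitution -/
theorem sub (n : ℕ) : ∀ {P : Env → Prop} (F : ℕ → Env → ZF), (∀ i, RT N (F i)) → SG N n P →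
    SG N n (fun v => P fun i => F i v) := by
  induction n with
  | zero =>
    rintro P F hF ⟨⟨P', h1, h2⟩, h3⟩
    refine ⟨⟨_, df_subst h1 F fun i => (hF i).tm, fun v hv => h2 _ fun i => (hF i).re v hv⟩,
      fun v hv hp => ?_⟩
    obtain ⟨m, h4⟩ := h3 _ (fun i => (hF i).re v hv) hp
    obtain ⟨m', h5⟩ := cont hF hv m
    exact ⟨m', fun w hw ha => h4 _ (fun i => (hF i).re w hw) (h5 w hw ha)⟩
  | succ n ih =>
    rintro P F hF ⟨Q, h1, h2⟩
    refine ⟨_, ih (cns (fun v => v 0) fun i v => F i fun n => v (n + 1))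
      (rt_cns (rt_var 0) fun i => (hF i).shift) h1, fun v hv =>
      (h2 _ fun i => (hF i).re v hv).trans (exists_congr fun y => and_congr_right fun _ => ?_)⟩
    have : (cons y fun i => F i v) =
        fun i => cns (fun v => v 0) (fun i v => F i fun n => v (n + 1)) i (cons y v) := by
      funext i; cases i <;> rfl
    rw [this]

theorem ren (n : ℕ) (P : Env → Prop) (ρ : ℕ → ℕ) (h : SG N n P) :
    SG N n (fun v => P fun i => v (ρ i)) :=
  sub n (fun i v => v (ρ i)) (fun i => rt_var (ρ i)) h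

theorem neg (n : ℕ) (P : Env → Prop) (h : SG N n P) : SG N (n + 1) (fun v => ¬ P v) :=
  ⟨_, ren n P (fun i => i + 1) h, fun _ _ =>
    ⟨fun hp => ⟨cst ∅, real_cst omega_zero, hp⟩, fun ⟨_, _, hp⟩ => hp⟩⟩

/-! ### parts of a real -/

/-- the `j`-th part of the real `y` -/
noncomputable def part (h j y : ZF) : ZF := graph (fun n => app y (app h (pair j n))) om

instance tm_part {a b c : Env → ZF} [Tm N a] [Tm N b] [Tm N c] :
    Tm N (fun v => part (a v) (b v) (c v)) := by
  unfold part; infer_instance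

/-- `h` codes pairs of naturals -/
structure PP (N : Set ZF) (h : ZF) : Prop where
  mem : h ∈ N
  nat : ∀ j ∈ om, ∀ n ∈ om, app h (pair j n) ∈ om
  join : ∀ f ∈ N, (∀ j ∈ om, Real N (app f j)) → ∃ Y, Real N Y ∧ ∀ j ∈ om, part h j Y = app f j

theorem exists_PP : ∃ h, PP N h := by
  classical
  obtain ⟨g, hg, h1⟩ := (inf_omega (M := N)).sq
  have := In.mk' hg
  obtain ⟨h, hh, h2⟩ := skolem (M := N) (fun p x => x ∈ om ∧ app g x = p) inferInstance
    (In.mem (prod om om)) fun p hp => by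
      obtain ⟨x, hx, e⟩ := h1 p hp
      exact ⟨x, tr hM.infinity hx, hx, e⟩
  refine ⟨h, hh, fun j hj n hn => (h2 _ (pair_mem_prod.2 ⟨hj, hn⟩)).1, fun f hf h3 => ?_⟩
  have := In.mk' hf
  refine ⟨graph (fun n => if app g n ∈ prod om om then app (app f (fst (app g n))) (snd (app g n))
    else ∅) om, ⟨In.mem _, graph_isFunc fun n _ => ?_⟩, fun j hj => ?_⟩
  · split_ifs with h4
    · obtain ⟨a, ha, b, hb, e⟩ := mem_prod.1 h4
      rw [e, fst_pair, snd_pair]
      exact real_app (h3 a ha) hb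
    · exact omega_zero
  · rw [← graph_app (h3 j hj)]
    refine graph_congr fun n hn => ?_
    obtain ⟨h4, h5⟩ := h2 _ (pair_mem_prod.2 ⟨hj, hn⟩)
    rw [app_graph h4, h5, if_pos (pair_mem_prod.2 ⟨hj, hn⟩), fst_pair, snd_pair]

namespace PP

variable {h : ZF} (H : PP N h)
include H

theorem real {j y : ZF} (hj : j ∈ om) (hy : Real N y) : Real N (part h j y) := by
  have := In.mk' H.mem
  have := In.mk' (tr hM.infinity hj)
  have := In.mk' hy.1
  exact ⟨In.mem _, graph_isFunc fun n hn => real_app hy (H.nat j hj n hn)⟩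

theorem rt {j : ZF} (hj : j ∈ om) {t : Env → ZF} (ht : RT N t) : RT N (fun v => part h j (t v)) := by
  have := In.mk' H.mem
  have := In.mk' (tr hM.infinity hj)
  have := ht.tm
  refine ⟨inferInstance, fun v hv => H.real hj (ht.re v hv), fun n hn v hv => ?_⟩
  obtain ⟨m, h1⟩ := ht.lc _ (H.nat j hj n hn) v hv
  refine ⟨m, fun w hw ha => ?_⟩
  simp only [part, app_graph hn]
  exact h1 w hw ha

theorem join2 {a b : ZF} (ha : Real N a) (hb : Real N b) :
    ∃ Y, Real N Y ∧ part h ∅ Y = a ∧ part h (num 1) Y = b := by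
  classical
  have := In.mk' ha.1
  have := In.mk' hb.1
  obtain ⟨Y, h1, h2⟩ := H.join (graph (fun j => if j = ∅ then a else b) om) (In.mem _) fun j hj => by
    rw [app_graph hj]
    split_ifs
    exacts [ha, hb]
  refine ⟨Y, h1, ?_, ?_⟩
  · rw [h2 _ omega_zero, app_graph omega_zero, if_pos rfl]
  · have h3 : num 1 ≠ ∅ := fun e => absurd ((num_inj (m := 1) (n := 0)).1 e) (by omega)
    rw [h2 _ (num_mem_omega 1), app_graph (num_mem_omega 1), if_neg h3]

end PP

theorem and_or (n : ℕ) : (∀ P Q, SG N n P → SG N n Q → SG N n (fun v => P v ∧ Q v)) ∧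
    ∀ P Q, SG N n P → SG N n Q → SG N n (fun v => P v ∨ Q v) := by
  induction n with
  | zero =>
    constructor
    · rintro P Q ⟨⟨P', h1, h2⟩, h3⟩ ⟨⟨Q', h4, h5⟩, h6⟩
      refine ⟨⟨fun v => P' v ∧ Q' v, inferInstance, fun v hv => and_congr (h2 v hv) (h5 v hv)⟩,
        fun v hv hp => ?_⟩
      obtain ⟨m, h7⟩ := h3 v hv hp.1
      obtain ⟨m', h8⟩ := h6 v hv hp.2
      exact ⟨m + m', fun w hw ha =>
        ⟨h7 w hw (agr_mono ha (by omega)), h8 w hw (agr_mono ha (by omega))⟩⟩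
    · rintro P Q ⟨⟨P', h1, h2⟩, h3⟩ ⟨⟨Q', h4, h5⟩, h6⟩
      refine ⟨⟨fun v => P' v ∨ Q' v, inferInstance, fun v hv => or_congr (h2 v hv) (h5 v hv)⟩,
        fun v hv hp => ?_⟩
      rcases hp with hp | hp
      · exact (h3 v hv hp).imp fun m h w hw ha => Or.inl (h w hw ha)
      · exact (h6 v hv hp).imp fun m h w hw ha => Or.inr (h w hw ha)
  | succ n ih =>
    obtain ⟨h, H⟩ := exists_PP (N := N)
    constructor
    · rintro P Q ⟨P', h1, h2⟩ ⟨Q', h3, h4⟩
      refine ⟨_, ih.2 _ _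
        (sub n (cns (fun v => part h ∅ (v 0)) fun i v => v (i + 1))
          (rt_cns (H.rt omega_zero (rt_var 0)) fun i => rt_var _) h1)
        (sub n (cns (fun v => part h (num 1) (v 0)) fun i v => v (i + 1))
          (rt_cns (H.rt (num_mem_omega 1) (rt_var 0)) fun i => rt_var _) h3), fun v hv => ?_⟩
      have e : ∀ j y, (fun i => cns (fun v : Env => part h j (v 0)) (fun i v => v (i + 1)) i
          (cons y v)) = cons (part h j y) v := fun j y => by
        funext i; cases i <;> rfl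
      simp only [e, h2 v hv, h4 v hv, not_or]
      constructor
      · rintro ⟨⟨a, ha, h5⟩, b, hb, h6⟩
        obtain ⟨Y, h7, rfl, rfl⟩ := H.join2 ha hb
        exact ⟨Y, h7, h5, h6⟩
      · rintro ⟨Y, h5, h6, h7⟩
        exact ⟨⟨_, H.real omega_zero h5, h6⟩, _, H.real (num_mem_omega 1) h5, h7⟩
    · rintro P Q ⟨P', h1, h2⟩ ⟨Q', h3, h4⟩
      refine ⟨_, ih.1 _ _ h1 h3, fun v hv => ?_⟩
      simp only [h2 v hv, h4 v hv, not_and_or]
      constructor
      · rintro (⟨a, ha, h5⟩ | ⟨a, ha, h5⟩)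
        exacts [⟨a, ha, Or.inl h5⟩, ⟨a, ha, Or.inr h5⟩]
      · rintro ⟨a, ha, h5 | h5⟩
        exacts [Or.inl ⟨a, ha, h5⟩, Or.inr ⟨a, ha, h5⟩]

theorem ex (n : ℕ) (P : Env → Prop) (hP : SG N (n + 1) P) :
    SG N (n + 1) (fun v => ∃ y, Real N y ∧ P (cons y v)) := by
  obtain ⟨h, H⟩ := exists_PP (N := N)
  obtain ⟨Q, h1, h2⟩ := hP
  refine ⟨_, sub n (cns (fun v => part h ∅ (v 0)) (cns (fun v => part h (num 1) (v 0))
    fun i v => v (i + 1))) (rt_cns (H.rt omega_zero (rt_var 0))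
      (rt_cns (H.rt (num_mem_omega 1) (rt_var 0)) fun i => rt_var _)) h1, fun v hv => ?_⟩
  have e : ∀ y, (fun i => cns (fun v : Env => part h ∅ (v 0)) (cns (fun v => part h (num 1) (v 0))
      fun i v => v (i + 1)) i (cons y v)) = cons (part h ∅ y) (cons (part h (num 1) y) v) :=
    fun y => by
      funext i
      rcases i with _ | _ | i <;> rfl
  simp only [e]
  constructor
  · rintro ⟨b, hb, h3⟩
    obtain ⟨a, ha, h4⟩ := (h2 _ (re_cons hv hb)).1 h3
    obtain ⟨Y, h7, rfl, rfl⟩ := H.join2 ha hb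
    exact ⟨Y, h7, h4⟩
  · rintro ⟨Y, h5, h6⟩
    have h7 := H.real (num_mem_omega 1) h5
    exact ⟨_, h7, (h2 _ (re_cons hv h7)).2 ⟨_, H.real omega_zero h5, h6⟩⟩

theorem exn (P : Env → Prop) (hP : SG N 1 P) :
    SG N 1 (fun v => ∃ j ∈ om, P (cons (cst j) v)) := by
  obtain ⟨h, H⟩ := exists_PP (N := N)
  obtain ⟨Q, h1, h2⟩ := hP
  refine ⟨_, sub 0 (cns (fun v => part h (num 1) (v 0)) (cns (fun v => cst (app (part h ∅ (v 0)) ∅))
    fun i v => v (i + 1))) (rt_cns (H.rt (num_mem_omega 1) (rt_var 0))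
      (rt_cns (H.rt omega_zero (rt_var 0)).val fun i => rt_var _)) h1, fun v hv => ?_⟩
  have e : ∀ y, (fun i => cns (fun v : Env => part h (num 1) (v 0))
      (cns (fun v => cst (app (part h ∅ (v 0)) ∅)) fun i v => v (i + 1)) i (cons y v)) =
      cons (part h (num 1) y) (cons (cst (app (part h ∅ y) ∅)) v) :=
    fun y => by
      funext i
      rcases i with _ | _ | i <;> rfl
  simp only [e]
  constructor
  · rintro ⟨j, hj, h3⟩
    obtain ⟨a, ha, h4⟩ := (h2 _ (re_cons hv (real_cst hj))).1 h3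
    obtain ⟨Y, h7, h8, rfl⟩ := H.join2 (real_cst hj) ha
    exact ⟨Y, h7, by rwa [h8, app_cst hj omega_zero]⟩
  · rintro ⟨Y, h5, h6⟩
    have h7 := real_app (H.real omega_zero h5) omega_zero
    exact ⟨_, h7, (h2 _ (re_cons hv (real_cst h7))).2 ⟨_, H.real (num_mem_omega 1) h5, h6⟩⟩

theorem alln (P : Env → Prop) (hP : SG N 1 P) :
    SG N 1 (fun v => ∀ j ∈ om, P (cons (cst j) v)) := by
  obtain ⟨h, H⟩ := exists_PP (N := N)
  have := In.mk' H.mem
  obtain ⟨Q, h1, h2⟩ := hP
  obtain ⟨⟨Q', h3, h4⟩, -⟩ := id h1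
  refine ⟨fun v => ∃ j ∈ om, Q (cons (part h j (v 0)) (cons (cst j) fun i => v (i + 1))),
    ⟨⟨fun v => ∃ j ∈ N, j ∈ om ∧ Q' (cons (part h j (v 0)) (cons (cst j) fun i => v (i + 1))),
      Df.exM (@Df.and _ _ _ inferInstance ?_), fun v hv => ?_⟩, ?_⟩, fun v hv => ?_⟩
  · refine (df_subst h3 (cns (fun v => part h (v 0) (v 1)) (cns (fun v => cst (v 0))
      fun i v => v (i + 2))) (tm_cns inferInstance (tm_cns inferInstance fun i => Tm.var _))).congr
      fun v _ => ?_
    refine iff_of_eq (congrArg Q' ?_)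
    funext i
    rcases i with _ | _ | i <;> rfl
  · constructor
    · rintro ⟨j, hj, h5⟩
      exact ⟨j, tr hM.infinity hj, hj, (h4 _ (re_cons (re_cons (re_tail hv) (real_cst hj))
        (H.real hj (hv 0)))).1 h5⟩
    · rintro ⟨j, -, hj, h5⟩
      exact ⟨j, hj, (h4 _ (re_cons (re_cons (re_tail hv) (real_cst hj)) (H.real hj (hv 0)))).2 h5⟩
  · rintro v hv ⟨j, hj, h5⟩
    have e : ∀ w : Env, (fun i => cns (fun v : Env => part h j (v 0)) (cns (fun _ => cst j)
        fun i v => v (i + 1)) i w) = cons (part h j (w 0)) (cons (cst j) fun i => w (i + 1)) :=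
      fun w => by
        funext i
        rcases i with _ | _ | i <;> rfl
    obtain ⟨m, h6⟩ := (sub 0 (cns (fun v => part h j (v 0)) (cns (fun _ => cst j)
      fun i v => v (i + 1))) (rt_cns (H.rt hj (rt_var 0))
        (rt_cns (rt_const (real_cst hj)) fun i => rt_var _)) h1).2 v hv (by beta_reduce; rwa [e])
    exact ⟨m, fun w hw ha => ⟨j, hj, by rw [← e]; exact h6 w hw ha⟩⟩
  · constructor
    · intro h5
      have h6 : Df N (fun w => Q' (cons (w 1) (cons (cst (w 0)) v))) := by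
        refine (df_subst h3 (cns (fun w => w 1) (cns (fun w => cst (w 0)) fun i _ => v i))
          (tm_cns inferInstance (tm_cns inferInstance fun i => In.mk' (hv i).1))).congr
          fun w _ => ?_
        refine iff_of_eq (congrArg Q' ?_)
        funext i
        rcases i with _ | _ | i <;> rfl
      obtain ⟨f, hf, h7⟩ := skolem (M := N) (fun j y => Real N y ∧ ¬ Q' (cons y (cons (cst j) v)))
        inferInstance hM.infinity fun j hj => by
          obtain ⟨y, hy, h7⟩ := (h2 _ (re_cons hv (real_cst hj))).1 (h5 j hj)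
          exact ⟨y, hy.1, hy, fun h8 => h7 ((h4 _ (re_cons (re_cons hv (real_cst hj)) hy)).2 h8)⟩
      obtain ⟨Y, h8, h9⟩ := H.join f hf fun j hj => (h7 j hj).1
      refine ⟨Y, h8, ?_⟩
      rintro ⟨j, hj, h10⟩
      rw [cons_zero, h9 j hj] at h10
      exact (h7 j hj).2 ((h4 _ (re_cons (re_cons hv (real_cst hj)) (h7 j hj).1)).1 h10)
    · rintro ⟨Y, h5, h6⟩ j hj
      exact (h2 _ (re_cons hv (real_cst hj))).2 ⟨_, H.real hj h5, fun h7 => h6 ⟨j, hj, h7⟩⟩

end CalcP

end Pool.Agent.P.MP_9a7e1f_lc
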