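import Pool.Agent.P.MP_9a7e1f_lc.St2

/-! The generic reals and the generic codes. -/

set_option linter.unusedSectionVars false

namespace Pool.Agent.P.MP_9a7e1f_lc

open ZFSet Pool.Agent.P.MP_3ab3de_lc

namespace CodeP

/-- a finite set misses a numeral -/
theorem exists_num_notMem {B : ZF} (h : Fn B) : ∃ n : ℕ, num n ∉ B := by
  by_contra h'
  simp only [not_exists, not_not] at h'
  exact Set.infinite_of_injective_forall_mem (f := num) (fun _ _ => num_inj.1) h' h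

/-- a long node is not below a short one -/
theorem not_subset_of_long {n m : ℕ} {u t : ZF} (hu : ∀ k ∈ num m, ∃ j, pair k j ∈ u)
    (ht : IsFunc (num n) om t) (h : n < m) : ¬ u ⊆ t := fun h' => by
  obtain ⟨j, hj⟩ := hu _ (num_mem_num.2 h)
  exact mem_irrefl _ (ht.mem (h' hj)).1

theorem Stem.sub {s S T : ZF} (h : Stem s T) (h' : S ⊆ T) : Stem s S := fun t ht => h t (h' ht)

section trees

variable {J : ZF} (h1 : T1 Fn J) (h2 : T2 J)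
include h1 h2

/-- a subtree with a stem above all the stems of the tree -/
theorem stem_top {T : ZF} (hT : T ∈ J) :
    ∃ T' ∈ J, ∃ s' ∈ T', T' ⊆ T ∧ Stem s' T' ∧ ∀ s, Sq s → Stem s T → s ⊆ s' := by
  obtain ⟨T0, hT0, T1, hT1, s0, h0, s1, h1', h3, h4, h5, -, h7, h8⟩ := h2 T hT
  refine ⟨T0, hT0, s0, h0, h3, h5, fun s hs h => (h s0 (h3 h0)).resolve_left fun k => ?_⟩
  rcases h s1 (h4 h1') with k' | k'
  · exact ((h1 T0 hT0 s0 h0).1.2.comp (h1 T1 hT1 s1 h1').1.2 hs k k').elim h7 h8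
  · exact h7 fun _ hx => k' (k hx)

end trees

/-- a tree at `i'` omits a stem of a tree at `i` -/
def Sep (q i i' : ZF) : Prop :=
  ∃ S s T, tA i S ∈ q ∧ Stem s S ∧ Sq s ∧ tA i' T ∈ q ∧ s ∉ T

theorem Sep.mono {q q' i i' : ZF} (h : Sep q i i') (h' : q ⊆ q') : Sep q' i i' := by
  obtain ⟨S, s, T, k1, k2, k3, k4, k5⟩ := h
  exact ⟨S, s, T, h' k1, k2, k3, h' k4, k5⟩

section cond

variable {I E J : ZF} (hne : ∃ T, T ∈ J) (h1 : T1 Fn J) (h2 : T2 J)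
include hne h1 h2

/-- separation of two indices -/
theorem sep_step {q i i' : ZF} (hq : Fn q) (hv : Val I E J q) (hi : i ∈ I) (hi' : i' ∈ I)
    (hne' : i' ≠ i) : ∃ q', Fn q' ∧ Val I E J q' ∧ q ⊆ q' ∧ (∀ e, nA e ∈ q' → nA e ∈ q) ∧
      Sep q' i i' := by
  obtain ⟨S, hS, k1⟩ := hv.low hne i
  obtain ⟨T, hT, k2⟩ := hv.low hne i'
  obtain ⟨S', hS', T', hT', s, k3, k4, k5, k6, k7⟩ := sep_two h1 h2 hS hT
  refine ⟨insert (tA i' T') (insert (tA i S') q), (hq.insert _).insert _,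
    (hv.add_tA hi hS' fun T'' k _ hx => k1 T'' k (k4 hx)).add_tA hi' hT' fun T'' k => ?_,
    fun _ h => mem_insert_of_mem _ (mem_insert_of_mem _ h), fun e h => by simpa using h,
    S', s, T', mem_insert_of_mem _ (mem_insert _ _), k6, (h1 S' hS' s k3).1.2, mem_insert _ _, k7⟩
  rcases mem_insert_iff.1 k with e | k
  · exact absurd (tA_inj.1 e).1 hne'
  · exact fun _ hx => k2 T'' k (k5 hx)

/-- separation from all the promises -/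
theorem sep_all {p ζ i j : ZF} (hp : Fn p) (hv : Val I E J p) (hi : i ∈ I) (hj : j ∈ I)
    (h : ∀ i' j', nA (prE ζ i' j') ∈ p → i' ∈ I ∧ j' ∈ I ∧ (i' ≠ i ∨ j' ≠ j)) :
    ∃ q, Fn q ∧ Val I E J q ∧ p ⊆ q ∧ (∀ e, nA e ∈ q → nA e ∈ p) ∧
      ∀ i' j', nA (prE ζ i' j') ∈ p → Sep q i i' ∨ Sep q j j' := by
  refine hp.ind (Q := fun b => ∃ q, Fn q ∧ Val I E J q ∧ p ⊆ q ∧ (∀ e, nA e ∈ q → nA e ∈ p) ∧
      ∀ i' j', nA (prE ζ i' j') ∈ b → Sep q i i' ∨ Sep q j j')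
    ⟨p, hp, hv, fun _ h => h, fun _ h => h, fun _ _ h => absurd h (notMem_empty _)⟩ ?_
  rintro x b hx - - - ⟨q, k1, k2, k3, k4, k5⟩
  by_cases hx' : ∃ i' j', x = nA (prE ζ i' j')
  · obtain ⟨i', j', rfl⟩ := hx'
    obtain ⟨hi', hj', k6⟩ := h i' j' hx
    have : ∃ q', Fn q' ∧ Val I E J q' ∧ q ⊆ q' ∧ (∀ e, nA e ∈ q' → nA e ∈ q) ∧
        (Sep q' i i' ∨ Sep q' j j') := by
      rcases k6 with k6 | k6
      · obtain ⟨q', l1, l2, l3, l4, l5⟩ := sep_step hne h1 h2 k1 k2 hi hi' k6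
        exact ⟨q', l1, l2, l3, l4, Or.inl l5⟩
      · obtain ⟨q', l1, l2, l3, l4, l5⟩ := sep_step hne h1 h2 k1 k2 hj hj' k6
        exact ⟨q', l1, l2, l3, l4, Or.inr l5⟩
    obtain ⟨q', l1, l2, l3, l4, l5⟩ := this
    refine ⟨q', l1, l2, fun _ h => l3 (k3 h), fun e h => k4 e (l4 e h), fun i2 j2 h => ?_⟩
    rcases mem_insert_iff.1 h with e | h
    · obtain ⟨-, rfl, rfl⟩ := prE_inj.1 (nA_inj.1 e)
      exact l5
    · exact (k5 i2 j2 h).imp (·.mono l3) (·.mono l3)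
  · refine ⟨q, k1, k2, k3, k4, fun i2 j2 h => k5 i2 j2 ?_⟩
    exact (mem_insert_iff.1 h).resolve_left fun e => hx' ⟨i2, j2, e.symm⟩

/-- a long stem that respects the separations -/
theorem pick {q : ZF} (hv : Val I E J q) (i : ZF) (n : ℕ) :
    ∃ S ∈ J, ∃ s ∈ S, (∀ T', tA i T' ∈ q → S ⊆ T') ∧ Stem s S ∧ (∃ k, pair (num n) k ∈ s) ∧
      ∀ i', Sep q i i' → ∃ T, tA i' T ∈ q ∧ s ∉ T := by
  obtain ⟨S0, hS0, k1⟩ := hv.low hne i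
  obtain ⟨S1, hS1, u, k2, k3, k4, k5⟩ := stem_long h1 h2 hS0 (n + 1)
  obtain ⟨S2, hS2, s, k6, k7, k8, k9⟩ := stem_top h1 h2 hS1
  refine ⟨S2, hS2, s, k6, fun T' k _ hx => k1 T' k (k3 (k7 hx)), k8, ?_, ?_⟩
  · obtain ⟨k, hk⟩ := k5 _ (num_mem_num.2 (Nat.lt_succ_self n))
    exact ⟨k, k9 u (h1 S1 hS1 u k2).1.2 k4 hk⟩
  · rintro i' ⟨S, s', T, l1, l2, l3, l4, l5⟩
    refine ⟨T, l4, fun l6 => l5 (h1.down (hv.tA l4).2.1 l6 l3 (k9 s' l3 ?_))⟩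
    exact Stem.sub l2 fun _ hx => k1 S l1 (k3 hx)

/-- a new long node on the reals `i`, `j` -/
theorem new_node {p ζ i j : ZF} (hp : Fn p) (hv : Val I E J p) (hi : i ∈ I) (hj : j ∈ I)
    (hE : ∀ s ∈ Nds, ∀ t ∈ Nds, ndE ζ s t ∈ E)
    (h : ∀ i' j', nA (prE ζ i' j') ∈ p → i' ∈ I ∧ j' ∈ I ∧ (i' ≠ i ∨ j' ≠ j)) (n : ℕ) :
    ∃ q, Fn q ∧ Val I E J q ∧ Leq q p ∧ ∃ s ∈ Nds, ∃ t ∈ Nds, nA (ndE ζ s t) ∈ q ∧
      (∃ k, pair (num n) k ∈ s) ∧ (∃ S, tA i S ∈ q ∧ Stem s S) ∧ ∃ T, tA j T ∈ q ∧ Stem t T := by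
  obtain ⟨q, k1, k2, k3, k4, k5⟩ := sep_all hne h1 h2 hp hv hi hj h
  obtain ⟨S, hS, s, l1, l2, l3, l4, l5⟩ := pick hne h1 h2 k2 i n
  have k6 := k2.add_tA hi hS l2
  obtain ⟨T, hT, t, m1, m2, m3, -, m5⟩ := pick hne h1 h2 k6 j n
  have k7 := k6.add_tA hj hT m2
  have hs := h1.nds hS l1
  have ht := h1.nds hT m1
  refine ⟨insert (nA (ndE ζ s t)) (insert (tA j T) (insert (tA i S) q)),
    ((k1.insert _).insert _).insert _, k7.add_nA (hE s hs t ht),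
    ⟨fun _ hx => mem_insert_of_mem _ (mem_insert_of_mem _ (mem_insert_of_mem _ (k3 hx))),
      fun ζ' s' t' n1 n2 i' j' n3 => ?_⟩, s, hs, t, ht, mem_insert _ _, l4,
    ⟨S, mem_insert_of_mem _ (mem_insert_of_mem _ (mem_insert _ _)), l3⟩,
    T, mem_insert_of_mem _ (mem_insert _ _), m3⟩
  rcases mem_insert_iff.1 n1 with e | n1
  · obtain ⟨rfl, rfl, rfl⟩ := ndE_inj.1 (nA_inj.1 e)
    rcases k5 i' j' n3 with n4 | n4
    · obtain ⟨T', n5, n6⟩ := l5 i' n4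
      exact ⟨T', Or.inl ⟨mem_insert_of_mem _ (mem_insert_of_mem _ (mem_insert_of_mem _ n5)), n6⟩⟩
    · obtain ⟨T', n5, n6⟩ := m5 j' (n4.mono fun _ hx => mem_insert_of_mem _ hx)
      exact ⟨T', Or.inr ⟨mem_insert_of_mem _ (mem_insert_of_mem _ n5), n6⟩⟩
  · exact absurd (k4 _ (by simpa using n1)) n2

end cond

section gen

variable {M N : Set ZF} [hM : TModel M] {I E J G : ZF} (h : PX M N I E J G)
include h

theorem val {p : ZF} (hp : p ∈ G) : Fn p ∧ Val I E J p := mem_PP.1 (h.gen.sub hp)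

theorem dir {p q : ZF} (hp : p ∈ G) (hq : q ∈ G) : ∃ r ∈ G, Leq r p ∧ Leq r q := by
  obtain ⟨r, h1, h2, h3⟩ := h.gen.dir p hp q hq
  exact ⟨r, h1, (mem_LP.1 h2).2.2, (mem_LP.1 h3).2.2⟩

theorem meet (D : ZF → Prop) (hD : Df M (fun v => D (v 0)))
    (hd : ∀ p, Fn p → Val I E J p → ∃ q, Fn q ∧ Val I E J q ∧ Leq q p ∧ D q) : ∃ q ∈ G, D q := by
  have := In.mk' h.hI
  have := In.mk' h.hE
  have := In.mk' h.hJ
  obtain ⟨r, h1, h2⟩ := h.gen.meet (ZFSet.sep D (PP I E J)) (sep_mem' D hD (In.mem _))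
    fun p hp => by
      obtain ⟨q, k1, k2, k3, k4⟩ := hd p (mem_PP.1 hp).1 (mem_PP.1 hp).2
      exact ⟨q, mem_sep.2 ⟨mem_PP.2 ⟨k1, k2⟩, k4⟩, mem_LP.2 ⟨mem_PP.2 ⟨k1, k2⟩, hp, k3⟩⟩
  exact ⟨r, h1, (mem_sep.1 h2).2⟩

theorem tree_mem {i T : ZF} (hT : tA i T ∈ ZFSet.sUnion G) : T ∈ J := by
  obtain ⟨p, h1, h2⟩ := mem_sUnion.1 hT
  exact ((val h h1).2.tA h2).2.1

/-- a stem of one tree is in all the trees -/
theorem stem_all {i S s : ZF} (hS : tA i S ∈ ZFSet.sUnion G) (hs : Stem s S) (hs' : Sq s) :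
    ∀ T, tA i T ∈ ZFSet.sUnion G → s ∈ T := fun T hT => by
  obtain ⟨p, h1, h2⟩ := mem_sUnion.1 hS
  obtain ⟨q, h3, h4⟩ := mem_sUnion.1 hT
  obtain ⟨r, h5, h6, h7⟩ := dir h h1 h3
  obtain ⟨T', h8, h9⟩ := ((val h h5).2.tA (h6.1 h2)).2.2
  exact h9 T (h7.1 h4) (stem_mem h.t1 h.t2 ((val h h5).2.tA h8).2.1 hs'
    (Stem.sub hs (h9 S (h6.1 h2))))

/-- long stems -/
theorem long {i : ZF} (hi : i ∈ I) (n : ℕ) : ∃ S u, tA i S ∈ ZFSet.sUnion G ∧ u ∈ S ∧ Stem u S ∧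
    ∀ k ∈ num n, ∃ j, pair k j ∈ u := by
  have := In.mk' (tr h.hI hi)
  obtain ⟨q, h1, S, h2, u, h3⟩ := meet h (fun q => ∃ S, tA i S ∈ q ∧ ∃ u ∈ S, Stem u S ∧
      ∀ k ∈ num n, ∃ j, pair k j ∈ u) inferInstance fun p hp hv => by
    obtain ⟨T, hT, k1⟩ := hv.low h.ne i
    obtain ⟨S, hS, u, k2, k3, k4⟩ := stem_long h.t1 h.t2 hT n
    exact ⟨_, hp.insert _, hv.add_tA hi hS fun T' k _ hx => k1 T' k (k3 hx), leq_add_tA p i S,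
      S, mem_insert _ _, u, k2, k4⟩
  exact ⟨S, u, mem_sUnion.2 ⟨q, h1, h2⟩, h3⟩

omit h in
theorem mem_aR {i a : ZF} : a ∈ aR G i ↔
    ∃ s, (s ∈ Nds ∧ ∀ T, tA i T ∈ ZFSet.sUnion G → s ∈ T) ∧ a ∈ s := by
  simp only [aR, mem_sUnion (y := a), mem_sep]

omit h in
theorem subset_aR {i s : ZF} (hs : s ∈ Nds) (h' : ∀ T, tA i T ∈ ZFSet.sUnion G → s ∈ T) :
    s ⊆ aR G i := fun _ ha => mem_aR.2 ⟨s, ⟨hs, h'⟩, ha⟩

theorem chain {i s t : ZF} (hi : i ∈ I) (hs : s ∈ Nds) (ht : t ∈ Nds)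
    (hs' : ∀ T, tA i T ∈ ZFSet.sUnion G → s ∈ T) (ht' : ∀ T, tA i T ∈ ZFSet.sUnion G → t ∈ T) :
    s ⊆ t ∨ t ⊆ s := by
  obtain ⟨n, hn⟩ := nds_iff.1 hs
  obtain ⟨m, hm⟩ := nds_iff.1 ht
  obtain ⟨S, u, h1, h2, h3, h4⟩ := long h hi (n + m + 1)
  exact (mem_Nds.1 hs).2.comp (mem_Nds.1 ht).2 (h.t1 S (tree_mem h h1) u h2).1.2
    ((h3 s (hs' S h1)).resolve_right (not_subset_of_long h4 hn (by omega)))
    ((h3 t (ht' S h1)).resolve_right (not_subset_of_long h4 hm (by omega)))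

theorem sq_aR {i : ZF} (hi : i ∈ I) : Sq (aR G i) := fun a ha => by
  obtain ⟨s, ⟨h1, h2⟩, h3⟩ := mem_aR.1 ha
  obtain ⟨k, j, rfl, h4, h5, h6, h7⟩ := (mem_Nds.1 h1).2 a h3
  refine ⟨k, j, rfl, h4, h5, fun k' hk' => (h6 k' hk').imp fun _ hx => subset_aR h1 h2 hx,
    fun j' hj' => ?_⟩
  obtain ⟨t, ⟨h8, h9⟩, h10⟩ := mem_aR.1 hj'
  rcases chain h hi h1 h8 h2 h9 with k1 | k1
  · exact (mem_Nds.1 h8).2.uniq h10 (k1 h3)
  · exact h7 j' (k1 h10)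

/-- long initial segments of the generic real -/
theorem long' {i : ZF} (hi : i ∈ I) (n : ℕ) : ∃ u ∈ Nds,
    (∀ T, tA i T ∈ ZFSet.sUnion G → u ∈ T) ∧ ∀ k ∈ num n, ∃ j, pair k j ∈ u := by
  obtain ⟨S, u, h1, h2, h3, h4⟩ := long h hi n
  have h5 := h.t1.nds (tree_mem h h1) h2
  exact ⟨u, h5, stem_all h h1 h3 (mem_Nds.1 h5).2, h4⟩

theorem real_aR {i : ZF} (hi : i ∈ I) : Real N (aR G i) := by
  constructor
  · have := h.ext.model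
    have := In.mk' h.ext.gen
    have := In.mk' (h.ext.sub (tr h.hI hi))
    exact In.mem _
  · refine ⟨(sq_aR h hi).subset, fun k hk => ?_⟩
    obtain ⟨n, rfl⟩ := mem_omega.1 hk
    obtain ⟨u, h1, h2, h3⟩ := long' h hi (n + 1)
    obtain ⟨j, hj⟩ := h3 _ (num_mem_num.2 (Nat.lt_succ_self n))
    exact ⟨j, subset_aR h1 h2 hj, fun j' hj' => (sq_aR h hi).uniq hj' (subset_aR h1 h2 hj)⟩

theorem subset_iff {i s : ZF} (hi : i ∈ I) (hs : s ∈ Nds) :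
    s ⊆ aR G i ↔ ∀ T, tA i T ∈ ZFSet.sUnion G → s ∈ T := by
  refine ⟨fun h0 T hT => ?_, subset_aR hs⟩
  obtain ⟨n, hn⟩ := nds_iff.1 hs
  obtain ⟨u, h1, h2, h3⟩ := long' h hi (n + 1)
  exact h.t1.down (tree_mem h hT) (h2 T hT) (mem_Nds.1 hs).2
    (((mem_Nds.1 hs).2.comp (mem_Nds.1 h1).2 (sq_aR h hi) h0 (subset_aR h1 h2)).resolve_right
      (not_subset_of_long h3 hn (Nat.lt_succ_self n)))

theorem branch {i U : ZF} (hi : i ∈ I) (hU : U ∈ M)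
    (h0 : ∀ T ∈ J, ∃ T' ∈ J, ∃ V ∈ U, T' ⊆ T ∧ T' ⊆ V) : ∃ V ∈ U, Br (aR G i) V := by
  have := In.mk' (tr h.hI hi)
  have := In.mk' hU
  obtain ⟨q, h1, V, h2, T, h3, h4⟩ := meet h (fun q => ∃ V ∈ U, ∃ T, tA i T ∈ q ∧ T ⊆ V)
    inferInstance fun p hp hv => by
      obtain ⟨T, hT, k1⟩ := hv.low h.ne i
      obtain ⟨T', hT', V, hV, k2, k3⟩ := h0 T hT
      exact ⟨_, hp.insert _, hv.add_tA hi hT' fun T'' k _ hx => k1 T'' k (k2 hx),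
        leq_add_tA p i T', V, hV, T', mem_insert _ _, k3⟩
  refine ⟨V, h2, fun a ha => ?_⟩
  obtain ⟨s, ⟨k1, k2⟩, k3⟩ := mem_aR.1 ha
  exact ⟨s, h4 (k2 T (mem_sUnion.2 ⟨q, h1, h3⟩)), subset_aR k1 k2, k3⟩

omit h in
theorem mem_rR {ζ s t : ZF} : pair s t ∈ rR G ζ ↔
    (s ∈ Nds ∧ t ∈ Nds) ∧ nA (ndE ζ s t) ∈ ZFSet.sUnion G := by
  simp only [rR, mem_sep, pair_mem_prod, fst_pair, snd_pair]

/-- a promise is kept -/
theorem ff_of_promise {ζ i j : ZF} (hζ : ζ ∈ M) (hi : i ∈ I) (hj : j ∈ I) (hE : prE ζ i j ∈ E) :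
    FF (rR G ζ) (aR G i) (aR G j) := by
  have := In.mk' hζ
  have := In.mk' (tr h.hI hi)
  have := In.mk' (tr h.hI hj)
  obtain ⟨p, h1, h2⟩ := meet h (fun q => nA (prE ζ i j) ∈ q) inferInstance fun p hp hv =>
    ⟨_, hp.insert _, hv.add_nA hE, Leq.of_subset (fun _ hx => mem_insert_of_mem _ hx)
      fun _ _ _ hx => by simpa using hx, mem_insert _ _⟩
  have h3 : Fn (bun (fun a => dom (fst (snd (snd (snd a)))))
      (ZFSet.sep (fun a => Fn (fst (snd (snd (snd a))))) p)) :=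
    ((val h h1).1.subset sep_subset).bun fun a ha => (mem_sep.1 ha).2.img fst
  obtain ⟨n, hn⟩ := exists_num_notMem h3
  refine ⟨num n, num_mem_omega n, fun s t k1 k2 k3 k hk => hn ?_⟩
  obtain ⟨⟨hs, ht⟩, k4⟩ := mem_rR.1 k1
  have k5 : nA (ndE ζ s t) ∈ p := by
    by_contra k5
    obtain ⟨q, k6, k7⟩ := mem_sUnion.1 k4
    obtain ⟨r, k8, k9, k10⟩ := dir h h1 k6
    obtain ⟨T, k11 | k11⟩ := k9.2 ζ s t (k10.1 k7) k5 i j h2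
    · exact k11.2 ((subset_iff h hi hs).1 k2 T (mem_sUnion.2 ⟨r, k8, k11.1⟩))
    · exact k11.2 ((subset_iff h hj ht).1 k3 T (mem_sUnion.2 ⟨r, k8, k11.1⟩))
  have e : fst (snd (snd (snd (nA (ndE ζ s t))))) = s := by simp [nA, ndE]
  refine mem_bun.2 ⟨_, mem_sep.2 ⟨k5, ?_⟩, ?_⟩
  · rw [e]
    exact (mem_Nds.1 hs).1
  · rw [e]
    exact mem_dom.2 ⟨_, hk, fst_pair _ _⟩

/-- without a promise there are infinitely many nodes -/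
theorem not_ff {ζ i j : ZF} (hζ : ζ ∈ M) (hi : i ∈ I) (hj : j ∈ I)
    (hE : ∀ s ∈ Nds, ∀ t ∈ Nds, ndE ζ s t ∈ E)
    (hE' : ∀ i' j', prE ζ i' j' ∈ E → i' ∈ I ∧ j' ∈ I ∧ (i' ≠ i ∨ j' ≠ j)) :
    ¬ FF (rR G ζ) (aR G i) (aR G j) := by
  rintro ⟨_, hn, h0⟩
  obtain ⟨n, rfl⟩ := mem_omega.1 hn
  have := In.mk' hζ
  have := In.mk' (tr h.hI hi)
  have := In.mk' (tr h.hI hj)
  obtain ⟨q, h1, s, hs, t, ht, h2, ⟨k, h3⟩, ⟨S, h4, h5⟩, T, h6, h7⟩ := meet h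
    (fun q => ∃ s ∈ Nds, ∃ t ∈ Nds, nA (ndE ζ s t) ∈ q ∧ (∃ k, pair (num n) k ∈ s) ∧
      (∃ S, tA i S ∈ q ∧ Stem s S) ∧ ∃ T, tA j T ∈ q ∧ Stem t T) inferInstance
    fun p hp hv => new_node h.ne h.t1 h.t2 hp hv hi hj hE (fun i' j' hx => hE' i' j' (hv.nA hx)) n
  exact h0 s t (mem_rR.2 ⟨⟨hs, ht⟩, mem_sUnion.2 ⟨q, h1, h2⟩⟩)
    (subset_aR hs (stem_all h (mem_sUnion.2 ⟨q, h1, h4⟩) h5 (mem_Nds.1 hs).2))
    (subset_aR ht (stem_all h (mem_sUnion.2 ⟨q, h1, h6⟩) h7 (mem_Nds.1 ht).2)) k h3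

end gen

end CodeP

theorem real' : S_Real := fun _ _ _ _ _ _ _ h _ hi =>
  ⟨CodeP.real_aR h hi, fun _ hs => CodeP.subset_iff h hi hs, fun _ hU _ h0 => CodeP.branch h hi hU h0⟩

set_option linter.unusedVariables false in
theorem code' (h : S_Real) : S_Code := by
  intro M N _ κ J G hκ h ζ hζ i hi j hj
  refine ⟨fun h0 => by_contra fun h1 => CodeP.not_ff h (tr hκ hζ) hi hj
    (fun s hs t ht => ndE_mem_EE.2 ⟨hζ, hs, ht⟩) (fun i' j' h2 => ?_) h0,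
    fun h0 => CodeP.ff_of_promise h (tr hκ hζ) hi hj (prE_mem_EE.2 ⟨hζ, hi, hj, h0⟩)⟩
  obtain ⟨-, h3, h4, h5⟩ := prE_mem_EE.1 h2
  refine ⟨h3, h4, by_contra fun h6 => h1 ?_⟩
  simp only [ne_eq, not_or, not_not] at h6
  exact h6.1 ▸ h6.2 ▸ h5

end Pool.Agent.P.MP_9a7e1f_lc
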