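import Pool.Agent.P.MP_9a7e1f_lc.St2

/-! Copying a condition into a hull. -/

set_option linter.unusedSectionVars false

namespace Pool.Agent.P.MP_9a7e1f_lc

open ZFSet Pool.Agent.P.MP_3ab3de_lc

namespace CopyP

theorem exists_zf {S : Set ZF} (hS : S.Finite) : ∃ x : ZF, Fn x ∧ ∀ a, a ∈ x ↔ a ∈ S := by
  induction S, hS using Set.Finite.induction_on with
  | empty => exact ⟨∅, fn_empty, fun a => by simp⟩
  | @insert a s _ _ ih =>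
    obtain ⟨x, h1, h2⟩ := ih
    exact ⟨insert a x, h1.insert a, fun b => by rw [mem_insert_iff, Set.mem_insert_iff, h2]⟩

variable {M : Set ZF} [TModel M] {κ H : ZF}

theorem empty_II : ∅ ∈ II M κ :=
  mem_II.2 ⟨⟨fun _ h => absurd h (notMem_empty _), empty_mem⟩, le_empty _⟩

theorem union_II {a b : ZF} (ha : a ∈ II M κ) (hb : b ∈ II M κ) : a ∪ b ∈ II M κ := by
  obtain ⟨⟨h1, h2⟩, h3⟩ := mem_II.1 ha
  obtain ⟨⟨h4, h5⟩, h6⟩ := mem_II.1 hb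
  have := In.mk' h2
  have := In.mk' h5
  exact mem_II.2 ⟨⟨fun x hx => (mem_union.1 hx).elim (fun h => h1 h) fun h => h4 h, In.mem _⟩,
    inf_omega.union h2 h5 h3 h6⟩

theorem sec_II {ζ i : ZF} (hζ : ζ ∈ M) (hi : i ∈ II M κ) : sec ζ i ∈ II M κ := by
  obtain ⟨⟨h1, h2⟩, h3⟩ := mem_II.1 hi
  have := In.mk' h2
  have := In.mk' hζ
  refine mem_II.2 ⟨⟨fun x hx => h1 (mem_sep.1 hx).1, ?_⟩, h3.mono sep_subset⟩
  unfold sec
  exact In.mem _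

theorem insert_II (hκ : om ⊆ κ) {n : ℕ} (hn : n ≠ 0) {i : ZF} (hi : i ∈ II M κ) :
    insert (pair (num n) ∅) i ∈ II M κ := by
  obtain ⟨⟨h1, h2⟩, h3⟩ := mem_II.1 hi
  have := In.mk' h2
  refine mem_II.2 ⟨⟨fun x hx => ?_, In.mem _⟩, inf_omega.insert (In.mem _) h2 h3⟩
  rcases mem_insert_iff.1 hx with rfl | hx
  · exact pair_mem_BB.2 ⟨hκ (num_mem_omega n), hκ (num_mem_omega 0),
      (num_mem_num (m := 0)).2 (Nat.pos_of_ne_zero hn)⟩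
  · exact h1 hx

theorem fin_union (h0 : ∅ ∈ H) (hu : ∀ a ∈ H, ∀ b ∈ H, a ∪ b ∈ H) {S : Set ZF} (hS : S.Finite)
    (h : ∀ s ∈ S, s ∈ II M κ ∧ s ∈ H) :
    ∃ u, (u ∈ II M κ ∧ u ∈ H) ∧ ∀ x, x ∈ u ↔ ∃ s ∈ S, x ∈ s := by
  induction S, hS using Set.Finite.induction_on with
  | empty => exact ⟨∅, ⟨empty_II, h0⟩, fun x => by simp⟩
  | @insert a s _ _ ih =>
    obtain ⟨u, ⟨h1, h2⟩, h3⟩ := ih fun t ht => h t (Set.mem_insert_of_mem _ ht)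
    obtain ⟨h4, h5⟩ := h a (Set.mem_insert _ _)
    exact ⟨a ∪ u, ⟨union_II h4 h1, hu a h5 u h2⟩, fun x => by simp [h3]⟩

/-- the relabelling of the indices -/
theorem tau (hκ : om ⊆ κ) (hH : Ins H) (hu : ∀ a ∈ H, ∀ b ∈ H, a ∪ b ∈ H ∧ sec a b ∈ H)
    {I0 F : Set ZF} (hI0 : I0.Finite) (hF : F.Finite) (h1 : ∀ i ∈ I0, i ∈ II M κ)
    (h2 : ∀ ζ ∈ F, ζ ∈ M ∧ ζ ∈ H) :
    ∃ τ : ZF → ZF, (∀ i ∈ I0, τ i ∈ II M κ ∧ τ i ∈ H) ∧ (∀ i, i ∈ H → τ i = i) ∧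
      Set.InjOn τ I0 ∧ ∀ ζ ∈ F, ∀ i ∈ I0, ∀ j ∈ I0, Rl ζ i j → Rl ζ (τ i) (τ j) := by
  classical
  have hB : ∀ j : ZF, ∃ u, (u ∈ II M κ ∧ u ∈ H) ∧
      ∀ x, x ∈ u ↔ fst x ∈ F ∧ ∃ k ∈ I0, k ∈ H ∧ Rl (fst x) j k ∧ x ∈ k := by
    intro j
    obtain ⟨u, h3, h4⟩ := fin_union (M := M) (κ := κ) hH.1 (fun a ha b hb => (hu a ha b hb).1)
      (S := {s | ∃ ζ ∈ F, ∃ k ∈ I0, k ∈ H ∧ Rl ζ j k ∧ s = sec ζ k})
      ((Set.Finite.image2 sec hF hI0).subset (by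
        rintro s ⟨ζ, h3, k, h4, -, -, rfl⟩
        exact Set.mem_image2_of_mem h3 h4))
      (by
        rintro s ⟨ζ, h3, k, h4, h5, -, rfl⟩
        exact ⟨sec_II (h2 ζ h3).1 (h1 k h4), (hu ζ (h2 ζ h3).2 k h5).2⟩)
    refine ⟨u, h3, fun x => (h4 x).trans ⟨?_, ?_⟩⟩
    · rintro ⟨_, ⟨ζ, h5, k, h6, h7, h8, rfl⟩, h9⟩
      obtain ⟨h10, rfl⟩ := mem_sep.1 h9
      exact ⟨h5, k, h6, h7, h8, h10⟩
    · rintro ⟨h5, k, h6, h7, h8, h9⟩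
      exact ⟨_, ⟨_, h5, k, h6, h7, h8, rfl⟩, mem_sep.2 ⟨h9, rfl⟩⟩
  choose B hB1 hB2 using hB
  have key : ∀ (n m : ℕ) (j : ZF), num n ∉ F →
      pair (num n) ∅ ∈ insert (pair (num m) ∅) (B j) → n = m := by
    intro n m j hn h
    rcases mem_insert_iff.1 h with h | h
    · exact num_inj.1 (pair_inj.1 h).1
    · exact absurd (by simpa using ((hB2 j _).1 h).1) hn
  have hfin : ({0} ∪ (num ⁻¹' F) ∪ ⋃ j ∈ I0, ⋃ i ∈ I0,
      {n : ℕ | num n ∉ F ∧ insert (pair (num n) ∅) (B j) = i}).Finite := by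
    refine ((Set.finite_singleton 0).union (hF.preimage fun _ _ _ _ h => num_inj.1 h)).union
      (hI0.biUnion fun j _ => hI0.biUnion fun i _ => Set.Subsingleton.finite ?_)
    rintro n ⟨h3, h4⟩ m ⟨-, h5⟩
    exact key n m j h3 (h5.symm ▸ h4 ▸ mem_insert _ _)
  obtain ⟨f, hf⟩ := Set.countable_iff_exists_injOn.1 hI0.countable
  set g := Set.Infinite.natEmbedding _ hfin.infinite_compl with hg
  set n : ZF → ℕ := fun j => (g (f j)).1 with hn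
  have hgood : ∀ j, n j ≠ 0 ∧ num (n j) ∉ F ∧ ∀ j' ∈ I0, ∀ i ∈ I0,
      insert (pair (num (n j)) ∅) (B j') ≠ i := by
    intro j
    have h3 := (g (f j)).2
    simp only [Set.mem_compl_iff, Set.mem_union, not_or, Set.mem_singleton_iff, Set.mem_preimage,
      Set.mem_iUnion, Set.mem_ofPred_eq, not_exists, not_and] at h3
    exact ⟨h3.1.1, h3.1.2, fun j' hj' i hi => h3.2 j' hj' i hi h3.1.2⟩
  set τ : ZF → ZF := fun j => if j ∈ H then j else insert (pair (num (n j)) ∅) (B j) with hτ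
  have e1 : ∀ i, i ∈ H → τ i = i := fun i hi => if_pos hi
  have e2 : ∀ i, i ∉ H → τ i = insert (pair (num (n i)) ∅) (B i) := fun i hi => if_neg hi
  refine ⟨τ, fun i hi => ?_, e1, fun i hi j hj e => ?_, fun ζ hζ i hi j hj hR γ' hγ' => ?_⟩
  · by_cases h3 : i ∈ H
    · rw [e1 i h3]
      exact ⟨h1 i hi, h3⟩
    · rw [e2 i h3]
      exact ⟨insert_II hκ (hgood i).1 (hB1 i).1,
        hH.2 _ (hH.pair (hH.num _) hH.1) _ (hB1 i).2⟩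
  · by_cases h3 : i ∈ H <;> by_cases h4 : j ∈ H
    · rwa [e1 i h3, e1 j h4] at e
    · rw [e1 i h3, e2 j h4] at e
      exact absurd e.symm ((hgood j).2.2 j hj i hi)
    · rw [e2 i h3, e1 j h4] at e
      exact absurd e ((hgood i).2.2 i hi j hj)
    · rw [e2 i h3, e2 j h4] at e
      have h5 := key (n i) (n j) j (hgood i).2.1 (e ▸ mem_insert _ _)
      exact hf hi hj (g.injective (Subtype.ext h5))
  · have h3 : ∃ k ∈ I0, k ∈ H ∧ Rl ζ j k ∧ pair ζ γ' ∈ k := by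
      by_cases h4 : j ∈ H
      · exact ⟨j, hj, h4, Rl.refl _ _, e1 j h4 ▸ hγ'⟩
      · rw [e2 j h4] at hγ'
        rcases mem_insert_iff.1 hγ' with h5 | h5
        · exact absurd ((pair_inj.1 h5).1 ▸ hζ) (hgood j).2.1
        · simpa using ((hB2 j _).1 h5).2
    obtain ⟨k, h4, h5, h6, h7⟩ := h3
    by_cases h8 : i ∈ H
    · rw [e1 i h8]
      exact (hR.trans h6) γ' h7
    · rw [e2 i h8]
      refine ⟨γ', mem_insert_of_mem _ ((hB2 i _).2 ?_), fun _ h => h⟩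
      rw [fst_pair]
      exact ⟨hζ, k, h4, h5, hR.trans h6, h7⟩

end CopyP

open CopyP in
theorem copy : S_Copy := by
  intro M _ κ hκM hκ H J c V hH hpr hu hpre p hp hv
  have hnd : ∀ ζ s t, ndE ζ s t ∈ H → ζ ∈ H := fun ζ s t h => (hpr _ _ (hpr _ _ h).2).1
  have hpp : ∀ ζ s t, prE ζ s t ∈ H → ζ ∈ H := fun ζ s t h => (hpr _ _ (hpr _ _ h).2).1
  set I0 : Set ZF := {i | (∃ T, tA i T ∈ p) ∨ (∃ ζ j, nA (prE ζ i j) ∈ p) ∨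
    ∃ ζ j, nA (prE ζ j i) ∈ p} with hI0def
  set F : Set ZF := {ζ | ζ ∈ H ∧ ∃ i j, nA (prE ζ i j) ∈ p} with hFdef
  have hI0 : I0.Finite := by
    refine ((Set.Finite.image (fun a => fst (snd a)) hp).union
      ((Set.Finite.image (fun a => fst (snd (snd (snd a)))) hp).union
        (Set.Finite.image (fun a => snd (snd (snd (snd a)))) hp))).subset ?_
    rintro i (⟨T, h⟩ | ⟨ζ, j, h⟩ | ⟨ζ, j, h⟩)
    · exact Or.inl ⟨_, h, by simp [tA]⟩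
    · exact Or.inr (Or.inl ⟨_, h, by simp [nA, prE]⟩)
    · exact Or.inr (Or.inr ⟨_, h, by simp [nA, prE]⟩)
  have hF : F.Finite := by
    refine (Set.Finite.image (fun a => fst (snd (snd a))) hp).subset ?_
    rintro ζ ⟨-, i, j, h⟩
    exact ⟨_, h, by simp [nA, prE]⟩
  have hI1 : ∀ i ∈ I0, i ∈ II M κ := by
    rintro i (⟨T, h⟩ | ⟨ζ, j, h⟩ | ⟨ζ, j, h⟩)
    exacts [(hv.tA h).1, (prE_mem_EE.1 (hv.nA h)).2.1, (prE_mem_EE.1 (hv.nA h)).2.2.1]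
  obtain ⟨τ, t1, t2, t3, t4⟩ := tau (M := M) hκ hH hu hI0 hF hI1 (by
    rintro ζ ⟨h1, i, j, h⟩
    exact ⟨tr hκM (prE_mem_EE.1 (hv.nA h)).1, h1⟩)
  set σ : ZF → ZF → Prop := fun a b => a = b with hσdef
  set ρ : ZF → ZF → Prop := fun i i' => i ∈ I0 ∧ i' = τ i with hρdef
  have hσ : BiU σ := by
    rintro a _ b _ rfl rfl
    exact Iff.rfl
  have hρ : BiU ρ := by
    rintro a _ b _ ⟨h1, rfl⟩ ⟨h2, rfl⟩
    exact ⟨fun e => e ▸ rfl, fun e => t3 h1 h2 e⟩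
  set p0 : ZF := ZFSet.sep
    (fun a => ∀ ζ s t, (a = nA (ndE ζ s t) ∨ a = nA (prE ζ s t)) → ζ ∈ H) p with hp0def
  have m1 : ∀ i T, tA i T ∈ p0 ↔ tA i T ∈ p := fun i T => by simp [hp0def]
  have m2 : ∀ ζ s t, nA (ndE ζ s t) ∈ p0 ↔ nA (ndE ζ s t) ∈ p ∧ ζ ∈ H := fun ζ s t => by
    rw [hp0def, mem_sep]
    refine and_congr_right fun _ => ⟨fun h => h ζ s t (Or.inl rfl), fun h ζ' s' t' h' => ?_⟩
    rcases h' with h' | h'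
    · exact (ndE_inj.1 (nA_inj.1 h')).1 ▸ h
    · simp at h'
  have m3 : ∀ ζ s t, nA (prE ζ s t) ∈ p0 ↔ nA (prE ζ s t) ∈ p ∧ ζ ∈ H := fun ζ s t => by
    rw [hp0def, mem_sep]
    refine and_congr_right fun _ => ⟨fun h => h ζ s t (Or.inr rfl), fun h ζ' s' t' h' => ?_⟩
    rcases h' with h' | h'
    · simp at h'
    · exact (prE_inj.1 (nA_inj.1 h')).1 ▸ h
  have hv0 : Val (II M κ) (EE M κ) J p0 := by
    rw [val_iff] at hv ⊢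
    refine ⟨fun a ha => hv.1 a (mem_sep.1 ha).1, fun i T h => ?_⟩
    simpa only [m1] using hv.2 i T ((m1 i T).1 h)
  obtain ⟨p', hp', hv', hR⟩ := RC.exists hσ hρ (I' := II M κ ∩ H) (E' := EE M κ ∩ H)
    (hp.subset sep_subset) hv0
    (fun i T h => by
      have h1 : i ∈ I0 := Or.inl ⟨T, (m1 i T).1 h⟩
      exact ⟨τ i, mem_inter.2 (t1 i h1), h1, rfl⟩)
    (fun e h => by
      have h1 := hv0.nA h
      rcases mem_EE.1 h1 with ⟨ζ, -, s, hs, t, ht, rfl⟩ | ⟨ζ, h2, i, -, j, -, h3, rfl⟩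
      · refine ⟨ndE ζ s t, mem_inter.2 ⟨h1, ?_⟩, Or.inr (Or.inl ⟨ζ, ζ, s, t, rfl, rfl, rfl⟩)⟩
        have k : ∀ s ∈ Nds, s ∈ H := fun s hs =>
          hH.fin (mem_Nds.1 hs).1 ((mem_Nds.1 hs).2.subset_of_ins hH)
        exact hH.pair hH.1 (hH.pair ((m2 ζ s t).1 h).2 (hH.pair (k s hs) (k t ht)))
      · obtain ⟨h4, h5⟩ := (m3 ζ i j).1 h
        have hi : i ∈ I0 := Or.inr (Or.inl ⟨ζ, j, h4⟩)
        have hj : j ∈ I0 := Or.inr (Or.inr ⟨ζ, i, h4⟩)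
        refine ⟨prE ζ (τ i) (τ j), mem_inter.2 ⟨prE_mem_EE.2 ⟨h2, (t1 i hi).1, (t1 j hj).1,
          t4 ζ ⟨h5, i, j, h4⟩ i hi j hj h3⟩, ?_⟩,
          Or.inr (Or.inr ⟨ζ, ζ, i, τ i, j, τ j, rfl, rfl, rfl, ⟨hi, rfl⟩, hj, rfl⟩)⟩
        exact hH.pair (hH.num 1) (hH.pair h5 (hH.pair (t1 i hi).2 (t1 j hj).2)))
  obtain ⟨q', hq', hvq, hl, hhit⟩ := hpre p' hp' hv'
  obtain ⟨X, hX, mX⟩ := exists_zf (S := {a | ∃ i ∈ I0, ∃ T, a = tA i T ∧ tA (τ i) T ∈ q'})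
    ((Set.Finite.image2 (fun i a => tA i (snd (snd a))) hI0 hq').subset (by
      rintro _ ⟨i, hi, T, rfl, h⟩
      exact ⟨i, hi, _, h, by simp [tA]⟩))
  have r2 : ∀ ζ s t, nA (ndE ζ s t) ∈ p0 ↔ nA (ndE ζ s t) ∈ p' := fun ζ s t =>
    hR.mem hσ hρ (Or.inr (Or.inl ⟨ζ, ζ, s, t, rfl, rfl, rfl⟩))
  have a1 : ∀ i ∈ I0, ∀ T, tA i T ∈ p ∪ q' ∪ X ↔ tA (τ i) T ∈ q' := fun i hi T => by
    simp only [mem_union, mX]
    constructor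
    · rintro ((h | h) | ⟨i', -, T', e, h⟩)
      · exact hl.1 ((hR.mem hσ hρ (Or.inl ⟨i, τ i, T, rfl, rfl, hi, rfl⟩)).1 ((m1 i T).2 h))
      · rwa [t2 i (mem_inter.1 (hvq.tA h).1).2]
      · obtain ⟨rfl, rfl⟩ := tA_inj.1 e
        exact h
    · exact fun h => Or.inr ⟨i, hi, T, rfl, h⟩
  have a2 : ∀ i, i ∉ I0 → ∀ T, tA i T ∈ p ∪ q' ∪ X ↔ tA i T ∈ q' := fun i hi T => by
    simp only [mem_union, mX]
    constructor
    · rintro ((h | h) | ⟨i', h1, T', e, -⟩)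
      · exact absurd (Or.inl ⟨T, h⟩) hi
      · exact h
      · exact absurd ((tA_inj.1 e).1 ▸ h1) hi
    · exact fun h => Or.inl (Or.inr h)
  have a3 : ∀ e, nA e ∈ p ∪ q' ∪ X → nA e ∈ p ∨ nA e ∈ q' := fun e h => by
    simp only [mem_union, mX] at h
    rcases h with h | ⟨i', -, T', e, -⟩
    exacts [h, absurd e nA_ne_tA]
  have hvq' : Val (II M κ) (EE M κ) J q' :=
    hvq.mono (fun _ h => (mem_inter.1 h).1) (fun _ h => (mem_inter.1 h).1) fun _ h => h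
  refine ⟨p ∪ q' ∪ X, (hp.union hq').union hX, val_iff.2 ⟨fun a ha => ?_, fun i T h => ?_⟩,
    ⟨fun a ha => mem_union.2 (Or.inl (mem_union.2 (Or.inl ha))), fun ζ s t h1 h2 i j h3 => ?_⟩,
    hhit.mono ⟨fun a ha => mem_union.2 (Or.inl (mem_union.2 (Or.inr ha))),
      fun ζ s t h1 h2 i j h3 => ?_⟩⟩
  · simp only [mem_union, mX] at ha
    rcases ha with (ha | ha) | ⟨i, hi, T, rfl, h⟩
    · exact (val_iff.1 hv).1 a ha
    · exact (val_iff.1 hvq').1 a ha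
    · exact Or.inl ⟨i, hI1 i hi, T, (hvq.tA h).2.1, rfl⟩
  · by_cases hi : i ∈ I0
    · simpa only [a1 i hi] using (hvq.tA ((a1 i hi T).1 h)).2.2
    · simpa only [a2 i hi] using (hvq.tA ((a2 i hi T).1 h)).2.2
  · have h4 := (a3 _ h1).resolve_left h2
    have h5 : ζ ∈ H := hnd ζ s t (mem_inter.1 (hvq.nA h4)).2
    have hi : i ∈ I0 := Or.inr (Or.inl ⟨ζ, j, h3⟩)
    have hj : j ∈ I0 := Or.inr (Or.inr ⟨ζ, i, h3⟩)
    have h6 := (hR.mem hσ hρ (Or.inr (Or.inr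
      ⟨ζ, ζ, i, τ i, j, τ j, rfl, rfl, rfl, ⟨hi, rfl⟩, hj, rfl⟩))).1 ((m3 ζ i j).2 ⟨h3, h5⟩)
    obtain ⟨T, hT⟩ := hl.2 ζ s t h4 (fun h => h2 ((m2 ζ s t).1 ((r2 ζ s t).2 h)).1) _ _ h6
    exact ⟨T, hT.imp (fun h => ⟨(a1 i hi T).2 h.1, h.2⟩) fun h => ⟨(a1 j hj T).2 h.1, h.2⟩⟩
  · have h4 := (a3 _ h1).resolve_right h2
    have h5 : ζ ∈ H := hpp ζ i j (mem_inter.1 (hvq.nA h3)).2
    exact absurd (hl.1 ((r2 ζ s t).1 ((m2 ζ s t).2 ⟨h4, h5⟩))) h2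

end Pool.Agent.P.MP_9a7e1f_lc
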