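import Pool.Agent.P.MP_9a7e1f_lc.St2

/-! Fusion: a generic family of perfect trees over a countable set. -/

set_option linter.unusedSectionVars false

namespace Pool.Agent.P.MP_9a7e1f_lc

open ZFSet Pool.Agent.P.MP_3ab3de_lc

namespace FusP

theorem sing_ne : ({∅} : ZF) ≠ ∅ := fun h => notMem_empty (∅ : ZF) (by
  have : (∅ : ZF) ∈ ({∅} : ZF) := mem_singleton.2 rfl
  rwa [h] at this)

/-! ### the first family: cones -/

noncomputable def cone (s : ZF) : ZF := ZFSet.sep (fun t => t ⊆ s ∨ s ⊆ t) Nds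

theorem mem_cone {s t : ZF} : t ∈ cone s ↔ t ∈ Nds ∧ (t ⊆ s ∨ s ⊆ t) := mem_sep

theorem isFunc_snoc {n : ℕ} {s j : ZF} (h : IsFunc (num n) om s) (hj : j ∈ om) :
    IsFunc (num (n + 1)) om (insert (pair (num n) j) s) := by
  refine ⟨fun p hp => ?_, fun k hk => ?_⟩
  · rcases mem_insert_iff.1 hp with rfl | hp
    · exact pair_mem_prod.2 ⟨mem_insert _ _, hj⟩
    · obtain ⟨k, hk, y, hy, rfl⟩ := h.exists_pair hp
      exact pair_mem_prod.2 ⟨mem_insert_of_mem _ hk, hy⟩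
  · rcases mem_insert_iff.1 hk with rfl | hk
    · refine ⟨j, mem_insert _ _, fun y hy => ?_⟩
      rcases mem_insert_iff.1 hy with e | hy
      exacts [(pair_inj.1 e).2, absurd (h.mem hy).1 (mem_irrefl _)]
    · refine ⟨_, mem_insert_of_mem _ (h.app_mem hk), fun y hy => ?_⟩
      rcases mem_insert_iff.1 hy with e | hy
      · exact absurd ((pair_inj.1 e).1 ▸ hk) (mem_irrefl _)
      · exact (h.app_eq hy).symm

theorem cone_mono {s s' : ZF} (hs : s ∈ Nds) (hs' : s' ∈ Nds) (h : s ⊆ s') : cone s' ⊆ cone s := by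
  intro t ht
  obtain ⟨h1, h2 | h2⟩ := mem_cone.1 ht
  · exact mem_cone.2 ⟨h1, (mem_Nds.1 h1).2.comp (mem_Nds.1 hs).2 (mem_Nds.1 hs').2 h2 h⟩
  · exact mem_cone.2 ⟨h1, Or.inr fun _ hx => h2 (h hx)⟩

theorem t1_cone : T1 Fn (img cone Nds) := by
  intro T hT t ht
  obtain ⟨s, hs, rfl⟩ := mem_img.1 hT
  obtain ⟨h1, h2⟩ := mem_cone.1 ht
  refine ⟨mem_Nds.1 h1, fun u h3 h4 h5 => mem_cone.2 ⟨mem_Nds.2 ⟨h3, h4⟩, ?_⟩⟩
  rcases h2 with h2 | h2
  · exact Or.inl fun _ hx => h2 (h5 hx)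
  · exact h4.comp (mem_Nds.1 hs).2 (mem_Nds.1 h1).2 h5 h2

theorem t2_cone : T2 (img cone Nds) := by
  intro T hT
  obtain ⟨s, hs, rfl⟩ := mem_img.1 hT
  obtain ⟨n, hn⟩ := nds_iff.1 hs
  have k : ∀ j : ℕ, insert (pair (num n) (num j)) s ∈ Nds := fun j =>
    nds_iff.2 ⟨_, isFunc_snoc hn (num_mem_omega j)⟩
  have k2 : ∀ i j : ℕ, insert (pair (num n) (num i)) s ⊆ insert (pair (num n) (num j)) s → i = j :=
    fun i j h => num_inj.1 ((mem_Nds.1 (k j)).2.uniq (h (mem_insert _ _)) (mem_insert _ _))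
  exact ⟨_, img_mem (k 0), _, img_mem (k 1), _, mem_cone.2 ⟨k 0, Or.inl fun _ h => h⟩, _,
    mem_cone.2 ⟨k 1, Or.inl fun _ h => h⟩, cone_mono hs (k 0) fun _ h => mem_insert_of_mem _ h,
    cone_mono hs (k 1) fun _ h => mem_insert_of_mem _ h, fun t ht => (mem_cone.1 ht).2,
    fun t ht => (mem_cone.1 ht).2, fun h => absurd (k2 _ _ h) (by omega),
    fun h => absurd (k2 _ _ h) (by omega)⟩

/-! ### systems of trees -/

/-- finite assignments of trees to slots -/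
noncomputable def SY (J : ZF) : ZF :=
  ZFSet.sep (fun F => ∀ y ∈ dom F, app F y ∈ J) (fs (prod om J))

def Ref (F F' : ZF) : Prop := ∀ y ∈ dom F, y ∈ dom F' ∧ app F' y ⊆ app F y

/-- the union of the trees -/
noncomputable def un (F : ZF) : ZF := bun (app F) (dom F)

/-- two slots of `F'`, one of them new, split `T` -/
def Spl (T F F' : ZF) : Prop := ∃ y0 ∈ dom F', ∃ y1 ∈ dom F', y0 ∉ dom F ∧
  ∃ s0 ∈ app F' y0, ∃ s1 ∈ app F' y1, app F' y0 ⊆ T ∧ app F' y1 ⊆ T ∧ Stem s0 (app F' y0) ∧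
    Stem s1 (app F' y1) ∧ ¬ s0 ⊆ s1 ∧ ¬ s1 ⊆ s0

/-- the condition read from `F` along `g` -/
noncomputable def pp (F e g : ZF) : ZF := e ∪ img (fun z => tA (fst z) (app F (snd z))) g

def Low (F g r : ZF) : Prop := ∀ i y, pair i y ∈ g → ∀ T, tA i T ∈ r → app F y ⊆ T

def G2 (J I E c V W e g b F F' : ZF) : Prop := ∃ r ∈ PP I E J, Leq r (pp F e g) ∧ Low F' g r ∧
  (b = ∅ → Hit c V W r) ∧ (b ≠ ∅ → Hit c (un F') W r)

def G3 (J x F F' : ZF) : Prop :=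
  G2 J (fst (fst (fst x))) (snd (fst (fst x))) (fst (snd (fst x))) (snd (snd (fst x)))
    (fst (fst (snd x))) (snd (fst (snd x))) (fst (snd (snd x))) (snd (snd (snd x))) F F'

def Goal (J x F F' : ZF) : Prop := (fst x = num 0 ∧ Spl (snd x) F F') ∨
  (fst x = num 1 ∧ Spl (app F (snd x)) F F') ∨ (fst x = num 2 ∧ G3 J (snd x) F F')

section df

variable {M : Set ZF} [hM : TModel M] {a b c d : Env → ZF} [Tm M a] [Tm M b] [Tm M c] [Tm M d]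

instance tm_cone : Tm M (fun v => cone (a v)) := by unfold cone; infer_instance

instance tm_SY : Tm M (fun v => SY (a v)) := by unfold SY; infer_instance

instance df_ref : Df M (fun v => Ref (a v) (b v)) := by unfold Ref; infer_instance

instance tm_un : Tm M (fun v => un (a v)) := by unfold un; infer_instance

set_option synthInstance.maxSize 2048 in
instance df_spl : Df M (fun v => Spl (a v) (b v) (c v)) := by unfold Spl; infer_instance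

instance tm_pp : Tm M (fun v => pp (a v) (b v) (c v)) := by unfold pp; infer_instance

instance df_low : Df M (fun v => Low (a v) (b v) (c v)) := by unfold Low; infer_instance

set_option synthInstance.maxSize 4096 in
instance df_g3 : Df M (fun v => G3 (a v) (b v) (c v) (d v)) := by unfold G3 G2; infer_instance

set_option synthInstance.maxSize 2048 in
instance df_goal : Df M (fun v => Goal (a v) (b v) (c v) (d v)) := by unfold Goal; infer_instance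

end df

theorem dom_graph (G : ZF → ZF) (D : ZF) : dom (graph G D) = D := by
  ext x
  simp only [mem_dom, mem_graph]
  constructor
  · rintro ⟨_, ⟨y, hy, rfl⟩, rfl⟩
    simpa using hy
  · exact fun hx => ⟨_, ⟨x, hx, rfl⟩, by simp⟩

theorem SY.fn {J F : ZF} (h : F ∈ SY J) : Fn (dom F) := (mem_fs.1 (mem_sep.1 h).1).2.img fst

theorem SY.om {J F y : ZF} (h : F ∈ SY J) (hy : y ∈ dom F) : y ∈ om := by
  obtain ⟨p, hp, rfl⟩ := mem_dom.1 hy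
  obtain ⟨a, ha, b, -, rfl⟩ := mem_prod.1 ((mem_fs.1 (mem_sep.1 h).1).1 hp)
  simpa using ha

theorem SY.mem {J F y : ZF} (h : F ∈ SY J) (hy : y ∈ dom F) : app F y ∈ J := (mem_sep.1 h).2 y hy

theorem graph_SY {J D : ZF} {G : ZF → ZF} (h1 : Fn D) (h2 : D ⊆ om) (h3 : ∀ y ∈ D, G y ∈ J) :
    graph G D ∈ SY J := by
  refine mem_sep.2 ⟨mem_fs.2 ⟨fun p hp => ?_, h1.img _⟩, fun y hy => ?_⟩
  · obtain ⟨y, hy, rfl⟩ := mem_graph.1 hp
    exact pair_mem_prod.2 ⟨h2 hy, h3 y hy⟩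
  · rw [dom_graph] at hy
    rw [app_graph hy]
    exact h3 y hy

theorem empty_SY (J : ZF) : ∅ ∈ SY J :=
  mem_sep.2 ⟨mem_fs.2 ⟨fun _ h => absurd h (notMem_empty _), fn_empty⟩, fun y hy => by
    obtain ⟨p, hp, -⟩ := mem_dom.1 hy
    exact absurd hp (notMem_empty _)⟩

theorem Ref.refl (F : ZF) : Ref F F := fun _ h => ⟨h, fun _ h => h⟩

theorem Ref.trans {F F' F'' : ZF} (h : Ref F F') (h' : Ref F' F'') : Ref F F'' := fun y hy =>
  ⟨(h' y (h y hy).1).1, fun _ hx => (h y hy).2 ((h' y (h y hy).1).2 hx)⟩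

/-- shrinking all the trees -/
theorem mk_sys {J F : ZF} (hF : F ∈ SY J) (P : ZF → ZF → Prop)
    (h : ∀ y ∈ dom F, ∃ T ∈ J, T ⊆ app F y ∧ P y T) :
    ∃ F' ∈ SY J, Ref F F' ∧ dom F' = dom F ∧ ∀ y ∈ dom F, P y (app F' y) := by
  choose! G h1 h2 h3 using h
  refine ⟨graph G (dom F), graph_SY (SY.fn hF) (fun y hy => SY.om hF hy) h1, fun y hy => ?_,
    dom_graph _ _, fun y hy => ?_⟩
  · rw [dom_graph, app_graph hy]
    exact ⟨hy, h2 y hy⟩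
  · rw [app_graph hy]
    exact h3 y hy

theorem fresh {D : ZF} (h : Fn D) : ∃ y ∈ om, y ∉ D := by
  by_contra h1
  push Not at h1
  exact Set.infinite_of_injective_forall_mem (f := num) (fun _ _ => num_inj.1)
    (fun n => h1 _ (num_mem_omega n)) h

/-- a new slot -/
theorem add_slot {J F T : ZF} (hF : F ∈ SY J) (hT : T ∈ J) :
    ∃ F' ∈ SY J, Ref F F' ∧ ∃ y ∈ dom F', y ∉ dom F ∧ app F' y = T ∧
      ∀ z ∈ dom F, app F' z = app F z := by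
  classical
  obtain ⟨y, h1, h2⟩ := fresh (SY.fn hF)
  have k : ∀ z ∈ dom F,
      app (graph (fun z => if z = y then T else app F z) (insert y (dom F))) z = app F z :=
    fun z hz => by rw [app_graph (mem_insert_of_mem _ hz), if_neg (fun e : z = y => h2 (e ▸ hz))]
  refine ⟨graph (fun z => if z = y then T else app F z) (insert y (dom F)),
    graph_SY ((SY.fn hF).insert y) (fun z hz => ?_) fun z hz => ?_, fun z hz => ?_, y, ?_, h2, ?_, k⟩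
  · rcases mem_insert_iff.1 hz with rfl | hz
    exacts [h1, SY.om hF hz]
  · split_ifs with e
    exacts [hT, SY.mem hF ((mem_insert_iff.1 hz).resolve_left e)]
  · rw [dom_graph, k z hz]
    exact ⟨mem_insert_of_mem _ hz, fun _ h => h⟩
  · rw [dom_graph]
    exact mem_insert _ _
  · rw [app_graph (mem_insert _ _), if_pos rfl]

theorem exists_spl {J F T : ZF} (h2 : T2 J) (hF : F ∈ SY J) (hT : T ∈ J) :
    ∃ F' ∈ SY J, Ref F F' ∧ Spl T F F' := by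
  obtain ⟨T0, hT0, T1, hT1, s0, k0, s1, k1, k⟩ := h2 T hT
  obtain ⟨F1, hF1, r1, y0, a1, a2, a3, -⟩ := add_slot hF hT0
  obtain ⟨F2, hF2, r2, y1, b1, -, b3, b4⟩ := add_slot hF1 hT1
  refine ⟨F2, hF2, r1.trans r2, y0, (r2 y0 a1).1, y1, b1, a2, ?_⟩
  rw [b4 y0 a1, a3, b3]
  exact ⟨s0, k0, s1, k1, k⟩

/-- `g` assigns slots to indices, one-to-one -/
structure Asg (I g : ZF) : Prop where
  fn : Fn g
  sub : g ⊆ prod I om
  inj : ∀ i y i' y', pair i y ∈ g → pair i' y' ∈ g → (i = i' ↔ y = y')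

theorem Asg.mem_img {I g a : ZF} (h : Asg I g) (G : ZF → ZF) :
    a ∈ img (fun z => tA (fst z) (G (snd z))) g ↔ ∃ i y, pair i y ∈ g ∧ a = tA i (G y) := by
  rw [MP_3ab3de_lc.mem_img]
  constructor
  · rintro ⟨z, hz, rfl⟩
    obtain ⟨i, -, y, -, rfl⟩ := mem_prod.1 (h.sub hz)
    exact ⟨i, y, hz, by simp⟩
  · rintro ⟨i, y, hz, rfl⟩
    exact ⟨_, hz, by simp⟩

theorem Asg.idx {I g i y : ZF} (h : Asg I g) (hz : pair i y ∈ g) : i ∈ I :=
  (pair_mem_prod.1 (h.sub hz)).1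

theorem tA_mem_pp {F e g i y : ZF} (hz : pair i y ∈ g) : tA i (app F y) ∈ pp F e g :=
  mem_union.2 (Or.inr (mem_img.2 ⟨_, hz, by simp⟩))

theorem val_pp {I E J F e g : ZF} (hF : F ∈ SY J) (hg : Asg I g)
    (hd : ∀ i y, pair i y ∈ g → y ∈ dom F) (he : ∀ a ∈ e, ∃ x ∈ E, a = nA x) :
    Val I E J (pp F e g) := by
  have k : ∀ i T, tA i T ∈ pp F e g → ∃ y, pair i y ∈ g ∧ T = app F y := fun i T h => by
    rcases mem_union.1 h with h | h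
    · obtain ⟨x, -, hx⟩ := he _ h
      exact absurd hx tA_ne_nA
    · obtain ⟨i', y, h1, h2⟩ := (hg.mem_img _).1 h
      obtain ⟨rfl, rfl⟩ := tA_inj.1 h2
      exact ⟨y, h1, rfl⟩
  refine val_iff.2 ⟨fun a ha => ?_, fun i T h => ⟨T, h, fun T' h' => ?_⟩⟩
  · rcases mem_union.1 ha with h | h
    · exact Or.inr (he a h)
    · obtain ⟨i, y, h1, rfl⟩ := (hg.mem_img _).1 h
      exact Or.inl ⟨i, hg.idx h1, _, SY.mem hF (hd i y h1), rfl⟩
  · obtain ⟨y, h1, rfl⟩ := k i T h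
    obtain ⟨y', h2, rfl⟩ := k i T' h'
    rw [(hg.inj _ _ _ _ h1 h2).1 rfl]

/-- the least tree of an extension at the index of a slot -/
theorem low_ex {I E J F e g r y : ZF} (_hF : F ∈ SY J) (hg : Asg I g) (hr : Val I E J r)
    (h : pp F e g ⊆ r) (_hy : y ∈ dom F) {S : ZF} (hS : S ∈ J) (hS' : S ⊆ app F y) :
    ∃ T ∈ J, T ⊆ app F y ∧ (∀ i, pair i y ∈ g → ∀ T', tA i T' ∈ r → T ⊆ T') ∧
      ((∀ i, pair i y ∉ g) → T = S) := by
  by_cases h1 : ∃ i, pair i y ∈ g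
  · obtain ⟨i, hi⟩ := h1
    obtain ⟨T, h2, h3⟩ := (hr.tA (h (tA_mem_pp hi))).2.2
    exact ⟨T, (hr.tA h2).2.1, h3 _ (h (tA_mem_pp hi)),
      fun i' hi' => (hg.inj _ _ _ _ hi hi').2 rfl ▸ h3, fun h4 => absurd hi (h4 i)⟩
  · exact ⟨S, hS, hS', fun i hi => absurd ⟨i, hi⟩ h1, fun _ => rfl⟩

theorem seal_ex {I E J F e g c V W : ZF} (hF : F ∈ SY J) (hg : Asg I g)
    (hd : ∀ i y, pair i y ∈ g → y ∈ dom F) (hp : pp F e g ∈ PP I E J) (h : Pre Fn I E J c V W) :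
    ∃ F' ∈ SY J, Ref F F' ∧ G2 J I E c V W e g ∅ F F' := by
  obtain ⟨r, h1, h2, h3⟩ := pre_iff.1 h _ hp
  obtain ⟨F', k1, k2, -, k4⟩ := mk_sys hF
    (fun y T => ∀ i, pair i y ∈ g → ∀ T', tA i T' ∈ r → T ⊆ T') fun y hy => by
      obtain ⟨T, a1, a2, a3, -⟩ := low_ex hF hg (mem_PP.1 h1).2 h2.1 hy (SY.mem hF hy) fun _ h => h
      exact ⟨T, a1, a2, a3⟩
  exact ⟨F', k1, k2, r, h1, h2, fun i y hz => k4 y (hd i y hz) i hz, fun _ => h3,
    fun h => absurd rfl h⟩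

/-- the node `σ` is avoided at the slot `y` -/
def Av (J F g r σ y : ZF) : Prop := (∃ i T, pair i y ∈ g ∧ tA i T ∈ r ∧ σ ∉ T) ∨
  ((∀ i, pair i y ∉ g) ∧ ∃ T ∈ J, T ⊆ app F y ∧ σ ∉ T)

theorem Av.mono {I E J F g r σ y r' σ' : ZF} (h1 : T1 Fn J) (h : Av J F g r σ y) (hr : Val I E J r)
    (h2 : r ⊆ r') (hσ : Sq σ) (h3 : σ ⊆ σ') : Av J F g r' σ' y := by
  rcases h with ⟨i, T, a1, a2, a3⟩ | ⟨a1, T, a2, a3, a4⟩
  · exact Or.inl ⟨i, T, a1, h2 a2, fun h => a3 (h1.down (hr.tA a2).2.1 h hσ h3)⟩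
  · exact Or.inr ⟨a1, T, a2, a3, fun h => a4 (h1.down a2 h hσ h3)⟩

theorem avoid_ex {I E J F e g c W : ZF} (h1 : T1 Fn J) (hJ : ∃ T, T ∈ J) (hF : F ∈ SY J)
    (hg : Asg I g) (hd : ∀ i y, pair i y ∈ g → y ∈ dom F) (hp : pp F e g ∈ PP I E J)
    (h : Hyp Fn I E J c) : ∃ F' ∈ SY J, Ref F F' ∧ G2 J I E c ∅ W e g {∅} F F' := by
  obtain ⟨c1, c2, c3, c4⟩ := h
  have key : ∃ r d σ, Fn r ∧ Val I E J r ∧ Leq r (pp F e g) ∧ pair d σ ∈ c ∧ Leq r d ∧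
      ∀ y ∈ dom F, Av J F g r σ y := by
    refine (SY.fn hF).ind (Q := fun b => ∃ r d σ, Fn r ∧ Val I E J r ∧ Leq r (pp F e g) ∧
      pair d σ ∈ c ∧ Leq r d ∧ ∀ y ∈ b, Av J F g r σ y) ?_ ?_
    · obtain ⟨T, hT⟩ := hJ
      obtain ⟨r, a1, a2, a3, d, σ, a4, a5, -⟩ := c3 _ (mem_PP.1 hp).1 (mem_PP.1 hp).2 T hT
      exact ⟨r, d, σ, a1, a2, a3, a4, a5, fun _ h => absurd h (notMem_empty _)⟩
    · rintro y b hy - - - ⟨r, d, σ, a1, a2, a3, a4, a5, a6⟩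
      have : ∃ r' d' σ', Fn r' ∧ Val I E J r' ∧ Leq r' r ∧ pair d' σ' ∈ c ∧ Leq r' d' ∧
          Av J F g r' σ' y := by
        by_cases hi : ∃ i, pair i y ∈ g
        · obtain ⟨i, hi⟩ := hi
          obtain ⟨r', b1, b2, b3, d', σ', b4, b5, T, b6, b7⟩ := c2 r a1 a2 i (hg.idx hi)
          exact ⟨r', d', σ', b1, b2, b3, b4, b5, Or.inl ⟨i, T, hi, b6, b7⟩⟩
        · obtain ⟨r', b1, b2, b3, d', σ', b4, b5, b6⟩ := c3 r a1 a2 _ (SY.mem hF hy)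
          exact ⟨r', d', σ', b1, b2, b3, b4, b5, Or.inr ⟨fun i h => hi ⟨i, h⟩, b6⟩⟩
      obtain ⟨r', d', σ', b1, b2, b3, b4, b5, b6⟩ := this
      rcases c4 r' b1 b2 d σ d' σ' a4 b4 (b3.trans a5) b5 with k | k
      · refine ⟨r', d', σ', b1, b2, b3.trans a3, b4, b5, fun z hz => ?_⟩
        rcases mem_insert_iff.1 hz with rfl | hz
        exacts [b6, (a6 z hz).mono h1 a2 b3.1 (c1 d σ a4).2 k]
      · refine ⟨r', d, σ, b1, b2, b3.trans a3, a4, b3.trans a5, fun z hz => ?_⟩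
        rcases mem_insert_iff.1 hz with rfl | hz
        exacts [b6.mono h1 b2 (fun _ h => h) (c1 d' σ' b4).2 k,
          (a6 z hz).mono h1 a2 b3.1 (c1 d σ a4).2 fun _ h => h]
  obtain ⟨r, d, σ, a1, a2, a3, a4, a5, a6⟩ := key
  obtain ⟨F', k1, k2, k3, k4⟩ := mk_sys hF
    (fun y T => (∀ i, pair i y ∈ g → ∀ T', tA i T' ∈ r → T ⊆ T') ∧ σ ∉ T) fun y hy => by
      rcases a6 y hy with ⟨i, S, b1, b2, b3⟩ | ⟨b1, S, b2, b3, b4⟩
      · obtain ⟨T, d1, d2, d3, -⟩ := low_ex hF hg a2 a3.1 hy (SY.mem hF hy) fun _ h => h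
        exact ⟨T, d1, d2, d3, fun h => b3 (d3 i b1 S b2 h)⟩
      · exact ⟨S, b2, b3, fun i hi => absurd hi (b1 i), b4⟩
  refine ⟨F', k1, k2, r, mem_PP.2 ⟨a1, a2⟩, a3, fun i y hz => (k4 y (hd i y hz)).1 i hz,
    fun h => absurd h sing_ne,
    fun _ => Or.inl ⟨d, σ, a4, fun h => ?_, a5⟩⟩
  obtain ⟨y, hy, h⟩ := mem_bun.1 h
  exact (k4 y (k3 ▸ hy)).2 h

/-! ### the fusion sequence -/

structure Ctx (J w : ZF) (F B : ℕ → ZF) (U : ZF) : Prop where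
  clo : Clo w
  sub : J ⊆ w
  t1 : T1 Fn J
  t2 : T2 J
  sys : ∀ t, F t ∈ SY J
  ref : ∀ t, Ref (F t) (F (t + 1))
  gen : ∀ x ∈ w, ∀ t0, ∃ t ≥ t0,
    (∃ F' ∈ SY J, Ref (F t) F' ∧ Goal J x (F t) F') → Goal J x (F t) (F (t + 1))
  hB : ∀ t s, s ∈ B t ↔ ∀ t' ≥ t, s ∈ un (F t')
  hU : ∀ V, V ∈ U ↔ ∃ t, ∃ y ∈ dom (F t), V = app (F t) y ∩ B t

namespace Ctx

variable {J w : ZF} {F B : ℕ → ZF} {U : ZF} (h : Ctx J w F B U)
include h

theorem ref_le {t t' : ℕ} (ht : t ≤ t') : Ref (F t) (F t') := by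
  induction ht with
  | refl => exact Ref.refl _
  | step _ ih => exact ih.trans (h.ref _)

theorem memU {t : ℕ} {y : ZF} (hy : y ∈ dom (F t)) : app (F t) y ∩ B t ∈ U :=
  (h.hU _).2 ⟨t, y, hy, rfl⟩

/-- later pieces below a slot are inside the earlier piece -/
theorem mono {t t' : ℕ} (ht : t ≤ t') {y S : ZF} (hy : y ∈ dom (F t)) (hS : S ⊆ app (F t') y) :
    S ∩ B (t' + 1) ⊆ app (F t) y ∩ B t := by
  intro s hs
  obtain ⟨h1, h2⟩ := mem_inter.1 hs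
  refine mem_inter.2 ⟨(h.ref_le ht y hy).2 (hS h1), (h.hB _ _).2 fun u hu => ?_⟩
  rcases le_or_gt u t' with k | k
  · have h3 := (h.ref_le hu y hy).1
    exact mem_bun.2 ⟨y, h3, (h.ref_le k y h3).2 (hS h1)⟩
  · exact (h.hB _ _).1 h2 u k

theorem mono' {t t' : ℕ} (ht : t ≤ t') {y : ZF} (hy : y ∈ dom (F t)) :
    app (F t') y ∩ B t' ⊆ app (F t) y ∩ B t := fun s hs =>
  h.mono ht hy (fun _ h => h) (mem_inter.2 ⟨(mem_inter.1 hs).1, (h.hB _ _).2 fun u hu =>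
    (h.hB _ _).1 (mem_inter.1 hs).2 u (by omega)⟩)

theorem stem {t : ℕ} {y s : ZF} (hy : y ∈ dom (F t)) (hs : s ∈ app (F t) y)
    (hs' : Stem s (app (F t) y)) : s ∈ app (F t) y ∩ B t := by
  refine mem_inter.2 ⟨hs, (h.hB _ _).2 fun u hu => ?_⟩
  obtain ⟨h1, h2⟩ := h.ref_le hu y hy
  exact mem_bun.2 ⟨y, h1, stem_mem h.t1 h.t2 (SY.mem (h.sys u) h1)
    (h.t1 _ (SY.mem (h.sys t) hy) s hs).1.2 fun a ha => hs' a (h2 ha)⟩

theorem add {T : ZF} (hT : T ∈ J) (t0 : ℕ) : ∃ t ≥ t0, Spl T (F t) (F (t + 1)) := by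
  obtain ⟨t, h1, h2⟩ := h.gen (pair (num 0) T) (h.clo.2.pair (h.clo.2.num 0) (h.sub hT)) t0
  obtain ⟨F', k1, k2, k3⟩ := exists_spl h.t2 (h.sys t) hT
  exact ⟨t, h1, by simpa [Goal, num_inj] using h2 ⟨F', k1, k2, by simpa [Goal, num_inj] using k3⟩⟩

theorem split {s : ℕ} {y : ZF} (hy : y ∈ dom (F s)) (t0 : ℕ) :
    ∃ t ≥ t0, s ≤ t ∧ Spl (app (F t) y) (F t) (F (t + 1)) := by
  obtain ⟨t, h1, h2⟩ := h.gen (pair (num 1) y)
    (h.clo.2.pair (h.clo.2.num 1) (h.clo.2.om (SY.om (h.sys s) hy))) (max t0 s)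
  have h3 : s ≤ t := (le_max_right _ _).trans h1
  obtain ⟨F', k1, k2, k3⟩ := exists_spl h.t2 (h.sys t) (SY.mem (h.sys t) (h.ref_le h3 y hy).1)
  exact ⟨t, (le_max_left _ _).trans h1, h3,
    by simpa [Goal, num_inj] using h2 ⟨F', k1, k2, by simpa [Goal, num_inj] using k3⟩⟩

theorem t1U : T1 Fn U := by
  intro V hV s hs
  obtain ⟨t, y, hy, rfl⟩ := (h.hU V).1 hV
  obtain ⟨h1, h2⟩ := mem_inter.1 hs
  have h3 := h.t1 _ (SY.mem (h.sys t) hy) s h1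
  refine ⟨h3.1, fun u a1 a2 a3 => mem_inter.2 ⟨h3.2 u a1 a2 a3, (h.hB _ _).2 fun t' ht' => ?_⟩⟩
  obtain ⟨z, hz, h4⟩ := mem_bun.1 ((h.hB _ _).1 h2 t' ht')
  exact mem_bun.2 ⟨z, hz, h.t1.down (SY.mem (h.sys t') hz) h4 a2 a3⟩

theorem t2U : T2 U := by
  intro V hV
  obtain ⟨s, y, hy, rfl⟩ := (h.hU V).1 hV
  obtain ⟨t, -, ht, y0, a0, y1, a1, -, s0, b0, s1, b1, c0, c1, d0, d1, e⟩ := h.split hy 0
  exact ⟨_, h.memU a0, _, h.memU a1, s0, h.stem a0 b0 d0, s1, h.stem a1 b1 d1, h.mono ht hy c0,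
    h.mono ht hy c1, fun a ha => d0 a (mem_inter.1 ha).1, fun a ha => d1 a (mem_inter.1 ha).1, e⟩

/-- a fresh slot below a tree -/
theorem slot {T : ZF} (hT : T ∈ J ∪ U) (t0 : ℕ) :
    ∃ t ≥ t0, ∃ y ∈ dom (F t), y ∉ dom (F t0) ∧ app (F t) y ∩ B t ⊆ T := by
  rcases mem_union.1 hT with hT | hT
  · obtain ⟨t, ht, y0, a0, -, -, a2, -, -, -, -, c0, -⟩ := h.add hT t0
    exact ⟨t + 1, by omega, y0, a0, fun k => a2 (h.ref_le ht _ k).1,
      fun _ hx => c0 (mem_inter.1 hx).1⟩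
  · obtain ⟨s, y, hy, rfl⟩ := (h.hU T).1 hT
    obtain ⟨t, ht, ht', y0, a0, -, -, a2, -, -, -, -, c0, -⟩ := h.split hy t0
    exact ⟨t + 1, by omega, y0, a0, fun k => a2 (h.ref_le ht _ k).1, h.mono ht' hy c0⟩

theorem slots {I E p : ZF} (hp : Fn p) (hv : Val I E (J ∪ U) p) :
    ∃ t g, Asg I g ∧ (∀ i y, pair i y ∈ g → y ∈ dom (F t) ∧
      ∀ T, tA i T ∈ p → app (F t) y ∩ B t ⊆ T) ∧ ∀ i T, tA i T ∈ p → ∃ y, pair i y ∈ g := by
  refine hp.ind (Q := fun b => ∃ t g, Asg I g ∧ (∀ i y, pair i y ∈ g → y ∈ dom (F t) ∧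
      ∀ T, tA i T ∈ p → app (F t) y ∩ B t ⊆ T) ∧ ∀ i T, tA i T ∈ b → ∃ y, pair i y ∈ g)
    ⟨0, ∅, ⟨fn_empty, fun _ h => absurd h (notMem_empty _),
      fun _ _ _ _ h => absurd h (notMem_empty _)⟩, fun _ _ h => absurd h (notMem_empty _),
      fun _ _ h => absurd h (notMem_empty _)⟩ ?_
  rintro a b ha - - - ⟨t, g, h1, h2, h3⟩
  by_cases k : ∃ i T, a = tA i T ∧ ∀ y, pair i y ∉ g
  · obtain ⟨i, T, rfl, k⟩ := k
    obtain ⟨hi, -, S, k1, k2⟩ := hv.tA ha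
    obtain ⟨t', ht', y, a1, a2, a3⟩ := h.slot (hv.tA k1).2.1 t
    refine ⟨t', insert (pair i y) g, ⟨h1.fn.insert _, fun z hz => ?_, fun j z j' z' hz hz' => ?_⟩,
      fun j z hz => ?_, fun j T' hT' => ?_⟩
    · rcases mem_insert_iff.1 hz with rfl | hz
      exacts [pair_mem_prod.2 ⟨hi, SY.om (h.sys t') a1⟩, h1.sub hz]
    · rcases mem_insert_iff.1 hz with e | m1 <;> rcases mem_insert_iff.1 hz' with e' | m2
      · obtain ⟨e1, e2⟩ := pair_inj.1 e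
        obtain ⟨e3, e4⟩ := pair_inj.1 e'
        rw [e1, e2, e3, e4]
        simp
      · obtain ⟨e1, e2⟩ := pair_inj.1 e
        rw [e1, e2]
        exact iff_of_false (fun e => k z' (e ▸ m2)) fun e => a2 (e ▸ (h2 _ _ m2).1)
      · obtain ⟨e1, e2⟩ := pair_inj.1 e'
        rw [e1, e2]
        exact iff_of_false (fun e => k z (e ▸ m1)) fun e => a2 (e ▸ (h2 _ _ m1).1)
      · exact h1.inj _ _ _ _ m1 m2
    · rcases mem_insert_iff.1 hz with e | hz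
      · obtain ⟨rfl, rfl⟩ := pair_inj.1 e
        exact ⟨a1, fun T' hT' _ hx => k2 T' hT' (a3 hx)⟩
      · exact ⟨(h.ref_le ht' _ (h2 _ _ hz).1).1, fun T' hT' _ hx =>
          (h2 _ _ hz).2 T' hT' (h.mono' ht' (h2 _ _ hz).1 hx)⟩
    · rcases mem_insert_iff.1 hT' with e | hT'
      · exact ⟨y, (tA_inj.1 e).1 ▸ mem_insert _ _⟩
      · exact (h3 j T' hT').imp fun _ h => mem_insert_of_mem _ h
  · refine ⟨t, g, h1, h2, fun j T' hT' => ?_⟩
    rcases mem_insert_iff.1 hT' with e | hT'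
    · by_contra k'
      exact k ⟨j, T', e.symm, fun y hy => k' ⟨y, hy⟩⟩
    · exact h3 j T' hT'

/-- the common part of sealing and avoiding -/
theorem main {I E c V W b p : ZF} (hI : I ∈ w) (hE : E ∈ w) (hc : c ∈ w) (hV : V ∈ w) (hW : W ∈ w)
    (hb : b ∈ w) (hp : Fn p) (hv : Val I E (J ∪ U) p) (t0 : ℕ)
    (H : ∀ F0 e g, F0 ∈ SY J → Asg I g → (∀ i y, pair i y ∈ g → y ∈ dom F0) → pp F0 e g ∈ PP I E J →
      ∃ F' ∈ SY J, Ref F0 F' ∧ G2 J I E c V W e g b F0 F') :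
    ∃ r, Fn r ∧ Val I E (J ∪ U) r ∧ Leq r p ∧ ∃ t ≥ t0,
      (b = ∅ → Hit c V W r) ∧ (b ≠ ∅ → Hit c (un (F t)) W r) := by
  obtain ⟨t1, g, h1, h2, h3⟩ := h.slots hp hv
  obtain ⟨e, he⟩ : ∃ e : ZF, ∀ a, a ∈ e ↔ a ∈ p ∧ ∃ x, a = nA x :=
    ⟨ZFSet.sep (fun a => ∃ x, a = nA x) p, fun _ => mem_sep⟩
  have he1 : ∀ a ∈ e, ∃ x ∈ E, a = nA x := fun a ha => by
    obtain ⟨k, x, rfl⟩ := (he a).1 ha
    exact ⟨x, hv.nA k, rfl⟩
  have he2 : Fn e := hp.subset fun a ha => ((he a).1 ha).1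
  have w2 := h.clo.2
  have hew : e ∈ w := w2.fin he2 fun a ha => by
    obtain ⟨x, hx, rfl⟩ := he1 a ha
    exact w2.nA (h.clo.1 E hE hx)
  have hgw : g ∈ w := w2.fin h1.fn fun z hz => by
    obtain ⟨i, hi, y, hy, rfl⟩ := mem_prod.1 (h1.sub hz)
    exact w2.pair (h.clo.1 I hI hi) (w2.om hy)
  obtain ⟨t, ht, k⟩ := h.gen
    (pair (num 2) (pair (pair (pair I E) (pair c V)) (pair (pair W e) (pair g b))))
    (w2.pair (w2.num 2) (w2.pair (w2.pair (w2.pair hI hE) (w2.pair hc hV))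
      (w2.pair (w2.pair hW hew) (w2.pair hgw hb)))) (max t0 t1)
  have ht1 : t1 ≤ t := (le_max_right _ _).trans ht
  have hd : ∀ i y, pair i y ∈ g → y ∈ dom (F t) := fun i y hz => (h.ref_le ht1 _ (h2 i y hz).1).1
  obtain ⟨F', k1, k2, k3⟩ := H (F t) e g (h.sys t) h1 hd
    (mem_PP.2 ⟨he2.union (h1.fn.img _), val_pp (h.sys t) h1 hd he1⟩)
  have k4 : G2 J I E c V W e g b (F t) (F (t + 1)) := by
    simpa [Goal, G3, num_inj] using k ⟨F', k1, k2, by simpa [Goal, G3, num_inj] using k3⟩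
  obtain ⟨r, a1, a2, a3, a4, a5⟩ := k4
  obtain ⟨a0, a1⟩ := mem_PP.1 a1
  have hn : ∀ x, nA x ∈ p → nA x ∈ pp (F t) e g := fun x hx =>
    mem_union.2 (Or.inl ((he _).2 ⟨hx, x, rfl⟩))
  obtain ⟨q, hq⟩ : ∃ q : ZF, Fn q ∧ ∀ a, a ∈ q ↔ a ∈ r ∨ a ∈ p ∨
      ∃ i y, pair i y ∈ g ∧ a = tA i (app (F (t + 1)) y ∩ B (t + 1)) :=
    ⟨r ∪ (p ∪ img (fun z => tA (fst z) (app (F (t + 1)) (snd z) ∩ B (t + 1))) g),
      a0.union (hp.union (h1.fn.img _)), fun a => by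
        rw [mem_union, mem_union, h1.mem_img fun y => app (F (t + 1)) y ∩ B (t + 1)]⟩
  obtain ⟨q0, hq⟩ := hq
  have hqn : ∀ x, nA x ∈ q → nA x ∈ r := fun x hx => by
    rcases (hq _).1 hx with k | k | ⟨i, y, -, k⟩
    exacts [k, a2.1 (hn x k), absurd k nA_ne_tA]
  have hqr : Leq q r := Leq.of_subset (fun a ha => (hq a).2 (Or.inl ha)) fun _ _ _ => hqn _
  refine ⟨q, q0, val_iff.2 ⟨fun a ha => ?_, fun i T hT => ?_⟩,
    ⟨fun a ha => (hq a).2 (Or.inr (Or.inl ha)), fun ζ s u b1 b2 i j b3 => ?_⟩, t + 1,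
    ((le_max_left _ _).trans ht).trans (Nat.le_succ t), fun k => (a4 k).mono hqr,
    fun k => (a5 k).mono hqr⟩
  · rcases (hq a).1 ha with k | k | ⟨i, y, k, rfl⟩
    · exact (val_iff.1 (a1.mono (fun _ h => h) (fun _ h => h)
        fun _ h => mem_union.2 (Or.inl h))).1 a k
    · exact (val_iff.1 hv).1 a k
    · exact Or.inl ⟨i, h1.idx k, _, mem_union.2 (Or.inr (h.memU (h.ref t _ (hd i y k)).1)), rfl⟩
  · by_cases k : ∃ y, pair i y ∈ g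
    · obtain ⟨y, k⟩ := k
      refine ⟨_, (hq _).2 (Or.inr (Or.inr ⟨i, y, k, rfl⟩)), fun T' hT' => ?_⟩
      rcases (hq _).1 hT' with k' | k' | ⟨i', y', k', e'⟩
      · exact fun _ hx => a3 i y k T' k' (mem_inter.1 hx).1
      · exact fun _ hx => (h2 i y k).2 T' k' (h.mono' (by omega) (h2 i y k).1 hx)
      · obtain ⟨rfl, rfl⟩ := tA_inj.1 e'
        rw [(h1.inj _ _ _ _ k k').1 rfl]
    · have k5 : ∀ T', tA i T' ∈ q → tA i T' ∈ r := fun T' hT' => by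
        rcases (hq _).1 hT' with k' | k' | ⟨i', y', k', e'⟩
        exacts [k', absurd (h3 i T' k') k, absurd ⟨y', (tA_inj.1 e').1 ▸ k'⟩ k]
      obtain ⟨S, k6, k7⟩ := (a1.tA (k5 T hT)).2.2
      exact ⟨S, hqr.1 k6, fun T' hT' => k7 T' (k5 T' hT')⟩
  · refine (a2.2 ζ s u (hqn _ b1) (fun k => b2 ?_) i j (hn _ b3)).imp fun T hT =>
      hT.imp (fun k => ⟨hqr.1 k.1, k.2⟩) fun k => ⟨hqr.1 k.1, k.2⟩
    rcases mem_union.1 k with k | k
    · exact ((he _).1 k).1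
    · obtain ⟨i', y', -, k⟩ := (h1.mem_img _).1 k
      exact absurd k nA_ne_tA

theorem genU (hJ : ∃ T, T ∈ J) : GenU Fn U J (J ∪ U) w := by
  have r : ∀ T ∈ J, ∃ V ∈ U, V ⊆ T := fun T hT => by
    obtain ⟨t, -, y, hy, -, k⟩ := h.slot (mem_union.2 (Or.inl hT)) 0
    exact ⟨_, h.memU hy, k⟩
  refine ⟨?_, h.t1U, h.t2U, r, fun _ I hI E hE c hc W hW => ⟨fun V hV H p hp hv => ?_,
    fun H V hV p hp hv => ?_⟩⟩
  · obtain ⟨T, hT⟩ := hJ
    exact (r T hT).imp fun _ k => k.1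
  · obtain ⟨q, a1, a2, a3, -, -, a4, -⟩ := h.main hI hE hc hV hW h.clo.2.1 hp hv 0
      fun F0 e g b1 b2 b3 b4 => seal_ex b1 b2 b3 b4 H
    exact ⟨q, a1, a2, a3, a4 rfl⟩
  · obtain ⟨s, y, -, rfl⟩ := (h.hU V).1 hV
    obtain ⟨q, a1, a2, a3, t, ht, -, a4⟩ := h.main hI hE hc h.clo.2.1 hW
      (h.clo.2.singleton h.clo.2.1) hp hv s
      fun F0 e g b1 b2 b3 b4 => avoid_ex h.t1 hJ b1 b2 b3 b4 H
    refine ⟨q, a1, a2, a3, (a4 sing_ne).imp ?_ id⟩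
    rintro ⟨d, σ, b1, b2, b3⟩
    exact ⟨d, σ, b1, fun k => b2 ((h.hB _ _).1 (mem_inter.1 k).2 t ht), b3⟩

end Ctx

theorem num_subset {m n : ℕ} : num m ⊆ num n ↔ m ≤ n := by
  refine ⟨fun h => not_lt.1 fun k => mem_irrefl _ (h (num_mem_num.2 k)), fun h x hx => ?_⟩
  obtain ⟨k, hk, rfl⟩ := mem_num.1 hx
  exact num_mem_num.2 (by omega)

/-- every element of a countable set is visited at arbitrarily late stages -/
theorem often {M : Set ZF} [TModel M] {w : ZF} (hw : Le M w om) :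
    ∃ q ∈ M, ∀ x ∈ w, ∀ t0 : ℕ, ∃ t ≥ t0, fst (app q (num t)) = x := by
  obtain ⟨q, hq, h⟩ := inf_omega.prod hw inf_omega.omLe
  refine ⟨q, hq, fun x hx t0 => ?_⟩
  by_contra k
  push Not at k
  have h1 : ∀ n : ℕ, ∃ t < t0, app q (num t) = pair x (num n) := fun n => by
    obtain ⟨z, hz, e⟩ := h _ (pair_mem_prod.2 ⟨hx, num_mem_omega n⟩)
    obtain ⟨t, rfl⟩ := mem_omega.1 hz
    exact ⟨t, not_le.1 fun ht => k t ht (by rw [e, fst_pair]), e⟩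
  choose f h2 h3 using h1
  refine Set.infinite_of_injective_forall_mem (f := f) (s := Set.Iio t0) (fun a b e => ?_) h2
    (Set.finite_Iio t0)
  have := h3 a
  rw [e, h3 b] at this
  exact (num_inj.1 (pair_inj.1 this).2).symm

end FusP

open FusP

theorem fus : S_Fus := by
  intro M hM w hw hc hl J hJ hs h1 h2
  have := In.mk' hJ
  by_cases hne : ∃ T, T ∈ J
  · obtain ⟨q, hq, hq'⟩ := often hl
    have := In.mk' hq
    obtain ⟨f, hf, -, h3⟩ := dc (M := M) (fun t F F' => Ref F F' ∧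
      ((∃ F'' ∈ SY J, Ref F F'' ∧ Goal J (fst (app q t)) F F'') → Goal J (fst (app q t)) F F'))
      inferInstance (In.mem (SY J)) (empty_SY J) fun n F hF => by
        by_cases k : ∃ F'' ∈ SY J, Ref F F'' ∧ Goal J (fst (app q (num n))) F F''
        · obtain ⟨F', k1, k2, k3⟩ := k
          exact ⟨F', k1, k2, fun _ => k3⟩
        · exact ⟨F, hF, Ref.refl F, fun k' => absurd k' k⟩
    have := In.mk' hf
    let B : ZF → ZF := fun t =>
      ZFSet.sep (fun s => ∀ t' ∈ om, t ⊆ t' → s ∈ un (app f t')) (un (app f t))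
    have hB : Tm M (fun v => B (v 0)) := inferInstance
    have := fun s [Tm M s] => hB.one s
    refine ⟨img (fun z => app (app f (fst z)) (snd z) ∩ B (fst z))
      (ZFSet.sep (fun z => snd z ∈ dom (app f (fst z))) (prod om om)), In.mem _,
      inf_omega.img _ inferInstance (In.mem _) (inf_omega.sq.mono sep_subset),
      Ctx.genU (F := fun t => app f (num t)) (B := fun t => B (num t))
        ⟨hc, hs, h1, h2, fun t => (h3 t).1, fun t => (h3 t).2.1, fun x hx t0 => ?_, fun t s => ?_,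
          fun V => ?_⟩ hne⟩
    · obtain ⟨t, ht, rfl⟩ := hq' x hx t0
      exact ⟨t, ht, (h3 t).2.2⟩
    · rw [mem_sep]
      refine ⟨fun k t' ht' => k.2 _ (num_mem_omega t') (num_subset.2 ht'), fun k =>
        ⟨k t le_rfl, fun t' ht' k' => ?_⟩⟩
      obtain ⟨u, rfl⟩ := mem_omega.1 ht'
      exact k u (num_subset.1 k')
    · rw [mem_img]
      constructor
      · rintro ⟨z, hz, rfl⟩
        obtain ⟨k1, k2⟩ := mem_sep.1 hz
        obtain ⟨t, ht, y, -, rfl⟩ := mem_prod.1 k1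
        obtain ⟨t, rfl⟩ := mem_omega.1 ht
        exact ⟨t, y, by simpa using k2, by simp⟩
      · rintro ⟨t, y, hy, rfl⟩
        exact ⟨pair (num t) y, mem_sep.2 ⟨pair_mem_prod.2 ⟨num_mem_omega t, SY.om (h3 t).1 hy⟩,
          by simpa using hy⟩, by simp⟩
  · exact ⟨img cone Nds, In.mem _, inf_omega.img cone inferInstance (In.mem _) le_Nds,
      ⟨cone ∅, img_mem (mem_Nds.2 ⟨fn_empty, fun _ h => absurd h (notMem_empty _)⟩)⟩, t1_cone,
      t2_cone, fun T hT => absurd ⟨T, hT⟩ hne, fun h => absurd h hne⟩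

end Pool.Agent.P.MP_9a7e1f_lc
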