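import Pool.Agent.P.MP_9a7e1f_lc.Gap1

/-! Intervals of ordinals fall into few back and forth classes. -/

set_option linter.unusedSectionVars false

namespace Pool.Agent.P.MP_9a7e1f_lc

open ZFSet Pool.Agent.P.MP_3ab3de_lc

namespace GapP

/-- multiples of the `K`-th power of the first uncountable ordinal -/
def C (M : Set ZF) : ℕ → ZF → Prop
  | 0, _ => True
  | K + 1, α => ∀ β ∈ α, ¬ Le M (ZFSet.sep (fun x => C M K x ∧ β ∈ x) α) om

/-- countable cofinality -/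
def Cw (M : Set ZF) (c : ZF) : Prop := ∃ Y ∈ cs M c, ∀ x ∈ c, ∃ y ∈ Y, x ∈ y

variable {M : Set ZF} [hM : TModel M]

instance df_C (K : ℕ) : ∀ (a : Env → ZF) [Tm M a], Df M (fun v => C M K (a v)) := by
  induction K with
  | zero => intro a _; unfold C; infer_instance
  | succ K ih => intro a _; unfold C; infer_instance

instance df_Cw {a : Env → ZF} [Tm M a] : Df M (fun v => Cw M (a v)) := by
  unfold Cw; infer_instance

/-- the points of level `K` between `β` and `α` -/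
noncomputable abbrev A (M : Set ZF) (K : ℕ) (β α : ZF) : ZF :=
  ZFSet.sep (fun x => C M K x ∧ β ∈ x) α

theorem up {K : ℕ} {c β : ZF} (h : C M (K + 1) c) (hβ : β ∈ c) : ∃ x ∈ c, C M K x ∧ β ∈ x := by
  by_contra h1
  exact h β hβ ((le_empty om).mono fun x hx => absurd ⟨x, mem_sep.1 hx⟩ h1)

theorem C_mono {K : ℕ} {x c β : ZF} (h : C M (K + 1) x) (hβ : β ∈ x) (h1 : x ⊆ c) :
    ¬ Le M (A M K β c) om := fun h2 =>
  h β hβ (h2.mono fun _ hz => mem_sep.2 ⟨h1 (mem_sep.1 hz).1, (mem_sep.1 hz).2⟩)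

theorem C_down {K : ℕ} {c : ZF} (hc : IsOrdinal c) (h : C M (K + 1) c) : C M K c := by
  cases K with
  | zero => trivial
  | succ K =>
    intro β hβ
    obtain ⟨x, h1, h2, h3⟩ := up h hβ
    exact C_mono h2 h3 (hc.subset_of_mem h1)

theorem C_union {K : ℕ} {c : ZF} (h : ∀ β ∈ c, ∃ x, C M K x ∧ β ∈ x ∧ x ⊆ c) : C M K c := by
  cases K with
  | zero => trivial
  | succ K =>
    intro β hβ
    obtain ⟨x, h1, h2, h3⟩ := h β hβ
    exact C_mono h1 h2 h3

theorem C_succ {K : ℕ} {c β : ZF} (hc : IsOrdinal c) (h : C M (K + 1) c) (hβ : β ∈ c) :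
    insert β β ∈ c := by
  obtain ⟨x, h1, -, h3⟩ := up h hβ
  refine (isOrdinal_succ (hc.mem hβ)).mem_of_subset_of_mem hc (fun z hz => ?_) h1
  rcases mem_insert_iff.1 hz with rfl | hz
  exacts [h3, (hc.mem h1).mem_trans hz h3]

theorem count {K : ℕ} {β : ZF} (hβ : IsOrdinal β) (hβM : β ∈ M) (x : ZF) : x ∈ M → IsOrdinal x →
    (∀ y, y = x ∨ y ∈ x → β ∈ y → ¬ C M (K + 1) y) → Le M (A M K β x) om := by
  have := In.mk' hβM
  induction x using ZFSet.inductionOn with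
  | h x ih =>
    intro hxM hx h
    have := In.mk' hxM
    rcases hβ.mem_or_subset hx with h1 | h1
    · have h2 := h x (Or.inl rfl) h1
      simp only [C, not_forall, not_not] at h2
      obtain ⟨γ, h3, h4⟩ := h2
      have := In.mk' (tr hxM h3)
      have h5 := ih γ h3 (tr hxM h3) (hx.mem h3) fun y hy => h y (Or.inr (hy.elim
        (fun e => e ▸ h3) fun e => hx.mem_trans e h3))
      refine (inf_omega.insert (tr hxM h3) (In.mem _)
        (inf_omega.union (In.mem _) (In.mem _) h5 h4)).mono fun z hz => ?_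
      obtain ⟨h6, h7, h8⟩ := mem_sep.1 hz
      rcases (hx.mem h6).mem_trichotomous (hx.mem h3) with h9 | rfl | h9
      · exact mem_insert_of_mem _ (mem_union.2 (Or.inl (mem_sep.2 ⟨h9, h7, h8⟩)))
      · exact mem_insert _ _
      · exact mem_insert_of_mem _ (mem_union.2 (Or.inr (mem_sep.2 ⟨h6, h7, h9⟩)))
    · exact (le_empty om).mono fun z hz => absurd
        (hβ.mem_trans (mem_sep.1 hz).2.2 (h1 (mem_sep.1 hz).1)) (mem_irrefl _)

/-- the next point of positive level has uncountable cofinality -/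
theorem next {K : ℕ} {c β : ZF} (hc : IsOrdinal c) (hcM : c ∈ M) (h : C M (K + 1) c) (hβ : β ∈ c) :
    ∃ n, (n = c ∨ n ∈ c) ∧ β ∈ n ∧ C M (K + 1) n ∧ ¬ Cw M n := by
  obtain ⟨n, ⟨h1, h2, h3⟩, h4⟩ := exists_min
    (P := fun n => (n = c ∨ n ∈ c) ∧ β ∈ n ∧ C M (K + 1) n) ⟨c, Or.inl rfl, hβ, h⟩
  refine ⟨n, h1, h2, h3, ?_⟩
  rintro ⟨Y, h5, h6⟩
  obtain ⟨⟨h7, h8⟩, h9⟩ := mem_cs.1 h5
  have hn : IsOrdinal n := h1.elim (fun e => e ▸ hc) hc.mem
  have hn' : n ⊆ c := h1.elim (fun e => e ▸ fun _ h => h) hc.subset_of_mem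
  have := In.mk' (tr hcM hβ)
  refine h3 β h2 ((inf_omega.bun (fun y => A M K β y) inferInstance h8 h9 fun y hy =>
    count (hc.mem hβ) (tr hcM hβ) y (tr h8 hy) (hn.mem (h7 hy)) fun z hz h10 h11 => ?_).mono
      fun z hz => ?_)
  · have h12 : z ∈ n := hz.elim (fun e => e ▸ h7 hy) fun e => hn.mem_trans e (h7 hy)
    exact h4 z h12 ⟨Or.inr (hn' h12), h10, h11⟩
  · obtain ⟨y, h10, h11⟩ := h6 z (mem_sep.1 hz).1
    exact mem_bun.2 ⟨y, h10, mem_sep.2 ⟨h11, (mem_sep.1 hz).2⟩⟩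

theorem unb {κ1 R κ : ZF} (h1 : Hart M om κ1) (hR : Inf M R) (h2 : Le M κ1 R) (h : Hart M R κ)
    (K : ℕ) : ∀ β ∈ κ, ∃ x ∈ κ, C M K x ∧ β ∈ x := by
  induction K with
  | zero => exact fun β hβ => ⟨_, h.succ hR hβ, trivial, mem_insert _ _⟩
  | succ K ih =>
    intro β hβ
    by_contra h3
    have := In.mk' h.mem
    have := In.mk' (tr h.mem hβ)
    have h4 : ∀ x ∈ κ, Le M (A M K β x) om := fun x hx =>
      count (h.ord.mem hβ) (tr h.mem hβ) x (tr h.mem hx) (h.ord.mem hx) fun y hy h5 h6 =>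
        h3 ⟨y, hy.elim (fun e => e ▸ hx) fun e => h.ord.mem_trans e hx, h6, h5⟩
    have h5 : ∀ x, IsOrdinal x → IsOrdinal (col (A M K β κ) x) := by
      intro x
      induction x using ZFSet.inductionOn with
      | h x ih =>
        intro hx
        refine isOrdinal_iff_forall_mem_isOrdinal.2 ⟨fun z hz w hw => ?_, fun z hz => ?_⟩
        · obtain ⟨y, h1, -, rfl⟩ := mem_col.1 hz
          obtain ⟨y', h2, h3⟩ := mem_col.1 hw
          exact mem_col.2 ⟨y', hx.mem_trans h2 h1, h3⟩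
        · obtain ⟨y, h1, -, rfl⟩ := mem_col.1 hz
          exact ih y h1 (hx.mem h1)
    have h6 : Le M (A M K β κ) κ1 := by
      refine (cardLE_of_fun (col (A M K β κ)) inferInstance (In.mem _) (fun x hx => ?_)
        fun x hx y hy e => ?_).le (In.mem _) h1.mem
      · have hx' := (mem_sep.1 hx).1
        have := In.mk' (tr h.mem hx')
        refine h1.mem_of_le (h5 x (h.ord.mem hx')) ((inf_omega.img (col (A M K β κ))
          inferInstance (In.mem _) (h4 x hx')).mono fun z hz => ?_)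
        obtain ⟨y, h6, h7, rfl⟩ := mem_col.1 hz
        exact img_mem (mem_sep.2 ⟨h6, (mem_sep.1 h7).2⟩)
      · rcases (h.ord.mem (mem_sep.1 hx).1).mem_trichotomous (h.ord.mem (mem_sep.1 hy).1) with
          h6 | h6 | h6
        · exact absurd (mem_col.2 ⟨x, h6, hx, e⟩) (mem_irrefl _)
        · exact h6
        · exact absurd (mem_col.2 ⟨y, h6, hy, e.symm⟩) (mem_irrefl _)
    obtain ⟨η, h7, h8⟩ := h.bdd hR (In.mem _) sep_subset (h6.trans h2 hR.mem)
    obtain ⟨x, h9, h10, h11⟩ := ih _ (h.union h7 hβ)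
    have h12 := (h.ord.mem h9).subset_of_mem h11
    have h13 : β ∈ x := (h.ord.mem hβ).mem_of_subset_of_mem (h.ord.mem h9)
      (fun z hz => mem_union.2 (Or.inr hz)) h11
    exact mem_irrefl _ (h12 (mem_union.2 (Or.inl (h8 (mem_sep.2 ⟨h9, h10, h13⟩)))))

/-- translations preserve the levels -/
theorem loc {d o : ZF} (hd : IsOrdinal d) (hdM : d ∈ M) (hoM : o ∈ M) (ho : IsOrdinal o) (K : ℕ) :
    ∀ x ∈ M, IsOrdinal x → d ∈ x → (C M K x ↔ C M K (trn d o x)) := by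
  have := In.mk' hdM
  have := In.mk' hoM
  induction K with
  | zero => exact fun _ _ _ _ => Iff.rfl
  | succ K ih =>
    intro x hxM hx hdx
    have := In.mk' hxM
    constructor
    · intro h β' hβ' h1
      obtain ⟨β, h2, h3, h4⟩ : ∃ β ∈ x, β ∉ d ∧ β' ⊆ trn d o β := by
        rcases mem_trn.1 hβ' with h2 | ⟨β, h2, h3, rfl⟩
        exacts [⟨d, hdx, mem_irrefl _, fun z hz => sub_trn _ _ _ (ho.mem_trans hz h2)⟩,
          ⟨β, h2, h3, fun _ h => h⟩]
      have := In.mk' (tr hxM h2)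
      have := In.mk' (tr (In.mem (M := M) (trn d o x)) hβ')
      have key : ∀ z ∈ A M K β x, d ∈ z := fun z hz => hd.mem_of_subset_of_mem
        (hx.mem (mem_sep.1 hz).1) (((hx.mem h2).notMem_iff_subset hd).1 h3) (mem_sep.1 hz).2.2
      have key2 : ∀ z ∈ A M K β x, z ∉ d := fun z hz h => mem_asymm h (key z hz)
      refine h β h2 (((cardLE_of_fun (trn d o) inferInstance (In.mem _) (fun z hz => ?_)
        fun z hz w hw e => ?_).le (In.mem _) (In.mem _)).trans h1 hM.infinity)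
      · obtain ⟨h5, h6, h7⟩ := mem_sep.1 hz
        exact mem_sep.2 ⟨trn_mem o h5 (key2 z hz), (ih z (tr hxM h5) (hx.mem h5) (key z hz)).1 h6,
          ((trn_ord d ho x hx).mem hβ').mem_of_subset_of_mem (trn_ord d ho z (hx.mem h5)) h4
            (trn_mem o h7 h3)⟩
      · have h5 := hx.mem (mem_sep.1 hz).1
        have h6 := hx.mem (mem_sep.1 hw).1
        exact subset_antisymm ((trn_sub_iff o h5 h6 (key2 w hw)).2 (e ▸ fun _ h => h))
          ((trn_sub_iff o h6 h5 (key2 z hz)).2 (e ▸ fun _ h => h))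
    · intro h β hβ h1
      obtain ⟨γ, h2, h3, h4⟩ : ∃ γ ∈ x, γ ∉ d ∧ β ⊆ γ := by
        by_cases h2 : β ∈ d
        exacts [⟨d, hdx, mem_irrefl _, hd.subset_of_mem h2⟩, ⟨β, hβ, h2, fun _ h => h⟩]
      have := In.mk' (tr hxM hβ)
      refine h _ (trn_mem o h2 h3) ((Le.of_fun (trn d o) inferInstance (In.mem _)
        fun w hw => ?_).trans h1 hM.infinity)
      obtain ⟨h5, h6, h7⟩ := mem_sep.1 hw
      obtain ⟨z, h8, h9, rfl⟩ := (mem_trn.1 h5).resolve_left fun h8 =>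
        trn_notMem d o γ (ho.mem_trans h7 h8)
      have h10 : γ ∈ z := ((hx.mem h8).not_subset_iff_mem (hx.mem h2)).1 fun h10 =>
        mem_irrefl _ (trn_mono d o h10 h7)
      exact ⟨z, mem_sep.2 ⟨h8, (ih z (tr hxM h8) (hx.mem h8) (hd.mem_of_subset_of_mem (hx.mem h8)
        (((hx.mem h2).notMem_iff_subset hd).1 h3) h10)).2 h6,
        (hx.mem hβ).mem_of_subset_of_mem (hx.mem h8) h4 h10⟩, rfl⟩

/-- the last point of level `K` below `b`, or `l` -/
noncomputable def cc (M : Set ZF) (K : ℕ) (l b : ZF) : ZF :=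
  l ∪ ZFSet.sUnion (ZFSet.sep (C M K) (insert b b))

instance tm_cc {K : ℕ} {a b : Env → ZF} [Tm M a] [Tm M b] : Tm M (fun v => cc M K (a v) (b v)) := by
  unfold cc; infer_instance

theorem ord_union {a b : ZF} (ha : IsOrdinal a) (hb : IsOrdinal b) : IsOrdinal (a ∪ b) :=
  isOrdinal_sUnion (c := {a, b}) fun x hx => by
    rcases mem_pair.1 hx with rfl | rfl
    exacts [ha, hb]

theorem cc_ord (K : ℕ) {l b : ZF} (hl : IsOrdinal l) (hb : IsOrdinal b) : IsOrdinal (cc M K l b) :=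
  ord_union hl (isOrdinal_sUnion fun _ hx => (isOrdinal_succ hb).mem (mem_sep.1 hx).1)

theorem sub_cc (K : ℕ) (l b : ZF) : l ⊆ cc M K l b := fun _ h => mem_union.2 (Or.inl h)

theorem cc_sub (K : ℕ) {l b : ZF} (hb : IsOrdinal b) (h : l ⊆ b) : cc M K l b ⊆ b := fun z hz => by
  rcases mem_union.1 hz with h1 | h1
  · exact h h1
  · obtain ⟨x, h2, h3⟩ := mem_sUnion.1 h1
    rcases mem_insert_iff.1 (mem_sep.1 h2).1 with rfl | h4
    exacts [h3, hb.mem_trans h3 h4]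

theorem cc_C (K : ℕ) {l b : ZF} (hl : IsOrdinal l) (hb : IsOrdinal b) (h : cc M K l b ≠ l) :
    l ∈ cc M K l b ∧ C M K (cc M K l b) := by
  have h1 : l ∈ cc M K l b :=
    (hl.eq_or_mem_of_subset (cc_ord K hl hb) (sub_cc K l b)).resolve_left h.symm
  refine ⟨h1, C_union fun β hβ => ?_⟩
  have key : ∀ γ ∈ ZFSet.sUnion (ZFSet.sep (C M K) (insert b b)),
      ∃ x, IsOrdinal x ∧ C M K x ∧ γ ∈ x ∧ x ⊆ cc M K l b := fun γ hγ => by
    obtain ⟨x, h2, h3⟩ := mem_sUnion.1 hγ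
    exact ⟨x, (isOrdinal_succ hb).mem (mem_sep.1 h2).1, (mem_sep.1 h2).2, h3,
      fun z hz => mem_union.2 (Or.inr (mem_sUnion.2 ⟨x, h2, hz⟩))⟩
  rcases mem_union.1 hβ with h2 | h2
  · obtain ⟨x, h3, h4, h5, h6⟩ := key l ((mem_union.1 h1).resolve_left (mem_irrefl _))
    exact ⟨x, h4, h3.mem_trans h2 h5, h6⟩
  · exact (key β h2).imp fun x hx => hx.2

theorem trn_cc {K : ℕ} {l b o n : ZF} (hl : IsOrdinal l) (hb : IsOrdinal b) (hlM : l ∈ M)
    (hbM : b ∈ M) (ho : IsOrdinal o) (hoM : o ∈ M) (hn : IsOrdinal n) (h1 : o ∈ n)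
    (h2 : C M K n) : trn (cc M K l b) o b ∈ n := by
  have := In.mk' hlM
  have := In.mk' hbM
  have hd := cc_ord (M := M) K hl hb
  by_contra h3
  rw [(trn_ord _ ho b hb).notMem_iff_subset hn] at h3
  obtain ⟨x, h4, rfl⟩ : ∃ x ∈ insert b b, trn (cc M K l b) o x = n := by
    rcases hn.eq_or_mem_of_subset (trn_ord _ ho b hb) h3 with h4 | h4
    · exact ⟨b, mem_insert _ _, h4.symm⟩
    · obtain ⟨y, h5, -, h6⟩ := (mem_trn.1 h4).resolve_left fun h5 => mem_asymm h1 h5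
      exact ⟨y, mem_insert_of_mem _ h5, h6⟩
  have hx := (isOrdinal_succ hb).mem h4
  have h5 : cc M K l b ∈ x := (hx.not_subset_iff_mem hd).1 fun h5 => by
    rcases mem_trn.1 h1 with h6 | ⟨y, h6, h7, -⟩
    exacts [mem_irrefl _ h6, h7 (h5 h6)]
  have h6 := (loc hd (In.mem _) hoM ho K x (tr (In.mem (insert b b)) h4) hx h5).2 h2
  exact mem_irrefl _ (mem_union.2 (Or.inr (mem_sUnion.2 ⟨x, mem_sep.2 ⟨h4, h6⟩, h5⟩)) :
    cc M K l b ∈ cc M K l b)

theorem bnd {K : ℕ} {c l Y ξ : ZF} (hc : IsOrdinal c) (hcM : c ∈ M) (h : C M (K + 1) c)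
    (hw : ¬ Cw M c) (hl : l ∈ c) (hY : Y ∈ M) (hξ : ξ ∈ M) (hY' : Le M Y om) (F : ZF → ZF)
    (hF : Tm M fun v => F (v 0)) (h1 : ∀ y ∈ Y, y ∈ ξ → F y ∈ c) :
    hh l (fun y => insert (F y) (F y)) Y ξ ∈ c := by
  have := In.mk' hY
  have := In.mk' hξ
  have := In.mk' (tr hcM hl)
  have := fun s [Tm M s] => hF.one s
  have h2 : insert l (img (fun y => insert (F y) (F y)) (Y ∩ ξ)) ⊆ c := fun z hz => by
    rcases mem_insert_iff.1 hz with rfl | hz
    · exact hl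
    · obtain ⟨y, hy, rfl⟩ := mem_img.1 hz
      exact C_succ hc h (h1 y (mem_inter.1 hy).1 (mem_inter.1 hy).2)
  simp only [Cw, not_exists, not_and, not_forall] at hw
  obtain ⟨x, h3, h4⟩ := hw _ (mem_cs.2 ⟨⟨h2, In.mem _⟩, inf_omega.insert (In.mem _) (In.mem _)
    (inf_omega.img _ inferInstance (In.mem _) (hY'.mono fun _ hz => (mem_inter.1 hz).1))⟩)
  have h5 : ∀ z ∈ insert l (img (fun y => insert (F y) (F y)) (Y ∩ ξ)), z ⊆ x := fun z hz =>
    ((hc.mem h3).notMem_iff_subset (hc.mem (h2 hz))).1 (h4 z hz)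
  refine (ord_union (hc.mem hl) (isOrdinal_sUnion fun z hz =>
    hc.mem (h2 (mem_insert_of_mem _ hz)))).mem_of_subset_of_mem hc (fun z hz => ?_) h3
  rcases mem_hh.1 hz with h6 | ⟨y, h6, h7⟩
  exacts [h5 l (mem_insert _ _) h6,
    h5 _ (mem_insert_of_mem _ (img_mem (F := fun y => insert (F y) (F y)) (mem_inter.2 h6))) h7]

/-- an increasing sequence -/
theorem seq_mono {c f : ZF} (hc : IsOrdinal c) (h : ∀ n : ℕ, app f (num n) ∈ c ∧
    app f (num n) ∈ app f (num (n + 1))) (l : ZF) (hl : app f (num 0) = l) (n : ℕ) :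
    hh l (fun n => app f (insert n n)) om (num n) = app f (num n) := by
  induction n with
  | zero =>
    ext z
    simp [mem_hh, num, ← hl]
  | succ n ih =>
    ext z
    have e := ZFSet.ext_iff.1 ih z
    rw [mem_hh] at e ⊢
    constructor
    · rintro (h1 | ⟨y, ⟨h1, h2⟩, h3⟩)
      · exact (hc.mem (h (n + 1)).1).mem_trans (e.1 (Or.inl h1)) (h n).2
      · rcases mem_insert_iff.1 h2 with rfl | h2
        exacts [h3, (hc.mem (h (n + 1)).1).mem_trans (e.1 (Or.inr ⟨y, ⟨h1, h2⟩, h3⟩)) (h n).2]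
    · exact fun h1 => Or.inr ⟨num n, ⟨num_mem_omega n, mem_insert _ _⟩, h1⟩

theorem ex_cw {K : ℕ} {c β : ZF} (hc : IsOrdinal c) (hcM : c ∈ M) (h : C M (K + 1) c)
    (hw : ¬ Cw M c) (hβ : β ∈ c) : ∃ d ∈ c, β ∈ d ∧ C M K d ∧ Cw M d := by
  obtain ⟨f, hf, h1, h2⟩ := dc (M := M) (fun _ x y => insert x x ∈ y ∧ C M K y) inferInstance hcM hβ
    fun _ x hx => (up h (C_succ hc h hx)).imp fun y hy => ⟨hy.1, hy.2.2, hy.2.1⟩
  have := In.mk' hf
  have := In.mk' (tr hcM hβ)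
  have h3 := bnd hc hcM h hw hβ hM.infinity hM.infinity (Le.refl hM.infinity) (app f) inferInstance
    fun y hy _ => by
      obtain ⟨n, rfl⟩ := mem_omega.1 hy
      exact (h2 n).1
  have h4 : ∀ n, app f (num n) ∈ hh β (fun y => insert (app f y) (app f y)) om om := fun n =>
    mem_hh.2 (Or.inr ⟨_, ⟨num_mem_omega n, num_mem_omega n⟩, mem_insert _ _⟩)
  have h5 : ∀ x ∈ hh β (fun y => insert (app f y) (app f y)) om om, ∃ n, x ∈ app f (num (n + 1)) :=
    fun x hx => by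
      rcases mem_hh.1 hx with h5 | ⟨y, ⟨h5, -⟩, h6⟩
      · exact ⟨0, (hc.mem (h2 1).1).mem_trans (mem_insert_of_mem _ (h1 ▸ h5)) (h2 0).2.1⟩
      · obtain ⟨n, rfl⟩ := mem_omega.1 h5
        exact ⟨n, (hc.mem (h2 (n + 1)).1).mem_trans h6 (h2 n).2.1⟩
  refine ⟨_, h3, h1 ▸ h4 0, C_union fun x hx => ?_, img (app f) om, mem_cs.2 ⟨⟨fun y hy => ?_,
    In.mem _⟩, le_img _ inferInstance hM.infinity⟩, fun x hx => ?_⟩
  · obtain ⟨n, hn⟩ := h5 x hx
    exact ⟨_, (h2 n).2.2, hn, (hc.mem h3).subset_of_mem (h4 _)⟩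
  · obtain ⟨z, hz, rfl⟩ := mem_img.1 hy
    obtain ⟨n, rfl⟩ := mem_omega.1 hz
    exact h4 n
  · obtain ⟨n, hn⟩ := h5 x hx
    exact ⟨_, img_mem (num_mem_omega _), hn⟩

/-- intervals that end in points of high level -/
def G (M : Set ZF) (k : ℕ) : Prop := ∀ c ∈ M, ∀ c' ∈ M, IsOrdinal c → IsOrdinal c' →
  C M (k + 1) c → C M (k + 1) c' → (Cw M c ↔ Cw M c') → ∀ l ∈ c, ∀ l' ∈ c',
    EO M k (c \ l) (c' \ l') ∅

theorem ext1 (hS : S_Sum) {k : ℕ} (hG : G M k) {l b c' l' : ZF} (hl : IsOrdinal l) (hb : IsOrdinal b)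
    (hlM : l ∈ M) (hbM : b ∈ M) (hlb : l ⊆ b) (hc : IsOrdinal c') (hcM : c' ∈ M)
    (h : C M (k + 2) c') (hw : ¬ Cw M c') (hl' : l' ∈ c') :
    ∃ b' ∈ c', EO M k (insert b b \ l) (insert b' b' \ l') {pair b b'} := by
  have := In.mk' hlM
  have := In.mk' hbM
  have hd := cc_ord (M := M) (k + 1) hl hb
  obtain ⟨d', h1, h2, h3⟩ : ∃ d' ∈ c', l' ⊆ d' ∧ EO M k (cc M (k + 1) l b \ l) (d' \ l') ∅ := by
    by_cases e : cc M (k + 1) l b = l
    · exact ⟨l', hl', fun _ h => h, by rw [e]; exact eo_self k l l'⟩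
    · obtain ⟨h1, h2⟩ := cc_C (k + 1) hl hb e
      obtain ⟨d', h3, h4, h5, h6⟩ : ∃ d' ∈ c', l' ∈ d' ∧ C M (k + 1) d' ∧
          (Cw M (cc M (k + 1) l b) ↔ Cw M d') := by
        by_cases e' : Cw M (cc M (k + 1) l b)
        · obtain ⟨d', h3, h4, h5, h6⟩ := ex_cw hc hcM h hw hl'
          exact ⟨d', h3, h4, h5, iff_of_true e' h6⟩
        · obtain ⟨x, h3, h4, h5⟩ := up h hl'
          obtain ⟨n, h6, h7, h8, h9⟩ := next (hc.mem h3) (tr hcM h3) h4 h5
          exact ⟨n, h6.elim (fun e => e ▸ h3) fun e => hc.mem_trans e h3, h7, h8,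
            iff_of_false e' h9⟩
      exact ⟨d', h3, (hc.mem h3).subset_of_mem h4,
        hG _ (In.mem _) d' (tr hcM h3) hd (hc.mem h3) h2 h5 h6 l h1 l' h4⟩
  obtain ⟨n, h4, h5, h6⟩ := up h h1
  have h7 := hc.mem_trans
    (trn_cc hl hb hlM hbM (hc.mem h1) (tr hcM h1) (hc.mem h4) h6 h5) h4
  have := In.mk' (tr hcM h1)
  have h8 : b ∉ cc M (k + 1) l b := fun h8 => mem_irrefl _ (cc_sub _ hb hlb h8)
  have h9 := trn_self (hc.mem h1) _ (hc.mem h7) (sub_trn _ _ _)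
  have h10 := trn_notMem (cc M (k + 1) l b) d' b
  refine ⟨_, h7, eo_mono (two hS hlM (In.mem _) (In.mem _) (tr hcM hl') (In.mem _) (In.mem _) hd
    (isOrdinal_succ hb) (hc.mem h1) (isOrdinal_succ (hc.mem h7)) (sub_cc _ _ _)
    (fun z hz => mem_insert_of_mem _ (cc_sub _ hb hlb hz)) h2
    (fun z hz => mem_insert_of_mem _ (sub_trn _ _ _ hz)) h3
    (iso k (o := d') (In.mem _) (In.mem _) (In.mem _) (In.mem _) (In.mem _) (isOrdinal_succ hb)
      (isOrdinal_succ (hc.mem h7)) (by rw [trn_succ _ h8, trn_succ _ h10, h9])))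
    (In.mem _) fun p hp => ?_⟩
  rw [mem_singleton.1 hp]
  exact mem_union.2 (Or.inr (mem_sep.2 ⟨pair_mem_prod.2 ⟨mem_sdiff.2 ⟨mem_insert _ _, h8⟩,
    mem_sdiff.2 ⟨mem_insert _ _, h10⟩⟩, by rw [fst_pair, snd_pair, h9]⟩))

theorem app_res {a b f c x : ZF} (h : IsFunc a b f) (hc : c ⊆ a) (hx : x ∈ c) :
    app (res f c) x = app f x :=
  (h.res hc).app_eq (mem_res.2 ⟨h.app_mem (hc hx), by simpa using hx⟩)

theorem forth (hS : S_Sum) {k : ℕ} (hG : G M k) {c c' l l' Y : ZF} (hcM : c ∈ M) (hcM' : c' ∈ M)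
    (hc : IsOrdinal c) (hc' : IsOrdinal c') (h : C M (k + 2) c) (h' : C M (k + 2) c')
    (hw : ¬ Cw M c) (hw' : ¬ Cw M c') (hl : l ∈ c) (hl' : l' ∈ c') (hY : Y ∈ cs M (c \ l)) :
    ∃ e ∈ M, EO M k (c \ l) (c' \ l') e ∧ ∀ x ∈ Y, ∃ x', pair x x' ∈ e := by
  obtain ⟨⟨h1, h2⟩, h3⟩ := mem_cs.1 hY
  have hYc : Y ⊆ c := fun y hy => (mem_sdiff.1 (h1 hy)).1
  have := In.mk' h2
  have := In.mk' hcM
  have := In.mk' (tr hcM hl)
  have := In.mk' (tr hcM' hl')
  have h4 : ∀ ξ ∈ M, hh l (fun y => insert y y) Y ξ ∈ c := fun ξ hξ =>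
    bnd hc hcM h hw hl h2 hξ h3 (fun y => y) inferInstance fun y hy _ => hYc hy
  obtain ⟨f, hf, h5, h6⟩ := tdc (M := M) (fun g y => dom g ∈ Y →
    EO M k (insert (dom g) (dom g) \ hh l (fun y => insert y y) Y (dom g))
      (insert y y \ hh l' (fun z => insert (app g z) (app g z)) Y (dom g)) {pair (dom g) y})
    inferInstance hc hcM hcM' fun ξ hξ g hg h5 _ => by
      rw [h5.dom_eq]
      have := In.mk' hg
      by_cases h6 : ξ ∈ Y
      · obtain ⟨y, h7, h8⟩ := ext1 hS hG (hc.mem (h4 ξ (tr hcM hξ))) (hc.mem hξ)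
          (tr hcM (h4 ξ (tr hcM hξ))) (tr hcM hξ) (fun z hz => by
            rcases mem_hh.1 hz with h7 | ⟨y, ⟨-, h7⟩, h8⟩
            · exact ((hc.mem hξ).notMem_iff_subset (hc.mem hl)).1 (mem_sdiff.1 (h1 h6)).2 h7
            · rcases mem_insert_iff.1 h8 with rfl | h8
              exacts [h7, (hc.mem hξ).mem_trans h8 h7]) hc' hcM' h' hw'
          (bnd hc' hcM' h' hw' hl' h2 (tr hcM hξ) h3 (app g) inferInstance
            fun y _ hy => h5.app_mem' hy)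
        exact ⟨y, h7, fun _ => h8⟩
      · exact ⟨l', hl', fun h7 => absurd h7 h6⟩
  have := In.mk' hf
  have h7 := bnd hc' hcM' h' hw' hl' h2 hcM h3 (app f) inferInstance fun y _ hy => h5.app_mem' hy
  have h8 := sumF hS k h2 hc hYc (tr hcM hl) (tr hcM' hl') (fun y => insert y y)
    (fun z => insert (app f z) (app f z)) (fun y => {pair y (app f y)}) inferInstance inferInstance
    inferInstance (fun y hy => ⟨isOrdinal_succ (hc.mem (hYc hy)),
      isOrdinal_succ (hc'.mem (h5.app_mem' (hYc hy)))⟩) fun y hy => by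
      have h8 := h6 y (hYc hy)
      rw [(h5.res (hc.subset_of_mem (hYc hy))).dom_eq] at h8
      have h9 := h8 hy
      unfold hh at h9 ⊢
      rwa [bun_congr (F := fun z => insert (app (res f y) z) (app (res f y) z))
        (G := fun z => insert (app f z) (app f z)) fun z hz => by
          rw [app_res h5 (hc.subset_of_mem (hYc hy)) (mem_inter.1 hz).2]] at h9
  have h9 := two hS (tr hcM hl) (tr hcM (h4 c hcM)) hcM (tr hcM' hl') (tr hcM' h7) hcM'
    (hc.mem (h4 c hcM)) hc (hc'.mem h7) hc' (fun _ hz => mem_hh.2 (Or.inl hz))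
    (hc.subset_of_mem (h4 c hcM)) (fun _ hz => mem_hh.2 (Or.inl hz)) (hc'.subset_of_mem h7) h8
    (hG c hcM c' hcM' hc hc' (C_down hc h) (C_down hc' h') (iff_of_false hw hw') _ (h4 c hcM) _ h7)
  exact ⟨_, h9.zero.1, h9, fun x hx => ⟨app f x, mem_union.2 (Or.inl (mem_bun.2
    ⟨x, hx, mem_singleton.2 rfl⟩))⟩⟩

theorem step1 (hS : S_Sum) {k : ℕ} (hG : G M k) {c c' l l' : ZF} (hcM : c ∈ M) (hcM' : c' ∈ M)
    (hc : IsOrdinal c) (hc' : IsOrdinal c') (h : C M (k + 2) c) (h' : C M (k + 2) c')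
    (hw : ¬ Cw M c) (hw' : ¬ Cw M c') (hl : l ∈ c) (hl' : l' ∈ c') :
    EO M (k + 1) (c \ l) (c' \ l') ∅ := by
  refine ⟨eo0_nil _ _, fun Y hY => ?_, fun Y hY => ?_⟩
  · obtain ⟨e, h1, h2, h3⟩ := forth hS hG hcM hcM' hc hc' h h' hw hw' hl hl' hY
    exact ⟨e, h1, empty_subset _, h2, h3⟩
  · obtain ⟨e, -, h2, h3⟩ := forth hS hG hcM' hcM hc' hc h' h hw' hw hl' hl hY
    have := In.mk' hcM
    have := In.mk' hcM'
    have := In.mk' (tr hcM hl)
    have := In.mk' (tr hcM' hl')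
    have h4 := eo_symm (In.mem _) (In.mem _) k e h2
    exact ⟨_, h4.zero.1, empty_subset _, h4, fun x hx =>
      (h3 x hx).imp fun y hy => (mem_inv h2.zero.2.1).2 hy⟩

theorem seq {K : ℕ} {c l : ZF} (hc : IsOrdinal c) (hcM : c ∈ M) (h : C M (K + 1) c) (hw : Cw M c)
    (hl : l ∈ c) : ∃ f ∈ M, hh l (fun n => app f (insert n n)) om om = c ∧ ∀ n ∈ om,
      app f (insert n n) ∈ c ∧ hh l (fun n => app f (insert n n)) om n ∈ app f (insert n n) ∧
        C M (K + 1) (app f (insert n n)) ∧ ¬ Cw M (app f (insert n n)) := by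
  obtain ⟨Y, h1, h2⟩ := id hw
  obtain ⟨⟨h3, -⟩, g, hg, h4⟩ := mem_cs.1 h1
  have := In.mk' hg
  have := In.mk' hcM
  obtain ⟨f, hf, h5, h6⟩ := dc (M := M) (fun n x y => x ∈ y ∧ (app g n ∈ c → app g n ⊆ y) ∧
    C M (K + 1) y ∧ ¬ Cw M y) inferInstance hcM hl fun n x hx => by
      obtain ⟨β, h5, h6, h7⟩ : ∃ β ∈ c, x ⊆ β ∧ (app g (num n) ∈ c → app g (num n) ⊆ β) := by
        by_cases h5 : app g (num n) ∈ c
        · rcases (hc.mem hx).subset_total (hc.mem h5) with h6 | h6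
          exacts [⟨_, h5, h6, fun _ _ h => h⟩, ⟨x, hx, fun _ h => h, fun _ => h6⟩]
        · exact ⟨x, hx, fun _ h => h, fun h6 => absurd h6 h5⟩
      obtain ⟨y, h8, h9, h10, h11⟩ := next hc hcM h h5
      have h12 : y ∈ c := h8.resolve_left fun e => h11 (e ▸ hw)
      exact ⟨y, h12, (hc.mem hx).mem_of_subset_of_mem (hc.mem h12) h6 h9,
        fun h13 z hz => (hc.mem h12).mem_trans (h7 h13 hz) h9, h10, h11⟩
  refine ⟨f, hf, ?_, fun n hn => ?_⟩
  · ext z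
    rw [mem_hh]
    constructor
    · rintro (h7 | ⟨y, ⟨h7, -⟩, h8⟩)
      · exact hc.mem_trans h7 hl
      · obtain ⟨n, rfl⟩ := mem_omega.1 h7
        exact hc.mem_trans h8 (h6 (n + 1)).1
    · intro hz
      obtain ⟨y, h7, h8⟩ := h2 z hz
      obtain ⟨x, h9, rfl⟩ := h4 y h7
      obtain ⟨n, rfl⟩ := mem_omega.1 h9
      exact Or.inr ⟨_, ⟨h9, h9⟩, (h6 n).2.2.1 (h3 h7) h8⟩
  · obtain ⟨n, rfl⟩ := mem_omega.1 hn
    rw [seq_mono hc (fun n => ⟨(h6 n).1, (h6 n).2.1⟩) l h5 n]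
    exact ⟨(h6 (n + 1)).1, (h6 n).2.1, (h6 n).2.2.2⟩

theorem G_all (hS : S_Sum) (k : ℕ) : G M k := by
  induction k with
  | zero => exact fun _ _ _ _ _ _ _ _ _ _ _ _ _ => eo0_nil _ _
  | succ k ih =>
    intro c hcM c' hcM' hc hc' h h' hw l hl l' hl'
    by_cases h1 : Cw M c
    · obtain ⟨f, hf, h2, h3⟩ := seq hc hcM h h1 hl
      obtain ⟨f', hf', h2', h3'⟩ := seq hc' hcM' h' (hw.1 h1) hl'
      have := In.mk' hf
      have := In.mk' hf'
      have h4 := sumF hS (k + 1) hM.infinity isOrdinal_omega (fun _ h => h) (tr hcM hl)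
        (tr hcM' hl') (fun n => app f (insert n n)) (fun n => app f' (insert n n)) (fun _ => ∅)
        inferInstance inferInstance inferInstance
        (fun n hn => ⟨hc.mem (h3 n hn).1, hc'.mem (h3' n hn).1⟩) fun n hn =>
          step1 hS ih (tr hcM (h3 n hn).1) (tr hcM' (h3' n hn).1) (hc.mem (h3 n hn).1)
            (hc'.mem (h3' n hn).1) (h3 n hn).2.2.1 (h3' n hn).2.2.1 (h3 n hn).2.2.2
            (h3' n hn).2.2.2 (h3 n hn).2.1 (h3' n hn).2.1
      rw [h2, h2'] at h4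
      exact eo_nil h4
    · exact step1 hS ih hcM hcM' hc hc' h h' h1 (fun h2 => h1 (hw.2 h2)) hl hl'

open Classical in
/-- a truth value -/
noncomputable def fl (P : Prop) : ZF := if P then ∅ else num 1

theorem fl_mem (P : Prop) : fl P ∈ om := by
  unfold fl
  split_ifs
  exacts [omega_zero, num_mem_omega 1]

theorem fl_inj {P Q : Prop} (h : fl P = fl Q) : P ↔ Q := by
  unfold fl at h
  split_ifs at h with h1 h2 h2
  exacts [iff_of_true h1 h2, absurd h.symm one_ne, absurd h one_ne, iff_of_false h1 h2]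

instance tm_fl {P : Env → Prop} [Df M P] : Tm M (fun v => fl (P v)) := by
  unfold fl; infer_instance

/-- the type of an interval -/
noncomputable def ty (M : Set ZF) (K : ℕ) (l b : ZF) : ZF :=
  pair (pair (fl (cc M K l b = l)) (fl (Cw M (cc M K l b)))) (trn (cc M K l b) ∅ b)

instance tm_ty {K : ℕ} {a b : Env → ZF} [Tm M a] [Tm M b] : Tm M (fun v => ty M K (a v) (b v)) := by
  unfold ty; infer_instance

end GapP

open GapP in
theorem gap (h : S_Sum) : S_Gap := by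
  intro M hM κ1 R κ h1 hR h2 hκ k
  obtain ⟨n, h3, h4, h5⟩ := unb h1 hR h2 hκ (k + 1) ∅ (hκ.zero hR)
  have := In.mk' hκ.mem
  have := In.mk' (tr hκ.mem h3)
  have e : ∀ l ∈ κ, ∀ b ∈ κ, app (graph (fun p => ty M (k + 1) (fst p) (snd p)) (prod κ κ))
      (pair l b) = ty M (k + 1) l b := fun l hl b hb => by
    rw [app_graph (pair_mem_prod.2 ⟨hl, hb⟩), fst_pair, snd_pair]
  refine ⟨prod (prod om om) n, In.mem _, hR.prod (hR.prod hR.omLe hR.omLe) (hκ.le n h3),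
    graph (fun p => ty M (k + 1) (fst p) (snd p)) (prod κ κ), In.mem _, fun l hl b hb => ?_,
    fun l hl b hb l' hl' b' hb' s s' h6 => ?_⟩
  · rw [e l hl b hb]
    exact pair_mem_prod.2 ⟨pair_mem_prod.2 ⟨fl_mem _, fl_mem _⟩, trn_cc (hκ.ord.mem hl)
      (hκ.ord.mem hb) (tr hκ.mem hl) (tr hκ.mem hb) isOrdinal_empty empty_mem (hκ.ord.mem h3) h5 h4⟩
  · rw [e l hl b hb, e l' hl' b' hb', ty, ty, pair_inj, pair_inj] at h6
    obtain ⟨⟨h6, h7⟩, h8⟩ := h6
    have := In.mk' (tr hκ.mem hl)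
    have := In.mk' (tr hκ.mem hb)
    have := In.mk' (tr hκ.mem hl')
    have := In.mk' (tr hκ.mem hb')
    have o1 := cc_ord (M := M) (k + 1) (hκ.ord.mem hl) (hκ.ord.mem hb)
    have o2 := cc_ord (M := M) (k + 1) (hκ.ord.mem hl') (hκ.ord.mem hb')
    have h9 : EO M k (cc M (k + 1) l b \ l) (cc M (k + 1) l' b' \ l') ∅ := by
      by_cases h9 : cc M (k + 1) l b = l
      · rw [h9, (fl_inj h6).1 h9]
        exact eo_self k l l'
      · obtain ⟨h10, h11⟩ := cc_C (k + 1) (hκ.ord.mem hl) (hκ.ord.mem hb) h9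
        obtain ⟨h12, h13⟩ := cc_C (M := M) (k + 1) (hκ.ord.mem hl') (hκ.ord.mem hb')
          fun h12 => h9 ((fl_inj h6).2 h12)
        exact G_all h k _ (In.mem _) _ (In.mem _) o1 o2 h11 h13 (fl_inj h7) l h10 l' h12
    exact eo_nil (two h (In.mem _) (In.mem _) (In.mem _) (In.mem _) (In.mem _) (In.mem _) o1
      (hκ.ord.mem hb) o2 (hκ.ord.mem hb') (sub_cc _ _ _) (cc_sub _ (hκ.ord.mem hb) s) (sub_cc _ _ _)
      (cc_sub _ (hκ.ord.mem hb') s') h9 (iso k (In.mem _) (In.mem _) (In.mem _) (In.mem _) empty_mem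
        (hκ.ord.mem hb) (hκ.ord.mem hb') h8))

end Pool.Agent.P.MP_9a7e1f_lc
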