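import Pool.Agent.P.MP_9a7e1f_lc.St1

/-! Sums of back and forth systems along ordinals, translations of ordinals. -/

set_option linter.unusedSectionVars false

namespace Pool.Agent.P.MP_9a7e1f_lc

open ZFSet Pool.Agent.P.MP_3ab3de_lc

namespace GapP

variable {M : Set ZF} [hM : TModel M]

theorem eo_mono {k : ℕ} {X X' e e0 : ZF} (h : EO M k X X' e) (h0 : e0 ∈ M) (hs : e0 ⊆ e) :
    EO M k X X' e0 := by
  have key : EO0 M X X' e0 := ⟨h0, fun p hp => h.zero.2.1 (hs hp),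
    fun x x' y y' h1 h2 => h.zero.2.2 x x' y y' (hs h1) (hs h2)⟩
  cases k with
  | zero => exact key
  | succ k =>
    exact ⟨key, fun Y hY => (h.2.1 Y hY).imp fun e' h' =>
        ⟨h'.1, fun p hp => h'.2.1 (hs hp), h'.2.2⟩,
      fun Y hY => (h.2.2 Y hY).imp fun e' h' => ⟨h'.1, fun p hp => h'.2.1 (hs hp), h'.2.2⟩⟩

theorem eo_nil {k : ℕ} {X X' e : ZF} (h : EO M k X X' e) : EO M k X X' ∅ :=
  eo_mono h empty_mem (empty_subset _)

theorem eo0_nil (X X' : ZF) : EO0 M X X' ∅ :=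
  ⟨empty_mem, empty_subset _, fun _ _ _ _ h => absurd h (notMem_empty _)⟩

theorem eo_self (k : ℕ) (l l' : ZF) : EO M k (l \ l) (l' \ l') ∅ :=
  EO.of_total (eo0_nil _ _) (fun _ hx => absurd (mem_sdiff.1 hx).1 (mem_sdiff.1 hx).2)
    (fun _ hx => absurd (mem_sdiff.1 hx).1 (mem_sdiff.1 hx).2) k

/-- the inverse relation -/
noncomputable def inv (X X' e : ZF) : ZF :=
  ZFSet.sep (fun p => pair (snd p) (fst p) ∈ e) (prod X' X)

theorem mem_inv {X X' e a b : ZF} (h : e ⊆ prod X X') : pair a b ∈ inv X X' e ↔ pair b a ∈ e := by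
  simp only [inv, mem_sep, fst_pair, snd_pair, pair_mem_prod]
  exact ⟨fun h => h.2, fun h' => ⟨(pair_mem_prod.1 (h h')).symm, h'⟩⟩

theorem eo_symm {X X' : ZF} (hX : X ∈ M) (hX' : X' ∈ M) (k : ℕ) :
    ∀ e, EO M k X X' e → EO M k X' X (inv X X' e) := by
  have := In.mk' hX
  have := In.mk' hX'
  have k0 : ∀ e, EO0 M X X' e → EO0 M X' X (inv X X' e) := fun e h => by
    have := In.mk' h.1
    exact ⟨by unfold inv; exact In.mem _, sep_subset, fun x x' y y' h1 h2 =>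
      (h.2.2 _ _ _ _ ((mem_inv h.2.1).1 h1) ((mem_inv h.2.1).1 h2)).symm⟩
  have k1 : ∀ e e' : ZF, e ⊆ e' → inv X X' e ⊆ inv X X' e' := fun e e' h p hp =>
    mem_sep.2 ⟨(mem_sep.1 hp).1, h (mem_sep.1 hp).2⟩
  induction k with
  | zero => exact k0
  | succ k ih =>
    intro e h
    refine ⟨k0 e h.1, fun Y hY => ?_, fun Y hY => ?_⟩
    · obtain ⟨e', -, h1, h2, h3⟩ := h.2.2 Y hY
      exact ⟨_, (ih e' h2).zero.1, k1 _ _ h1, ih e' h2, fun x hx =>
        (h3 x hx).imp fun y hy => (mem_inv h2.zero.2.1).2 hy⟩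
    · obtain ⟨e', -, h1, h2, h3⟩ := h.2.1 Y hY
      exact ⟨_, (ih e' h2).zero.1, k1 _ _ h1, ih e' h2, fun x hx =>
        (h3 x hx).imp fun y hy => (mem_inv h2.zero.2.1).2 hy⟩

theorem bun_congr {F G : ZF → ZF} {a : ZF} (h : ∀ x ∈ a, F x = G x) : bun F a = bun G a := by
  ext y
  simp only [mem_bun]
  exact exists_congr fun x => and_congr_right fun hx => by rw [h x hx]

/-- `X` lies strictly below `Y` -/
def Lt (X Y : ZF) : Prop := ∀ x ∈ X, ∀ y ∈ Y, x ⊆ y ∧ ¬ y ⊆ x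

theorem lt_of {X Y o : ZF} (ho : IsOrdinal o) (h1 : X ⊆ o) (h2 : ∀ y ∈ Y, IsOrdinal y ∧ y ∉ o) :
    Lt X Y := fun x hx y hy => by
  have h3 : x ∈ y := ((h2 y hy).1.notMem_iff_subset ho).1 (h2 y hy).2 (h1 hx)
  exact ⟨(h2 y hy).1.subset_of_mem h3, fun h4 => mem_irrefl _ (h4 h3)⟩

theorem chain (hS : S_Sum) (k : ℕ) {B : ZF} (hB : B ∈ M) (ho : ∀ b ∈ B, IsOrdinal b)
    (X X' E : ZF → ZF) (hX : Tm M fun v => X (v 0)) (hX' : Tm M fun v => X' (v 0))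
    (hE : Tm M fun v => E (v 0)) (h1 : ∀ b ∈ B, EO M k (X b) (X' b) (E b))
    (h2 : ∀ b ∈ B, ∀ c ∈ B, b ∈ c → Lt (X b) (X c) ∧ Lt (X' b) (X' c)) :
    EO M k (bun X B) (bun X' B) (bun E B) := by
  have := In.mk' hB
  have h := hS M k B hB (graph X B) (In.mem _) (graph X' B) (In.mem _) (graph E B) (In.mem _)
    (fun b hb => by rw [app_graph hb, app_graph hb, app_graph hb]; exact h1 b hb)
    fun b hb c hc hne x hx x' hx' y hy y' hy' => by
      rw [app_graph hb] at hx hx'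
      rw [app_graph hc] at hy hy'
      rcases (ho b hb).mem_trichotomous (ho c hc) with h3 | h3 | h3
      · exact iff_of_true ((h2 b hb c hc h3).1 x hx y hy).1 ((h2 b hb c hc h3).2 x' hx' y' hy').1
      · exact absurd h3 hne
      · exact iff_of_false ((h2 c hc b hb h3).1 y hy x hx).2 ((h2 c hc b hb h3).2 y' hy' x' hx').2
  rwa [bun_congr fun b hb => app_graph hb, bun_congr fun b hb => app_graph hb,
    bun_congr fun b hb => app_graph hb] at h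

/-- the left end of the block of `ξ` -/
noncomputable def hh (l : ZF) (F : ZF → ZF) (Y ξ : ZF) : ZF := l ∪ bun F (Y ∩ ξ)

theorem mem_hh {l Y ξ x : ZF} {F : ZF → ZF} :
    x ∈ hh l F Y ξ ↔ x ∈ l ∨ ∃ y, (y ∈ Y ∧ y ∈ ξ) ∧ x ∈ F y := by
  simp only [hh, mem_union, mem_bun, mem_inter]

instance tm_hh {a b c : Env → ZF} [Tm M a] [Tm M b] [Tm M c] {F : Env → ZF → ZF}
    [Tm M (fun v => F (fun n => v (n + 1)) (v 0))] :
    Tm M (fun v => hh (a v) (F v) (b v) (c v)) := by unfold hh; infer_instance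

theorem cover {l Y c : ZF} (F : ZF → ZF) (hY : Y ⊆ c) :
    bun (fun y => F y \ hh l F Y y) Y = hh l F Y c \ l := by
  ext x
  simp only [mem_bun, mem_sdiff, mem_hh]
  constructor
  · rintro ⟨y, hy, h1, h2⟩
    exact ⟨Or.inr ⟨y, ⟨hy, hY hy⟩, h1⟩, fun h => h2 (Or.inl h)⟩
  · rintro ⟨h1 | ⟨y, hy, h1⟩, h2⟩
    · exact absurd h1 h2
    · obtain ⟨z, ⟨h3, h4⟩, h5⟩ := exists_min (P := fun z => z ∈ Y ∧ x ∈ F z) ⟨y, hy.1, h1⟩
      refine ⟨z, h3, h4, ?_⟩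
      rintro (h | ⟨w, ⟨h6, h7⟩, h8⟩)
      exacts [h2 h, h5 w h7 ⟨h6, h8⟩]

theorem sumF (hS : S_Sum) (k : ℕ) {Y c l l' : ZF} (hY : Y ∈ M) (hc : IsOrdinal c) (hYc : Y ⊆ c)
    (hl : l ∈ M) (hl' : l' ∈ M) (F F' E : ZF → ZF) (hF : Tm M fun v => F (v 0))
    (hF' : Tm M fun v => F' (v 0)) (hE : Tm M fun v => E (v 0))
    (h0 : ∀ y ∈ Y, IsOrdinal (F y) ∧ IsOrdinal (F' y))
    (h1 : ∀ y ∈ Y, EO M k (F y \ hh l F Y y) (F' y \ hh l' F' Y y) (E y)) :
    EO M k (hh l F Y c \ l) (hh l' F' Y c \ l') (bun E Y) := by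
  have := In.mk' hY
  have := In.mk' hl
  have := In.mk' hl'
  have := fun s [Tm M s] => hF.one s
  have := fun s [Tm M s] => hF'.one s
  rw [← cover F hYc, ← cover F' hYc]
  refine chain hS k hY (fun b hb => hc.mem (hYc hb)) _ _ E inferInstance inferInstance hE h1
    fun b hb d hd hbd => ⟨lt_of (h0 b hb).1 (fun x hx => (mem_sdiff.1 hx).1) fun y hy => ?_,
      lt_of (h0 b hb).2 (fun x hx => (mem_sdiff.1 hx).1) fun y hy => ?_⟩
  · exact ⟨(h0 d hd).1.mem (mem_sdiff.1 hy).1,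
      fun h => (mem_sdiff.1 hy).2 (mem_hh.2 (Or.inr ⟨b, ⟨hb, hbd⟩, h⟩))⟩
  · exact ⟨(h0 d hd).2.mem (mem_sdiff.1 hy).1,
      fun h => (mem_sdiff.1 hy).2 (mem_hh.2 (Or.inr ⟨b, ⟨hb, hbd⟩, h⟩))⟩

theorem mem_two {x : ZF} : x ∈ num 2 ↔ x = num 1 ∨ x = ∅ := by
  simp [num]

theorem one_ne : num 1 ≠ (∅ : ZF) := fun e => absurd (num_inj (n := 0).1 e) (by omega)

open Classical in
theorem bun_two (a b : ZF) : bun (fun n => if n = ∅ then a else b) (num 2) = a ∪ b := by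
  ext x
  simp only [mem_bun, mem_two, mem_union]
  constructor
  · rintro ⟨_, rfl | rfl, h⟩
    · rw [if_neg one_ne] at h
      exact Or.inr h
    · rw [if_pos rfl] at h
      exact Or.inl h
  · rintro (h | h)
    · exact ⟨_, Or.inr rfl, by rwa [if_pos rfl]⟩
    · exact ⟨_, Or.inl rfl, by rwa [if_neg one_ne]⟩

theorem sdiff_split {l d b : ZF} (h1 : l ⊆ d) (h2 : d ⊆ b) : b \ l = d \ l ∪ b \ d := by
  ext x
  simp only [mem_sdiff, mem_union]
  constructor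
  · intro h
    by_cases hx : x ∈ d
    exacts [Or.inl ⟨hx, h.2⟩, Or.inr ⟨h.1, hx⟩]
  · rintro (h | h)
    exacts [⟨h2 h.1, h.2⟩, ⟨h.1, fun h' => h.2 (h1 h')⟩]

theorem two (hS : S_Sum) {k : ℕ} {l d b l' d' b' e1 e2 : ZF} (hl : l ∈ M) (hd : d ∈ M) (hb : b ∈ M)
    (hl' : l' ∈ M) (hd' : d' ∈ M) (hb' : b' ∈ M) (od : IsOrdinal d) (ob : IsOrdinal b)
    (od' : IsOrdinal d') (ob' : IsOrdinal b') (s1 : l ⊆ d) (s2 : d ⊆ b) (s1' : l' ⊆ d')
    (s2' : d' ⊆ b') (h1 : EO M k (d \ l) (d' \ l') e1) (h2 : EO M k (b \ d) (b' \ d') e2) :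
    EO M k (b \ l) (b' \ l') (e1 ∪ e2) := by
  classical
  have := In.mk' hl
  have := In.mk' hd
  have := In.mk' hb
  have := In.mk' hl'
  have := In.mk' hd'
  have := In.mk' hb'
  have := In.mk' h1.zero.1
  have := In.mk' h2.zero.1
  rw [sdiff_split s1 s2, sdiff_split s1' s2', ← bun_two, ← bun_two, ← bun_two]
  refine chain hS k (In.mem _) (fun x hx => (isOrdinal_omega.mem (num_mem_omega 2)).mem hx) _ _ _
    inferInstance inferInstance inferInstance (fun x _ => ?_) fun x hx y hy hxy => ?_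
  · by_cases h : x = ∅
    · simpa only [if_pos h] using h1
    · simpa only [if_neg h] using h2
  · have hy0 : y ≠ ∅ := fun e => notMem_empty _ (e ▸ hxy)
    have hx0 : x = ∅ := by
      obtain rfl := (mem_two.1 hy).resolve_right hy0
      simpa [num] using hxy
    simp only [if_pos hx0, if_neg hy0]
    exact ⟨lt_of od (fun x hx => (mem_sdiff.1 hx).1) fun y hy =>
        ⟨ob.mem (mem_sdiff.1 hy).1, (mem_sdiff.1 hy).2⟩,
      lt_of od' (fun x hx => (mem_sdiff.1 hx).1) fun y hy =>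
        ⟨ob'.mem (mem_sdiff.1 hy).1, (mem_sdiff.1 hy).2⟩⟩

/-! ### translations -/

/-- the translation that moves `d` to `o` -/
noncomputable def trn (d o : ZF) : ZF → ZF :=
  rc fun _ g => o ∪ img snd (ZFSet.sep (fun p => fst p ∉ d) g)

theorem mem_trn {d o x z : ZF} : z ∈ trn d o x ↔ z ∈ o ∨ ∃ y ∈ x, y ∉ d ∧ trn d o y = z := by
  rw [show trn d o x = _ from rc_eq _ x]
  simp only [mem_union, mem_img, mem_sep, mem_graph]
  refine or_congr_right ⟨?_, ?_⟩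
  · rintro ⟨_, ⟨⟨y, hy, rfl⟩, h⟩, rfl⟩
    exact ⟨y, hy, by simpa using h, by simp; rfl⟩
  · rintro ⟨y, hy, h, rfl⟩
    exact ⟨_, ⟨⟨y, hy, rfl⟩, by simpa using h⟩, by simp; rfl⟩

theorem psi_rc {Φ : ZF → ZF → ZF} (h : Tm M (fun v => Φ (v 0) (v 1))) {x : ZF} (hx : x ∈ M) :
    Psi M Φ x (rc Φ x) :=
  (rc_aux h (fun _ => True) (fun x hx _ =>
    ⟨VM M (rk x), (VM_aux (rk_mem x hx) (rk_ord x)).1, (subset_VM hx).2 (by simp), VM_trans _,
      fun y hy => ⟨trivial, by simpa using (mem_VM.1 hy).1⟩⟩) x hx trivial).2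

set_option synthInstance.maxSize 1024 in
instance tm_trn {a b c : Env → ZF} [ha : Tm M a] [hb : Tm M b] [hc : Tm M c] :
    Tm M (fun v => trn (a v) (b v) (c v)) := by
  have key : ∀ v, EIn M v → Tm M (fun w => b v ∪ img snd (ZFSet.sep (fun p => fst p ∉ a v) (w 1))) :=
    fun v hv => by
      have := In.mk' (ha.mem v hv)
      have := In.mk' (hb.mem v hv)
      infer_instance
  refine ⟨fun v hv => (tm_rc (Φ := fun _ g => b v ∪ img snd (ZFSet.sep (fun p => fst p ∉ a v) g))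
    (key v hv)).mem (fun _ => c v) fun _ => hc.mem v hv, ?_⟩
  refine Df.congr (P := fun v => Psi M (fun _ g => b (fun n => v (n + 1)) ∪ img snd (ZFSet.sep
    (fun p => fst p ∉ a (fun n => v (n + 1))) g)) (c fun n => v (n + 1)) (v 0))
    (by unfold Psi Apx; beta_reduce; infer_instance) fun v hv => ⟨fun e => ?_, fun e => e.eq⟩
  rw [e]
  exact psi_rc (Φ := fun _ g => b _ ∪ img snd (ZFSet.sep (fun p => fst p ∉ a _) g))
    (key _ (hv.ren _)) (hc.mem _ (hv.ren _))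

theorem sub_trn (d o x : ZF) : o ⊆ trn d o x := fun _ h => mem_trn.2 (Or.inl h)

theorem trn_notMem (d o x : ZF) : trn d o x ∉ o := fun h => mem_irrefl _ (sub_trn d o x h)

theorem trn_mem {d x y : ZF} (o : ZF) (h : y ∈ x) (h' : y ∉ d) : trn d o y ∈ trn d o x :=
  mem_trn.2 (Or.inr ⟨y, h, h', rfl⟩)

theorem trn_mono {x y : ZF} (d o : ZF) (h : x ⊆ y) : trn d o x ⊆ trn d o y := fun _ hz =>
  mem_trn.2 ((mem_trn.1 hz).imp_right fun ⟨w, h1, h2⟩ => ⟨w, h h1, h2⟩)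

theorem trn_ord {o : ZF} (d : ZF) (ho : IsOrdinal o) (x : ZF) : IsOrdinal x → IsOrdinal (trn d o x) := by
  induction x using ZFSet.inductionOn with
  | h x ih =>
    intro hx
    refine isOrdinal_iff_forall_mem_isOrdinal.2 ⟨fun z hz => ?_, fun z hz => ?_⟩
    · rcases mem_trn.1 hz with h | ⟨y, h1, -, rfl⟩
      exacts [fun w hw => sub_trn d o x (ho.mem_trans hw h), trn_mono d o (hx.subset_of_mem h1)]
    · rcases mem_trn.1 hz with h | ⟨y, h1, -, rfl⟩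
      exacts [ho.mem h, ih y h1 (hx.mem h1)]

theorem trn_sub_iff {d x y : ZF} (o : ZF) (hx : IsOrdinal x) (hy : IsOrdinal y) (h : y ∉ d) :
    x ⊆ y ↔ trn d o x ⊆ trn d o y :=
  ⟨trn_mono d o, fun h1 => by_contra fun h2 =>
    mem_irrefl _ (h1 (trn_mem o ((hx.not_subset_iff_mem hy).1 h2) h))⟩

theorem trn_succ {d b : ZF} (o : ZF) (h : b ∉ d) :
    trn d o (insert b b) = insert (trn d o b) (trn d o b) := by
  ext z
  rw [mem_insert_iff, mem_trn, mem_trn (x := b)]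
  constructor
  · rintro (h1 | ⟨y, h1, h2, rfl⟩)
    · exact Or.inr (Or.inl h1)
    · rcases mem_insert_iff.1 h1 with rfl | h1
      exacts [Or.inl rfl, Or.inr (Or.inr ⟨y, h1, h2, rfl⟩)]
  · rintro (rfl | h1 | ⟨y, h1, h2, rfl⟩)
    exacts [Or.inr ⟨b, mem_insert _ _, h, rfl⟩, Or.inl h1,
      Or.inr ⟨y, mem_insert_of_mem _ h1, h2, rfl⟩]

theorem trn_self {d : ZF} (hd : IsOrdinal d) (x : ZF) : IsOrdinal x → d ⊆ x → trn d d x = x := by
  induction x using ZFSet.inductionOn with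
  | h x ih =>
    intro hx h
    have key : ∀ y ∈ x, y ∉ d → trn d d y = y := fun y hy h1 =>
      ih y hy (hx.mem hy) (((hx.mem hy).notMem_iff_subset hd).1 h1)
    ext z
    rw [mem_trn]
    constructor
    · rintro (h1 | ⟨y, h1, h2, rfl⟩)
      exacts [h h1, (key y h1 h2).symm ▸ h1]
    · intro hz
      by_cases h1 : z ∈ d
      exacts [Or.inl h1, Or.inr ⟨z, hz, h1, key z hz h1⟩]

theorem iso (k : ℕ) {d s d' s' o : ZF} (hd : d ∈ M) (hs : s ∈ M) (hd' : d' ∈ M) (hs' : s' ∈ M)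
    (ho : o ∈ M) (os : IsOrdinal s) (os' : IsOrdinal s') (e : trn d o s = trn d' o s') :
    EO M k (s \ d) (s' \ d')
      (ZFSet.sep (fun p => trn d o (fst p) = trn d' o (snd p)) (prod (s \ d) (s' \ d'))) := by
  have := In.mk' hd
  have := In.mk' hs
  have := In.mk' hd'
  have := In.mk' hs'
  have := In.mk' ho
  refine EO.of_total ⟨In.mem _, sep_subset, fun x x' y y' h1 h2 => ?_⟩ (fun x hx => ?_)
    (fun x hx => ?_) k
  · simp only [mem_sep, pair_mem_prod, mem_sdiff, fst_pair, snd_pair] at h1 h2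
    rw [trn_sub_iff o (os.mem h1.1.1.1) (os.mem h2.1.1.1) h2.1.1.2,
      trn_sub_iff o (os'.mem h1.1.2.1) (os'.mem h2.1.2.1) h2.1.2.2, h1.2, h2.2]
  · have h1 := trn_mem o (mem_sdiff.1 hx).1 (mem_sdiff.1 hx).2
    rw [e] at h1
    obtain ⟨y, h2, h3, h4⟩ := (mem_trn.1 h1).resolve_left (trn_notMem _ _ _)
    exact ⟨y, mem_sep.2 ⟨pair_mem_prod.2 ⟨hx, mem_sdiff.2 ⟨h2, h3⟩⟩, by simpa using h4.symm⟩⟩
  · have h1 := trn_mem o (mem_sdiff.1 hx).1 (mem_sdiff.1 hx).2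
    rw [← e] at h1
    obtain ⟨y, h2, h3, h4⟩ := (mem_trn.1 h1).resolve_left (trn_notMem _ _ _)
    exact ⟨y, mem_sep.2 ⟨pair_mem_prod.2 ⟨mem_sdiff.2 ⟨h2, h3⟩, hx⟩, by simpa using h4⟩⟩

end GapP

end Pool.Agent.P.MP_9a7e1f_lc
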