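import Pool.Agent.P.MP_9a7e1f_lc.St1

/-! Countable transitive sets are coded by reals; the resulting projective definition. -/

set_option linter.unusedSectionVars false

namespace Pool.Agent.P.MP_9a7e1f_lc

open ZFSet Pool.Agent.P.MP_3ab3de_lc

namespace LowP

variable {N : Set ZF} [hN : TModel N]

theorem agr_mono {m m' : ℕ} {v w : Env} (h : Agr m' v w) (hm : m ≤ m') : Agr m v w :=
  fun i hi j hj => h i (by omega) j (by omega)

theorem app_cst (j : ZF) : app (cst j) ∅ = j :=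
  app_eq (pair_mem_prod.2 ⟨omega_zero, mem_singleton.2 rfl⟩) fun _ hz =>
    mem_singleton.1 (pair_mem_prod.1 hz).2

theorem ex_hp (N : Set ZF) [TModel N] : CardLE N (prod om om) om :=
  (inf_omega (M := N)).sq.cardLE (In.mem _) (In.mem _) isOrdinal_omega

/-- a pairing function on the naturals -/
noncomputable def pr (N : Set ZF) [TModel N] (a b : ZF) : ZF := app (ex_hp N).choose (pair a b)

theorem pr_mem {a b : ZF} (ha : a ∈ om) (hb : b ∈ om) : pr N a b ∈ om :=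
  (ex_hp N).choose_spec.2.1.app_mem' (pair_mem_prod.2 ⟨ha, hb⟩)

theorem pr_inj {a b c d : ZF} (ha : a ∈ om) (hb : b ∈ om) (hc : c ∈ om) (hd : d ∈ om)
    (e : pr N a b = pr N c d) : a = c ∧ b = d := by
  obtain ⟨-, h1, h2⟩ := (ex_hp N).choose_spec
  have h3 := h1.app_mem (pair_mem_prod.2 ⟨ha, hb⟩)
  have h4 := h1.app_mem (pair_mem_prod.2 ⟨hc, hd⟩)
  exact pair_inj.1 (h2 _ _ _ h3 (by rw [show app _ (pair a b) = _ from e]; exact h4))

instance tm_pr {a b : Env → ZF} [Tm N a] [Tm N b] : Tm N (fun v => pr N (a v) (b v)) := by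
  have := In.mk' (ex_hp N).choose_spec.1
  unfold pr; infer_instance

/-- continuous terms with natural number values -/
class Ct (N : Set ZF) (t : Env → ZF) : Prop where
  tm : Tm N t
  mem : ∀ v, RE N v → t v ∈ om
  loc : ∀ v, RE N v → ∃ m, ∀ w, RE N w → Agr m v w → t w = t v

theorem loc2 (s t : Env → ZF) [hs : Ct N s] [ht : Ct N t] (v : Env) (hv : RE N v) :
    ∃ m, ∀ w, RE N w → Agr m v w → s w = s v ∧ t w = t v := by
  obtain ⟨m, h1⟩ := hs.loc v hv
  obtain ⟨m', h2⟩ := ht.loc v hv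
  exact ⟨max m m', fun w hw h => ⟨h1 w hw (agr_mono h (le_max_left _ _)),
    h2 w hw (agr_mono h (le_max_right _ _))⟩⟩

instance ct_empty : Ct N (fun _ => ∅) :=
  ⟨inferInstance, fun _ _ => omega_zero, fun _ _ => ⟨0, fun _ _ _ => rfl⟩⟩

instance ct_app {i : ℕ} {t : Env → ZF} [ht : Ct N t] : Ct N (fun v => app (v i) (t v)) := by
  have := ht.tm
  refine ⟨inferInstance, fun v hv => (hv i).2.app_mem' (ht.mem v hv), fun v hv => ?_⟩
  obtain ⟨m, h1⟩ := ht.loc v hv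
  obtain ⟨j, e⟩ := mem_omega.1 (ht.mem v hv)
  refine ⟨m + i + j + 1, fun w hw h => ?_⟩
  rw [h1 w hw (agr_mono h (by omega)), ← e]
  exact (h i (by omega) j (by omega)).symm

instance ct_succ {t : Env → ZF} [ht : Ct N t] : Ct N (fun v => insert (t v) (t v)) := by
  have := ht.tm
  exact ⟨inferInstance, fun v hv => omega_succ (ht.mem v hv),
    fun v hv => (ht.loc v hv).imp fun m h w hw ha => by rw [h w hw ha]⟩

instance ct_pr {s t : Env → ZF} [hs : Ct N s] [ht : Ct N t] :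
    Ct N (fun v => pr N (s v) (t v)) := by
  have := hs.tm
  have := ht.tm
  exact ⟨inferInstance, fun v hv => pr_mem (hs.mem v hv) (ht.mem v hv),
    fun v hv => (loc2 s t v hv).imp fun m h w hw ha => by rw [(h w hw ha).1, (h w hw ha).2]⟩

theorem ct_shift {t : Env → ZF} (ht : Ct N t) : Ct N (fun v => t (fun n => v (n + 1))) :=
  ⟨@Tm.ren N _ ht.tm _, fun v hv => ht.mem _ fun _ => hv _, fun v hv => by
    obtain ⟨m, h⟩ := ht.loc _ fun n => hv (n + 1)
    exact ⟨m + 1, fun w hw ha => h _ (fun _ => hw _) fun i hi j hj =>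
      ha (i + 1) (by omega) j (by omega)⟩⟩

/-- predicates on both sides of a level -/
class De (N : Set ZF) (n : ℕ) (P : Env → Prop) : Prop where
  pos : SG N n P
  neg : SG N n (fun v => ¬ P v)

variable [hC : Fact (Calc N)]

theorem De.congr {n : ℕ} {P Q : Env → Prop} (h : De N n P) (e : ∀ v, Q v ↔ P v) : De N n Q := by
  rwa [show Q = P from funext fun v => propext (e v)]

theorem De.succ {n : ℕ} {P : Env → Prop} (h : De N n P) : De N (n + 1) P :=
  ⟨hC.out.mono _ _ h.pos, hC.out.mono _ _ h.neg⟩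

theorem De.ofSG {n : ℕ} {P : Env → Prop} (h : SG N n P) : De N (n + 1) P :=
  ⟨hC.out.mono _ _ h, hC.out.neg _ _ h⟩

theorem De.up {n m : ℕ} {P : Env → Prop} (h : De N n P) (hm : n ≤ m) : De N m P := by
  induction hm with
  | refl => exact h
  | step _ ih => exact ih.succ

theorem De.ren {n : ℕ} {P : Env → Prop} (h : De N n P) (ρ : ℕ → ℕ) :
    De N n (fun v => P (fun i => v (ρ i))) :=
  ⟨hC.out.ren _ _ ρ h.pos, hC.out.ren _ _ ρ h.neg⟩

section

variable {n : ℕ} {P Q : Env → Prop}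

instance De.not [h : De N n P] : De N n (fun v => ¬ P v) :=
  ⟨h.neg, h.pos.congr fun _ _ => not_not⟩

instance De.and [h : De N n P] [h' : De N n Q] : De N n (fun v => P v ∧ Q v) :=
  ⟨hC.out.and _ _ _ h.pos h'.pos, (hC.out.or _ _ _ h.neg h'.neg).congr fun _ _ => not_and_or⟩

instance De.or [h : De N n P] [h' : De N n Q] : De N n (fun v => P v ∨ Q v) :=
  ⟨hC.out.or _ _ _ h.pos h'.pos, (hC.out.and _ _ _ h.neg h'.neg).congr fun _ _ => not_or⟩

instance De.imp [h : De N n P] [h' : De N n Q] : De N n (fun v => P v → Q v) :=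
  (inferInstance : De N n (fun v => ¬ P v ∨ Q v)).congr fun _ => imp_iff_not_or

instance De.iff [h : De N n P] [h' : De N n Q] : De N n (fun v => P v ↔ Q v) :=
  (inferInstance : De N n (fun v => (P v → Q v) ∧ (Q v → P v))).congr fun _ => iff_def

end

theorem sg_alln {P : Env → ZF → Prop}
    (h : SG N 1 (fun v => P (fun n => v (n + 1)) (app (v 0) ∅))) :
    SG N 1 (fun v => ∀ j ∈ om, P v j) :=
  (hC.out.alln _ h).congr fun v _ => forall_congr' fun j => imp_congr_right fun _ => by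
    rw [cons_zero, app_cst]; exact Iff.rfl

theorem sg_exn {P : Env → ZF → Prop}
    (h : SG N 1 (fun v => P (fun n => v (n + 1)) (app (v 0) ∅))) :
    SG N 1 (fun v => ∃ j ∈ om, P v j) :=
  (hC.out.exn _ h).congr fun v _ => exists_congr fun j => and_congr_right fun _ => by
    rw [cons_zero, app_cst]; exact Iff.rfl

theorem sg_ex {n : ℕ} {P : Env → ZF → Prop}
    (h : SG N (n + 1) (fun v => P (fun n => v (n + 1)) (v 0))) :
    SG N (n + 1) (fun v => ∃ y, Real N y ∧ P v y) := hC.out.ex n _ h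

instance De.all {P : Env → ZF → Prop}
    [h : De N 1 (fun v => P (fun n => v (n + 1)) (app (v 0) ∅))] :
    De N 1 (fun v => ∀ j ∈ om, P v j) :=
  ⟨sg_alln h.pos, (sg_exn (P := fun v j => ¬ P v j) h.neg).congr fun _ _ => by simp⟩

instance De.ex {P : Env → ZF → Prop}
    [h : De N 1 (fun v => P (fun n => v (n + 1)) (app (v 0) ∅))] :
    De N 1 (fun v => ∃ j ∈ om, P v j) :=
  ⟨sg_exn h.pos, (sg_alln (P := fun v j => ¬ P v j) h.neg).congr fun _ _ => by simp⟩

theorem De.clopen {P : Env → Prop} [hP : Df N P]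
    (h : ∀ v, RE N v → ∃ m, ∀ w, RE N w → Agr m v w → (P w ↔ P v)) : De N 1 P :=
  De.succ ⟨⟨⟨P, hP, fun _ _ => Iff.rfl⟩, fun v hv hp => (h v hv).imp fun _ h w hw ha =>
    (h w hw ha).2 hp⟩, ⟨⟨_, Df.not (P := P), fun _ _ => Iff.rfl⟩, fun v hv hp =>
      (h v hv).imp fun _ h w hw ha h' => hp ((h w hw ha).1 h')⟩⟩

instance De.eq {s t : Env → ZF} [hs : Ct N s] [ht : Ct N t] : De N 1 (fun v => s v = t v) := by
  have := hs.tm
  have := ht.tm
  exact De.clopen fun v hv => (loc2 s t v hv).imp fun m h w hw ha => by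
    rw [(h w hw ha).1, (h w hw ha).2]

theorem De.bot : De N 1 (fun _ => False) := De.clopen fun _ _ => ⟨0, fun _ _ _ => Iff.rfl⟩

/-! ### coded structures -/

/-- the coded membership relation -/
def E (N : Set ZF) [TModel N] (z a b : ZF) : Prop := app z (pr N a b) = ∅

/-- the coded equality relation -/
def EqZ (N : Set ZF) [TModel N] (z a b : ZF) : Prop := ∀ c ∈ om, (E N z c a ↔ E N z c b)

/-- satisfaction in a coded structure -/
def SatZ (N : Set ZF) [TModel N] (z : ZF) : Fml → Env → Prop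
  | .mem i j, u => E N z (u i) (u j)
  | .eq i j, u => EqZ N z (u i) (u j)
  | .bot, _ => False
  | .imp φ ψ, u => SatZ N z φ u → SatZ N z ψ u
  | .all φ, u => ∀ a ∈ om, SatZ N z φ (cons a u)

instance de_E {i : ℕ} {s t : Env → ZF} [Ct N s] [Ct N t] :
    De N 1 (fun v => E N (v i) (s v) (t v)) := by
  unfold E; infer_instance

instance de_EqZ {i : ℕ} {s t : Env → ZF} [hs : Ct N s] [ht : Ct N t] :
    De N 1 (fun v => EqZ N (v i) (s v) (t v)) := by
  have := ct_shift hs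
  have := ct_shift ht
  unfold EqZ; infer_instance

theorem de_sat (φ : Fml) : ∀ (i : ℕ) (u : Env → Env), (∀ k, Ct N (fun v => u v k)) →
    De N 1 (fun v => SatZ N (v i) φ (u v)) := by
  induction φ with
  | mem a b => exact fun i u h => @de_E N _ _ i _ _ (h a) (h b)
  | eq a b => exact fun i u h => @de_EqZ N _ _ i _ _ (h a) (h b)
  | bot => exact fun _ _ _ => De.bot
  | imp φ ψ h1 h2 => exact fun i u h => @De.imp N _ _ _ _ _ (h1 i u h) (h2 i u h)
  | all φ ih =>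
    intro i u h
    refine @De.all N _ _ (fun v a => SatZ N (v i) φ (cons a (u v)))
      (ih (i + 1) (fun v => cons (app (v 0) ∅) (u fun n => v (n + 1))) fun k => ?_)
    cases k with
    | zero => exact ct_app
    | succ k => exact ct_shift (h k)

/-- satisfaction at three points -/
def S3 (N : Set ZF) [TModel N] (z : ZF) (φ : Fml) (a b c : ZF) : Prop :=
  SatZ N z φ (cons a (cons b fun _ => c))

instance de_S3 {i : ℕ} {φ : Fml} {r s t : Env → ZF} [hr : Ct N r] [hs : Ct N s] [ht : Ct N t] :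
    De N 1 (fun v => S3 N (v i) φ (r v) (s v) (t v)) :=
  de_sat φ i (fun v => cons (r v) (cons (s v) fun _ => t v)) fun k => by
    rcases k with _ | _ | k
    exacts [hr, hs, ht]

omit hC

/-- `π` maps the structure coded by `z` onto a transitive set -/
structure Rep (N : Set ZF) [TModel N] (z : ZF) (π : ZF → ZF) : Prop where
  mem : ∀ a ∈ om, ∀ b ∈ om, (E N z a b ↔ π a ∈ π b)
  trn : ∀ a ∈ om, ∀ y ∈ π a, ∃ c ∈ om, π c = y

namespace Rep

variable {z : ZF} {π : ZF → ZF} (h : Rep N z π)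
include h

theorem eq {a b : ZF} (ha : a ∈ om) (hb : b ∈ om) : EqZ N z a b ↔ π a = π b := by
  constructor
  · intro H
    ext y
    constructor
    · intro hy
      obtain ⟨c, hc, rfl⟩ := h.trn a ha y hy
      exact (h.mem c hc b hb).1 ((H c hc).1 ((h.mem c hc a ha).2 hy))
    · intro hy
      obtain ⟨c, hc, rfl⟩ := h.trn b hb y hy
      exact (h.mem c hc a ha).1 ((H c hc).2 ((h.mem c hc b hb).2 hy))
  · intro e c hc
    rw [h.mem c hc a ha, h.mem c hc b hb, e]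

theorem trans : IsTransitive (img π om) := fun x hx y hy => by
  obtain ⟨a, ha, rfl⟩ := mem_img.1 hx
  exact mem_img.2 (h.trn a ha y hy)

theorem sat (φ : Fml) : ∀ u : Env, (∀ k, u k ∈ om) →
    (SatZ N z φ u ↔ Sat (img π om : Set ZF) φ (fun k => π (u k))) := by
  induction φ with
  | mem i j => exact fun u hu => h.mem _ (hu i) _ (hu j)
  | eq i j => exact fun u hu => h.eq (hu i) (hu j)
  | bot => exact fun _ _ => Iff.rfl
  | imp φ ψ h1 h2 => exact fun u hu => imp_congr (h1 u hu) (h2 u hu)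
  | all φ ih =>
    intro u hu
    have key : ∀ a ∈ om, (SatZ N z φ (cons a u) ↔
        Sat (img π om : Set ZF) φ (cons (π a) fun k => π (u k))) := fun a ha => by
      rw [ih (cons a u) fun k => by cases k; exacts [ha, hu _]]
      have : (fun k => π (cons a u k)) = cons (π a) fun k => π (u k) := by
        funext k; cases k <;> rfl
      rw [this]
    refine ⟨fun H x hx => ?_, fun H a ha => (key a ha).2 (H _ (img_mem ha))⟩
    obtain ⟨a, ha, rfl⟩ := mem_img.1 hx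
    exact (key a ha).1 (H a ha)

theorem s3 (φ : Fml) {a b c : ZF} (ha : a ∈ om) (hb : b ∈ om) (hc : c ∈ om) :
    S3 N z φ a b c ↔ Sat (img π om : Set ZF) φ (cons (π a) (cons (π b) fun _ => π c)) := by
  rw [S3, h.sat φ _ fun k => by rcases k with _ | _ | k; exacts [ha, hb, hc]]
  have : (fun k => π (cons a (cons b fun _ => c) k)) = cons (π a) (cons (π b) fun _ => π c) := by
    funext k; rcases k with _ | _ | k <;> rfl
  rw [this]

theorem d0 {P : Env → Prop} (hP : D0 P) {a b c : ZF} (ha : a ∈ om) (hb : b ∈ om) (hc : c ∈ om) :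
    S3 N z hP.out.choose a b c ↔ P (cons (π a) (cons (π b) fun _ => π c)) := by
  rw [h.s3 _ ha hb hc]
  refine (hP.out.choose_spec _ (trn_coe h.trans) _ fun k => ?_).symm
  rcases k with _ | _ | k
  exacts [img_mem ha, img_mem hb, img_mem hc]

end Rep

theorem dz : D0 (fun v => v 0 = ∅) := inferInstance
theorem ds : D0 (fun v => v 0 = insert (v 1) (v 1)) := inferInstance
theorem dp : D0 (fun v => v 0 = pair (v 1) (v 2)) := inferInstance

/-- no descending real -/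
def WF (N : Set ZF) [TModel N] (z : ZF) : Prop :=
  ¬ ∃ y, Real N y ∧ ∀ n ∈ om, E N z (app y (insert n n)) (app y n)

/-- the coded equality is a congruence -/
def Cong (N : Set ZF) [TModel N] (z : ZF) : Prop :=
  ∀ a ∈ om, ∀ a' ∈ om, ∀ b ∈ om, EqZ N z a a' → E N z a b → E N z a' b

/-- `ν` lists the numerals -/
def Nu (N : Set ZF) [TModel N] (z ν : ZF) : Prop :=
  S3 N z dz.out.choose (app ν ∅) ∅ ∅ ∧
    ∀ n ∈ om, S3 N z ds.out.choose (app ν (insert n n)) (app ν n) ∅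

/-- `a` codes the real `x` -/
def Xc (N : Set ZF) [TModel N] (z ν x a : ZF) : Prop :=
  (∀ c ∈ om, E N z c a → ∃ n ∈ om, S3 N z dp.out.choose c (app ν n) (app ν (app x n))) ∧
    ∀ n ∈ om, ∃ c ∈ om, E N z c a ∧ S3 N z dp.out.choose c (app ν n) (app ν (app x n))

theorem Rep.wf {z : ZF} {π : ZF → ZF} (h : Rep N z π) : WF N z := by
  rintro ⟨y, hy, H⟩
  obtain ⟨_, ⟨n, hn, rfl⟩, h1⟩ := exists_min (P := fun s => ∃ n ∈ om, π (app y n) = s)
    ⟨_, ∅, omega_zero, rfl⟩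
  exact h1 _ ((h.mem _ (hy.2.app_mem' (omega_succ hn)) _ (hy.2.app_mem' hn)).1 (H n hn))
    ⟨_, omega_succ hn, rfl⟩

theorem Rep.cong {z : ZF} {π : ZF → ZF} (h : Rep N z π) : Cong N z := by
  intro a ha a' ha' b hb h1 h2
  rw [h.mem _ ha' _ hb, ← (h.eq ha ha').1 h1]
  exact (h.mem _ ha _ hb).1 h2

theorem Rep.nu {z ν : ZF} {π : ZF → ZF} (h : Rep N z π) (hν : Real N ν) :
    Nu N z ν ↔ ∀ n ∈ om, π (app ν n) = n := by
  have h0 := h.d0 dz (hν.2.app_mem' omega_zero) omega_zero omega_zero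
  have h1 := fun n (hn : n ∈ om) =>
    h.d0 ds (hν.2.app_mem' (omega_succ hn)) (hν.2.app_mem' hn) omega_zero
  constructor
  · rintro ⟨h2, h3⟩ n hn
    obtain ⟨k, rfl⟩ := mem_omega.1 hn
    induction k with
    | zero => exact h0.1 h2
    | succ k ih =>
      have h4 : π (app ν (num (k + 1))) = insert (π (app ν (num k))) (π (app ν (num k))) :=
        (h1 _ (num_mem_omega k)).1 (h3 _ (num_mem_omega k))
      rw [h4, ih (num_mem_omega k)]; rfl
  · intro H
    refine ⟨h0.2 (H _ omega_zero), fun n hn => (h1 n hn).2 ?_⟩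
    show π (app ν (insert n n)) = insert (π (app ν n)) (π (app ν n))
    rw [H _ hn, H _ (omega_succ hn)]

theorem Rep.xc {z ν x a : ZF} {π : ZF → ZF} (h : Rep N z π) (hν : Real N ν) (hx : Real N x)
    (ha : a ∈ om) (H : ∀ n ∈ om, π (app ν n) = n) : Xc N z ν x a ↔ π a = x := by
  have key : ∀ c ∈ om, ∀ n ∈ om, (S3 N z dp.out.choose c (app ν n) (app ν (app x n)) ↔
      π c = pair n (app x n)) := fun c hc n hn => by
    rw [h.d0 dp hc (hν.2.app_mem' hn) (hν.2.app_mem' (hx.2.app_mem' hn))]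
    show π c = pair (π (app ν n)) (π (app ν (app x n))) ↔ _
    rw [H _ hn, H _ (hx.2.app_mem' hn)]
  constructor
  · rintro ⟨h1, h2⟩
    ext y
    constructor
    · intro hy
      obtain ⟨c, hc, rfl⟩ := h.trn a ha y hy
      obtain ⟨n, hn, h3⟩ := h1 c hc ((h.mem c hc a ha).2 hy)
      rw [(key c hc n hn).1 h3]
      exact hx.2.app_mem hn
    · intro hy
      obtain ⟨n, hn, j, -, rfl⟩ := hx.2.exists_pair hy
      obtain ⟨c, hc, h3, h4⟩ := h2 n hn
      rw [← hx.2.app_eq hy, ← (key c hc n hn).1 h4]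
      exact (h.mem c hc a ha).1 h3
  · intro e
    refine ⟨fun c hc h1 => ?_, fun n hn => ?_⟩
    · have h2 := (h.mem c hc a ha).1 h1
      rw [e] at h2
      obtain ⟨n, hn, j, -, e2⟩ := hx.2.exists_pair h2
      refine ⟨n, hn, (key c hc n hn).2 ?_⟩
      rw [e2] at h2
      rw [e2, hx.2.app_eq h2]
    · have h1 : pair n (app x n) ∈ π a := by rw [e]; exact hx.2.app_mem hn
      obtain ⟨c, hc, e2⟩ := h.trn a ha _ h1
      exact ⟨c, hc, (h.mem c hc a ha).2 (by rwa [e2]), (key c hc n hn).2 e2⟩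

/-- a countable transitive set of `N` has a code -/
theorem exists_code {w x : ZF} (hw : w ∈ N) (ht : IsTransitive w) (hl : Le N w om) (hx : x ∈ w) :
    ∃ z π, Real N z ∧ Rep N z π ∧ img π om = w ∧ Tm N (fun v => π (v 0)) := by
  classical
  obtain ⟨f, hf, h⟩ := hl
  have := In.mk' hw
  have := In.mk' hf
  have := In.mk' (tr hw hx)
  obtain ⟨π, hπ, h1, h2⟩ : ∃ π : ZF → ZF, Tm N (fun v => π (v 0)) ∧ (∀ a, π a ∈ w) ∧
      ∀ y ∈ w, ∃ a ∈ om, π a = y := by
    refine ⟨fun a => if app f a ∈ w then app f a else x, inferInstance, fun a => ?_,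
      fun y hy => ?_⟩
    · dsimp only
      split_ifs with h1
      exacts [h1, hx]
    · obtain ⟨a, ha, rfl⟩ := h y hy
      exact ⟨a, ha, if_pos hy⟩
  have := fun s [Tm N s] => hπ.one s
  refine ⟨graph (fun k => if ∃ a ∈ om, ∃ b ∈ om, pr N a b = k ∧ π a ∈ π b then ∅ else num 1) om,
    π, ⟨In.mem _, graph_isFunc fun k _ => ?_⟩, ⟨fun a ha b hb => ?_,
      fun a _ y hy => h2 y (ht _ (h1 a) hy)⟩, ?_, hπ⟩
  · split_ifs
    exacts [omega_zero, num_mem_omega 1]
  · rw [E, app_graph (pr_mem ha hb)]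
    split_ifs with h3
    · obtain ⟨a', ha', b', hb', e, h4⟩ := h3
      obtain ⟨rfl, rfl⟩ := pr_inj ha' hb' ha hb e
      exact iff_of_true rfl h4
    · exact iff_of_false (fun e => absurd (num_inj (n := 0).1 e) (by omega))
        fun h4 => h3 ⟨a, ha, b, hb, rfl, h4⟩
  · ext y
    rw [mem_img]
    exact ⟨fun ⟨a, _, e⟩ => e ▸ h1 a, h2 y⟩

/-- stages of a coded relation -/
noncomputable def St (N : Set ZF) [TModel N] (z : ZF) : ZF → ZF :=
  rc fun _ g => ZFSet.sep (fun a => ∀ c ∈ om, E N z c a → ∃ p ∈ g, c ∈ snd p) om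

theorem mem_St {z α a : ZF} :
    a ∈ St N z α ↔ a ∈ om ∧ ∀ c ∈ om, E N z c a → ∃ β ∈ α, c ∈ St N z β := by
  rw [show St N z α = _ from rc_eq _ α, mem_sep]
  refine and_congr_right fun _ => forall_congr' fun c => imp_congr_right fun _ =>
    imp_congr_right fun _ => ?_
  constructor
  · rintro ⟨p, hp, h⟩
    obtain ⟨β, hβ, rfl⟩ := mem_graph.1 hp
    exact ⟨β, hβ, by rwa [snd_pair] at h⟩
  · rintro ⟨β, hβ, h⟩
    exact ⟨_, pair_mem_graph.2 ⟨hβ, rfl⟩, by rwa [snd_pair]⟩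

instance df_E {a b c : Env → ZF} [Tm N a] [Tm N b] [Tm N c] :
    Df N (fun v => E N (a v) (b v) (c v)) := by
  unfold E; infer_instance

theorem WF.stage {z κ : ZF} (h : WF N z) (hz : z ∈ N) (hκ : Hart N om κ) :
    ∀ a ∈ om, ∃ α ∈ κ, a ∈ St N z α := by
  have := In.mk' hz
  have := In.mk' hκ.mem
  have hS : Tm N (fun v => St N z (v 0)) := tm_rc inferInstance
  have := fun s [Tm N s] => hS.one s
  by_contra h1
  simp only [not_forall] at h1
  obtain ⟨a, ha, h1⟩ := h1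
  obtain ⟨f, hf, -, h2⟩ := dc (M := N) (fun _ a c => E N z c a) inferInstance
    (In.mem (ZFSet.sep (fun a => ¬ ∃ α ∈ κ, a ∈ St N z α) om)) (mem_sep.2 ⟨ha, h1⟩)
    fun _ b hb => by
      by_contra h3
      obtain ⟨η, hη, h4⟩ := hκ.bdd_wit inf_omega (fun c β => c ∈ St N z β) inferInstance
        (c := ZFSet.sep (fun c => E N z c b) om) (by
          have := In.mk' (tr hN.infinity (mem_sep.1 hb).1)
          exact In.mem _)
        (Le.of_subset hN.infinity sep_subset) fun c hc => by_contra fun h4 =>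
          h3 ⟨c, mem_sep.2 ⟨(mem_sep.1 hc).1, h4⟩, (mem_sep.1 hc).2⟩
      exact (mem_sep.1 hb).2 ⟨η, hη, mem_St.2 ⟨(mem_sep.1 hb).1, fun c hc h5 =>
        h4 c (mem_sep.2 ⟨hc, h5⟩)⟩⟩
  have := In.mk' hf
  refine h ⟨graph (app f) om, ⟨In.mem _, graph_isFunc fun n hn => ?_⟩, fun n hn => ?_⟩
  · obtain ⟨k, rfl⟩ := mem_omega.1 hn
    exact (mem_sep.1 (h2 k).1).1
  · rw [app_graph hn, app_graph (omega_succ hn)]
    obtain ⟨k, rfl⟩ := mem_omega.1 hn
    exact (h2 k).2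

/-- a well founded code can be collapsed -/
theorem exists_rep {z κ : ZF} (h : WF N z) (hc : Cong N z) (hz : z ∈ N) (hκ : Hart N om κ) :
    ∃ π, Rep N z π ∧ ∀ a ∈ om, rank (π a) < rank κ := by
  have h1 := h.stage hz hκ
  have h2 : ∀ α, ∀ a ∈ St N z α, Acc (fun c a => c ∈ om ∧ a ∈ om ∧ E N z c a) a := by
    intro α
    induction α using ZFSet.inductionOn with
    | h α ih =>
      refine fun a ha => ⟨_, fun c hc => ?_⟩
      obtain ⟨β, hβ, h3⟩ := (mem_St.1 ha).2 c hc.1 hc.2.2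
      exact ih β hβ c h3
  have wf : WellFounded (fun c a => c ∈ om ∧ a ∈ om ∧ E N z c a) := ⟨fun a => ⟨_, fun c hc => by
    obtain ⟨α, -, h3⟩ := h1 c hc.1
    exact h2 α c h3⟩⟩
  obtain ⟨π, hπ⟩ : ∃ π : ZF → ZF, ∀ a ∈ om, ∀ y, y ∈ π a ↔ ∃ c ∈ om, E N z c a ∧ π c = y := by
    refine ⟨wf.fix fun a IH => range fun c : ZFSet.sep (fun c => a ∈ om ∧ E N z c a) om =>
      IH c (mem_sep.1 c.2), fun a ha y => ?_⟩
    rw [WellFounded.fix_eq, mem_range]
    exact ⟨fun ⟨c, e⟩ => ⟨c, (mem_sep.1 c.2).1, (mem_sep.1 c.2).2.2, e⟩,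
      fun ⟨c, h3, h4, e⟩ => ⟨⟨c, mem_sep.2 ⟨h3, ha, h4⟩⟩, e⟩⟩
  have h3 : ∀ a, a ∈ om → ∀ b ∈ om, π a = π b → EqZ N z a b := by
    intro a
    induction a using wf.induction with
    | _ a ih =>
      refine fun ha b hb e c hc' => ⟨fun h4 => ?_, fun h4 => ?_⟩
      · obtain ⟨d, hd, h5, e2⟩ := (hπ b hb _).1 (e ▸ (hπ a ha _).2 ⟨c, hc', h4, rfl⟩)
        exact hc d hd c hc' b hb (fun k hk => (ih c ⟨hc', ha, h4⟩ hc' d hd e2.symm k hk).symm) h5
      · obtain ⟨d, hd, h5, e2⟩ := (hπ a ha _).1 (e ▸ (hπ b hb _).2 ⟨c, hc', h4, rfl⟩)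
        exact hc d hd c hc' a ha (ih d ⟨hd, ha, h5⟩ hd c hc' e2) h5
  have h4 : ∀ α, ∀ a ∈ St N z α, rank (π a) ≤ rank α := by
    intro α
    induction α using ZFSet.inductionOn with
    | h α ih =>
      refine fun a ha => rank_le_iff.2 fun y hy => ?_
      obtain ⟨c, h5, h6, rfl⟩ := (hπ a (mem_St.1 ha).1 y).1 hy
      obtain ⟨β, hβ, h7⟩ := (mem_St.1 ha).2 c h5 h6
      exact (ih β hβ c h7).trans_lt (rank_lt_of_mem hβ)
  refine ⟨π, ⟨fun a ha b hb => ⟨fun h5 => (hπ b hb _).2 ⟨a, ha, h5, rfl⟩, fun h5 => ?_⟩,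
    fun a ha y hy => ((hπ a ha y).1 hy).imp fun c hc => ⟨hc.1, hc.2.2⟩⟩, fun a ha => ?_⟩
  · obtain ⟨d, hd, h6, e⟩ := (hπ b hb _).1 h5
    exact hc d hd a ha b hb (h3 d hd a ha e) h6
  · obtain ⟨α, hα, h5⟩ := h1 a ha
    exact (h4 α a h5).trans_lt (rank_lt_of_mem hα)

/-- the arithmetical part of the matrix -/
def Mx (N : Set ZF) [TModel N] (φ : Fml) (z ν x : ZF) : Prop :=
  Cong N z ∧ Nu N z ν ∧ ∃ a ∈ om, Xc N z ν x a ∧ ¬ S3 N z φ a a a

theorem cons3 (x : ZF) : cons x (cons x fun _ => x) = fun _ => x := by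
  funext k; rcases k with _ | _ | k <;> rfl

theorem notA_iff {κ : ZF} (hκ : Hart N om κ) {φ : Fml} {A : ZF → Prop}
    (h1 : ∀ x, Real N x → A x → ∀ w : ZF, IsTransitive w → (∀ y ∈ w, rank y < rank κ) → x ∈ w →
      Sat (w : Set ZF) φ (fun _ => x))
    (h2 : ∀ x, Real N x → ¬ A x → ∃ w ∈ N, IsTransitive w ∧ Le N w om ∧ x ∈ w ∧
      ¬ Sat (w : Set ZF) φ (fun _ => x)) {x : ZF} (hx : Real N x) :
    ¬ A x ↔ ∃ z, Real N z ∧ ∃ ν, Real N ν ∧ WF N z ∧ Mx N φ z ν x := by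
  constructor
  · intro h
    obtain ⟨w, hw, ht, hl, hxw, hs⟩ := h2 x hx h
    obtain ⟨z, π, hz, hr, rfl, hπ⟩ := exists_code hw ht hl hxw
    have := fun s [Tm N s] => hπ.one s
    have h3 : ∀ n ∈ om, ∃ c ∈ om, π c = n := fun n hn =>
      mem_img.1 ((trn_coe ht).fst (ht x hxw (hx.2.app_mem hn)))
    have hν : Real N (graph (fun n => lst om fun c => π c = n) om) :=
      ⟨In.mem _, graph_isFunc fun n hn => (lst_spec isOrdinal_omega (h3 n hn)).1⟩
    have h4 : ∀ n ∈ om, π (app (graph (fun n => lst om fun c => π c = n) om) n) = n :=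
      fun n hn => by
        rw [app_graph hn]
        exact (lst_spec isOrdinal_omega (h3 n hn)).2.1
    obtain ⟨a, ha, e⟩ := mem_img.1 hxw
    refine ⟨z, hz, _, hν, hr.wf, hr.cong, (hr.nu hν).2 h4, a, ha, (hr.xc hν hx ha h4).2 e, ?_⟩
    rwa [hr.s3 φ ha ha ha, e, cons3]
  · rintro ⟨z, hz, ν, hν, hw, hc, hn, a, ha, hX, hs⟩ hA
    obtain ⟨π, hr, h3⟩ := exists_rep hw hc hz.1 hκ
    have e := (hr.xc hν hx ha ((hr.nu hν).1 hn)).1 hX
    rw [hr.s3 φ ha ha ha, e, cons3] at hs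
    refine hs (h1 x hx hA _ hr.trans (fun y hy => ?_) (e ▸ img_mem ha))
    obtain ⟨b, hb, rfl⟩ := mem_img.1 hy
    exact h3 b hb

theorem fin_sub {x s : ZF} (hx : Real N x) (hs : Fn s) (h : s ⊆ x) :
    ∃ m, ∀ y, Real N y → (∀ j < m, app x (num j) = app y (num j)) → s ⊆ y := by
  refine hs.ind (Q := fun b => ∃ m, ∀ y, Real N y → (∀ j < m, app x (num j) = app y (num j)) →
    b ⊆ y) ⟨0, fun _ _ _ _ h => absurd h (notMem_empty _)⟩ ?_
  rintro p b hp - - - ⟨m, h1⟩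
  obtain ⟨n, hn, j, -, rfl⟩ := hx.2.exists_pair (h hp)
  obtain ⟨k, rfl⟩ := mem_omega.1 hn
  refine ⟨m + k + 1, fun y hy h2 q hq => ?_⟩
  rcases mem_insert_iff.1 hq with rfl | hq
  · rw [← hx.2.app_eq (h hp), h2 k (by omega)]
    exact hy.2.app_mem hn
  · exact h1 y hy (fun j hj => h2 j (by omega)) hq

variable [hC : Fact (Calc N)]

theorem sg_ff {r : ZF} (hr : r ∈ N) (h : ∀ s t, pair s t ∈ r → Fn s ∧ Fn t) :
    SG N 1 (fun v => FF r (v 0) (v 1)) := by
  have := In.mk' hr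
  have h1 : SG N 0 (fun v => ∃ s t, pair s t ∈ r ∧ s ⊆ v 1 ∧ t ⊆ v 2 ∧
      ∃ j, pair (app (v 0) ∅) j ∈ s) := by
    refine ⟨⟨_, inferInstance, fun _ _ => Iff.rfl⟩, ?_⟩
    rintro v hv ⟨s, t, h1, h2, h3, j, h4⟩
    obtain ⟨m1, h5⟩ := fin_sub (hv 1) (h s t h1).1 h2
    obtain ⟨m2, h6⟩ := fin_sub (hv 2) (h s t h1).2 h3
    refine ⟨m1 + m2 + 3, fun w hw ha => ⟨s, t, h1,
      h5 _ (hw 1) fun j hj => ha 1 (by omega) j (by omega),
      h6 _ (hw 2) fun j hj => ha 2 (by omega) j (by omega), j, ?_⟩⟩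
    rwa [← show app (v 0) ∅ = app (w 0) ∅ from ha 0 (by omega) 0 (by omega)]
  refine (sg_exn (P := fun v n => ¬ ∃ s t, pair s t ∈ r ∧ s ⊆ v 0 ∧ t ⊆ v 1 ∧
    ∃ j, pair n j ∈ s) (hC.out.neg 0 _ h1)).congr fun v _ => ?_
  simp only [FF, not_exists, not_and]

set_option synthInstance.maxSize 2048 in
theorem sg_notA (φ : Fml) :
    SG N 2 (fun v => ∃ z, Real N z ∧ ∃ ν, Real N ν ∧ WF N z ∧ Mx N φ z ν (v 0)) := by
  have h1 : De N 1 (fun v => Mx N φ (v 1) (v 0) (v 2)) := by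
    unfold Mx Cong Nu Xc; infer_instance
  have h2 : De N 1 (fun v => ∀ n ∈ om, E N (v 2) (app (v 0) (insert n n)) (app (v 0) n)) :=
    inferInstance
  have h3 : SG N 2 (fun v => WF N (v 1)) := hC.out.neg 1 _ (sg_ex (n := 0)
    (P := fun v y => ∀ n ∈ om, E N (v 1) (app y (insert n n)) (app y n)) h2.pos)
  exact sg_ex (n := 1) (P := fun v z => ∃ ν, Real N ν ∧ WF N z ∧ Mx N φ z ν (v 0))
    (sg_ex (n := 1) (P := fun v ν => WF N (v 0) ∧ Mx N φ (v 0) ν (v 1))
      (hC.out.and 2 _ _ h3 h1.succ.pos))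

end LowP

open LowP in
theorem low (h : S_Calc) : S_Low := by
  intro N _ κ hκ φ A h1 h2 r hr h3 m hm
  have hC : Fact (Calc N) := ⟨h N⟩
  have h4 : SG N 2 (fun v => ¬ A (v 0)) :=
    (sg_notA φ).congr fun v hv => notA_iff hκ h1 h2 (hv 0)
  have h5 : De N 3 (fun v => A (v 0)) :=
    (De.not (h := De.ofSG h4)).congr fun _ => not_not.symm
  have h6 : De N 3 (fun v => A (v 1)) := h5.ren fun _ => 1
  have h7 : De N 3 (fun v => FF r (v 0) (v 1)) := (De.ofSG (sg_ff hr h3)).succ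
  have h8 : De N m (fun v => ¬ A (v 1) ∨ (A (v 0) ∧ FF r (v 0) (v 1))) :=
    De.up (n := 3) inferInstance hm
  exact hC.out.delta m _ h8.pos h8.neg

end Pool.Agent.P.MP_9a7e1f_lc
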