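import Pool.Agent.P.MP_9a7e1f_lc.St2
import Pool.Agent.P.MP_3ab3de_lc.Force
import Pool.Agent.P.MP_3ab3de_lc.MinCtm

/-! Assembly of the packages. -/

set_option linter.unusedSectionVars false

namespace Pool.Agent.P.MP_9a7e1f_lc

open ZFSet Pool.Agent.P.MP_3ab3de_lc

namespace MainP

/-- the least point of `i` at coordinate `ζ`, or `ζ` -/
noncomputable def mn (ζ i : ZF) : ZF := lst (insert ζ ζ) (fun γ => γ = ζ ∨ pair ζ γ ∈ i)

theorem mn_spec {ζ : ZF} (h : IsOrdinal ζ) (i : ZF) : mn ζ i ∈ insert ζ ζ ∧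
    (mn ζ i = ζ ∨ pair ζ (mn ζ i) ∈ i) ∧ ∀ γ ∈ insert ζ ζ, γ = ζ ∨ pair ζ γ ∈ i → mn ζ i ⊆ γ :=
  lst_spec (isOrdinal_succ h) ⟨ζ, mem_insert _ _, Or.inl rfl⟩

theorem rl_iff {κ ζ i j : ZF} (h : IsOrdinal ζ) (hi : i ⊆ BB κ) (hj : j ⊆ BB κ) :
    Rl ζ i j ↔ mn ζ i ⊆ mn ζ j := by
  obtain ⟨a1, a2, a3⟩ := mn_spec h i
  obtain ⟨b1, b2, b3⟩ := mn_spec h j
  constructor
  · intro hr
    rcases b2 with e | e
    · rw [e]; exact a3 ζ (mem_insert _ _) (Or.inl rfl)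
    · obtain ⟨γ, k1, k2⟩ := hr _ e
      exact fun _ hx => k2 (a3 γ (mem_insert_of_mem _ (pair_mem_BB.1 (hi k1)).2.2) (Or.inr k1) hx)
  · intro hr γ' k
    have k1 := (pair_mem_BB.1 (hj k)).2.2
    have k2 : mn ζ i ⊆ γ' := fun _ hx => b3 γ' (mem_insert_of_mem _ k1) (Or.inr k) (hr hx)
    rcases a2 with e | e
    · exact absurd (k2 (e.symm ▸ k1)) (mem_irrefl _)
    · exact ⟨_, e, k2⟩

open Classical in
/-- the norm -/
noncomputable def gN (I G ζ x : ZF) : ZF :=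
  if ∃ i ∈ I, x = aR G i then bun (mn ζ) (ZFSet.sep (fun i => x = aR G i) I) else insert ζ ζ

theorem pwo {N : Set ZF} [hN : TModel N] {κ I G ζ R : ZF} (hI : I ∈ N) (hG : G ∈ N) (hζ : ζ ∈ N)
    (ho : IsOrdinal ζ) (hB : ∀ i ∈ I, i ⊆ BB κ) (h0 : ∅ ∈ I) (h1 : ∀ γ ∈ ζ, ({pair ζ γ} : ZF) ∈ I)
    (hr : ∀ i ∈ I, Real N (aR G i)) {F : ZF → ZF → Prop}
    (hF : ∀ i ∈ I, ∀ j ∈ I, F (aR G i) (aR G j) ↔ Rl ζ i j)
    (hR : ∀ x y, Real N x → Real N y → (pt2 x y ∈ R ↔ (¬ ∃ i ∈ I, y = aR G i) ∨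
      ((∃ i ∈ I, x = aR G i) ∧ F x y))) : ∃ α, PwoLen N R α ∧ ζ ∈ α := by
  have := In.mk' hI
  have := In.mk' hG
  have := In.mk' hζ
  have tg : Tm N (fun v => gN I G ζ (v 0)) := by unfold gN mn; infer_instance
  have := fun s [Tm N s] => tg.one s
  obtain ⟨B, hB'⟩ : ∃ B, B = ZFSet.sep (IsFunc om om) (pw N (prod om om)) := ⟨_, rfl⟩
  have : In N B := hB' ▸ inferInstance
  have mB : ∀ x, x ∈ B ↔ Real N x := fun x => by
    rw [hB', mem_sep, mem_pw]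
    exact ⟨fun h => ⟨h.1.2, h.2⟩, fun h => ⟨⟨h.2.1, h.1⟩, h.2⟩⟩
  have g1 : ∀ i ∈ I, gN I G ζ (aR G i) = mn ζ i := fun i hi => by
    rw [gN, if_pos ⟨i, hi, rfl⟩]
    ext z
    simp only [mem_bun, mem_sep]
    refine ⟨fun ⟨j, ⟨k1, k2⟩, k3⟩ => ?_, fun h => ⟨i, ⟨hi, rfl⟩, h⟩⟩
    exact (rl_iff ho (hB j k1) (hB i hi)).1
      ((hF j k1 i hi).1 (k2 ▸ (hF i hi i hi).2 (Rl.refl _ _))) k3
  have g2 : ∀ x, (¬ ∃ i ∈ I, x = aR G i) → gN I G ζ x = insert ζ ζ := fun x h => by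
    rw [gN, if_neg h]
  have g3 : ∀ x, gN I G ζ x ⊆ insert ζ ζ := fun x => by
    by_cases h : ∃ i ∈ I, x = aR G i
    · obtain ⟨i, hi, rfl⟩ := h
      rw [g1 i hi]
      exact (isOrdinal_succ ho).subset_of_mem (mn_spec ho i).1
    · rw [g2 x h]
  have g4 : ∀ γ ∈ insert ζ ζ, γ ∈ img (gN I G ζ) B := fun γ hγ => by
    rcases mem_insert_iff.1 hγ with rfl | h
    · refine mem_img.2 ⟨_, (mB _).2 (hr _ h0), (g1 _ h0).trans ?_⟩
      exact (mn_spec ho ∅).2.1.resolve_right (notMem_empty _)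
    · refine mem_img.2 ⟨_, (mB _).2 (hr _ (h1 γ h)), (g1 _ (h1 γ h)).trans ?_⟩
      obtain ⟨-, a2, a3⟩ := mn_spec ho {pair ζ γ}
      rcases a2 with e | e
      · exact absurd (a3 γ hγ (Or.inr (mem_singleton.2 rfl)) (e.symm ▸ h)) (mem_irrefl _)
      · exact (pair_inj.1 (mem_singleton.1 e)).2
  have g5 : ∀ x, IsOrdinal (gN I G ζ x) := fun x => by
    by_cases h : ∃ i ∈ I, x = aR G i
    · obtain ⟨i, hi, rfl⟩ := h
      rw [g1 i hi]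
      exact (isOrdinal_succ ho).mem (mn_spec ho i).1
    · rw [g2 x h]; exact isOrdinal_succ ho
  refine ⟨img (gN I G ζ) B, ⟨?_, B, In.mem _, mB, graph (gN I G ζ) B, In.mem _,
    graph_isFunc fun x hx => img_mem hx, fun ξ hξ => ?_, fun x y ξ η hx hy => ?_⟩,
    g4 ζ (mem_insert _ _)⟩
  · refine isOrdinal_iff_forall_mem_isOrdinal.2 ⟨fun ξ hξ γ hγ => ?_, fun ξ hξ => ?_⟩
    · obtain ⟨x, -, rfl⟩ := mem_img.1 hξ
      exact g4 γ (g3 x hγ)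
    · obtain ⟨x, -, rfl⟩ := mem_img.1 hξ
      exact g5 x
  · obtain ⟨x, hx, rfl⟩ := mem_img.1 hξ
    exact ⟨x, pair_mem_graph.2 ⟨hx, rfl⟩⟩
  · obtain ⟨k1, rfl⟩ := pair_mem_graph.1 hx
    obtain ⟨k2, rfl⟩ := pair_mem_graph.1 hy
    rw [hR x y ((mB x).1 k1) ((mB y).1 k2)]
    by_cases h : ∃ i ∈ I, y = aR G i
    · obtain ⟨j, hj, rfl⟩ := id h
      rw [or_iff_right (not_not.2 h), g1 j hj]
      by_cases h' : ∃ i ∈ I, x = aR G i
      · obtain ⟨i, hi, rfl⟩ := id h'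
        rw [and_iff_right h', g1 i hi, hF i hi j hj, rl_iff ho (hB i hi) (hB j hj)]
      · rw [g2 x h']
        exact iff_of_false (fun k => h' k.1) fun k =>
          mem_irrefl _ ((mn_spec ho j).2.2 ζ (mem_insert _ _) (Or.inl rfl) (k (mem_insert _ _)))
    · rw [g2 y h]
      exact iff_of_true (Or.inl h) (g3 x)

theorem aleph_succ {N : Set ZF} [hN : TModel N] {n : ℕ} {μ k : ZF} (h : Aleph N n μ) (hm : μ ∈ N)
    (ho : IsOrdinal μ) (hk : Hart N μ k) : Aleph N (n + 1) k :=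
  ⟨μ, h, hk.mem, hk.ord, fun hc => hk.not_le (hc.le hk.mem hm),
    fun ξ hξ => (hk.le ξ hξ).cardLE (tr hk.mem hξ) hm ho⟩

/-- the chain of successor cardinals -/
def Ch (M : Set ZF) : ℕ → ZF → Prop
  | 0, k => k = om
  | n + 1, k => ∃ μ, Ch M n μ ∧ Hart M μ k

theorem Ch.inf {M : Set ZF} [TModel M] {n : ℕ} : ∀ {k}, Ch M n k → Inf M k ∧ IsOrdinal k := by
  induction n with
  | zero => rintro _ rfl; exact ⟨inf_omega, isOrdinal_omega⟩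
  | succ n ih => exact fun ⟨_, h1, h2⟩ => ⟨hart_inf h2 (ih h1).1, h2.ord⟩

theorem exists_ch' {M : Set ZF} [TModel M] (n : ℕ) : ∃ k, Ch M n k := by
  induction n with
  | zero => exact ⟨_, rfl⟩
  | succ n ih =>
    obtain ⟨μ, h⟩ := ih
    obtain ⟨k, hk⟩ := exists_hart h.inf.1.mem
    exact ⟨k, μ, h, hk⟩

theorem Ch.aleph {M N : Set ZF} [TModel M] [TModel N] (hs : M ⊆ N)
    (H : ∀ R k, Inf M R → Hart M R k → Hart N R k) {n : ℕ} : ∀ {k}, Ch M n k → Aleph N n k := by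
  induction n with
  | zero => exact fun h => h
  | succ n ih =>
    exact fun ⟨μ, h1, h2⟩ => aleph_succ (ih h1) (hs h1.inf.1.mem) h1.inf.2 (H μ _ h1.inf.1 h2)

end MainP

open MainP

theorem main (hL : S_LMod) (hLK : S_LK) (hCnt : S_Cnt) (hLow : S_Low) (hCard : S_Card)
    (hUp : S_Upper) (hPig : S_Pig) (hA : S_SeqA) (hB : S_SeqB) (hS : S_Seal) (hR : S_Real)
    (hC : S_Code) (hU : S_Uniq) (n : ℕ) (hn : 2 ≤ n) :
    ∃ N : Set ZF, TModel N ∧ ∃ d, Aleph N n d ∧ ∀ m, 3 ≤ m → ProjOrd N m d := by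
  obtain ⟨n, rfl⟩ : ∃ k, n = k + 2 := ⟨n - 2, by omega⟩
  obtain ⟨M0, hM0, hc0⟩ := ctm
  obtain ⟨hM, hV⟩ := hL M0
  have hc : (LM M0).Countable := hc0.mono fun x ⟨α, h1, _, h2⟩ => by
    have := In.mk' h1
    exact tr (In.mem (M := M0) (LS α)) h2
  generalize LM M0 = M at hM hV hc
  obtain ⟨κ1, h1⟩ := exists_hart (M := M) hM.infinity
  obtain ⟨κ3, ch⟩ := exists_ch' (M := M) (n + 2)
  obtain ⟨κ2, ⟨μ, ch0, h2⟩, h3⟩ := id ch
  have i1 := ch0.inf.1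
  have i2 := hart_inf h2 i1
  have lim := hart_lim h1 inf_omega
  have lk := hLK M hV om κ1 inf_omega h1
  obtain ⟨s, hs, hf, hq, φ, d1, d2⟩ := hA M hV κ1 h1
  have hJ := hB κ1 _ s lim hf hq
  have ho : om ⊆ κ3 := h3.ord.subset_of_mem (h3.omega i2)
  obtain ⟨ccc, av⟩ := hS M hV κ1 h1 s hs hf hJ κ3 h3.mem ho
  have := In.mk' hs
  have := In.mk' h1.mem
  have := In.mk' h3.mem
  have po := po_PP (II M κ3) (EE M κ3) (JJ s κ1)
  obtain ⟨G, hG, hG0⟩ := genEx M hc _ _ po ∅ (mem_PP.2 ⟨fn_empty, val_empty _ _ _⟩)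
  obtain ⟨N, hE, -⟩ := extEx M hc _ (In.mem _) _ (In.mem _) po G hG
  have hN := hE.model
  have fx : FX M N _ _ G := ⟨In.mem _, In.mem _, po, ccc, hG, ⟨_, hG0⟩, hE⟩
  have px : PX M N (II M κ3) (EE M κ3) (JJ s κ1) G :=
    ⟨In.mem _, In.mem _, In.mem _, hJ.ne, hJ.t1, hJ.t2, hG, hE⟩
  have n1 := hCard M N _ _ G fx _ _ inf_omega h1
  have l12 : Le M κ1 κ2 := Le.of_subset h2.mem ((h2.ord.mem_or_subset h1.ord).resolve_left
    fun h => h2.not_le ((h1.le _ h).trans i1.omLe i1.mem))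
  have lJ : Le M (JJ s κ1) κ2 := i2.bun (app s) inferInstance h1.mem l12 fun β hβ => by
    obtain ⟨δ, k1, k2⟩ := lim.mem_LS.1 (hf.app_mem' hβ)
    exact ((lk.le δ k1).mono (LS_trans (h1.ord.mem k1) _ k2)).trans i2.omLe h2.mem
  have hom := hPig M κ1 κ2 κ3 h1 i2 l12 h3 (hCnt M hV μ κ2 i1 h2) _ (In.mem _) lJ
  have hA' : ∀ x, Real N x → (AA s κ1 x ↔ ∃ i ∈ II M κ3, x = aR G i) := fun x hx => by
    refine ⟨hU M N _ _ κ1 s G px av x hx, ?_⟩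
    rintro ⟨i, hi, rfl⟩ α hα
    have := In.mk' (tr h1.mem hα)
    exact (hR M N _ _ _ G px i hi).2.2 _ (In.mem _) (fun T hT => mem_bun.2 ⟨α, hα, hT⟩)
      (hJ.ref α hα)
  refine ⟨N, hN, κ3, ch.aleph hE.sub (hCard M N _ _ G fx), fun m hm => ⟨h3.ord, fun R α k1 k2 =>
      hUp M N _ _ G fx κ3 h3.mem h3.ord hom m R α k1.1 k2, fun b _ hb ζ hζ => ?_⟩⟩
  have z1 := tr h3.mem hζ
  have : In N ζ := In.mk' (hE.sub z1)
  have : In N G := In.mk' hE.gen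
  obtain ⟨R, k1, k2⟩ := hLow N κ1 n1 φ (AA s κ1) (fun x _ => d1 x) (fun x hx h => by
      simp only [AA, not_forall] at h
      obtain ⟨α, hα, h⟩ := h
      obtain ⟨w, w1, w2, ⟨f, w3, w4⟩, w5⟩ := d2 α hα
      have w6 : x ⊆ w := fun a ha => by
        obtain ⟨k, hk, j, hj, rfl⟩ := hx.2.exists_pair ha
        exact w2.2.pair (w2.2.om hk) (w2.2.om hj)
      have : In N w := In.mk' (hE.sub w1)
      have : In N x := In.mk' hx.1
      refine ⟨insert x w, In.mem _, fun y hy z hz => mem_insert_of_mem _ ?_,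
        inf_omega.insert hx.1 (hE.sub w1) ⟨f, hE.sub w3, w4⟩, mem_insert _ _, w5 x w6 h⟩
      rcases mem_insert_iff.1 hy with rfl | hy
      exacts [w6 hz, w2.1 y hy hz])
    (rR G ζ) (In.mem _) (fun a b h => by
      obtain ⟨k1, k2⟩ := pair_mem_prod.1 (mem_sep.1 h).1
      exact ⟨(mem_Nds.1 k1).1, (mem_Nds.1 k2).1⟩) m hm
  obtain ⟨α, k3, k4⟩ := pwo (N := N) (κ := κ3) (I := II M κ3) (G := G) (ζ := ζ) (R := R)
    (hE.sub (In.mem _)) hE.gen (hE.sub z1) (h3.ord.mem hζ) (fun i hi => (mem_II.1 hi).1.1)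
    (mem_II.2 ⟨⟨fun _ h => absurd h (notMem_empty _), empty_mem⟩, le_empty _⟩)
    (fun γ hγ => by
      have : In M ζ := In.mk' z1
      have : In M γ := In.mk' (tr z1 hγ)
      exact mem_II.2 ⟨⟨fun b hb => mem_singleton.1 hb ▸
        pair_mem_BB.2 ⟨hζ, h3.ord.mem_trans hγ hζ, hγ⟩, In.mem _⟩, inf_omega.singleton (In.mem _)⟩)
    (fun i hi => (hR M N _ _ _ G px i hi).1) (F := FF (rR G ζ))
    (hC M N κ3 _ G h3.mem px ζ hζ) fun x y hx hy => by rw [k2 x y hx hy, hA' x hx, hA' y hy]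
  exact hb R α k1 k3 k4

end Pool.Agent.P.MP_9a7e1f_lc
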