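import Pool.Agent.P.MP_9a7e1f_lc.Pig1

/-! Two of `κ` many conditions with names can be swapped. -/

set_option linter.unusedSectionVars false

namespace Pool.Agent.P.MP_9a7e1f_lc

open ZFSet Pool.Agent.P.MP_3ab3de_lc

namespace PigP

/-- half of the similarity of two coded sets of ordinals -/
structure Sw (κ γ t O O' h h' : ZF) : Prop where
  sub : O ⊆ κ
  tot : ∀ x ∈ O, ∃ x' ∈ O', app h x = app h' x'
  ord : ∀ x ∈ O, ∀ x' ∈ O', ∀ y ∈ O, ∀ y' ∈ O', app h x = app h' x' → app h y = app h' y' →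
    x ⊆ y → x' ⊆ y'
  typ : ∀ x ∈ O, ∀ x' ∈ O', app h x = app h' x' →
    app t (pair (gl O x) x) = app t (pair (gl O' x') x')
  fix : ∀ x ∈ O, ∀ x' ∈ O', app h x = app h' x' → x ∈ γ → x' = x
  disj : ∀ x ∈ O, x ∈ O' → x ∈ γ

/-- the matching of the points with the same code -/
noncomputable def ph (O O' h h' : ZF) : ZF :=
  ZFSet.sep (fun z => app h (fst z) = app h' (snd z)) (prod O O')

theorem mem_ph {O O' h h' x x' : ZF} :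
    pair x x' ∈ ph O O' h h' ↔ x ∈ O ∧ x' ∈ O' ∧ app h x = app h' x' := by
  simp [ph, and_assoc]

variable {M : Set ZF} [hM : TModel M]

instance tm_ph {a b c d : Env → ZF} [Tm M a] [Tm M b] [Tm M c] [Tm M d] :
    Tm M (fun v => ph (a v) (b v) (c v) (d v)) := by unfold ph; infer_instance

/-- the property of the types -/
def Ty (M : Set ZF) (k : ℕ) (κ t : ZF) : Prop := ∀ ζ ∈ κ, ∀ ζ' ∈ κ, ∀ e, EO0 M ζ ζ' e →
  (∀ b b', pair b b' ∈ e ∨ (b = ζ ∧ b' = ζ') →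
    app t (pair (gl (img fst e) b) b) = app t (pair (gl (img snd e) b') b')) → EO M k ζ ζ' e

section swap

variable {κ γ t O O' h h' : ZF} {k : ℕ} (hκ : IsOrdinal κ) (s : Sw κ γ t O O' h h')
  (s' : Sw κ γ t O' O h' h)
include hκ s s'

theorem Sw.mem {x x' y y' : ZF} (hx : x ∈ O) (hx' : x' ∈ O') (hy : y ∈ O) (hy' : y' ∈ O')
    (e : app h x = app h' x') (e' : app h y = app h' y') (k : x ∈ y) : x' ∈ y' :=
  ((hκ.mem (s'.sub hy')).not_subset_iff_mem (hκ.mem (s'.sub hx'))).1 fun k' =>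
    mem_irrefl _ (s'.ord _ hy' _ hy _ hx' _ hx e'.symm e.symm k' k)

theorem Sw.uniq {x y z : ZF} (hx : x ∈ O) (hy : y ∈ O') (hz : z ∈ O') (e : app h x = app h' y)
    (e' : app h x = app h' z) : y = z :=
  subset_antisymm (s.ord _ hx _ hy _ hx _ hz e e' fun _ k => k)
    (s.ord _ hx _ hz _ hx _ hy e' e fun _ k => k)

theorem Sw.eo (ht : Ty M k κ t) (hm : ph O O' h h' ∈ M) (hκ' : κ ∈ M) {ζ ζ' : ZF} (hζ : ζ ∈ O)
    (hζ' : ζ' ∈ O') (e : app h ζ = app h' ζ') : EO M k ζ ζ' (ph O O' h h' ∩ prod ζ ζ') := by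
  have := In.mk' hm
  have := In.mk' (tr hκ' (s.sub hζ))
  have := In.mk' (tr hκ' (s'.sub hζ'))
  have o1 := hκ.mem (s.sub hζ)
  have o2 := hκ.mem (s'.sub hζ')
  refine ht ζ (s.sub hζ) ζ' (s'.sub hζ') _ ⟨In.mem _, fun _ k => (mem_inter.1 k).2,
    fun x x' y y' k1 k2 => ?_⟩ fun b b' hb => ?_
  · obtain ⟨a1, a2, a3⟩ := mem_ph.1 (mem_inter.1 k1).1
    obtain ⟨b1, b2, b3⟩ := mem_ph.1 (mem_inter.1 k2).1
    exact ⟨s.ord _ a1 _ a2 _ b1 _ b2 a3 b3, s'.ord _ a2 _ a1 _ b2 _ b1 a3.symm b3.symm⟩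
  · have k : (b ∈ O ∧ b' ∈ O' ∧ app h b = app h' b') ∧ b ⊆ ζ ∧ b' ⊆ ζ' := by
      rcases hb with hb | ⟨rfl, rfl⟩
      · obtain ⟨k1, k2⟩ := mem_inter.1 hb
        exact ⟨mem_ph.1 k1, o1.subset_of_mem (pair_mem_prod.1 k2).1,
          o2.subset_of_mem (pair_mem_prod.1 k2).2⟩
      · exact ⟨⟨hζ, hζ', e⟩, fun _ k => k, fun _ k => k⟩
    have e1 : img fst (ph O O' h h' ∩ prod ζ ζ') ∩ b = O ∩ b := by
      ext y
      simp only [mem_inter, mem_img]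
      refine and_congr_left fun hy => ⟨?_, fun k1 => ?_⟩
      · rintro ⟨z, ⟨k1, k2⟩, rfl⟩
        obtain ⟨u, -, u', -, rfl⟩ := mem_prod.1 k2
        simpa using (mem_ph.1 k1).1
      · obtain ⟨y', k2, k3⟩ := s.tot y k1
        exact ⟨pair y y', ⟨mem_ph.2 ⟨k1, k2, k3⟩, pair_mem_prod.2 ⟨k.2.1 hy,
          s.mem hκ s' k1 k2 hζ hζ' k3 e (k.2.1 hy)⟩⟩, fst_pair _ _⟩
    have e2 : img snd (ph O O' h h' ∩ prod ζ ζ') ∩ b' = O' ∩ b' := by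
      ext y
      simp only [mem_inter, mem_img]
      refine and_congr_left fun hy => ⟨?_, fun k1 => ?_⟩
      · rintro ⟨z, ⟨k1, k2⟩, rfl⟩
        obtain ⟨u, -, u', -, rfl⟩ := mem_prod.1 k2
        simpa using (mem_ph.1 k1).2.1
      · obtain ⟨y', k2, k3⟩ := s'.tot y k1
        exact ⟨pair y' y, ⟨mem_ph.2 ⟨k2, k1, k3.symm⟩, pair_mem_prod.2
          ⟨s'.mem hκ s k1 k2 hζ' hζ k3 e.symm (k.2.2 hy), k.2.2 hy⟩⟩, snd_pair _ _⟩
    rw [gl, gl, e1, e2]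
    exact s.typ _ k.1.1 _ k.1.2.1 k.1.2.2

theorem Sw.cross {x y z : ZF} (hx : x ∈ O) (hy : y ∈ O') (e : app h x = app h' y) (hx' : x ∈ O')
    (hz : z ∈ O) (e' : app h' x = app h z) : y = z :=
  (s.fix _ hx _ hy e (s.disj _ hx hx')).trans (s'.fix _ hx' _ hz e' (s.disj _ hx hx')).symm

end swap

/-- the diagonal -/
noncomputable def dg (a : ZF) : ZF := graph (fun x => x) a

instance tm_dg {a : Env → ZF} [Tm M a] : Tm M (fun v => dg (a v)) := by unfold dg; infer_instance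

theorem eo_dg {ζ : ZF} (hζ : ζ ∈ M) (k : ℕ) : EO M k ζ ζ (dg ζ) := by
  have := In.mk' hζ
  refine EO.of_total ⟨In.mem _, (graph_isFunc fun _ h => h).1, fun x x' y y' h1 h2 => ?_⟩
    (fun x hx => ⟨x, pair_mem_graph.2 ⟨hx, rfl⟩⟩) (fun x hx => ⟨x, pair_mem_graph.2 ⟨hx, rfl⟩⟩) k
  rw [← (pair_mem_graph.1 h1).2, ← (pair_mem_graph.1 h2).2]

theorem swap {κ γ t O O' h h' : ZF} {k : ℕ} (hκ : IsOrdinal κ) (hκ' : κ ∈ M) (hγ : γ ∈ κ)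
    (ht : Ty M k κ t) (hO : O ∈ M) (hO' : O' ∈ M) (hh : h ∈ M) (hh' : h' ∈ M)
    (s : Sw κ γ t O O' h h') (s' : Sw κ γ t O' O h' h) :
    ∃ σ ∈ M, Inv κ σ ∧ ∃ e ∈ M, (∀ ζ ∈ κ, EO M k ζ (app σ ζ) (app e ζ)) ∧ Cd σ e O O' h h' ∧
      Cd σ e O' O h' h ∧ Cd σ e γ γ (dg γ) (dg γ) := by
  have := In.mk' hO
  have := In.mk' hO'
  have := In.mk' hh
  have := In.mk' hh'
  have := In.mk' (tr hκ' hγ)
  have og := hκ.mem hγ
  let Q : ZF → ZF → Prop := fun x y =>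
    pair x y ∈ ph O O' h h' ∨ pair x y ∈ ph O' O h' h ∨ (y = x ∧ x ∉ O ∧ x ∉ O')
  have q1 : ∀ x y z, Q x y → Q x z → y = z := by
    rintro x y z (k | k | ⟨rfl, k, k0⟩) (k' | k' | ⟨rfl, k', k0'⟩) <;> try simp only [mem_ph] at k k'
    exacts [s.uniq hκ s' k.1 k.2.1 k'.2.1 k.2.2 k'.2.2,
      s.cross hκ s' k.1 k.2.1 k.2.2 k'.1 k'.2.1 k'.2.2, absurd k.1 k',
      s'.cross hκ s k.1 k.2.1 k.2.2 k'.1 k'.2.1 k'.2.2,
      s'.uniq hκ s k.1 k.2.1 k'.2.1 k.2.2 k'.2.2, absurd k.1 k0', absurd k'.1 k, absurd k'.1 k0, rfl]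
  have q2 : ∀ x y, Q x y → Q y x := by
    rintro x y (k | k | ⟨rfl, k⟩)
    · obtain ⟨a, b, c⟩ := mem_ph.1 k
      exact Or.inr (Or.inl (mem_ph.2 ⟨b, a, c.symm⟩))
    · obtain ⟨a, b, c⟩ := mem_ph.1 k
      exact Or.inl (mem_ph.2 ⟨b, a, c.symm⟩)
    · exact Or.inr (Or.inr ⟨rfl, k⟩)
  obtain ⟨σ, hσ, q3⟩ := skolem (M := M) Q inferInstance hκ' fun x hx => by
    by_cases k : x ∈ O
    · obtain ⟨y, hy, e⟩ := s.tot x k
      exact ⟨y, tr hO' hy, Or.inl (mem_ph.2 ⟨k, hy, e⟩)⟩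
    by_cases k' : x ∈ O'
    · obtain ⟨y, hy, e⟩ := s'.tot x k'
      exact ⟨y, tr hO hy, Or.inr (Or.inl (mem_ph.2 ⟨k', hy, e⟩))⟩
    · exact ⟨x, tr hκ' hx, Or.inr (Or.inr ⟨rfl, k, k'⟩)⟩
  have := In.mk' hσ
  have q4 : ∀ x ∈ κ, app σ x ∈ κ := fun x hx => by
    rcases q3 x hx with k | k | ⟨k, -⟩
    exacts [s'.sub (mem_ph.1 k).2.1, s.sub (mem_ph.1 k).2.1, k.symm ▸ hx]
  have a1 : ∀ x ∈ O, ∀ x' ∈ O', app h x = app h' x' → app σ x = x' := fun x hx x' hx' e =>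
    q1 _ _ _ (q3 x (s.sub hx)) (Or.inl (mem_ph.2 ⟨hx, hx', e⟩))
  have a2 : ∀ x ∈ O', ∀ x' ∈ O, app h' x = app h x' → app σ x = x' := fun x hx x' hx' e =>
    q1 _ _ _ (q3 x (s'.sub hx)) (Or.inr (Or.inl (mem_ph.2 ⟨hx, hx', e⟩)))
  have a3 : ∀ x ∈ γ, app σ x = x := fun x hx => by
    rcases q3 x (hκ.mem_trans hx hγ) with k | k | ⟨k, -⟩
    exacts [s.fix _ (mem_ph.1 k).1 _ (mem_ph.1 k).2.1 (mem_ph.1 k).2.2 hx,
      s'.fix _ (mem_ph.1 k).1 _ (mem_ph.1 k).2.1 (mem_ph.1 k).2.2 hx, k]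
  obtain ⟨e, he, q5⟩ := skolem (M := M) (fun ζ e => EO M k ζ (app σ ζ) e ∧
    (ζ ∈ O → ∀ x ∈ O, ∀ x' ∈ O', x ∈ ζ → app h x = app h' x' → pair x x' ∈ e) ∧
    (ζ ∈ O' → ∀ x ∈ O', ∀ x' ∈ O, x ∈ ζ → app h' x = app h x' → pair x x' ∈ e) ∧
    (ζ ∈ γ → ∀ x ∈ ζ, pair x x ∈ e)) inferInstance hκ' fun ζ hζ => by
      have := In.mk' (tr hκ' hζ)
      by_cases k0 : ζ ∈ γ
      · refine ⟨dg ζ, In.mem _, by rw [a3 ζ k0]; exact eo_dg (In.mem _) k,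
          fun _ x hx x' hx' k1 k2 => pair_mem_graph.2 ⟨k1, ?_⟩,
          fun _ x hx x' hx' k1 k2 => pair_mem_graph.2 ⟨k1, ?_⟩,
          fun _ x hx => pair_mem_graph.2 ⟨hx, rfl⟩⟩
        exacts [(s.fix _ hx _ hx' k2 (og.mem_trans k1 k0)).symm,
          (s'.fix _ hx _ hx' k2 (og.mem_trans k1 k0)).symm]
      by_cases k1 : ζ ∈ O
      · obtain ⟨ζ', k2, k3⟩ := s.tot ζ k1
        have := In.mk' (tr hO' k2)
        exact ⟨_, In.mem _, (a1 _ k1 _ k2 k3).symm ▸ s.eo hκ s' ht (In.mem _) hκ' k1 k2 k3,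
          fun _ x hx x' hx' k4 k5 => mem_inter.2 ⟨mem_ph.2 ⟨hx, hx', k5⟩,
            pair_mem_prod.2 ⟨k4, s.mem hκ s' hx hx' k1 k2 k5 k3 k4⟩⟩,
          fun k4 => absurd (s.disj _ k1 k4) k0, fun k4 => absurd k4 k0⟩
      by_cases k1' : ζ ∈ O'
      · obtain ⟨ζ', k2, k3⟩ := s'.tot ζ k1'
        have := In.mk' (tr hO k2)
        exact ⟨_, In.mem _, (a2 _ k1' _ k2 k3).symm ▸ s'.eo hκ s ht (In.mem _) hκ' k1' k2 k3,
          fun k4 => absurd k4 k1, fun _ x hx x' hx' k4 k5 => mem_inter.2 ⟨mem_ph.2 ⟨hx, hx', k5⟩,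
            pair_mem_prod.2 ⟨k4, s'.mem hκ s hx hx' k1' k2 k5 k3 k4⟩⟩, fun k4 => absurd k4 k0⟩
      · refine ⟨dg ζ, In.mem _, ?_, fun k => absurd k k1, fun k => absurd k k1',
          fun k => absurd k k0⟩
        rw [q1 _ _ _ (q3 ζ hζ) (Or.inr (Or.inr ⟨rfl, k1, k1'⟩))]
        exact eo_dg (In.mem _) k
  refine ⟨σ, hσ, fun ζ hζ => ⟨q4 ζ hζ, q1 _ _ _ (q3 _ (q4 ζ hζ)) (q2 _ _ (q3 ζ hζ))⟩, e, he,
    fun ζ hζ => (q5 ζ hζ).1, ⟨a1, fun ζ hζ => (q5 ζ (s.sub hζ)).2.1 hζ⟩,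
    ⟨a2, fun ζ hζ => (q5 ζ (s'.sub hζ)).2.2.1 hζ⟩, fun x hx x' hx' k => ?_,
    fun ζ hζ x hx x' hx' k1 k => ?_⟩ <;> rw [dg, app_graph hx, app_graph hx'] at k <;> subst k
  exacts [a3 x hx, (q5 ζ (hκ.mem_trans hζ hγ)).2.2.2 hζ x k1]

/-- code of a name -/
noncomputable def aN (h A : ZF) : ZF := img (fun z => pair (aC h (fst z)) (snd z)) A

/-- the order of `O` -/
noncomputable def od (O : ZF) : ZF := ZFSet.sep (fun z => fst z ⊆ snd z) (prod O O)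

/-- the colour of a coded set of ordinals -/
noncomputable def c3 (γ t O h : ZF) : ZF :=
  pair (aI h (od O)) (pair (img (fun b => pair (app h b) (app t (pair (gl O b) b))) O)
    (img (fun x => pair (app h x) x) (O ∩ γ)))

section df

variable {a b c d : Env → ZF} [Tm M a] [Tm M b] [Tm M c] [Tm M d]

instance tm_aN : Tm M (fun v => aN (a v) (b v)) := by unfold aN; infer_instance

instance tm_od : Tm M (fun v => od (a v)) := by unfold od; infer_instance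

set_option synthInstance.maxSize 1024 in
instance tm_c3 : Tm M (fun v => c3 (a v) (b v) (c v) (d v)) := by unfold c3; infer_instance

end df

/-- injective on `O` -/
def Inj (O h : ZF) : Prop := ∀ x ∈ O, app h x ∈ om ∧ ∀ y ∈ O, app h x = app h y → x = y

omit hM in
theorem sw_of {κ γ t O O' h h' : ZF} (h1 : O ⊆ κ) (hi : Inj O' h')
    (e : c3 γ t O h = c3 γ t O' h') (hd : ∀ x ∈ O, x ∈ O' → x ∈ γ) : Sw κ γ t O O' h h' := by
  simp only [c3, pair_inj] at e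
  obtain ⟨e1, e2, e3⟩ := e
  refine ⟨h1, fun x hx => ?_, fun x hx x' hx' y hy y' hy' k1 k2 k3 => ?_, fun x hx x' hx' k => ?_,
    fun x hx x' hx' k k1 => ?_, hd⟩
  · obtain ⟨y, hy, k⟩ := img_eq e2 hx
    exact ⟨y, hy, (pair_inj.1 k).1.symm⟩
  · obtain ⟨z, hz, k⟩ := img_eq e1 (x := pair x y) (by simp [od, hx, hy, k3])
    obtain ⟨k4, k5⟩ := mem_sep.1 hz
    obtain ⟨u, hu, v, hv, rfl⟩ := mem_prod.1 k4
    simp only [fst_pair, snd_pair, pair_inj] at k k5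
    rwa [← (hi u hu).2 _ hx' (k.1.trans k1), ← (hi v hv).2 _ hy' (k.2.trans k2)]
  · obtain ⟨y, hy, k1⟩ := img_eq e2 hx
    rw [← (hi y hy).2 _ hx' ((pair_inj.1 k1).1.trans k), (pair_inj.1 k1).2]
  · obtain ⟨y, hy, k2⟩ := img_eq e3 (mem_inter.2 ⟨hx, k1⟩)
    rw [← (hi y (mem_inter.1 hy).1).2 _ hx' ((pair_inj.1 k2).1.trans k), (pair_inj.1 k2).2]

theorem img_cs {F : ZF → ZF} (hF : Tm M (fun v => F (v 0))) {a X : ZF} (ha : a ∈ M)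
    (h : Le M a om) (h' : ∀ x ∈ a, F x ∈ X) : img F a ∈ cs M X :=
  mem_cs.2 ⟨⟨fun y hy => by
    obtain ⟨x, hx, rfl⟩ := mem_img.1 hy
    exact h' x hx, img_mem' hF ha⟩, inf_omega.img F hF ha h⟩

theorem aI_mem {O h i : ZF} (hi : Inj O h) (hh : h ∈ M) (h1 : i ∈ M) (h2 : Le M i om)
    (h3 : sI i ⊆ O) : aI h i ∈ cs M (prod om om) := by
  have := In.mk' hh
  exact img_cs inferInstance h1 h2 fun b hb => pair_mem_prod.2
    ⟨(hi _ (h3 (mem_union.2 (Or.inl (img_mem hb))))).1,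
      (hi _ (h3 (mem_union.2 (Or.inr (img_mem hb))))).1⟩

/-- the possible codes of atoms -/
noncomputable def AT (Y : ZF) : ZF := prod om (prod Y Y ∪ prod om (prod om (prod Y Y)))

theorem aC_mem {κ J O h p : ZF} (hi : Inj O h) (hh : h ∈ M) (hm : p ∈ M)
    (hp : p ∈ PP (II M κ) (EE M κ) J) (h3 : sC p ⊆ O) :
    aC h p ∈ cs M (AT (Nds ∪ (J ∪ cs M (prod om om)))) := by
  have := In.mk' hh
  refine img_cs inferInstance hm ((mem_PP.1 hp).1.le hm inf_omega) fun a ha => ?_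
  have k : sA a ⊆ O := fun _ k => h3 (sA_sub ha k)
  have k1 : ∀ i ∈ II M κ, sI i ⊆ O → aI h i ∈ cs M (prod om om) := fun i k =>
    aI_mem hi hh (mem_II.1 k).1.2 (mem_II.1 k).2
  rcases at_of hp ha with ⟨i, a1, T, a2, rfl⟩ | ⟨ζ, -, s, a1, t, a2, rfl⟩ |
    ⟨ζ, -, i, a1, j, a2, rfl⟩
  · rw [sA_tA] at k
    rw [aA_tA]
    simp [AT, tA, omega_zero, k1 i a1 k, a2]
  · rw [sA_nd] at k
    rw [aA_nd]
    simp [AT, nA, ndE, omega_zero, num_mem_omega, a1, a2, (hi _ (k (mem_singleton.2 rfl))).1]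
  · rw [sA_pr] at k
    rw [aA_pr]
    simp [AT, nA, prE, num_mem_omega, (hi _ (k (mem_insert _ _))).1,
      k1 i a1 fun _ k' => k (by simp [k']), k1 j a2 fun _ k' => k (by simp [k'])]

omit hM in
theorem gl_mem {κ O b : ZF} (hκ : IsOrdinal κ) (hb : b ∈ κ) : gl O b ∈ κ := by
  have ob := hκ.mem hb
  refine IsOrdinal.mem_of_subset_of_mem ?_ hκ (fun x hx => ?_) hb
  · rw [gl, bun]
    refine isOrdinal_sUnion fun x hx => ?_
    obtain ⟨y, hy, rfl⟩ := mem_img.1 hx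
    exact isOrdinal_succ (ob.mem (mem_inter.1 hy).2)
  · obtain ⟨y, hy, hx⟩ := mem_bun.1 hx
    rcases mem_insert_iff.1 hx with rfl | hx
    exacts [(mem_inter.1 hy).2, ob.mem_trans hx (mem_inter.1 hy).2]

omit hM in
theorem relN {κ J σ e O O' h h' A A' : ZF} (hσ : Inv κ σ) (hc : Cd σ e O O' h h')
    (hA : A ⊆ prod (PP (II M κ) (EE M κ) J) (prod om om))
    (hA' : A' ⊆ prod (PP (II M κ) (EE M κ) J) (prod om om))
    (h1 : ∀ d b, pair d b ∈ A → sC d ⊆ O) (h2 : ∀ d b, pair d b ∈ A' → sC d ⊆ O')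
    (h3 : aN h A = aN h' A') : RelN (HH M κ J σ e) A A' := by
  have key : ∀ d b d' b', pair d b ∈ A → pair d' b' ∈ A' → aC h d = aC h' d' →
      pair d d' ∈ HH M κ J σ e := fun d b d' b' k1 k2 k3 =>
    have a1 := (pair_mem_prod.1 (hA k1)).1
    have a2 := (pair_mem_prod.1 (hA' k2)).1
    mem_HH.2 ⟨a1, a2, hc.rc hσ a1 a2 (h1 _ _ k1) (h2 _ _ k2) k3⟩
  refine ⟨fun d b k => ?_, fun d' b k => ?_⟩
  · obtain ⟨z, hz, k1⟩ := img_eq h3 k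
    obtain ⟨d', -, b', -, rfl⟩ := mem_prod.1 (hA' hz)
    simp only [fst_pair, snd_pair, pair_inj] at k1
    exact ⟨d', key _ _ _ _ k hz k1.1.symm, k1.2 ▸ hz⟩
  · obtain ⟨z, hz, k1⟩ := img_eq h3.symm k
    obtain ⟨d, -, b', -, rfl⟩ := mem_prod.1 (hA hz)
    simp only [fst_pair, snd_pair, pair_inj] at k1
    exact ⟨d, key _ _ _ _ hz k k1.1, k1.2 ▸ hz⟩

end PigP

open PigP in
theorem pig (h1 : S_Typ) (h2 : S_Prod) : S_Pig := by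
  intro M _ κ1 R κ a1 hR a2 hκ hcs J hJ a3 k X hX f hf g hg hfg
  obtain ⟨Z, hZ, z1, t, ht, z2, z3⟩ := h1 M κ1 R κ a1 hR a2 hκ k
  have := In.mk' hκ.mem
  have := In.mk' hJ
  have := In.mk' hf
  have := In.mk' hg
  have := In.mk' hZ
  have := In.mk' ht
  have hP : PP (II M κ) (EE M κ) J ∈ M := In.mem _
  have hA := fun ξ hξ => mem_cs.1 (hfg ξ hξ).2
  let O : ZF → ZF := fun ξ => bun sC (insert (app f ξ) (img fst (app g ξ)))
  have hO : Tm M (fun v => O (v 0)) := inferInstance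
  have := fun s [Tm M s] => hO.one s
  have o1 : ∀ ξ, sC (app f ξ) ⊆ O ξ := fun ξ x hx => mem_bun.2 ⟨_, mem_insert _ _, hx⟩
  have o2 : ∀ ξ d b, pair d b ∈ app g ξ → sC d ⊆ O ξ := fun ξ d b k x hx =>
    mem_bun.2 ⟨d, mem_insert_of_mem _ (mem_img.2 ⟨_, k, fst_pair _ _⟩), hx⟩
  have o3 : ∀ C ∈ M, C ⊆ PP (II M κ) (EE M κ) J → Le M C om → bun sC C ⊆ κ ∧ Le M (bun sC C) om :=
    fun C c1 c2 c3 => ⟨fun x hx => by
      obtain ⟨p, hp, hx⟩ := mem_bun.1 hx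
      exact (sC_spec hκ.mem hJ (c2 hp)).1 hx,
      inf_omega.bun _ inferInstance c1 c3 fun p hp => (sC_spec hκ.mem hJ (c2 hp)).2⟩
  have o4 : ∀ ξ ∈ κ, O ξ ⊆ κ ∧ Le M (O ξ) om := fun ξ hξ => by
    have := In.mk' (tr hκ.mem hξ)
    refine o3 _ (In.mem _) (fun p hp => ?_) (inf_omega.insert (In.mem _) (In.mem _)
      (inf_omega.img _ inferInstance (In.mem _) (hA ξ hξ).2))
    rcases mem_insert_iff.1 hp with rfl | hp
    · exact (hfg ξ hξ).1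
    · obtain ⟨z, hz, rfl⟩ := mem_img.1 hp
      obtain ⟨d, hd, b, -, rfl⟩ := mem_prod.1 ((hA ξ hξ).1.1 hz)
      simpa using hd
  obtain ⟨hh, b1, b2⟩ := skolem (M := M) (fun ξ h => ∀ x ∈ O ξ, app h x ∈ om ∧
    ∀ y ∈ O ξ, app h x = app h y → x = y) inferInstance hκ.mem fun ξ hξ => by
      have := In.mk' (tr hκ.mem hξ)
      obtain ⟨h, k1, k2, k3⟩ := (o4 ξ hξ).2.cardLE (In.mem _) (In.mem _) isOrdinal_omega
      exact ⟨h, k1, fun x hx => ⟨k2.app_mem' hx, fun y hy e =>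
        k3 _ _ _ (k2.app_mem hx) (e ▸ k2.app_mem hy)⟩⟩
  have := In.mk' b1
  obtain ⟨⟨x1, x2⟩, x3⟩ := mem_cs.1 hX
  have := In.mk' x2
  obtain ⟨γ0, g1, g2⟩ := hκ.bdd hR (In.mem (bun sC X)) (o3 X x2 x1 x3).1
    ((o3 X x2 x1 x3).2.trans hR.omLe hR.mem)
  obtain ⟨γ, hγ, g3, ξ, hξ, η, hη, hne, hc, hd⟩ := pigeon a1 hR a2 hκ O hO o4
    (fun γ ξ => pair (aC (app hh ξ) (app f ξ)) (pair (aN (app hh ξ) (app g ξ))
      (c3 γ t (O ξ) (app hh ξ)))) inferInstance (fun γ hγ => by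
      have := In.mk' (tr hκ.mem hγ)
      have w0 := hR.prod hR.omLe hR.omLe
      have w1 := hcs _ (In.mem _) w0
      have w2 := hR.union (In.mem _) (In.mem _) (le_Nds.trans hR.omLe hR.mem)
        (hR.union hJ (In.mem _) a3 w1)
      have := In.mk' (In.mem (M := M) (Nds ∪ (J ∪ cs M (prod om om))))
      have w3 := hR.prod w2 w2
      have : In M (AT (Nds ∪ (J ∪ cs M (prod om om)))) := by unfold AT; infer_instance
      have w4 : Le M (cs M (AT (Nds ∪ (J ∪ cs M (prod om om))))) R := hcs _ (In.mem _)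
        (hR.prod hR.omLe (hR.union (In.mem _) (In.mem _) w3 (hR.prod hR.omLe (hR.prod hR.omLe w3))))
      refine ⟨_, In.mem _, hR.prod w4 (hR.prod (hcs _ (In.mem _) (hR.prod w4 w0)) (hR.prod w1
        (hR.prod (hcs _ (In.mem _) (hR.prod hR.omLe z1))
          (hcs _ (In.mem _) (hR.prod hR.omLe (hκ.le γ hγ)))))), fun ξ hξ => ?_⟩
      have := In.mk' (tr hκ.mem hξ)
      have hi : Inj (O ξ) (app hh ξ) := b2 ξ hξ
      simp only [c3, pair_mem_prod]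
      refine ⟨aC_mem hi (In.mem _) (In.mem _) (hfg ξ hξ).1 (o1 ξ),
        img_cs inferInstance (In.mem _) (hA ξ hξ).2 fun z hz => ?_,
        aI_mem hi (In.mem _) (In.mem _) ((inf_omega.prod (o4 ξ hξ).2 (o4 ξ hξ).2).mono sep_subset)
          fun x hx => ?_,
        img_cs inferInstance (In.mem _) (o4 ξ hξ).2 fun b hb => pair_mem_prod.2
          ⟨(hi b hb).1, z2 _ (gl_mem hκ.ord ((o4 ξ hξ).1 hb)) _ ((o4 ξ hξ).1 hb)⟩,
        img_cs inferInstance (In.mem _) ((o4 ξ hξ).2.mono fun _ k => (mem_inter.1 k).1)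
          fun b hb => pair_mem_prod.2 ⟨(hi b (mem_inter.1 hb).1).1, (mem_inter.1 hb).2⟩⟩
      · obtain ⟨d, hd, b, hb, rfl⟩ := mem_prod.1 ((hA ξ hξ).1.1 hz)
        simp only [fst_pair, snd_pair, pair_mem_prod]
        exact ⟨aC_mem hi (In.mem _) (tr hP hd) hd (o2 ξ d b hz), hb⟩
      · rcases mem_union.1 hx with k | k <;> obtain ⟨z, hz, rfl⟩ := mem_img.1 k <;>
          obtain ⟨u, hu, v, hv, rfl⟩ := mem_prod.1 (mem_sep.1 hz).1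
        · simpa only [fst_pair] using hu
        · simpa only [snd_pair] using hv) g1
  simp only [pair_inj] at hc
  obtain ⟨c1, c2, c4⟩ := hc
  have := In.mk' (tr hκ.mem hξ)
  have := In.mk' (tr hκ.mem hη)
  obtain ⟨σ, s1, s2, e, s3, s4, s5, s6, s7⟩ := swap hκ.ord hκ.mem hγ z3 (In.mem _) (In.mem _)
    (In.mem _) (In.mem _) (sw_of (o4 ξ hξ).1 (b2 η hη) c4 hd)
    (sw_of (o4 η hη).1 (b2 ξ hξ) c4.symm fun x hx hx' => hd x hx' hx)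
  have u1 := biU_RS s2
  have u2 := biU_RI s2 fun ζ hζ => (s4 ζ hζ).zero
  have p1 := (hfg ξ hξ).1
  have p2 := (hfg η hη).1
  have r1 := s5.rc s2 p1 p2 (o1 ξ) (o1 η) c1
  have r2 := s6.rc s2 p2 p1 (o1 η) (o1 ξ) c1.symm
  have f1 : ∀ ζ ∈ O ξ, ζ ∈ O η → RS κ σ ζ ζ := fun ζ k k' =>
    ⟨(o4 ξ hξ).1 k, (s7.a _ (hd ζ k k') _ (hd ζ k k') rfl).symm⟩
  have f2 : ∀ i ∈ II M κ, sI i ⊆ O ξ → sI i ⊆ O η → RI M κ σ e i i := fun i hi k k' =>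
    s7.ri s2 hi hi (fun x hx => hd x (k hx) (k' hx)) (fun x hx => hd x (k hx) (k' hx)) rfl
  obtain ⟨q1, q2⟩ := union_ok u1 u2 p1 p2 r1 (fun ζ k k' => f1 ζ (o1 ξ k) (o1 η k'))
    fun i hi k k' => f2 i hi (fun _ hx => o1 ξ (k hx)) fun _ hx => o1 η (k' hx)
  obtain ⟨-, q3⟩ := union_ok u1 u2 p2 p1 r2 (fun ζ k k' => f1 ζ (o1 ξ k') (o1 η k))
    fun i hi k k' => f2 i hi (fun _ hx => o1 ξ (k' hx)) fun _ hx => o1 η (k hx)
  have ec : app f η ∪ app f ξ = app f ξ ∪ app f η := by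
    ext x
    simp [or_comm]
  refine ⟨ξ, hξ, η, hη, hne, _, HH M κ J σ e, mem_LP.2 ⟨q1, p1, q2⟩, mem_LP.2 ⟨q1, p2, ec ▸ q3⟩,
    h2 M κ hκ.mem hκ.ord J hJ σ s1 s2 k e s3 s4, mem_HH.2 ⟨q1, q1, fun a ha => ?_, fun a ha => ?_⟩,
    fun d hd' => ?_, relN s2 s5 (hA ξ hξ).1.1 (hA η hη).1.1 (o2 ξ) (o2 η) c2,
    relN s2 s6 (hA η hη).1.1 (hA ξ hξ).1.1 (o2 η) (o2 ξ) c2.symm⟩
  · rcases mem_union.1 ha with k | k
    exacts [(r1.1 a k).imp fun _ k => ⟨mem_union.2 (Or.inr k.1), k.2⟩,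
      (r2.1 a k).imp fun _ k => ⟨mem_union.2 (Or.inl k.1), k.2⟩]
  · rcases mem_union.1 ha with k | k
    exacts [(r2.2 a k).imp fun _ k => ⟨mem_union.2 (Or.inr k.1), k.2⟩,
      (r1.2 a k).imp fun _ k => ⟨mem_union.2 (Or.inl k.1), k.2⟩]
  · have k : sC d ⊆ γ := fun x hx => g3 (g2 (mem_bun.2 ⟨d, hd', hx⟩))
    exact mem_HH.2 ⟨x1 hd', x1 hd', s7.rc s2 (x1 hd') (x1 hd') k k rfl⟩

end Pool.Agent.P.MP_9a7e1f_lc
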