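import Pool.Agent.P.MP_9a7e1f_lc.St2

/-! Supports and codes of conditions, the pigeonhole argument, swapping two sets of ordinals. -/

set_option linter.unusedSectionVars false

namespace Pool.Agent.P.MP_9a7e1f_lc.PigP

open ZFSet Pool.Agent.P.MP_3ab3de_lc

/-- code of an index -/
noncomputable def aI (h i : ZF) : ZF := img (fun b => pair (app h (fst b)) (app h (snd b))) i

/-- support of an index -/
noncomputable def sI (i : ZF) : ZF := img fst i ∪ img snd i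

open Classical in
/-- code of an atom -/
noncomputable def aA (h a : ZF) : ZF :=
  if fst a = ∅ then tA (aI h (fst (snd a))) (snd (snd a))
  else if fst (snd a) = ∅ then nA (pair ∅ (pair (app h (fst (snd (snd a)))) (snd (snd (snd a)))))
  else nA (prE (app h (fst (snd (snd a)))) (aI h (fst (snd (snd (snd a)))))
    (aI h (snd (snd (snd (snd a))))))

open Classical in
/-- support of an atom -/
noncomputable def sA (a : ZF) : ZF :=
  if fst a = ∅ then sI (fst (snd a))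
  else if fst (snd a) = ∅ then {fst (snd (snd a))}
  else insert (fst (snd (snd a))) (sI (fst (snd (snd (snd a)))) ∪ sI (snd (snd (snd (snd a)))))

/-- code of a condition -/
noncomputable def aC (h p : ZF) : ZF := img (aA h) p

/-- support of a condition -/
noncomputable def sC (p : ZF) : ZF := bun sA p

@[simp] theorem aA_tA (h i T : ZF) : aA h (tA i T) = tA (aI h i) T := by simp [aA, tA]

@[simp] theorem aA_nd (h ζ s t : ZF) : aA h (nA (ndE ζ s t)) = nA (ndE (app h ζ) s t) := by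
  simp [aA, nA, ndE, num_one_ne]

@[simp] theorem aA_pr (h ζ i j : ZF) :
    aA h (nA (prE ζ i j)) = nA (prE (app h ζ) (aI h i) (aI h j)) := by
  simp [aA, nA, prE, num_one_ne]

@[simp] theorem sA_tA (i T : ZF) : sA (tA i T) = sI i := by simp [sA, tA]

@[simp] theorem sA_nd (ζ s t : ZF) : sA (nA (ndE ζ s t)) = {ζ} := by simp [sA, nA, ndE, num_one_ne]

@[simp] theorem sA_pr (ζ i j : ZF) : sA (nA (prE ζ i j)) = insert ζ (sI i ∪ sI j) := by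
  simp [sA, nA, prE, num_one_ne]

theorem sI_fst {i a b : ZF} (h : pair a b ∈ i) : a ∈ sI i :=
  mem_union.2 (Or.inl (mem_img.2 ⟨_, h, fst_pair _ _⟩))

theorem sI_snd {i a b : ZF} (h : pair a b ∈ i) : b ∈ sI i :=
  mem_union.2 (Or.inr (mem_img.2 ⟨_, h, snd_pair _ _⟩))

theorem sA_sub {p a : ZF} (h : a ∈ p) : sA a ⊆ sC p := fun _ hx => mem_bun.2 ⟨a, h, hx⟩

theorem img_eq {F G : ZF → ZF} {a b x : ZF} (h : img F a = img G b) (hx : x ∈ a) :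
    ∃ y ∈ b, G y = F x := mem_img.1 (h ▸ img_mem hx)

section df

variable {M : Set ZF} [hM : TModel M] {a b : Env → ZF} [Tm M a] [Tm M b]

instance tm_aI : Tm M (fun v => aI (a v) (b v)) := by unfold aI; infer_instance

instance tm_sI : Tm M (fun v => sI (a v)) := by unfold sI; infer_instance

set_option synthInstance.maxSize 1024 in
instance tm_aA : Tm M (fun v => aA (a v) (b v)) := by unfold aA; infer_instance

set_option synthInstance.maxSize 1024 in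
instance tm_sA : Tm M (fun v => sA (a v)) := by unfold sA; infer_instance

instance tm_aC : Tm M (fun v => aC (a v) (b v)) := by unfold aC; infer_instance

instance tm_sC : Tm M (fun v => sC (a v)) := by unfold sC; infer_instance

end df

/-- the shapes of the atoms -/
def At (M : Set ZF) (κ J a : ZF) : Prop :=
  (∃ i ∈ II M κ, ∃ T ∈ J, a = tA i T) ∨ (∃ ζ ∈ κ, ∃ s ∈ Nds, ∃ t ∈ Nds, a = nA (ndE ζ s t)) ∨
    ∃ ζ ∈ κ, ∃ i ∈ II M κ, ∃ j ∈ II M κ, a = nA (prE ζ i j)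

variable {M : Set ZF} {κ J : ZF}

theorem at_of {p a : ZF} (hp : p ∈ PP (II M κ) (EE M κ) J) (ha : a ∈ p) : At M κ J a := by
  rcases (val_iff.1 (mem_PP.1 hp).2).1 a ha with h | ⟨e, he, rfl⟩
  · exact Or.inl h
  · rcases mem_EE.1 he with ⟨ζ, h1, s, h2, t, h3, rfl⟩ | ⟨ζ, h1, i, h2, j, h3, -, rfl⟩
    exacts [Or.inr (Or.inl ⟨ζ, h1, s, h2, t, h3, rfl⟩), Or.inr (Or.inr ⟨ζ, h1, i, h2, j, h3, rfl⟩)]

/-- `σ` and `e` respect the codes -/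
structure Cd (σ e O O' h h' : ZF) : Prop where
  a : ∀ x ∈ O, ∀ x' ∈ O', app h x = app h' x' → app σ x = x'
  b : ∀ ζ ∈ O, ∀ x ∈ O, ∀ x' ∈ O', x ∈ ζ → app h x = app h' x' → pair x x' ∈ app e ζ

section code

variable {σ e O O' h h' : ZF} (hσ : Inv κ σ) (hc : Cd σ e O O' h h')
include hσ hc

theorem Cd.ri {i i' : ZF} (hi : i ∈ II M κ) (hi' : i' ∈ II M κ) (h1 : sI i ⊆ O) (h2 : sI i' ⊆ O')
    (h3 : aI h i = aI h' i') : RI M κ σ e i i' := by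
  have key : ∀ ζ γ ζ' γ', pair ζ γ ∈ i → pair ζ' γ' ∈ i' → app h ζ = app h' ζ' →
      app h γ = app h' γ' → app σ ζ = ζ' ∧ pair γ γ' ∈ app e ζ := fun ζ γ ζ' γ' k1 k2 k3 k4 =>
    ⟨hc.a _ (h1 (sI_fst k1)) _ (h2 (sI_fst k2)) k3, hc.b _ (h1 (sI_fst k1)) _ (h1 (sI_snd k1)) _
      (h2 (sI_snd k2)) (pair_mem_BB.1 ((mem_II.1 hi).1.1 k1)).2.2 k4⟩
  refine ⟨hi, hi', fun ζ γ k1 => ?_, fun ζ k0 γ' k1 => ?_⟩
  · obtain ⟨b, k2, k3⟩ := img_eq h3 k1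
    obtain ⟨ζ', -, γ', -, rfl⟩ := mem_BB ((mem_II.1 hi').1.1 k2)
    simp only [fst_pair, snd_pair, pair_inj] at k3
    obtain ⟨k4, k5⟩ := key _ _ _ _ k1 k2 k3.1.symm k3.2.symm
    exact ⟨γ', k4 ▸ k2, k5⟩
  · obtain ⟨b, k2, k3⟩ := img_eq h3.symm k1
    obtain ⟨ζ', k6, γ, -, rfl⟩ := mem_BB ((mem_II.1 hi).1.1 k2)
    simp only [fst_pair, snd_pair, pair_inj] at k3
    obtain ⟨k4, k5⟩ := key _ _ _ _ k2 k1 k3.1 k3.2
    obtain rfl : ζ' = ζ := by rw [← (hσ _ k6).2, k4, (hσ _ k0).2]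
    exact ⟨γ, k2, k5⟩

theorem Cd.ra {a a' : ZF} (ha : At M κ J a) (ha' : At M κ J a') (h1 : sA a ⊆ O) (h2 : sA a' ⊆ O')
    (h3 : aA h a = aA h' a') : RA (RS κ σ) (RI M κ σ e) a a' := by
  rcases ha with ⟨i, hi, T, -, rfl⟩ | ⟨ζ, hζ, s, -, t, -, rfl⟩ | ⟨ζ, hζ, i, hi, j, hj, rfl⟩ <;>
    rcases ha' with ⟨i', hi', T', -, rfl⟩ | ⟨ζ', -, s', -, t', -, rfl⟩ |
      ⟨ζ', -, i', hi', j', hj', rfl⟩ <;> simp at h1 h2 h3
  · obtain ⟨h3, rfl⟩ := h3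
    exact Or.inl ⟨i, i', T, rfl, rfl, hc.ri hσ hi hi' h1 h2 h3⟩
  · obtain ⟨h3, rfl, rfl⟩ := h3
    exact Or.inr (Or.inl ⟨ζ, ζ', s, t, rfl, rfl, hζ,
      (hc.a _ (h1 (mem_singleton.2 rfl)) _ (h2 (mem_singleton.2 rfl)) h3).symm⟩)
  · exact Or.inr (Or.inr ⟨ζ, ζ', i, i', j, j', rfl, rfl,
      ⟨hζ, (hc.a _ (h1 (mem_insert _ _)) _ (h2 (mem_insert _ _)) h3.1).symm⟩,
      hc.ri hσ hi hi' (fun _ k => h1 (by simp [k])) (fun _ k => h2 (by simp [k])) h3.2.1,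
      hc.ri hσ hj hj' (fun _ k => h1 (by simp [k])) (fun _ k => h2 (by simp [k])) h3.2.2⟩)

theorem Cd.rc {p p' : ZF} (hp : p ∈ PP (II M κ) (EE M κ) J) (hp' : p' ∈ PP (II M κ) (EE M κ) J)
    (h1 : sC p ⊆ O) (h2 : sC p' ⊆ O') (h3 : aC h p = aC h' p') :
    RC (RS κ σ) (RI M κ σ e) p p' := by
  refine ⟨fun a ha => ?_, fun a' ha' => ?_⟩
  · obtain ⟨a', ha', k⟩ := img_eq h3 ha
    exact ⟨a', ha', hc.ra hσ (at_of hp ha) (at_of hp' ha') (fun _ k => h1 (sA_sub ha k))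
      (fun _ k => h2 (sA_sub ha' k)) k.symm⟩
  · obtain ⟨a, ha, k⟩ := img_eq h3.symm ha'
    exact ⟨a, ha, hc.ra hσ (at_of hp ha) (at_of hp' ha') (fun _ k => h1 (sA_sub ha k))
      (fun _ k => h2 (sA_sub ha' k)) k⟩

end code

/-- the union of two related conditions whose common support is fixed -/
theorem union_ok {σ ρ : ZF → ZF → Prop} (hσ : BiU σ) (hρ : BiU ρ) {p p' : ZF}
    (hp : p ∈ PP (II M κ) (EE M κ) J) (hp' : p' ∈ PP (II M κ) (EE M κ) J) (h : RC σ ρ p p')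
    (h1 : ∀ ζ ∈ sC p, ζ ∈ sC p' → σ ζ ζ)
    (h2 : ∀ i ∈ II M κ, sI i ⊆ sC p → sI i ⊆ sC p' → ρ i i) :
    p ∪ p' ∈ PP (II M κ) (EE M κ) J ∧ Leq (p ∪ p') p := by
  obtain ⟨f1, v1⟩ := mem_PP.1 hp
  obtain ⟨f2, v2⟩ := mem_PP.1 hp'
  refine ⟨mem_PP.2 ⟨f1.union f2, val_iff.2 ⟨fun a ha => (mem_union.1 ha).elim
    ((val_iff.1 v1).1 a) ((val_iff.1 v2).1 a), fun i T hT => ?_⟩⟩,
    fun _ k => mem_union.2 (Or.inl k), fun ζ s t k1 k2 i j k3 => absurd ?_ k2⟩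
  · by_cases k : ∃ S, tA i S ∈ p
    · obtain ⟨S, hS⟩ := k
      obtain ⟨hi, -, T', k1, k2⟩ := v1.tA hS
      refine ⟨T', mem_union.2 (Or.inl k1), fun T'' k3 => k2 _ ((mem_union.1 k3).elim id fun k4 => ?_)⟩
      exact (h.mem hσ hρ (Or.inl ⟨i, i, T'', rfl, rfl, h2 i hi (by simpa using sA_sub hS)
        (by simpa using sA_sub k4)⟩)).2 k4
    · obtain ⟨-, -, T', k1, k2⟩ := v2.tA ((mem_union.1 hT).resolve_left fun k' => k ⟨_, k'⟩)
      exact ⟨T', mem_union.2 (Or.inr k1), fun T'' k3 =>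
        k2 _ ((mem_union.1 k3).resolve_left fun k' => k ⟨_, k'⟩)⟩
  · have k4 := (mem_union.1 k1).resolve_left k2
    exact (h.mem hσ hρ (Or.inr (Or.inl ⟨ζ, ζ, s, t, rfl, rfl,
      h1 ζ (sA_sub k3 (by simp)) (sA_sub k4 (by simp))⟩))).2 k4

variable [hM : TModel M]

theorem sI_spec {i : ZF} (hi : i ∈ II M κ) : sI i ⊆ κ ∧ Le M (sI i) om := by
  obtain ⟨⟨h1, h2⟩, h3⟩ := mem_II.1 hi
  have := In.mk' h2
  refine ⟨fun x hx => ?_, inf_omega.union (In.mem _) (In.mem _)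
    (inf_omega.img _ inferInstance h2 h3) (inf_omega.img _ inferInstance h2 h3)⟩
  rcases mem_union.1 hx with k | k <;> obtain ⟨b, hb, rfl⟩ := mem_img.1 k <;>
    obtain ⟨ζ, -, γ, -, rfl⟩ := mem_BB (h1 hb)
  · simpa using (pair_mem_BB.1 (h1 hb)).1
  · simpa using (pair_mem_BB.1 (h1 hb)).2.1

theorem sC_spec (hκ : κ ∈ M) (hJ : J ∈ M) {p : ZF} (hp : p ∈ PP (II M κ) (EE M κ) J) :
    sC p ⊆ κ ∧ Le M (sC p) om := by
  have := In.mk' hκ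
  have := In.mk' hJ
  have hp' : p ∈ M := tr (In.mem _) hp
  have key : ∀ a ∈ p, sA a ⊆ κ ∧ Le M (sA a) om := fun a ha => by
    rcases at_of hp ha with ⟨i, hi, T, -, rfl⟩ | ⟨ζ, hζ, s, -, t, -, rfl⟩ | ⟨ζ, hζ, i, hi, j, hj, rfl⟩
    · simpa using sI_spec hi
    · rw [sA_nd]
      exact ⟨fun x hx => mem_singleton.1 hx ▸ hζ, inf_omega.singleton (tr hκ hζ)⟩
    · rw [sA_pr]
      have := In.mk' (mem_II.1 hi).1.2
      have := In.mk' (mem_II.1 hj).1.2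
      refine ⟨fun x hx => ?_, inf_omega.insert (tr hκ hζ) (In.mem _)
        (inf_omega.union (In.mem _) (In.mem _) (sI_spec hi).2 (sI_spec hj).2)⟩
      rcases mem_insert_iff.1 hx with rfl | hx
      exacts [hζ, (mem_union.1 hx).elim (fun k => (sI_spec hi).1 k) fun k => (sI_spec hj).1 k]
  exact ⟨fun x hx => by
    obtain ⟨a, ha, hx⟩ := mem_bun.1 hx
    exact (key a ha).1 hx, inf_omega.bun _ inferInstance hp' ((mem_PP.1 hp).1.le hp' inf_omega)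
      fun a ha => (key a ha).2⟩

/-- the pigeonhole argument -/
theorem pigeon {κ1 R : ZF} (h1 : Hart M om κ1) (hR : Inf M R) (h2 : Le M κ1 R) (hκ : Hart M R κ)
    (O : ZF → ZF) (hO : Tm M (fun v => O (v 0))) (hO' : ∀ ξ ∈ κ, O ξ ⊆ κ ∧ Le M (O ξ) om)
    (cl : ZF → ZF → ZF) (hcl : Tm M (fun v => cl (v 0) (v 1)))
    (hW : ∀ γ ∈ κ, ∃ W ∈ M, Le M W R ∧ ∀ ξ ∈ κ, cl γ ξ ∈ W) {γ0 : ZF} (h0 : γ0 ∈ κ) :
    ∃ γ ∈ κ, γ0 ⊆ γ ∧ ∃ ξ ∈ κ, ∃ η ∈ κ, ξ ≠ η ∧ cl γ ξ = cl γ η ∧ ∀ x ∈ O ξ, x ∈ O η → x ∈ γ := by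
  have := fun s [Tm M s] => hO.one s
  have := fun s t [Tm M s] [Tm M t] => hcl.two s t
  have := In.mk' hκ.mem
  have := In.mk' h1.mem
  have := In.mk' (tr hκ.mem h0)
  let Rep : ZF → ZF := fun γ => ZFSet.sep (fun ξ => ∀ η ∈ ξ, cl γ η ≠ cl γ ξ) κ
  have hRep : Tm M (fun v => Rep (v 0)) := inferInstance
  have := fun s [Tm M s] => hRep.one s
  have r1 : ∀ γ ∈ κ, Le M (Rep γ) R := fun γ hγ => by
    obtain ⟨W, hW, k1, k2⟩ := hW γ hγ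
    have := In.mk' (tr hκ.mem hγ)
    refine ((cardLE_of_fun (cl γ) inferInstance (In.mem _) (fun ξ hξ => k2 ξ (mem_sep.1 hξ).1)
      fun x hx y hy e => ?_).le (In.mem _) hW).trans k1 hR.mem
    rcases (hκ.ord.mem (mem_sep.1 hx).1).mem_trichotomous (hκ.ord.mem (mem_sep.1 hy).1) with
      k | k | k
    exacts [absurd e ((mem_sep.1 hy).2 x k), k, absurd e.symm ((mem_sep.1 hx).2 y k)]
  have r2 : ∀ γ, ∀ ξ ∈ κ, ∃ η ∈ Rep γ, cl γ η = cl γ ξ := fun γ ξ hξ => by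
    obtain ⟨η, ⟨k1, k2⟩, k3⟩ := exists_min (P := fun η => η ∈ κ ∧ cl γ η = cl γ ξ) ⟨ξ, hξ, rfl⟩
    exact ⟨η, mem_sep.2 ⟨k1, fun y hy e => k3 y hy ⟨hκ.ord.mem_trans hy k1, e.trans k2⟩⟩, k2⟩
  obtain ⟨s, hs, s1, s2⟩ := tdc (M := M) (fun g y => γ0 ⊆ y ∧
    ∀ z ∈ g, snd z ⊆ y ∧ bun O (Rep (snd z)) ⊆ y) inferInstance h1.ord h1.mem hκ.mem
    fun ν hν g hg k1 _ => by
      have := In.mk' hg
      have := In.mk' (tr h1.mem hν)
      have k2 : ∀ z ∈ g, snd z ∈ κ := fun z hz => by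
        obtain ⟨x, -, y, hy, rfl⟩ := k1.exists_pair hz
        simpa using hy
      have k3 : Le M g R := (Le.of_fun (fun x => pair x (app g x)) inferInstance (In.mem ν)
        fun z hz => by
          obtain ⟨x, hx, y, -, rfl⟩ := k1.exists_pair hz
          exact ⟨x, hx, by rw [k1.app_eq hz]⟩).trans ((h1.le ν hν).trans hR.omLe hR.mem) hR.mem
      obtain ⟨y, hy, k4⟩ := hκ.bdd hR (c := γ0 ∪ bun (fun z => snd z ∪ bun O (Rep (snd z))) g)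
        (In.mem _) (fun x hx => by
          rcases mem_union.1 hx with hx | hx
          · exact hκ.ord.mem_trans hx h0
          · obtain ⟨z, hz, hx⟩ := mem_bun.1 hx
            rcases mem_union.1 hx with hx | hx
            · exact hκ.ord.mem_trans hx (k2 z hz)
            · obtain ⟨ξ, hξ, hx⟩ := mem_bun.1 hx
              exact (hO' ξ (mem_sep.1 hξ).1).1 hx)
        (hR.union (In.mem _) (In.mem _) (hκ.le _ h0) (hR.bun _ inferInstance hg k3 fun z hz => by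
          have := In.mk' (tr hg hz)
          exact hR.union (In.mem _) (In.mem _) (hκ.le _ (k2 z hz)) (hR.bun O hO (In.mem _)
            (r1 _ (k2 z hz)) fun ξ hξ => (hO' ξ (mem_sep.1 hξ).1).2.trans hR.omLe hR.mem)))
      exact ⟨y, hy, fun x hx => k4 (mem_union.2 (Or.inl hx)), fun z hz =>
        ⟨fun x hx => k4 (mem_union.2 (Or.inr (mem_bun.2 ⟨z, hz, mem_union.2 (Or.inl hx)⟩))),
          fun x hx => k4 (mem_union.2 (Or.inr (mem_bun.2 ⟨z, hz, mem_union.2 (Or.inr hx)⟩)))⟩⟩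
  have := In.mk' hs
  have s3 : ∀ ν ∈ κ1, ∀ μ ∈ ν, app s μ ⊆ app s ν ∧ bun O (Rep (app s μ)) ⊆ app s ν :=
    fun ν hν μ hμ => by
      simpa using (s2 ν hν).2 (pair μ (app s μ))
        (mem_res.2 ⟨s1.app_mem (h1.ord.mem_trans hμ hν), by simpa using hμ⟩)
  obtain ⟨ξ, hξ, k1⟩ := hκ.exists_notMem (hR.bun (fun ν => Rep (app s ν)) inferInstance h1.mem h2
    fun ν hν => r1 _ (s1.app_mem' hν))
  have := In.mk' (tr hκ.mem hξ)
  obtain ⟨ν, hν, k2⟩ := h1.bdd_wit inf_omega (fun x μ => x ∈ app s μ) inferInstance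
    (c := ZFSet.sep (fun x => ∃ μ ∈ κ1, x ∈ app s μ) (O ξ)) (In.mem _)
    ((hO' ξ hξ).2.mono sep_subset) fun x hx => (mem_sep.1 hx).2
  obtain ⟨η, hη, k3⟩ := r2 (app s ν) ξ hξ
  refine ⟨_, s1.app_mem' hν, (s2 ν hν).1, ξ, hξ, η, (mem_sep.1 hη).1,
    fun e => k1 (mem_bun.2 ⟨ν, hν, e ▸ hη⟩), k3.symm, fun x hx hx' => ?_⟩
  have k4 := h1.succ inf_omega hν
  obtain ⟨μ, hμ, k5⟩ := k2 x (mem_sep.2 ⟨hx, _, k4,
    (s3 _ k4 ν (mem_insert _ _)).2 (mem_bun.2 ⟨η, hη, hx'⟩)⟩)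
  exact (s3 ν hν μ hμ).1 k5

end Pool.Agent.P.MP_9a7e1f_lc.PigP
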