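import Pool.Agent.P.MP_9a7e1f_lc.St1

/-! The forcing notion: finite products of tree forcing, with reals coding relations. -/

set_option linter.unusedSectionVars false

namespace Pool.Agent.P.MP_9a7e1f_lc

open ZFSet Pool.Agent.P.MP_3ab3de_lc

/-- the real with index `i` is a branch of `T` -/
noncomputable def tA (i T : ZF) : ZF := pair ∅ (pair i T)

/-- an atom that is not a tree atom -/
noncomputable def nA (e : ZF) : ZF := pair (num 1) e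

/-- the pair of nodes `(s, t)` is in the code number `ζ` -/
noncomputable def ndE (ζ s t : ZF) : ZF := pair ∅ (pair ζ (pair s t))

/-- no further pair of nodes of code `ζ` lies on the reals `i`, `j` -/
noncomputable def prE (ζ i j : ZF) : ZF := pair (num 1) (pair ζ (pair i j))

theorem num_one_ne : num 1 ≠ ∅ := fun h => absurd (num_inj.1 (show num 1 = num 0 from h)) (by simp)

@[simp] theorem tA_inj {i T i' T' : ZF} : tA i T = tA i' T' ↔ i = i' ∧ T = T' := by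
  simp [tA, pair_inj]

@[simp] theorem nA_inj {e e' : ZF} : nA e = nA e' ↔ e = e' := by simp [nA, pair_inj]

@[simp] theorem ndE_inj {a b c a' b' c' : ZF} : ndE a b c = ndE a' b' c' ↔ a = a' ∧ b = b' ∧ c = c' := by
  simp [ndE, pair_inj]

@[simp] theorem prE_inj {a b c a' b' c' : ZF} : prE a b c = prE a' b' c' ↔ a = a' ∧ b = b' ∧ c = c' := by
  simp [prE, pair_inj]

@[simp] theorem tA_ne_nA {i T e : ZF} : tA i T ≠ nA e := fun h => num_one_ne (pair_inj.1 h).1.symm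

@[simp] theorem nA_ne_tA {i T e : ZF} : nA e ≠ tA i T := fun h => num_one_ne (pair_inj.1 h).1

@[simp] theorem ndE_ne_prE {a b c a' b' c' : ZF} : ndE a b c ≠ prE a' b' c' :=
  fun h => num_one_ne (pair_inj.1 h).1.symm

@[simp] theorem prE_ne_ndE {a b c a' b' c' : ZF} : prE a b c ≠ ndE a' b' c' :=
  fun h => num_one_ne (pair_inj.1 h).1

/-- `p` is a set of atoms with a least tree at each index -/
def Val (I E J p : ZF) : Prop := ∀ a ∈ p,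
  (∃ i ∈ I, ∃ T ∈ J, a = tA i T ∧ ∃ T', tA i T' ∈ p ∧ ∀ T'', tA i T'' ∈ p → T' ⊆ T'') ∨
    ∃ e ∈ E, a = nA e

/-- `q` extends `p` -/
def Leq (q p : ZF) : Prop := p ⊆ q ∧ ∀ ζ s t, nA (ndE ζ s t) ∈ q → nA (ndE ζ s t) ∉ p →
  ∀ i j, nA (prE ζ i j) ∈ p → ∃ T, (tA i T ∈ q ∧ s ∉ T) ∨ (tA j T ∈ q ∧ t ∉ T)

def Hit (c V W r : ZF) : Prop :=
  (∃ d σ, pair d σ ∈ c ∧ σ ∉ V ∧ Leq r d) ∨ ∃ T ∈ W, ∃ i, tA i T ∈ r

/-- the conditions that hit are dense -/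
def Pre (K : ZF → Prop) (I E J c V W : ZF) : Prop :=
  ∀ p, K p → Val I E J p → ∃ r, K r ∧ Val I E J r ∧ Leq r p ∧ Hit c V W r

/-- `c` names a real different from the generic reals -/
def Hyp (K : ZF → Prop) (I E J c : ZF) : Prop :=
  (∀ d σ, pair d σ ∈ c → K σ ∧ Sq σ) ∧
  (∀ p, K p → Val I E J p → ∀ i ∈ I, ∃ r, K r ∧ Val I E J r ∧ Leq r p ∧
    ∃ d σ, pair d σ ∈ c ∧ Leq r d ∧ ∃ T, tA i T ∈ r ∧ σ ∉ T) ∧
  (∀ p, K p → Val I E J p → ∀ T ∈ J, ∃ r, K r ∧ Val I E J r ∧ Leq r p ∧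
    ∃ d σ, pair d σ ∈ c ∧ Leq r d ∧ ∃ T' ∈ J, T' ⊆ T ∧ σ ∉ T') ∧
  ∀ r, K r → Val I E J r → ∀ d σ d' σ', pair d σ ∈ c → pair d' σ' ∈ c → Leq r d → Leq r d' →
    σ ⊆ σ' ∨ σ' ⊆ σ

/-- the members of `U` are trees of nodes -/
def T1 (K : ZF → Prop) (U : ZF) : Prop :=
  ∀ T ∈ U, ∀ t ∈ T, (K t ∧ Sq t) ∧ ∀ s, K s → Sq s → s ⊆ t → s ∈ T

/-- every node of `T` is comparable with `s` -/
def Stem (s T : ZF) : Prop := ∀ t ∈ T, t ⊆ s ∨ s ⊆ t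

/-- the members of `U` split inside `U` -/
def T2 (U : ZF) : Prop := ∀ T ∈ U, ∃ T0 ∈ U, ∃ T1 ∈ U, ∃ s0 ∈ T0, ∃ s1 ∈ T1,
  T0 ⊆ T ∧ T1 ⊆ T ∧ Stem s0 T0 ∧ Stem s1 T1 ∧ ¬ s0 ⊆ s1 ∧ ¬ s1 ⊆ s0

/-- `x` is a branch of `T` -/
def Br (x T : ZF) : Prop := ∀ a ∈ x, ∃ s ∈ T, s ⊆ x ∧ a ∈ s

/-- `U` is generic over `w` for the step from `J` to `J' = J ∪ U` -/
def GenU (K : ZF → Prop) (U J J' w : ZF) : Prop :=
  (∃ T, T ∈ U) ∧ T1 K U ∧ T2 U ∧ (∀ T ∈ J, ∃ V ∈ U, V ⊆ T) ∧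
  ((∃ T, T ∈ J) → ∀ I ∈ w, ∀ E ∈ w, ∀ c ∈ w, ∀ W ∈ w,
    (∀ V ∈ w, Pre K I E J c V W → Pre K I E J' c V W) ∧
      (Hyp K I E J c → ∀ V ∈ U, Pre K I E J' c V W))

/-- finite, as seen in `u` -/
def KB (u p : ZF) : Prop := p ∈ u ∧ ∃ n ∈ u, IsNat n ∧ ∃ f ∈ u,
  (∀ k a b, pair k a ∈ f → pair k b ∈ f → a = b) ∧ ∀ a ∈ p, ∃ k ∈ n, pair k a ∈ f

/-! ### absoluteness -/

instance void_kb {j : ℕ} : Void0 (fun v x => KB (v j) x) :=
  ⟨fun _ hw _ hv _ H => hw _ (hv j) _ H.1⟩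

instance d0_kb {a b : ℕ} : D0 (fun v => KB (v a) (v b)) := by unfold KB; infer_instance

set_option synthInstance.maxSize 2048 in
instance d0_val {a b c d : ℕ} : D0 (fun v => Val (v a) (v b) (v c) (v d)) := by
  unfold Val tA nA; infer_instance

set_option synthInstance.maxSize 4096 in
instance d0_leq {a b : ℕ} : D0 (fun v => Leq (v a) (v b)) := by
  unfold Leq tA nA ndE prE; infer_instance

set_option synthInstance.maxSize 2048 in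
instance d0_hit {a b c d : ℕ} : D0 (fun v => Hit (v a) (v b) (v c) (v d)) := by
  unfold Hit tA; infer_instance

instance d0_pre {u a b c d e f : ℕ} :
    D0 (fun v => Pre (KB (v u)) (v a) (v b) (v c) (v d) (v e) (v f)) := by
  unfold Pre; infer_instance

set_option synthInstance.maxSize 4096 in
instance d0_hyp {u a b c d : ℕ} : D0 (fun v => Hyp (KB (v u)) (v a) (v b) (v c) (v d)) := by
  unfold Hyp tA; infer_instance

instance d0_t1 {u a : ℕ} : D0 (fun v => T1 (KB (v u)) (v a)) := by unfold T1; infer_instance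

instance d0_stem {a b : ℕ} : D0 (fun v => Stem (v a) (v b)) := by unfold Stem; infer_instance

set_option synthInstance.maxSize 2048 in
instance d0_t2 {a : ℕ} : D0 (fun v => T2 (v a)) := by unfold T2; infer_instance

instance d0_br {a b : ℕ} : D0 (fun v => Br (v a) (v b)) := by unfold Br; infer_instance

set_option synthInstance.maxSize 2048 in
instance d0_genU {u a b c d : ℕ} : D0 (fun v => GenU (KB (v u)) (v a) (v b) (v c) (v d)) := by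
  unfold GenU; infer_instance

theorem KB.fn {u p : ZF} (h : KB u p) : Fn p := by
  obtain ⟨-, n, -, h1, f, -, h2, h3⟩ := h
  obtain ⟨n, rfl⟩ := mem_omega.1 (isNat_iff.1 h1)
  refine ((fn_num n).img (app f)).subset fun a ha => ?_
  obtain ⟨k, hk, h4⟩ := h3 a ha
  exact mem_img.2 ⟨k, hk, app_eq h4 fun z hz => h2 k z a hz h4⟩

theorem kb_iff {u p : ZF} (hu : Clo u) : KB u p ↔ Fn p ∧ p ⊆ u := by
  refine ⟨fun h => ⟨h.fn, hu.1 p h.1⟩, fun h => ⟨hu.2.fin h.1 h.2, ?_⟩⟩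
  obtain ⟨n, f, h1, h2, h3⟩ := h.1.enum
  refine ⟨_, hu.2.num n, isNat_iff.2 (num_mem_omega n), f, hu.2.fin h1 fun z hz => ?_,
    fun k a b ha hb => h2.uniq ha hb, h3⟩
  obtain ⟨k, hk, y, hy, rfl⟩ := h2.exists_pair hz
  exact hu.2.pair (hu.1 _ (hu.2.num n) hk) (h.2 hy)

theorem Ins.tA {u i T : ZF} (h : Ins u) (hi : i ∈ u) (hT : T ∈ u) : tA i T ∈ u :=
  h.pair h.1 (h.pair hi hT)

theorem Ins.nA {u e : ZF} (h : Ins u) (he : e ∈ u) : nA e ∈ u := h.pair (h.num 1) he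

theorem Val.subset {u I E J p : ZF} (h : Val I E J p) (hu : Ins u) (hI : I ⊆ u) (hE : E ⊆ u)
    (hJ : J ⊆ u) : p ⊆ u := fun a ha => by
  rcases h a ha with ⟨i, hi, T, hT, rfl, -⟩ | ⟨e, he, rfl⟩
  exacts [hu.tA (hI hi) (hJ hT), hu.nA (hE he)]

theorem Sq.subset_of_ins {u s : ZF} (h : Sq s) (hu : Ins u) : s ⊆ u := fun a ha => by
  obtain ⟨k, hk, j, hj, rfl⟩ := mem_prod.1 (h.subset ha)
  exact hu.pair (hu.om hk) (hu.om hj)

section bnd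

variable {u I E J c V W : ZF} (hu : Clo u)
include hu

theorem kb_sq {s : ZF} : KB u s ∧ Sq s ↔ Fn s ∧ Sq s :=
  ⟨fun h => ⟨h.1.fn, h.2⟩, fun h => ⟨(kb_iff hu).2 ⟨h.1, h.2.subset_of_ins hu.2⟩, h.2⟩⟩

theorem t1_bnd : T1 (KB u) J ↔ T1 Fn J := by
  unfold T1
  refine forall₂_congr fun T _ => forall₂_congr fun t _ => and_congr (kb_sq hu)
    (forall_congr' fun s => ?_)
  rw [← and_imp, ← and_imp (a := Fn s), kb_sq hu]

variable (hI : I ⊆ u) (hE : E ⊆ u) (hJ : J ⊆ u)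
include hI hE hJ

theorem kb_val {p : ZF} : KB u p ∧ Val I E J p ↔ Fn p ∧ Val I E J p :=
  ⟨fun h => ⟨h.1.fn, h.2⟩, fun h => ⟨(kb_iff hu).2 ⟨h.1, h.2.subset hu.2 hI hE hJ⟩, h.2⟩⟩

theorem pre_bnd : Pre (KB u) I E J c V W ↔ Pre Fn I E J c V W := by
  unfold Pre
  simp only [← and_imp, ← and_assoc, kb_val hu hI hE hJ]

theorem hyp_bnd : Hyp (KB u) I E J c ↔ Hyp Fn I E J c := by
  unfold Hyp
  have e : ∀ (Q : ZF → Prop), (∃ r, KB u r ∧ Val I E J r ∧ Q r) ↔ ∃ r, Fn r ∧ Val I E J r ∧ Q r :=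
    fun Q => exists_congr fun r => by rw [← and_assoc, ← and_assoc, kb_val hu hI hE hJ]
  have e' : ∀ (Q : ZF → Prop), (∀ r, KB u r → Val I E J r → Q r) ↔ ∀ r, Fn r → Val I E J r → Q r :=
    fun Q => forall_congr' fun r => by rw [← and_imp, ← and_imp, kb_val hu hI hE hJ]
  simp only [e, e', kb_sq hu]

end bnd

theorem genU_bnd {u U J J' w : ZF} (hu : Clo u) (hJ : J ⊆ u) (hJ' : J' ⊆ u) (hw : w ⊆ u) :
    GenU (KB u) U J J' w ↔ GenU Fn U J J' w := by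
  unfold GenU
  rw [t1_bnd hu]
  refine and_congr_right fun _ => and_congr_right fun _ => and_congr_right fun _ =>
    and_congr_right fun _ => imp_congr_right fun _ => forall₂_congr fun I hI =>
      forall₂_congr fun E hE => forall₂_congr fun c _ => forall₂_congr fun W _ => ?_
  have h1 := hu.1 _ (hw hI)
  have h2 := hu.1 _ (hw hE)
  simp only [pre_bnd hu h1 h2 hJ, pre_bnd hu h1 h2 hJ', hyp_bnd hu h1 h2 hJ]

/-! ### the order -/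

theorem Leq.refl (p : ZF) : Leq p p := ⟨fun _ h => h, fun _ _ _ h h' => absurd h h'⟩

theorem Leq.trans {r q p : ZF} (h : Leq r q) (h' : Leq q p) : Leq r p := by
  refine ⟨fun _ hx => h.1 (h'.1 hx), fun ζ s t h1 h2 i j h3 => ?_⟩
  by_cases h4 : nA (ndE ζ s t) ∈ q
  · exact (h'.2 ζ s t h4 h2 i j h3).imp fun T hT =>
      hT.imp (fun h5 => ⟨h.1 h5.1, h5.2⟩) fun h5 => ⟨h.1 h5.1, h5.2⟩
  · exact h.2 ζ s t h1 h4 i j (h'.1 h3)

/-- no new node -/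
theorem Leq.of_subset {q p : ZF} (h : p ⊆ q)
    (h' : ∀ ζ s t, nA (ndE ζ s t) ∈ q → nA (ndE ζ s t) ∈ p) : Leq q p :=
  ⟨h, fun ζ s t h1 h2 => absurd (h' ζ s t h1) h2⟩

theorem Hit.mono {c V W r r' : ZF} (h : Hit c V W r) (h' : Leq r' r) : Hit c V W r' :=
  h.imp (fun ⟨d, σ, h1, h2, h3⟩ => ⟨d, σ, h1, h2, h'.trans h3⟩)
    fun ⟨T, h1, i, h2⟩ => ⟨T, h1, i, h'.1 h2⟩

theorem Val.mono {I E J I' E' J' p : ZF} (h : Val I E J p) (hI : I ⊆ I') (hE : E ⊆ E')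
    (hJ : J ⊆ J') : Val I' E' J' p := fun a ha =>
  (h a ha).imp (fun ⟨i, h1, T, h2, h3⟩ => ⟨i, hI h1, T, hJ h2, h3⟩) fun ⟨e, h1, h2⟩ => ⟨e, hE h1, h2⟩

theorem Val.tA {I E J p i T : ZF} (h : Val I E J p) (ha : tA i T ∈ p) :
    i ∈ I ∧ T ∈ J ∧ ∃ T', tA i T' ∈ p ∧ ∀ T'', tA i T'' ∈ p → T' ⊆ T'' := by
  rcases h _ ha with ⟨i', h1, T', h2, e, h3⟩ | ⟨e, -, e'⟩
  · obtain ⟨rfl, rfl⟩ := tA_inj.1 e
    exact ⟨h1, h2, h3⟩
  · exact absurd e' tA_ne_nA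

theorem Val.nA {I E J p e : ZF} (h : Val I E J p) (ha : nA e ∈ p) : e ∈ E := by
  rcases h _ ha with ⟨i', -, T', -, e, -⟩ | ⟨e, h1, e'⟩
  exacts [absurd e nA_ne_tA, nA_inj.1 e' ▸ h1]

theorem Val.cases {I E J p a : ZF} (h : Val I E J p) (ha : a ∈ p) :
    (∃ i T, a = MP_9a7e1f_lc.tA i T) ∨ ∃ e, a = MP_9a7e1f_lc.nA e :=
  (h a ha).imp (fun ⟨i, _, T, _, h3, _⟩ => ⟨i, T, h3⟩) fun ⟨e, _, h2⟩ => ⟨e, h2⟩

theorem val_iff {I E J p : ZF} : Val I E J p ↔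
    (∀ a ∈ p, (∃ i ∈ I, ∃ T ∈ J, a = tA i T) ∨ ∃ e ∈ E, a = nA e) ∧
      ∀ i T, tA i T ∈ p → ∃ T', tA i T' ∈ p ∧ ∀ T'', tA i T'' ∈ p → T' ⊆ T'' := by
  refine ⟨fun h => ⟨fun a ha => (h a ha).imp (fun ⟨i, h1, T, h2, h3, _⟩ => ⟨i, h1, T, h2, h3⟩) id,
    fun i T ha => (h.tA ha).2.2⟩, fun h a ha => (h.1 a ha).imp ?_ id⟩
  rintro ⟨i, h1, T, h2, rfl⟩
  exact ⟨i, h1, T, h2, rfl, h.2 i T ha⟩

theorem val_empty (I E J : ZF) : Val I E J ∅ := fun _ h => absurd h (notMem_empty _)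

/-- adding a smaller tree -/
theorem Val.add_tA {I E J p i T : ZF} (h : Val I E J p) (hi : i ∈ I) (hT : T ∈ J)
    (h' : ∀ T', MP_9a7e1f_lc.tA i T' ∈ p → T ⊆ T') : Val I E J (insert (MP_9a7e1f_lc.tA i T) p) := by
  rw [val_iff] at h ⊢
  refine ⟨fun a ha => ?_, fun j S hS => ?_⟩
  · rcases mem_insert_iff.1 ha with rfl | ha
    exacts [Or.inl ⟨i, hi, T, hT, rfl⟩, h.1 a ha]
  · by_cases e : j = i
    · subst e
      refine ⟨T, mem_insert _ _, fun T'' h1 => ?_⟩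
      rcases mem_insert_iff.1 h1 with e | h1
      exacts [(tA_inj.1 e).2 ▸ fun _ h => h, h' _ h1]
    · obtain ⟨T', h1, h2⟩ := h.2 j S ((mem_insert_iff.1 hS).resolve_left fun h => e (tA_inj.1 h).1)
      exact ⟨T', mem_insert_of_mem _ h1, fun T'' h3 =>
        h2 _ ((mem_insert_iff.1 h3).resolve_left fun h => e (tA_inj.1 h).1)⟩

theorem Val.add_nA {I E J p e : ZF} (h : Val I E J p) (he : e ∈ E) :
    Val I E J (insert (MP_9a7e1f_lc.nA e) p) := by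
  rw [val_iff] at h ⊢
  refine ⟨fun a ha => ?_, fun j S hS => ?_⟩
  · rcases mem_insert_iff.1 ha with rfl | ha
    exacts [Or.inr ⟨e, he, rfl⟩, h.1 a ha]
  · simpa using h.2 j S (by simpa using hS)

theorem leq_add_tA (p i T : ZF) : Leq (insert (tA i T) p) p :=
  Leq.of_subset (fun _ h => mem_insert_of_mem _ h) fun _ _ _ h => by simpa using h

/-- a tree below all the trees of `p` at `i` -/
theorem Val.low {I E J p : ZF} (h : Val I E J p) (hJ : ∃ T, T ∈ J) (i : ZF) :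
    ∃ T ∈ J, ∀ T', MP_9a7e1f_lc.tA i T' ∈ p → T ⊆ T' := by
  by_cases h1 : ∃ T, MP_9a7e1f_lc.tA i T ∈ p
  · obtain ⟨T, hT⟩ := h1
    obtain ⟨T', h2, h3⟩ := (h.tA hT).2.2
    exact ⟨T', (h.tA h2).2.1, h3⟩
  · exact hJ.imp fun T hT => ⟨hT, fun T' h2 => absurd ⟨T', h2⟩ h1⟩

/-! ### trees -/

section trees

variable {J : ZF} (h1 : T1 Fn J) (h2 : T2 J)
include h1

theorem T1.nds {T t : ZF} (hT : T ∈ J) (ht : t ∈ T) : t ∈ Nds := mem_Nds.2 (h1 T hT t ht).1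

theorem T1.down {T t s : ZF} (hT : T ∈ J) (ht : t ∈ T) (hs : Sq s) (h : s ⊆ t) : s ∈ T :=
  (h1 T hT t ht).2 s ((h1 T hT t ht).1.1.subset h) hs h

include h2

/-- a tree of the family has a node properly above a stem -/
theorem stem_lt {T s : ZF} (hT : T ∈ J) (hs : Sq s) (h : Stem s T) :
    ∃ T' ∈ J, ∃ s' ∈ T', T' ⊆ T ∧ Stem s' T' ∧ s ⊆ s' ∧ ¬ s' ⊆ s := by
  obtain ⟨T0, hT0, T1, hT1, s0, h0, s1, h1', h3, h4, h5, -, h7, h8⟩ := h2 T hT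
  have k : ¬ s0 ⊆ s := fun k => by
    rcases h s1 (h4 h1') with k' | k'
    · exact ((h1 T0 hT0 s0 h0).1.2.comp (h1 T1 hT1 s1 h1').1.2 hs k k').elim h7 h8
    · exact h7 fun _ hx => k' (k hx)
  exact ⟨T0, hT0, s0, h0, h3, h5, (h s0 (h3 h0)).resolve_left k, k⟩

theorem stem_mem {T s : ZF} (hT : T ∈ J) (hs : Sq s) (h : Stem s T) : s ∈ T := by
  obtain ⟨T', hT', s', h3, h4, -, h5, -⟩ := stem_lt h1 h2 hT hs h
  exact h4 (h1.down hT' h3 hs h5)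

/-- subtrees with long stems -/
theorem stem_long {T : ZF} (hT : T ∈ J) (n : ℕ) :
    ∃ T' ∈ J, ∃ s ∈ T', T' ⊆ T ∧ Stem s T' ∧ ∀ k ∈ num n, ∃ j, pair k j ∈ s := by
  induction n with
  | zero =>
    obtain ⟨T0, hT0, -, -, s0, h0, -, -, h3, -, h5, -⟩ := h2 T hT
    exact ⟨T0, hT0, s0, h0, h3, h5, fun _ h => absurd h (notMem_empty _)⟩
  | succ n ih =>
    obtain ⟨T', hT', s, h3, h4, h5, h6⟩ := ih
    have hs := (h1 T' hT' s h3).1.2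
    obtain ⟨T'', hT'', s', k1, k2, k3, k4, k5⟩ := stem_lt h1 h2 hT' hs h5
    have hs' := (h1 T'' hT'' s' k1).1.2
    refine ⟨T'', hT'', s', k1, fun _ h => h4 (k2 h), k3, fun k hk => ?_⟩
    rcases mem_insert_iff.1 hk with rfl | hk
    · simp only [subset_def, not_forall] at k5
      obtain ⟨a, ha, ha'⟩ := k5
      obtain ⟨m, j, rfl, hm, -⟩ := hs' a ha
      rcases hm.1.mem_trichotomous (isOrdinal_omega.mem (num_mem_omega n)) with h | rfl | h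
      · obtain ⟨j', hj'⟩ := h6 m h
        exact absurd (hs'.uniq (k4 hj') ha ▸ hj') ha'
      exacts [⟨j, ha⟩, hs'.down ha h]
    · exact (h6 k hk).imp fun _ h => k4 h

/-- two trees have subtrees with incompatible stems -/
theorem sep_two {S T : ZF} (hS : S ∈ J) (hT : T ∈ J) : ∃ S' ∈ J, ∃ T' ∈ J, ∃ s ∈ S',
    S' ⊆ S ∧ T' ⊆ T ∧ Stem s S' ∧ s ∉ T' := by
  obtain ⟨T0, hT0, T1, hT1, s0, h0, s1, h1', h3, h4, h5, h6, h7, h8⟩ := h2 T hT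
  obtain ⟨n0, hn0⟩ := nds_iff.1 (h1.nds hT0 h0)
  obtain ⟨n1, hn1⟩ := nds_iff.1 (h1.nds hT1 h1')
  obtain ⟨S', hS', s, k1, k2, k3, k4⟩ := stem_long h1 h2 hS (n0 + n1 + 1)
  have key : ∀ n t, IsFunc (num n) om t → n < n0 + n1 + 1 → ¬ s ⊆ t := fun n t ht hn h => by
    obtain ⟨j, hj⟩ := k4 _ (num_mem_num.2 hn)
    exact mem_irrefl _ (ht.mem (h hj)).1
  by_cases h : s ∈ T0
  · refine ⟨S', hS', T1, hT1, s, k1, k2, h4, k3, fun h' => ?_⟩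
    exact ((h1 T0 hT0 s0 h0).1.2.comp (h1 T1 hT1 s1 h1').1.2 (h1 S' hS' s k1).1.2
      ((h5 s h).resolve_left (key n0 s0 hn0 (by omega)))
      ((h6 s h').resolve_left (key n1 s1 hn1 (by omega)))).elim h7 h8
  · exact ⟨S', hS', T0, hT0, s, k1, k2, h3, k3, h⟩

end trees

theorem T1.union {K : ZF → Prop} {J U : ZF} (h : T1 K J) (h' : T1 K U) : T1 K (J ∪ U) :=
  fun T hT => (mem_union.1 hT).elim (h T) (h' T)

theorem T2.bun {a : ZF} {F : ZF → ZF} (h : ∀ x ∈ a, T2 (F x)) : T2 (bun F a) := fun T hT => by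
  obtain ⟨x, hx, hT⟩ := mem_bun.1 hT
  obtain ⟨T0, h0, T1, h1, r⟩ := h x hx T hT
  exact ⟨T0, mem_bun.2 ⟨x, hx, h0⟩, T1, mem_bun.2 ⟨x, hx, h1⟩, r⟩

theorem T1.bun {K : ZF → Prop} {a : ZF} {F : ZF → ZF} (h : ∀ x ∈ a, T1 K (F x)) : T1 K (bun F a) :=
  fun T hT => by
    obtain ⟨x, hx, hT⟩ := mem_bun.1 hT
    exact h x hx T hT

/-! ### the conditions as a set -/

/-- the conditions -/
noncomputable def PP (I E J : ZF) : ZF :=
  ZFSet.sep (Val I E J) (fs (prod {∅} (prod I J) ∪ prod {num 1} E))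

/-- the order -/
noncomputable def LP (I E J : ZF) : ZF :=
  ZFSet.sep (fun z => Leq (fst z) (snd z)) (prod (PP I E J) (PP I E J))

theorem mem_PP {I E J p : ZF} : p ∈ PP I E J ↔ Fn p ∧ Val I E J p := by
  rw [PP, mem_sep, mem_fs]
  refine ⟨fun h => ⟨h.1.2, h.2⟩, fun h => ⟨⟨fun a ha => ?_, h.1⟩, h.2⟩⟩
  rcases h.2 a ha with ⟨i, hi, T, hT, rfl, -⟩ | ⟨e, he, rfl⟩
  · simp [tA, hi, hT]
  · simp [nA, he]

theorem mem_LP {I E J p q : ZF} : pair q p ∈ LP I E J ↔ q ∈ PP I E J ∧ p ∈ PP I E J ∧ Leq q p := by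
  simp [LP, and_assoc]

theorem po_PP (I E J : ZF) : PO (PP I E J) (LP I E J) :=
  ⟨fun _ _ h => ⟨(mem_LP.1 h).1, (mem_LP.1 h).2.1⟩, fun p hp => mem_LP.2 ⟨hp, hp, Leq.refl p⟩,
    fun _ _ _ h h' => mem_LP.2 ⟨(mem_LP.1 h).1, (mem_LP.1 h').2.1,
      (mem_LP.1 h).2.2.trans (mem_LP.1 h').2.2⟩⟩

section df

variable {M : Set ZF} [hM : TModel M] {a b c d : Env → ZF} [Tm M a] [Tm M b] [Tm M c] [Tm M d]

instance tm_tA : Tm M (fun v => tA (a v) (b v)) := by unfold tA; infer_instance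

instance tm_nA : Tm M (fun v => nA (a v)) := by unfold nA; infer_instance

instance tm_ndE : Tm M (fun v => ndE (a v) (b v) (c v)) := by unfold ndE; infer_instance

instance tm_prE : Tm M (fun v => prE (a v) (b v) (c v)) := by unfold prE; infer_instance

section occ

variable {x y z : Env → ZF → ZF}

instance occ_tA1 [Occ M x] : Occ M (fun v u => tA (x v u) (y v u)) := by unfold tA; infer_instance

instance occ_tA2 [Occ M y] : Occ M (fun v u => tA (x v u) (y v u)) := by unfold tA; infer_instance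

instance occ_nA [Occ M x] : Occ M (fun v u => nA (x v u)) := by unfold nA; infer_instance

instance occ_ndE1 [Occ M x] : Occ M (fun v u => ndE (x v u) (y v u) (z v u)) := by
  unfold ndE; infer_instance

instance occ_ndE2 [Occ M y] : Occ M (fun v u => ndE (x v u) (y v u) (z v u)) := by
  unfold ndE; infer_instance

instance occ_ndE3 [Occ M z] : Occ M (fun v u => ndE (x v u) (y v u) (z v u)) := by
  unfold ndE; infer_instance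

instance occ_prE1 [Occ M x] : Occ M (fun v u => prE (x v u) (y v u) (z v u)) := by
  unfold prE; infer_instance

instance occ_prE2 [Occ M y] : Occ M (fun v u => prE (x v u) (y v u) (z v u)) := by
  unfold prE; infer_instance

instance occ_prE3 [Occ M z] : Occ M (fun v u => prE (x v u) (y v u) (z v u)) := by
  unfold prE; infer_instance

end occ

set_option synthInstance.maxSize 1024 in
instance df_val : Df M (fun v => Val (a v) (b v) (c v) (d v)) := by unfold Val; infer_instance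

instance df_leq : Df M (fun v => Leq (a v) (b v)) :=
  Df.two ((d0_leq (a := 0) (b := 1)).df (trn_model M)) a b

instance df_hit : Df M (fun v => Hit (a v) (b v) (c v) (d v)) := by unfold Hit; infer_instance

instance df_stem : Df M (fun v => Stem (a v) (b v)) := by unfold Stem; infer_instance

instance df_br : Df M (fun v => Br (a v) (b v)) := by unfold Br; infer_instance

instance tm_PP : Tm M (fun v => PP (a v) (b v) (c v)) := by unfold PP; infer_instance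

instance tm_LP : Tm M (fun v => LP (a v) (b v) (c v)) := by unfold LP; infer_instance

end df

/-! ### relabelling of coordinates and indices -/

/-- one-to-one relations -/
def BiU (σ : ZF → ZF → Prop) : Prop := ∀ a a' b b', σ a a' → σ b b' → (a = b ↔ a' = b')

/-- related atoms -/
def RA (σ ρ : ZF → ZF → Prop) (a a' : ZF) : Prop :=
  (∃ i i' T, a = tA i T ∧ a' = tA i' T ∧ ρ i i') ∨
  (∃ ζ ζ' s t, a = nA (ndE ζ s t) ∧ a' = nA (ndE ζ' s t) ∧ σ ζ ζ') ∨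
  ∃ ζ ζ' i i' j j', a = nA (prE ζ i j) ∧ a' = nA (prE ζ' i' j') ∧ σ ζ ζ' ∧ ρ i i' ∧ ρ j j'

/-- related conditions -/
def RC (σ ρ : ZF → ZF → Prop) (p p' : ZF) : Prop :=
  (∀ a ∈ p, ∃ a' ∈ p', RA σ ρ a a') ∧ ∀ a' ∈ p', ∃ a ∈ p, RA σ ρ a a'

section rel

variable {σ ρ : ZF → ZF → Prop}

theorem BiU.flip (h : BiU σ) : BiU (flip σ) := fun a a' b b' h1 h2 => (h a' a b' b h1 h2).symm

theorem RA.flip {a a' : ZF} (h : RA σ ρ a a') : RA (flip σ) (flip ρ) a' a := by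
  rcases h with ⟨i, i', T, h1, h2, h3⟩ | ⟨ζ, ζ', s, t, h1, h2, h3⟩ |
    ⟨ζ, ζ', i, i', j, j', h1, h2, h3, h4, h5⟩
  exacts [Or.inl ⟨i', i, T, h2, h1, h3⟩, Or.inr (Or.inl ⟨ζ', ζ, s, t, h2, h1, h3⟩),
    Or.inr (Or.inr ⟨ζ', ζ, i', i, j', j, h2, h1, h3, h4, h5⟩)]

theorem RC.flip {p p' : ZF} (h : RC σ ρ p p') : RC (flip σ) (flip ρ) p' p :=
  ⟨fun a ha => (h.2 a ha).imp fun _ h => ⟨h.1, h.2.flip⟩,
    fun a ha => (h.1 a ha).imp fun _ h => ⟨h.1, h.2.flip⟩⟩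

theorem RA.mono {σ' ρ' : ZF → ZF → Prop} (h1 : ∀ a b, σ a b → σ' a b) (h2 : ∀ a b, ρ a b → ρ' a b)
    {a a' : ZF} (h : RA σ ρ a a') : RA σ' ρ' a a' := by
  rcases h with ⟨i, i', T, k1, k2, k3⟩ | ⟨ζ, ζ', s, t, k1, k2, k3⟩ |
    ⟨ζ, ζ', i, i', j, j', k1, k2, k3, k4, k5⟩
  exacts [Or.inl ⟨i, i', T, k1, k2, h2 _ _ k3⟩, Or.inr (Or.inl ⟨ζ, ζ', s, t, k1, k2, h1 _ _ k3⟩),
    Or.inr (Or.inr ⟨ζ, ζ', i, i', j, j', k1, k2, h1 _ _ k3, h2 _ _ k4, h2 _ _ k5⟩)]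

theorem RC.mono {σ' ρ' : ZF → ZF → Prop} (h1 : ∀ a b, σ a b → σ' a b) (h2 : ∀ a b, ρ a b → ρ' a b)
    {p p' : ZF} (h : RC σ ρ p p') : RC σ' ρ' p p' :=
  ⟨fun a ha => (h.1 a ha).imp fun _ h => ⟨h.1, h.2.mono h1 h2⟩,
    fun a ha => (h.2 a ha).imp fun _ h => ⟨h.1, h.2.mono h1 h2⟩⟩

theorem RA.tA {i T a' : ZF} (h : RA σ ρ (tA i T) a') : ∃ i', a' = MP_9a7e1f_lc.tA i' T ∧ ρ i i' := by
  rcases h with ⟨i, i', T, k1, k2, k3⟩ | ⟨ζ, ζ', s, t, k1, -⟩ | ⟨ζ, ζ', i, i', j, j', k1, -⟩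
  · obtain ⟨rfl, rfl⟩ := tA_inj.1 k1
    exact ⟨i', k2, k3⟩
  all_goals simp at k1

theorem RA.nd {ζ s t a' : ZF} (h : RA σ ρ (nA (ndE ζ s t)) a') :
    ∃ ζ', a' = nA (ndE ζ' s t) ∧ σ ζ ζ' := by
  rcases h with ⟨i, i', T, k1, -⟩ | ⟨ζ, ζ', s, t, k1, k2, k3⟩ | ⟨ζ, ζ', i, i', j, j', k1, -⟩
  · simp at k1
  · obtain ⟨rfl, rfl, rfl⟩ := ndE_inj.1 (nA_inj.1 k1)
    exact ⟨ζ', k2, k3⟩
  · simp at k1

theorem RA.pr {ζ i j a' : ZF} (h : RA σ ρ (nA (prE ζ i j)) a') :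
    ∃ ζ' i' j', a' = nA (prE ζ' i' j') ∧ σ ζ ζ' ∧ ρ i i' ∧ ρ j j' := by
  rcases h with ⟨i, i', T, k1, -⟩ | ⟨ζ, ζ', s, t, k1, -⟩ | ⟨ζ, ζ', i, i', j, j', k1, k2⟩
  · simp at k1
  · simp at k1
  · obtain ⟨rfl, rfl, rfl⟩ := prE_inj.1 (nA_inj.1 k1)
    exact ⟨ζ', i', j', k2⟩

variable (hσ : BiU σ) (hρ : BiU ρ)
include hσ hρ

theorem RA.uniq {a a' b' : ZF} (h : RA σ ρ a a') (h' : RA σ ρ a b') : a' = b' := by
  rcases h with ⟨i, i', T, rfl, rfl, k3⟩ | ⟨ζ, ζ', s, t, rfl, rfl, k3⟩ |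
    ⟨ζ, ζ', i, i', j, j', rfl, rfl, k3, k4, k5⟩
  · obtain ⟨i2, rfl, k⟩ := h'.tA
    rw [(hρ _ _ _ _ k3 k).1 rfl]
  · obtain ⟨ζ2, rfl, k⟩ := h'.nd
    rw [(hσ _ _ _ _ k3 k).1 rfl]
  · obtain ⟨ζ2, i2, j2, rfl, k, k', k''⟩ := h'.pr
    rw [(hσ _ _ _ _ k3 k).1 rfl, (hρ _ _ _ _ k4 k').1 rfl, (hρ _ _ _ _ k5 k'').1 rfl]

theorem RC.mem {p p' a a' : ZF} (h : RC σ ρ p p') (ha : RA σ ρ a a') : a ∈ p ↔ a' ∈ p' := by
  constructor
  · intro h1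
    obtain ⟨b, h2, h3⟩ := h.1 a h1
    exact ha.uniq hσ hρ h3 ▸ h2
  · intro h1
    obtain ⟨b, h2, h3⟩ := h.2 a' h1
    exact ha.flip.uniq hσ.flip hρ.flip h3.flip ▸ h2

theorem RC.leq_imp {p p' q q' : ZF} (hp : RC σ ρ p p') (hq : RC σ ρ q q') (h : Leq q p) :
    Leq q' p' := by
  refine ⟨fun a' ha' => ?_, fun ζ' s t h1 h2 i' j' h3 => ?_⟩
  · obtain ⟨a, h1, h2⟩ := hp.2 a' ha'
    exact (hq.mem hσ hρ h2).1 (h.1 h1)
  · obtain ⟨a, k1, k2⟩ := hq.2 _ h1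
    obtain ⟨ζ, rfl, k3⟩ := k2.flip.nd
    obtain ⟨b, k4, k5⟩ := hp.2 _ h3
    obtain ⟨ζ2, i, j, rfl, k6, k7, k8⟩ := k5.flip.pr
    obtain rfl := (hσ _ _ _ _ k3 k6).2 rfl
    refine (h.2 ζ s t k1 (fun k => h2 ((hp.mem hσ hρ k2).1 k)) i j k4).imp fun T hT => ?_
    exact hT.imp (fun k => ⟨(hq.mem hσ hρ (Or.inl ⟨i, i', T, rfl, rfl, k7⟩)).1 k.1, k.2⟩)
      fun k => ⟨(hq.mem hσ hρ (Or.inl ⟨j, j', T, rfl, rfl, k8⟩)).1 k.1, k.2⟩

theorem RC.leq {p p' q q' : ZF} (hp : RC σ ρ p p') (hq : RC σ ρ q q') : Leq q p ↔ Leq q' p' :=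
  ⟨hp.leq_imp hσ hρ hq, hp.flip.leq_imp hσ.flip hρ.flip hq.flip⟩

/-- transport of a condition -/
theorem RC.exists {I E J I' E' p : ZF} (hp : Fn p) (h : Val I E J p)
    (h1 : ∀ i T, tA i T ∈ p → ∃ i' ∈ I', ρ i i')
    (h2 : ∀ e, nA e ∈ p → ∃ e' ∈ E', RA σ ρ (nA e) (nA e')) :
    ∃ p', Fn p' ∧ Val I' E' J p' ∧ RC σ ρ p p' := by
  have key : ∀ a, ∃ a', a ∈ p → RA σ ρ a a' ∧
      ((∃ i ∈ I', ∃ T ∈ J, a' = tA i T) ∨ ∃ e ∈ E', a' = nA e) := fun a => by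
    by_cases ha : a ∈ p
    · rcases h.cases ha with ⟨i, T, rfl⟩ | ⟨e, rfl⟩
      · obtain ⟨i', k1, k2⟩ := h1 i T ha
        exact ⟨tA i' T, fun _ => ⟨Or.inl ⟨i, i', T, rfl, rfl, k2⟩,
          Or.inl ⟨i', k1, T, (h.tA ha).2.1, rfl⟩⟩⟩
      · obtain ⟨e', k1, k2⟩ := h2 e ha
        exact ⟨nA e', fun _ => ⟨k2, Or.inr ⟨e', k1, rfl⟩⟩⟩
    · exact ⟨a, fun h => absurd h ha⟩
  choose F hF using key
  have hR : RC σ ρ p (img F p) := ⟨fun a ha => ⟨_, img_mem ha, (hF a ha).1⟩, fun a' ha' => by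
    obtain ⟨a, ha, rfl⟩ := mem_img.1 ha'
    exact ⟨a, ha, (hF a ha).1⟩⟩
  refine ⟨img F p, hp.img F, val_iff.2 ⟨fun a' ha' => ?_, fun i' T hT => ?_⟩, hR⟩
  · obtain ⟨a, ha, rfl⟩ := mem_img.1 ha'
    exact (hF a ha).2
  · obtain ⟨a, k1, k2⟩ := hR.2 _ hT
    obtain ⟨i, rfl, k3⟩ := k2.flip.tA
    obtain ⟨T', k4, k5⟩ := (h.tA k1).2.2
    exact ⟨T', (hR.mem hσ hρ (Or.inl ⟨i, i', T', rfl, rfl, k3⟩)).1 k4, fun T'' k6 =>
      k5 T'' ((hR.mem hσ hρ (Or.inl ⟨i, i', T'', rfl, rfl, k3⟩)).2 k6)⟩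

end rel

end Pool.Agent.P.MP_9a7e1f_lc
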