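import Pool.Agent.P.MP_9a7e1f_lc.St2

/-! Back and forth for the forcing notion. -/

set_option linter.unusedSectionVars false

namespace Pool.Agent.P.MP_9a7e1f_lc

open ZFSet Pool.Agent.P.MP_3ab3de_lc

namespace ProdP

/-- the index `i` occurs in `p` -/
def Oc (i p : ZF) : Prop :=
  (∃ T, tA i T ∈ p) ∨ ∃ ζ j, nA (prE ζ i j) ∈ p ∨ nA (prE ζ j i) ∈ p

variable {M : Set ZF} {κ J σ e : ZF}

theorem Oc.mem {i p : ZF} (h : Oc i p) (hp : Val (II M κ) (EE M κ) J p) : i ∈ II M κ := by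
  rcases h with ⟨T, h⟩ | ⟨ζ, j, h | h⟩
  exacts [(hp.tA h).1, (prE_mem_EE.1 (hp.nA h)).2.1, (prE_mem_EE.1 (hp.nA h)).2.2.1]

/-- transport of a condition along relations that preserve the coded relations -/
theorem move {s ρ : ZF → ZF → Prop} (hσ : Inv κ σ) (hs : BiU s) (hρ : BiU ρ)
    (h1 : ∀ ζ ∈ κ, s ζ (app σ ζ))
    (h2 : ∀ ζ ∈ κ, ∀ i i' j j', ρ i i' → ρ j j' → Rl ζ i j → Rl (app σ ζ) i' j')
    {p : ZF} (hp : p ∈ PP (II M κ) (EE M κ) J) (h3 : ∀ i, Oc i p → ∃ i' ∈ II M κ, ρ i i') :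
    ∃ p' ∈ PP (II M κ) (EE M κ) J, RC s ρ p p' := by
  obtain ⟨k1, k2⟩ := mem_PP.1 hp
  obtain ⟨p', k3, k4, k5⟩ := RC.exists (I' := II M κ) (E' := EE M κ) hs hρ k1 k2
    (fun i T h => h3 i (Or.inl ⟨T, h⟩)) fun a ha => by
      rcases mem_EE.1 (k2.nA ha) with ⟨ζ, hζ, x, hx, y, hy, rfl⟩ | ⟨ζ, hζ, i, -, j, -, hR, rfl⟩
      · exact ⟨ndE (app σ ζ) x y, ndE_mem_EE.2 ⟨(hσ ζ hζ).1, hx, hy⟩,
          Or.inr (Or.inl ⟨ζ, _, x, y, rfl, rfl, h1 ζ hζ⟩)⟩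
      · obtain ⟨i', hi, hi'⟩ := h3 i (Or.inr ⟨ζ, j, Or.inl ha⟩)
        obtain ⟨j', hj, hj'⟩ := h3 j (Or.inr ⟨ζ, i, Or.inr ha⟩)
        exact ⟨prE (app σ ζ) i' j', prE_mem_EE.2 ⟨(hσ ζ hζ).1, hi, hj, h2 ζ hζ _ _ _ _ hi' hj' hR⟩,
          Or.inr (Or.inr ⟨ζ, _, i, i', j, j', rfl, rfl, h1 ζ hζ, hi', hj'⟩)⟩
  exact ⟨p', mem_PP.2 ⟨k3, k4⟩, k5⟩

theorem rl_iff {ζ i i' j j' : ZF} (hζ : ζ ∈ κ) (he : EO0 M ζ (app σ ζ) (app e ζ))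
    (hi : RI M κ σ e i i') (hj : RI M κ σ e j j') : Rl ζ i j ↔ Rl (app σ ζ) i' j' := by
  constructor
  · intro h γ' h1
    obtain ⟨γ, h2, h3⟩ := hj.2.2.2 ζ hζ γ' h1
    obtain ⟨δ, h4, h5⟩ := h γ h2
    obtain ⟨δ', h6, h7⟩ := hi.2.2.1 ζ δ h4
    exact ⟨δ', h6, (he.2.2 _ _ _ _ h7 h3).1 h5⟩
  · intro h γ h1
    obtain ⟨γ', h2, h3⟩ := hj.2.2.1 ζ γ h1
    obtain ⟨δ', h4, h5⟩ := h γ' h2
    obtain ⟨δ, h6, h7⟩ := hi.2.2.2 ζ hζ δ' h4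
    exact ⟨δ, h6, (he.2.2 _ _ _ _ h7 h3).2 h5⟩

theorem ri_mono {e' : ZF} (h : ∀ ζ ∈ κ, app e ζ ⊆ app e' ζ) (i i' : ZF) (hi : RI M κ σ e i i') :
    RI M κ σ e' i i' :=
  ⟨hi.1, hi.2.1, fun ζ γ h1 => (hi.2.2.1 ζ γ h1).imp fun _ h2 =>
      ⟨h2.1, h ζ (pair_mem_BB.1 ((mem_II.1 hi.1).1.1 h1)).1 h2.2⟩,
    fun ζ hζ γ' h1 => (hi.2.2.2 ζ hζ γ' h1).imp fun _ h2 => ⟨h2.1, h ζ hζ h2.2⟩⟩

theorem hh_mono {e' : ZF} (h : ∀ ζ ∈ κ, app e ζ ⊆ app e' ζ) :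
    HH M κ J σ e ⊆ HH M κ J σ e' := fun _ hz =>
  mem_sep.2 ⟨(mem_sep.1 hz).1, (mem_sep.1 hz).2.mono (fun _ _ h => h) (ri_mono h)⟩

variable [TModel M]

/-- countably many conditions mention countably many points -/
theorem cover (hκ : κ ∈ M) {X : ZF} (hX : X ∈ cs M (PP (II M κ) (EE M κ) J)) :
    ∃ Y ∈ M, Le M Y om ∧ ∀ p ∈ X, ∀ i, Oc i p → ∀ ζ γ, pair ζ γ ∈ i → γ ∈ Y := by
  obtain ⟨⟨h1, h2⟩, h3⟩ := mem_cs.1 hX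
  have := In.mk' hκ
  have := In.mk' h2
  have hD : Le M (ZFSet.sUnion X) om := inf_omega.sUnion h2 h3 fun p hp =>
    (mem_PP.1 (h1 hp)).1.le (tr h2 hp) inf_omega
  have h4 : Le M ((img (fun a => fst (snd a)) (ZFSet.sUnion X) ∪
      (img (fun a => fst (snd (snd (snd a)))) (ZFSet.sUnion X) ∪
        img (fun a => snd (snd (snd (snd a)))) (ZFSet.sUnion X))) ∩ II M κ) om :=
    (inf_omega.union (In.mem _) (In.mem _) (inf_omega.img _ inferInstance (In.mem _) hD)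
      (inf_omega.union (In.mem _) (In.mem _) (inf_omega.img _ inferInstance (In.mem _) hD)
        (inf_omega.img _ inferInstance (In.mem _) hD))).mono fun _ h => (mem_inter.1 h).1
  refine ⟨_, In.mem _, inf_omega.img (fun a => snd a) inferInstance (In.mem _)
    (inf_omega.sUnion (In.mem _) h4 fun i hi => (mem_II.1 (mem_inter.1 hi).2).2),
    fun p hp i hi ζ γ h => mem_img.2 ⟨_, mem_sUnion.2 ⟨i, mem_inter.2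
      ⟨?_, hi.mem (mem_PP.1 (h1 hp)).2⟩, h⟩, snd_pair _ _⟩⟩
  rcases hi with ⟨T, hi⟩ | ⟨ζ', j, hi | hi⟩
  · exact mem_union.2 (Or.inl (mem_img.2 ⟨_, mem_sUnion.2 ⟨p, hp, hi⟩, by simp [tA]⟩))
  · exact mem_union.2 (Or.inr (mem_union.2 (Or.inl
      (mem_img.2 ⟨_, mem_sUnion.2 ⟨p, hp, hi⟩, by simp [nA, prE]⟩))))
  · exact mem_union.2 (Or.inr (mem_union.2 (Or.inr
      (mem_img.2 ⟨_, mem_sUnion.2 ⟨p, hp, hi⟩, by simp [nA, prE]⟩))))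

/-- the image of an index -/
theorem image (hκ : κ ∈ M) (ho : IsOrdinal κ) (hm : σ ∈ M) (hσ : Inv κ σ)
    (Q : ZF → ZF → ZF → Prop) (hQ : Df M (fun v => Q (v 0) (v 1) (v 2))) {i : ZF}
    (hi : i ∈ II M κ) (h : ∀ ζ γ, pair ζ γ ∈ i → ∃ γ' ∈ app σ ζ, Q ζ γ γ') :
    ∃ i' ∈ II M κ, (∀ ζ γ, pair ζ γ ∈ i → ∃ γ', pair (app σ ζ) γ' ∈ i' ∧ Q ζ γ γ') ∧
      ∀ ζ ∈ κ, ∀ γ', pair (app σ ζ) γ' ∈ i' → ∃ γ, pair ζ γ ∈ i ∧ Q ζ γ γ' := by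
  obtain ⟨⟨h1, h2⟩, h3⟩ := mem_II.1 hi
  have := fun s t r [Tm M s] [Tm M t] [Tm M r] => hQ.three s t r
  have := In.mk' hm
  have := In.mk' h2
  obtain ⟨f, hf, h4⟩ := skolem (M := M) (fun b y => y ∈ app σ (fst b) ∧ Q (fst b) (snd b) y)
    inferInstance h2 fun b hb => by
      obtain ⟨ζ, hζ, γ, -, rfl⟩ := mem_BB (h1 hb)
      obtain ⟨γ', k1, k2⟩ := h ζ γ hb
      exact ⟨γ', tr (tr hκ (hσ ζ hζ).1) k1, by simpa using ⟨k1, k2⟩⟩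
  have := In.mk' hf
  refine ⟨img (fun b => pair (app σ (fst b)) (app f b)) i, mem_II.2 ⟨⟨fun z hz => ?_, In.mem _⟩,
    inf_omega.img _ inferInstance h2 h3⟩, fun ζ γ k => ?_, fun ζ hζ γ' k => ?_⟩
  · obtain ⟨b, hb, rfl⟩ := mem_img.1 hz
    have k := (h4 b hb).1
    obtain ⟨ζ, hζ, γ, -, rfl⟩ := mem_BB (h1 hb)
    rw [fst_pair] at k ⊢
    exact pair_mem_BB.2 ⟨(hσ ζ hζ).1, ho.mem_trans k (hσ ζ hζ).1, k⟩
  · exact ⟨app f (pair ζ γ), mem_img.2 ⟨_, k, by rw [fst_pair]⟩, by simpa using (h4 _ k).2⟩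
  · obtain ⟨b, hb, k1⟩ := mem_img.1 k
    have k2 := (h4 b hb).2
    obtain ⟨ζ2, hζ2, γ, -, rfl⟩ := mem_BB (h1 hb)
    rw [fst_pair] at k1
    obtain ⟨k3, rfl⟩ := pair_inj.1 k1
    obtain rfl : ζ2 = ζ := by rw [← (hσ ζ2 hζ2).2, k3, (hσ ζ hζ).2]
    exact ⟨γ, hb, by simpa using k2⟩

theorem cf0 (hκ : κ ∈ M) (hJ : J ∈ M) (hm : σ ∈ M) (hσ : Inv κ σ) (he : e ∈ M)
    (h : ∀ ζ ∈ κ, EO0 M ζ (app σ ζ) (app e ζ)) :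
    CF0 M (PP (II M κ) (EE M κ) J) (LP (II M κ) (EE M κ) J) (HH M κ J σ e) := by
  have := In.mk' hκ
  have := In.mk' hJ
  have := In.mk' hm
  have := In.mk' he
  refine ⟨In.mem _, fun p p' h1 => ⟨(mem_HH.1 h1).1, (mem_HH.1 h1).2.1⟩,
    fun p p' q q' h1 h2 => ?_⟩
  obtain ⟨a1, a2, a3⟩ := mem_HH.1 h1
  obtain ⟨b1, b2, b3⟩ := mem_HH.1 h2
  rw [mem_LP, mem_LP, b3.leq (biU_RS hσ) (biU_RI hσ h) a3]
  exact ⟨fun k => ⟨a2, b2, k.2.2⟩, fun k => ⟨a1, b1, k.2.2⟩⟩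

theorem cs_int {Y X : ZF} (hY : Y ∈ M) (h : Le M Y om) (hX : X ∈ M) : Y ∩ X ∈ cs M X := by
  have := In.mk' hY
  have := In.mk' hX
  exact mem_cs.2 ⟨⟨fun x hx => (mem_inter.1 hx).2, In.mem _⟩,
    h.mono fun x hx => (mem_inter.1 hx).1⟩

end ProdP

open ProdP

theorem prod' : S_Prod := by
  intro M _ κ hκ ho J hJ σ hm hσ k e he h
  have := In.mk' hm
  induction k generalizing e with
  | zero => exact cf0 hκ hJ hm hσ he h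
  | succ k ih =>
    have := In.mk' he
    refine ⟨cf0 hκ hJ hm hσ he fun ζ hζ => (h ζ hζ).1, fun X hX => ?_, fun X hX => ?_⟩
    · obtain ⟨Y, hY, h1, h2⟩ := cover hκ hX
      have := In.mk' hY
      obtain ⟨f, hf, h3⟩ := skolem (M := M) (fun ζ e' => app e ζ ⊆ e' ∧
        EO M k ζ (app σ ζ) e' ∧ ∀ x ∈ Y ∩ ζ, ∃ x', pair x x' ∈ e') inferInstance hκ
        fun ζ hζ => (h ζ hζ).2.1 _ (cs_int hY h1 (tr hκ hζ))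
      have := In.mk' hf
      have h0 : ∀ ζ ∈ κ, EO0 M ζ (app σ ζ) (app f ζ) := fun ζ hζ => (h3 ζ hζ).2.1.zero
      refine ⟨_, hh_mono fun ζ hζ => (h3 ζ hζ).1, ih f hf fun ζ hζ => (h3 ζ hζ).2.1,
        fun p hp => ?_⟩
      have hp' := (mem_cs.1 hX).1.1 hp
      obtain ⟨p', k1, k2⟩ := move (s := RS κ σ) (ρ := RI M κ σ f) hσ (biU_RS hσ) (biU_RI hσ h0)
        (fun ζ hζ => ⟨hζ, rfl⟩) (fun ζ hζ i i' j j' hi hj => (rl_iff hζ (h0 ζ hζ) hi hj).1) hp'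
        fun i hi => by
          have hi' := hi.mem (mem_PP.1 hp').2
          obtain ⟨i', a1, a2⟩ := image hκ ho hm hσ (fun ζ γ γ' => pair γ γ' ∈ app f ζ)
            inferInstance hi' fun ζ γ hγ => by
              obtain ⟨b1, -, b2⟩ := pair_mem_BB.1 ((mem_II.1 hi').1.1 hγ)
              obtain ⟨γ', b3⟩ := (h3 ζ b1).2.2 γ (mem_inter.2 ⟨h2 p hp i hi ζ γ hγ, b2⟩)
              exact ⟨γ', (pair_mem_prod.1 ((h0 ζ b1).2.1 b3)).2, b3⟩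
          exact ⟨i', a1, hi', a1, a2⟩
      exact ⟨p', mem_HH.2 ⟨hp', k1, k2⟩⟩
    · obtain ⟨Y, hY, h1, h2⟩ := cover hκ hX
      have := In.mk' hY
      obtain ⟨f, hf, h3⟩ := skolem (M := M) (fun ζ e' => app e ζ ⊆ e' ∧
        EO M k ζ (app σ ζ) e' ∧ ∀ x' ∈ Y ∩ app σ ζ, ∃ x, pair x x' ∈ e') inferInstance hκ
        fun ζ hζ => (h ζ hζ).2.2 _ (cs_int hY h1 (tr hκ (hσ ζ hζ).1))
      have := In.mk' hf
      have h0 : ∀ ζ ∈ κ, EO0 M ζ (app σ ζ) (app f ζ) := fun ζ hζ => (h3 ζ hζ).2.1.zero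
      refine ⟨_, hh_mono fun ζ hζ => (h3 ζ hζ).1, ih f hf fun ζ hζ => (h3 ζ hζ).2.1,
        fun p hp => ?_⟩
      have hp' := (mem_cs.1 hX).1.1 hp
      obtain ⟨p', k1, k2⟩ := move (s := flip (RS κ σ)) (ρ := flip (RI M κ σ f)) hσ
        (biU_RS hσ).flip (biU_RI hσ h0).flip (fun ζ hζ => ⟨(hσ ζ hζ).1, (hσ ζ hζ).2.symm⟩)
        (fun ζ hζ i i' j j' hi hj hR => (rl_iff (hσ ζ hζ).1 (h0 _ (hσ ζ hζ).1) hi hj).2
          ((hσ ζ hζ).2.symm ▸ hR)) hp'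
        fun i hi => by
          have hi' := hi.mem (mem_PP.1 hp').2
          obtain ⟨i', a1, a2, a3⟩ := image hκ ho hm hσ
            (fun ζ γ γ' => pair γ' γ ∈ app f (app σ ζ)) inferInstance hi' fun ζ γ hγ => by
              obtain ⟨b1, -, b2⟩ := pair_mem_BB.1 ((mem_II.1 hi').1.1 hγ)
              obtain ⟨γ', b3⟩ := (h3 _ (hσ ζ b1).1).2.2 γ
                (mem_inter.2 ⟨h2 p hp i hi ζ γ hγ, (hσ ζ b1).2.symm ▸ b2⟩)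
              exact ⟨γ', (pair_mem_prod.1 ((h0 _ (hσ ζ b1).1).2.1 b3)).1, b3⟩
          refine ⟨i', a1, a1, hi', fun ζ γ hγ => ?_, fun ζ hζ γ hγ => ?_⟩
          · have b1 := (pair_mem_BB.1 ((mem_II.1 a1).1.1 hγ)).1
            have b2 := a3 _ (hσ ζ b1).1 γ
            rw [(hσ ζ b1).2] at b2
            exact b2 hγ
          · have b2 := a2 _ _ hγ
            rwa [(hσ ζ hζ).2] at b2
      exact ⟨p', mem_HH.2 ⟨k1, hp', k2.flip⟩⟩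

end Pool.Agent.P.MP_9a7e1f_lc
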