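import Pool.Agent.P.MP_9a7e1f_lc.St2

/-! Sealing through a countable hull: the chain condition and the avoidance property. -/

set_option linter.unusedSectionVars false

namespace Pool.Agent.P.MP_9a7e1f_lc

open ZFSet Pool.Agent.P.MP_3ab3de_lc

namespace SealP

def Cor (σ ρ : ZF → ZF → Prop) (I E I' E' : ZF) : Prop :=
  (∀ i ∈ I, ∃ i' ∈ I', ρ i i') ∧ ∀ e ∈ E, ∃ e' ∈ E', RA σ ρ (nA e) (nA e')

def CorC (σ ρ : ZF → ZF → Prop) (c c' : ZF) : Prop :=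
  ∀ d t, pair d t ∈ c → ∃ d', pair d' t ∈ c' ∧ RC σ ρ d d'

section iso

variable {σ ρ : ZF → ZF → Prop} {I E I' E' J c c' V : ZF} (hσ : BiU σ) (hρ : BiU ρ)
include hσ hρ

theorem tr_cond (h : Cor σ ρ I E I' E') {p : ZF} (hp : Fn p) (hv : Val I E J p) :
    ∃ p', Fn p' ∧ Val I' E' J p' ∧ RC σ ρ p p' :=
  RC.exists hσ hρ hp hv (fun i _ ha => h.1 i (hv.tA ha).1) fun e ha => h.2 e (hv.nA ha)

variable (h1 : Cor σ ρ I E I' E') (h2 : Cor (flip σ) (flip ρ) I' E' I E) (h3 : CorC σ ρ c c')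
include h1 h2 h3

theorem iso_pre (h : Pre Fn I E J c V ∅) : Pre Fn I' E' J c' V ∅ := by
  intro p' k1 k2
  obtain ⟨p, k3, k4, k5⟩ := tr_cond hσ.flip hρ.flip h2 k1 k2
  obtain ⟨r, k6, k7, k8, ⟨d, t, k9, k10, k11⟩ | ⟨_, k, -⟩⟩ := h p k3 k4
  · obtain ⟨r', m1, m2, m3⟩ := tr_cond hσ hρ h1 k6 k7
    obtain ⟨d', m4, m5⟩ := h3 d t k9
    exact ⟨r', m1, m2, RC.leq_imp hσ hρ k5.flip m3 k8,
      Or.inl ⟨d', t, m4, k10, RC.leq_imp hσ hρ m5 m3 k11⟩⟩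
  · exact absurd k (notMem_empty _)

theorem iso_hyp (h4 : CorC (flip σ) (flip ρ) c' c) (h : Hyp Fn I E J c) : Hyp Fn I' E' J c' := by
  refine ⟨fun d' t k => ?_, fun p' k1 k2 i' hi' => ?_, fun p' k1 k2 T hT => ?_,
    fun r' k1 k2 d1 t1 d2 t2 k3 k4 k5 k6 => ?_⟩
  · obtain ⟨d, k, -⟩ := h4 d' t k
    exact h.1 d t k
  · obtain ⟨p, k3, k4, k5⟩ := tr_cond hσ.flip hρ.flip h2 k1 k2
    obtain ⟨i, hi, e⟩ := h2.1 i' hi'
    obtain ⟨r, k6, k7, k8, d, t, k9, k10, T, k11, k12⟩ := h.2.1 p k3 k4 i hi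
    obtain ⟨r', m1, m2, m3⟩ := tr_cond hσ hρ h1 k6 k7
    obtain ⟨d', m4, m5⟩ := h3 d t k9
    exact ⟨r', m1, m2, RC.leq_imp hσ hρ k5.flip m3 k8, d', t, m4, RC.leq_imp hσ hρ m5 m3 k10, T,
      (m3.mem hσ hρ (Or.inl ⟨i, i', T, rfl, rfl, e⟩)).1 k11, k12⟩
  · obtain ⟨p, k3, k4, k5⟩ := tr_cond hσ.flip hρ.flip h2 k1 k2
    obtain ⟨r, k6, k7, k8, d, t, k9, k10, k11⟩ := h.2.2.1 p k3 k4 T hT
    obtain ⟨r', m1, m2, m3⟩ := tr_cond hσ hρ h1 k6 k7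
    obtain ⟨d', m4, m5⟩ := h3 d t k9
    exact ⟨r', m1, m2, RC.leq_imp hσ hρ k5.flip m3 k8, d', t, m4, RC.leq_imp hσ hρ m5 m3 k10, k11⟩
  · obtain ⟨r, m1, m2, m3⟩ := tr_cond hσ.flip hρ.flip h2 k1 k2
    obtain ⟨e1, m4, m5⟩ := h4 d1 t1 k3
    obtain ⟨e2, m6, m7⟩ := h4 d2 t2 k4
    exact h.2.2.2 r m1 m2 e1 t1 e2 t2 m4 m6 (RC.leq_imp hσ.flip hρ.flip m5 m3 k5)
      (RC.leq_imp hσ.flip hρ.flip m7 m3 k6)

end iso

theorem pre_mono {I E J c c' V : ZF} (h : Pre Fn I E J c V ∅) (hc : c ⊆ c') :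
    Pre Fn I E J c' V ∅ := fun p k1 k2 => by
  obtain ⟨r, k3, k4, k5, k6⟩ := h p k1 k2
  exact ⟨r, k3, k4, k5, k6.imp (fun ⟨d, t, m1, m2⟩ => ⟨d, t, hc m1, m2⟩) id⟩

/-- the graph of the collapse -/
def pc (H a a' : ZF) : Prop := a ∈ H ∧ a' = col H a

variable {M : Set ZF} [hM : TModel M]

instance tm_sec {a b : Env → ZF} [Tm M a] [Tm M b] : Tm M (fun v => sec (a v) (b v)) := by
  unfold sec; infer_instance

/-- what the hull gives -/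
structure Core (M : Set ZF) (κ1 s κ c H α : ZF) : Prop where
  mem : H ∈ M
  le : Le M H om
  ins : Ins H
  unp : ∀ a b, pair a b ∈ H → a ∈ H ∧ b ∈ H
  ord : α ∈ κ1
  jj : ∀ T, T ∈ JJ s α ↔ T ∈ JJ s κ1 ∧ T ∈ H
  cond : ∀ p, Fn p ∧ Val (II M κ ∩ H) (EE M κ ∩ H) (JJ s α) p ↔
    p ∈ PP (II M κ) (EE M κ) (JJ s κ1) ∧ p ∈ H
  pre : Pre Fn (II M κ ∩ H) (EE M κ ∩ H) (JJ s α) (c ∩ H) ∅ ∅ →
    Pre Fn (II M κ) (EE M κ) (JJ s κ1) (c ∩ H) ∅ ∅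
  hyp : Hyp Fn (II M κ ∩ H) (EE M κ ∩ H) (JJ s α) (c ∩ H) →
    ∀ V ∈ app s α, Pre Fn (II M κ) (EE M κ) (JJ s κ1) (c ∩ H) V ∅

theorem core (hLK : S_LK) (hH : S_H1) (hC : S_Copy) (hV : VL M) {κ1 s κ c : ZF}
    (h1 : Hart M om κ1) (hs : s ∈ M) (hf : IsFunc κ1 (LS κ1) s) (hJ : Jen κ1 s) (hκ : κ ∈ M)
    (ho : om ⊆ κ) (hc : c ∈ M)
    (hc' : ∀ z ∈ c, ∃ d ∈ PP (II M κ) (EE M κ) (JJ s κ1), ∃ t ∈ Nds, z = pair d t)
    (l : List (ZF → ZF → Prop)) (hl : ∀ Q ∈ l, Df M (fun v => Q (v 0) (v 1))) :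
    ∃ H α, Core M κ1 s κ c H α ∧ ∀ Q ∈ l, Wit M H Q := by
  have := In.mk' hs
  have := In.mk' hκ
  have := In.mk' hc
  have := In.mk' h1.mem
  have lk := hLK M hV om κ1 inf_omega h1
  have lim := hart_lim h1 inf_omega
  obtain ⟨H, hH, hW⟩ := hH M hV κ1 h1 (pair (II M κ) (pair (EE M κ) c)) (In.mem _)
    ((fun x y => y = app s x) :: (fun x y => y ∈ κ1 ∧ x ∈ app s y) ::
      (fun x y => y = fst x ∪ snd x) :: (fun x y => y = sec (fst x) (snd x)) :: l) (by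
      simp only [List.forall_mem_cons]
      exact ⟨inferInstance, inferInstance, inferInstance, inferInstance, hl⟩)
  simp only [List.forall_mem_cons] at hW
  obtain ⟨w1, w2, w3, w4, hW⟩ := hW
  have hHM : ∀ x ∈ H, x ∈ M := fun x hx => tr hH.mem hx
  have cntL : ∀ x ∈ LS κ1, Le M x om := fun x hx => by
    obtain ⟨δ, k1, k2⟩ := lim.mem_LS.1 hx
    exact (lk.le δ k1).mono (LS_trans (h1.ord.mem k1) x k2)
  have jj : ∀ T, T ∈ JJ s (H ∩ κ1) ↔ T ∈ JJ s κ1 ∧ T ∈ H := fun T => by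
    simp only [JJ, mem_bun, mem_inter]
    constructor
    · rintro ⟨β, ⟨k1, k2⟩, k3⟩
      have := In.mk' (hHM β k1)
      obtain ⟨_, k4, rfl⟩ := w1 β k1 ⟨_, In.mem (app s β), rfl⟩
      exact ⟨⟨β, k2, k3⟩, hH.cnt _ k4 (cntL _ (hf.app_mem' k2)) k3⟩
    · rintro ⟨⟨β, k1, k2⟩, k3⟩
      obtain ⟨β', k4, k5, k6⟩ := w2 T k3 ⟨β, tr h1.mem k1, k1, k2⟩
      exact ⟨β', ⟨k4, k5⟩, k6⟩
  have finH : ∀ p ∈ H, Fn p → p ⊆ H := fun p hp h => hH.cnt p hp (h.le (hHM p hp) inf_omega)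
  have fixT : ∀ T ∈ JJ s κ1, T ∈ H → col H T = T := fun T hT k => by
    obtain ⟨β, k1, k2⟩ := mem_bun.1 hT
    exact hH.fix T k (lim.clo.1 _ (hf.app_mem' k1) k2)
  have ndH : ∀ t ∈ Nds, t ∈ H ∧ col H t = t := fun t ht => by
    obtain ⟨k1, k2⟩ := mem_Nds.1 ht
    have k3 := hH.ins.fin k1 (k2.subset_of_ins hH.ins)
    exact ⟨k3, hH.fix t k3 (lim.clo.2.fin k1 (k2.subset_of_ins lim.clo.2))⟩
  have c0 : col H ∅ = ∅ := hH.fix _ hH.ins.1 lim.clo.2.1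
  have c1 : col H (num 1) = num 1 := hH.fix _ (hH.ins.num 1) (lim.clo.2.num 1)
  have bi : BiU (pc H) := by
    rintro a _ b _ ⟨k1, rfl⟩ ⟨k2, rfl⟩
    exact ⟨fun e => e ▸ rfl, hH.inj a k1 b k2⟩
  have raE : ∀ e ∈ EE M κ, e ∈ H → RA (pc H) (pc H) (nA e) (nA (col H e)) := fun e he k => by
    rcases mem_EE.1 he with ⟨ζ, -, t, ht, u, hu, rfl⟩ | ⟨ζ, -, i, -, j, -, -, rfl⟩
    · have k1 := (hH.unp _ _ (hH.unp _ _ k).2).1
      refine Or.inr (Or.inl ⟨ζ, col H ζ, t, u, rfl, ?_, k1, rfl⟩)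
      rw [ndE, ndE, col_pair hH.ins hH.ins.1 (hH.unp _ _ k).2, c0,
        col_pair hH.ins k1 (hH.ins.pair (ndH t ht).1 (ndH u hu).1),
        col_pair hH.ins (ndH t ht).1 (ndH u hu).1, (ndH t ht).2, (ndH u hu).2]
    · obtain ⟨k1, k2⟩ := hH.unp _ _ (hH.unp _ _ k).2
      obtain ⟨k3, k4⟩ := hH.unp _ _ k2
      refine Or.inr (Or.inr ⟨ζ, col H ζ, i, col H i, j, col H j, rfl, ?_, ⟨k1, rfl⟩, ⟨k3, rfl⟩,
        k4, rfl⟩)
      rw [prE, prE, col_pair hH.ins (hH.ins.num 1) (hH.unp _ _ k).2, c1, col_pair hH.ins k1 k2,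
        col_pair hH.ins k3 k4]
  have rcP : ∀ d ∈ PP (II M κ) (EE M κ) (JJ s κ1), d ∈ H → RC (pc H) (pc H) d (col H d) := by
    intro d hd k
    obtain ⟨k1, k2⟩ := mem_PP.1 hd
    have k3 := finH d k k1
    have key : ∀ a ∈ d, RA (pc H) (pc H) a (col H a) := fun a ha => by
      rcases k2.cases ha with ⟨i, T, rfl⟩ | ⟨e, rfl⟩
      · obtain ⟨k4, k5⟩ := hH.unp _ _ (hH.unp _ _ (k3 ha)).2
        refine Or.inl ⟨i, col H i, T, rfl, ?_, k4, rfl⟩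
        rw [tA, tA, col_pair hH.ins hH.ins.1 (hH.ins.pair k4 k5), c0, col_pair hH.ins k4 k5,
          fixT T (k2.tA ha).2.1 k5]
      · have k4 := (hH.unp _ _ (k3 ha)).2
        have : col H (nA e) = nA (col H e) := by
          rw [nA, nA, col_pair hH.ins (hH.ins.num 1) k4, c1]
        rw [this]
        exact raE e (k2.nA ha) k4
    refine ⟨fun a ha => ⟨_, mem_col.2 ⟨a, ha, k3 ha, rfl⟩, key a ha⟩, fun a' ha' => ?_⟩
    obtain ⟨a, ha, -, rfl⟩ := mem_col.1 ha'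
    exact ⟨a, ha, key a ha⟩
  have cor1 : Cor (pc H) (pc H) (II M κ ∩ H) (EE M κ ∩ H) (col H (II M κ)) (col H (EE M κ)) :=
    ⟨fun i hi => ⟨_, mem_col.2 ⟨i, (mem_inter.1 hi).1, (mem_inter.1 hi).2, rfl⟩,
      (mem_inter.1 hi).2, rfl⟩, fun e he => ⟨_, mem_col.2 ⟨e, (mem_inter.1 he).1,
        (mem_inter.1 he).2, rfl⟩, raE e (mem_inter.1 he).1 (mem_inter.1 he).2⟩⟩
  have cor2 : Cor (flip (pc H)) (flip (pc H)) (col H (II M κ)) (col H (EE M κ)) (II M κ ∩ H)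
      (EE M κ ∩ H) := by
    refine ⟨fun i' hi => ?_, fun e' he => ?_⟩
    · obtain ⟨i, k1, k2, rfl⟩ := mem_col.1 hi
      exact ⟨i, mem_inter.2 ⟨k1, k2⟩, k2, rfl⟩
    · obtain ⟨e, k1, k2, rfl⟩ := mem_col.1 he
      exact ⟨e, mem_inter.2 ⟨k1, k2⟩, (raE e k1 k2).flip⟩
  have colz : ∀ d t, pair d t ∈ c → pair d t ∈ H →
      col H (pair d t) = pair (col H d) t ∧ RC (pc H) (pc H) d (col H d) := fun d t k1 k2 => by
    obtain ⟨d0, k3, t0, k4, e⟩ := hc' _ k1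
    obtain ⟨rfl, rfl⟩ := pair_inj.1 e
    exact ⟨by rw [col_pair hH.ins (hH.unp _ _ k2).1 (hH.unp _ _ k2).2, (ndH _ k4).2],
      rcP _ k3 (hH.unp _ _ k2).1⟩
  have cor3 : CorC (pc H) (pc H) (c ∩ H) (col H c) := fun d t k => by
    obtain ⟨k1, k2⟩ := mem_inter.1 k
    exact ⟨_, mem_col.2 ⟨_, k1, k2, (colz d t k1 k2).1⟩, (colz d t k1 k2).2⟩
  have cor4 : CorC (flip (pc H)) (flip (pc H)) (col H c) (c ∩ H) := fun d' t k => by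
    obtain ⟨z, k1, k2, e⟩ := mem_col.1 k
    obtain ⟨d, -, t0, -, rfl⟩ := hc' z k1
    rw [(colz d t0 k1 k2).1] at e
    obtain ⟨rfl, rfl⟩ := pair_inj.1 e
    exact ⟨d, mem_inter.2 ⟨k1, k2⟩, (colz d t0 k1 k2).2.flip⟩
  obtain ⟨β, b1, b2, b3⟩ := hH.lev
  obtain ⟨x1, x2⟩ := hH.unp _ _ hH.base
  obtain ⟨x3, x4⟩ := hH.unp _ _ x2
  rw [col_pair hH.ins x1 x2, col_pair hH.ins x3 x4] at b2
  have tb := trn_coe (LS_trans b1)
  obtain ⟨s1, s2⟩ := hJ.sl _ hH.cut (mem_inter.2 ⟨hH.ins.1, h1.zero inf_omega⟩) β b1 b3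
    _ (tb.fst b2) _ (tb.fst (tb.snd b2)) _ (tb.snd (tb.snd b2))
  have cp := fun V => hC M κ hκ ho H (JJ s κ1) (c ∩ H) V hH.ins hH.unp fun a ha b hb => by
    have := In.mk' (hHM a ha)
    have := In.mk' (hHM b hb)
    obtain ⟨_, k1, rfl⟩ := w3 _ (hH.ins.pair ha hb) ⟨_, In.mem _, rfl⟩
    obtain ⟨_, k2, rfl⟩ := w4 _ (hH.ins.pair ha hb) ⟨_, In.mem _, rfl⟩
    simpa using And.intro k1 k2
  refine ⟨H, H ∩ κ1, ⟨hH.mem, hH.le, hH.ins, hH.unp, hH.cut, jj, fun p => ⟨fun k => ?_, fun k => ?_⟩,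
    fun k => ?_, fun k V hV => ?_⟩, hW⟩
  · exact ⟨mem_PP.2 ⟨k.1, k.2.mono (fun _ h => (mem_inter.1 h).1) (fun _ h => (mem_inter.1 h).1)
      fun _ h => ((jj _).1 h).1⟩, hH.ins.fin k.1 (k.2.subset hH.ins (fun _ h => (mem_inter.1 h).2)
        (fun _ h => (mem_inter.1 h).2) fun _ h => ((jj _).1 h).2)⟩
  · obtain ⟨k1, k2⟩ := mem_PP.1 k.1
    refine ⟨k1, fun a ha => (k2 a ha).imp ?_ ?_⟩
    · rintro ⟨i, m1, T, m2, rfl, m3⟩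
      obtain ⟨m4, m5⟩ := hH.unp _ _ (hH.unp _ _ (finH p k.2 k1 ha)).2
      exact ⟨i, mem_inter.2 ⟨m1, m4⟩, T, (jj T).2 ⟨m2, m5⟩, rfl, m3⟩
    · rintro ⟨e, m1, rfl⟩
      exact ⟨e, mem_inter.2 ⟨m1, (hH.unp _ _ (finH p k.2 k1 ha)).2⟩, rfl⟩
  · exact cp _ (iso_pre bi.flip bi.flip cor2 cor1 cor4 (s1 (iso_pre bi bi cor1 cor2 cor3 k)))
  · exact cp _ (iso_pre bi.flip bi.flip cor2 cor1 cor4
      (s2 (iso_hyp bi bi cor1 cor2 cor3 cor4 k) V hV))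

end SealP

open SealP

theorem sealT (hLK : S_LK) (hH : S_H1) (hC : S_Copy) : S_Seal := by
  intro M _ hV κ1 h1 s hs hf hJ κ hκ ho
  have := In.mk' hs
  have := In.mk' hκ
  have := In.mk' h1.mem
  obtain ⟨P, hP⟩ : ∃ P, P = PP (II M κ) (EE M κ) (JJ s κ1) := ⟨_, rfl⟩
  have : In M P := hP ▸ inferInstance
  constructor
  · intro D hD hDP
    have := In.mk' hD
    rw [← hP] at hDP
    obtain ⟨D1, hD1⟩ : ∃ D1, D1 = D ∪ ZFSet.sep (fun p => ∀ d ∈ D, ∀ r ∈ P,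
      ¬ (Leq r p ∧ Leq r d)) P := ⟨_, rfl⟩
    have : In M D1 := hD1 ▸ inferInstance
    have mD : ∀ p, p ∈ D1 ↔ p ∈ D ∨ (p ∈ P ∧ ∀ d ∈ D, ∀ r ∈ P, ¬ (Leq r p ∧ Leq r d)) := fun p => by
      rw [hD1, mem_union, mem_sep]
    obtain ⟨H, α, C, hW⟩ := core hLK hH hC hV h1 hs hf hJ hκ ho (c := prod D1 {∅}) (In.mem _)
      (fun z hz => by
        obtain ⟨d, hd, t, ht, rfl⟩ := mem_prod.1 hz
        exact ⟨d, hP ▸ ((mD d).1 hd).elim (fun h => hDP h) And.left, t,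
          mem_singleton.1 ht ▸ mem_Nds.2 ⟨fn_empty, fun _ h => absurd h (notMem_empty _)⟩, rfl⟩)
      [fun x y => ∃ r d, y = pair r d ∧ r ∈ P ∧ d ∈ D1 ∧ Leq r x ∧ Leq r d] (by
        simp only [List.forall_mem_singleton]
        infer_instance)
    simp only [List.forall_mem_singleton] at hW
    have key := C.pre fun p k1 k2 => by
      obtain ⟨k3, k4⟩ := (C.cond p).1 ⟨k1, k2⟩
      rw [← hP] at k3
      obtain ⟨_, m1, r, d, rfl, m2, m3, m4, m5⟩ := hW p k4 (by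
        have : ∃ r d, r ∈ P ∧ d ∈ D1 ∧ Leq r p ∧ Leq r d := by
          by_cases h : ∀ d ∈ D, ∀ r ∈ P, ¬ (Leq r p ∧ Leq r d)
          · exact ⟨p, p, k3, (mD p).2 (Or.inr ⟨k3, h⟩), Leq.refl p, Leq.refl p⟩
          · simp only [not_forall, not_not] at h
            obtain ⟨d, hd, r, hr, h⟩ := h
            exact ⟨r, d, hr, (mD d).2 (Or.inl hd), h⟩
        obtain ⟨r, d, m1, m2, m3⟩ := this
        have := In.mk' (tr (In.mem (M := M) P) m1)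
        have := In.mk' (tr (In.mem (M := M) D1) m2)
        exact ⟨pair r d, In.mem _, r, d, rfl, m1, m2, m3⟩)
      obtain ⟨m6, m7⟩ := (C.cond r).2 ⟨hP ▸ m2, (C.unp _ _ m1).1⟩
      exact ⟨r, m6, m7, m4, Or.inl ⟨d, ∅, mem_inter.2 ⟨by simp [m3],
        C.ins.pair (C.unp _ _ m1).2 C.ins.1⟩, notMem_empty _, m5⟩⟩
    have := In.mk' C.mem
    refine ⟨D ∩ H, In.mem _, fun _ h => (mem_inter.1 h).1, C.le.mono fun _ h => (mem_inter.1 h).2,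
      fun d hd r hr => ?_⟩
    obtain ⟨k1, -, k2⟩ := mem_LP.1 hr
    obtain ⟨r', k3, k4, ⟨d', t, k5, -, k6⟩ | ⟨_, k, -⟩⟩ := pre_iff.1 key r k1
    · obtain ⟨k7, k8⟩ := mem_inter.1 k5
      have k9 : d' ∈ D := ((mD d').1 (pair_mem_prod.1 k7).1).resolve_right fun h =>
        h.2 d hd r' (hP ▸ k3) ⟨k6, k4.trans k2⟩
      exact ⟨d', mem_inter.2 ⟨k9, (C.unp _ _ k8).1⟩, r', mem_LP.2 ⟨k3, k1, k4⟩,
        mem_LP.2 ⟨k3, hP ▸ hDP k9, k6⟩⟩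
    · exact absurd k (notMem_empty _)
  · intro c hc hc' hy
    have := In.mk' hc
    obtain ⟨H, α, C, hW⟩ := core hLK hH hC hV h1 hs hf hJ hκ ho hc
      (fun z hz => by
        obtain ⟨d, hd, t, rfl⟩ := hc' z hz
        exact ⟨d, hd, t, mem_Nds.2 (hy.1 d t hz), rfl⟩)
      [fun x y => ∃ r d t, y = pair r (pair d t) ∧ r ∈ P ∧ Leq r (fst x) ∧ pair d t ∈ c ∧ Leq r d ∧
          ∃ T, tA (snd x) T ∈ r ∧ t ∉ T,
        fun x y => ∃ r d t T', y = pair (pair r T') (pair d t) ∧ r ∈ P ∧ Leq r (fst x) ∧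
          pair d t ∈ c ∧ Leq r d ∧ T' ∈ JJ s κ1 ∧ T' ⊆ snd x ∧ t ∉ T'] (by
        simp only [List.forall_mem_cons, List.not_mem_nil, IsEmpty.forall_iff, implies_true, and_true]
        constructor <;> set_option synthInstance.maxSize 2048 in infer_instance)
    simp only [List.forall_mem_cons, List.not_mem_nil, IsEmpty.forall_iff, implies_true,
      and_true] at hW
    obtain ⟨w1, w2⟩ := hW
    refine ⟨α, C.ord, fun V hV => pre_mono (C.hyp ⟨fun d t k => hy.1 d t (mem_inter.1 k).1,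
      fun p k1 k2 i hi => ?_, fun p k1 k2 T hT => ?_, fun r k1 k2 d t d' t' k3 k4 => ?_⟩ V hV)
        fun _ h => (mem_inter.1 h).1⟩
    · obtain ⟨k3, k4⟩ := (C.cond p).1 ⟨k1, k2⟩
      obtain ⟨_, m1, r, d, t, rfl, m2, m3, m4, m5, m6⟩ := w1 _ (C.ins.pair k4 (mem_inter.1 hi).2) (by
        obtain ⟨r, m1, m2, m3, d, t, m4, m5⟩ := hy.2.1 p k1 (mem_PP.1 k3).2 i (mem_inter.1 hi).1
        have m6 : r ∈ P := hP ▸ mem_PP.2 ⟨m1, m2⟩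
        have := In.mk' (tr (In.mem (M := M) P) m6)
        have := In.mk' (tr hc m4)
        exact ⟨pair r (pair d t), In.mem _, r, d, t, rfl, m6, by simpa using m3, m4,
          by simpa using m5⟩)
      obtain ⟨m7, m8⟩ := (C.cond r).2 ⟨hP ▸ m2, (C.unp _ _ m1).1⟩
      exact ⟨r, m7, m8, by simpa using m3, d, t, mem_inter.2 ⟨m4, (C.unp _ _ m1).2⟩, m5,
        by simpa using m6⟩
    · obtain ⟨k3, k4⟩ := (C.cond p).1 ⟨k1, k2⟩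
      obtain ⟨k5, k6⟩ := (C.jj T).1 hT
      obtain ⟨_, m1, r, d, t, T', rfl, m2, m3, m4, m5, m6, m9⟩ := w2 _ (C.ins.pair k4 k6) (by
        obtain ⟨r, m1, m2, m3, d, t, m4, m5, T', m7, m8⟩ := hy.2.2.1 p k1 (mem_PP.1 k3).2 T k5
        have m6 : r ∈ P := hP ▸ mem_PP.2 ⟨m1, m2⟩
        have := In.mk' (tr (In.mem (M := M) P) m6)
        have := In.mk' (tr hc m4)
        have := In.mk' (tr (In.mem (M := M) (JJ s κ1)) m7)
        exact ⟨pair (pair r T') (pair d t), In.mem _, r, d, t, T', rfl, m6, by simpa using m3, m4,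
          m5, m7, by simpa using m8⟩)
      obtain ⟨m10, m11⟩ := C.unp _ _ (C.unp _ _ m1).1
      obtain ⟨m7, m8⟩ := (C.cond r).2 ⟨hP ▸ m2, m10⟩
      exact ⟨r, m7, m8, by simpa using m3, d, t, mem_inter.2 ⟨m4, (C.unp _ _ m1).2⟩, m5, T',
        (C.jj T').2 ⟨m6, m11⟩, by simpa using m9⟩
    · exact hy.2.2.2 r k1 (mem_PP.1 ((C.cond r).1 ⟨k1, k2⟩).1).2 d t d' t' (mem_inter.1 k3).1
        (mem_inter.1 k4).1

end Pool.Agent.P.MP_9a7e1f_lc
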