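import Pool.Agent.P.MP_9a7e1f_lc.St2

/-! The definable sequence of families of trees along the constructible hierarchy. -/

set_option linter.unusedSectionVars false

namespace Pool.Agent.P.MP_9a7e1f_lc

open ZFSet Pool.Agent.P.MP_3ab3de_lc

namespace SeqAP

/-- the same pairs below `α` -/
def Ag (α s s' : ZF) : Prop := ∀ β ∈ α, ∀ U, pair β U ∈ s ↔ pair β U ∈ s'

theorem Ag.isJ {α s s' J : ZF} (h : Ag α s s') : IsJ J s α ↔ IsJ J s' α :=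
  and_congr (forall₂_congr fun _ _ => exists_congr fun β => and_congr_right fun hβ =>
    exists_congr fun U => and_congr_left fun _ => h β hβ U)
    (forall₂_congr fun β hβ => forall_congr' fun U => imp_congr_left (h β hβ U))

theorem Ag.cc {α s s' S : ZF} (h : Ag α s s') : CC s α S ↔ CC s' α S :=
  and_congr_right fun _ => and_congr_right fun _ =>
    forall₂_congr fun β hβ => forall_congr' fun U => imp_congr_left (h β hβ U)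

theorem Ag.ok {α s s' S u U : ZF} (h : Ag α s s') : OK s α S u U ↔ OK s' α S u U := by
  simp only [OK, h.isJ]

theorem Ag.step {α s s' U : ZF} {lev : ZF → ZF → ZF → Prop} (h : Ag α s s') :
    Step lev s α U ↔ Step lev s' α U := by
  simp only [Step, h.cc, h.ok]

theorem ag_res {α o s : ZF} (h : α ⊆ o) : Ag α (res s o) s := fun β hβ U => by
  simp [h hβ]

/-- a true step with its two witnesses -/
def StepT (s α U γ δ : ZF) : Prop :=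
  IsOrdinal γ ∧ CC s α (LS γ) ∧ (∀ γ' ∈ γ, ¬ CC s α (LS γ')) ∧ IsOrdinal δ ∧ U ∈ LS δ ∧
    OK s α (LS γ) (LS δ) U ∧ (∀ U' ∈ LS δ, OK s α (LS γ) (LS δ) U' → pair U' U ∉ LW δ) ∧
      ∀ δ' ∈ δ, ∀ U' ∈ LS δ', ¬ OK s α (LS γ) (LS δ') U'

theorem step_lT {s α U : ZF} : Step lT s α U ↔ ∃ γ δ, StepT s α U γ δ := by
  constructor
  · rintro ⟨γ, _, _, ⟨rfl, rfl⟩, h1, h2, h3, δ, _, _, ⟨rfl, rfl⟩, h4, h5, h6, h7, h8⟩
    exact ⟨γ, δ, h1, h2, fun γ' hγ' => h3 γ' hγ' _ _ ⟨rfl, rfl⟩, h4, h5, h6, h7,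
      fun δ' hδ' => h8 δ' hδ' _ _ ⟨rfl, rfl⟩⟩
  · rintro ⟨γ, δ, h1, h2, h3, h4, h5, h6, h7, h8⟩
    refine ⟨γ, _, _, ⟨rfl, rfl⟩, h1, h2, ?_, δ, _, _, ⟨rfl, rfl⟩, h4, h5, h6, h7, ?_⟩
    · rintro γ' hγ' _ _ ⟨rfl, rfl⟩
      exact h3 γ' hγ'
    · rintro δ' hδ' _ _ ⟨rfl, rfl⟩
      exact h8 δ' hδ'

theorem step_hier {f s α U : ZF} (hf : Hier f) (h : Step (lF f) s α U) : Step lT s α U := by
  obtain ⟨γ, S, W, k1, h1, h2, h3, δ, u, W', k2, h4, h5, h6, h7, h8⟩ := h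
  exact ⟨γ, S, W, hf.sound γ S W k1, h1, h2,
    fun γ' hγ' S' W'' h => h3 γ' hγ' S' W'' ((hf.lev k1 γ' hγ' S' W'').2 h),
    δ, u, W', hf.sound δ u W' k2, h4, h5, h6, h7,
    fun δ' hδ' S' W'' h => h8 δ' hδ' S' W'' ((hf.lev k2 δ' hδ' S' W'').2 h)⟩

theorem step_graph {o s α U : ZF} (ho : IsOrdinal o) :
    Step (lF (graph LL o)) s α U ↔ ∃ γ ∈ o, ∃ δ ∈ o, StepT s α U γ δ := by
  constructor
  · rintro ⟨γ, S, W, k1, h1, h2, h3, δ, u, W', k2, h4, h5, h6, h7, h8⟩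
    obtain ⟨k3, rfl, rfl⟩ := lev_graph.1 k1
    obtain ⟨k4, rfl, rfl⟩ := lev_graph.1 k2
    exact ⟨γ, k3, δ, k4, h1, h2,
      fun γ' hγ' => h3 γ' hγ' _ _ (lev_graph.2 ⟨ho.mem_trans hγ' k3, rfl, rfl⟩), h4, h5, h6, h7,
      fun δ' hδ' => h8 δ' hδ' _ _ (lev_graph.2 ⟨ho.mem_trans hδ' k4, rfl, rfl⟩)⟩
  · rintro ⟨γ, k3, δ, k4, h1, h2, h3, h4, h5, h6, h7, h8⟩
    refine ⟨γ, _, _, lev_graph.2 ⟨k3, rfl, rfl⟩, h1, h2, fun γ' hγ' S' W' h => ?_, δ, _, _,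
      lev_graph.2 ⟨k4, rfl, rfl⟩, h4, h5, h6, h7, fun δ' hδ' S' W' h => ?_⟩
    · obtain ⟨-, rfl, rfl⟩ := lev_graph.1 h
      exact h3 γ' hγ'
    · obtain ⟨-, rfl, rfl⟩ := lev_graph.1 h
      exact h8 δ' hδ'

theorem step_uniq {s α U U' : ZF} (h : Step lT s α U) (h' : Step lT s α U') : U = U' := by
  obtain ⟨γ, δ, h1, h2, h3, h4, h5, h6, h7, h8⟩ := step_lT.1 h
  obtain ⟨γ', δ', k1, k2, k3, k4, k5, k6, k7, k8⟩ := step_lT.1 h'
  rcases h1.mem_trichotomous k1 with e | rfl | e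
  · exact absurd h2 (k3 γ e)
  · rcases h4.mem_trichotomous k4 with e | rfl | e
    · exact absurd h6 (k8 δ e U h5)
    · rcases LW_tri h4 h5 k5 with e | e | e
      exacts [e, absurd e (k7 U h5 h6), absurd e (h7 U' k5 k6)]
    · exact absurd k6 (h8 δ' e U' k5)
  · exact absurd k2 (h3 γ' e)

theorem seq_uniq {s s' : ZF} (h : Seq lT s) (h' : Seq lT s') (α : ZF) :
    ∀ U U', pair α U ∈ s → pair α U' ∈ s' → U = U' := by
  induction α using ZFSet.inductionOn with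
  | h α ih =>
    intro U U' h1 h2
    obtain ⟨-, h3, h4⟩ := h α U h1
    obtain ⟨-, h5, h6⟩ := h' α U' h2
    have e : Ag α s s' := fun β hβ V => ⟨fun k => by
      obtain ⟨V', k'⟩ := h5 β hβ
      exact ih β hβ V V' k k' ▸ k', fun k => by
      obtain ⟨V', k'⟩ := h3 β hβ
      exact ih β hβ V' V k' k ▸ k'⟩
    exact step_uniq (e.step.1 h4) h6

variable {M : Set ZF} [hM : TModel M]

theorem df_step (a b c d : Env → ZF) [ha : Tm M a] [hb : Tm M b] [hc : Tm M c] [hd : Tm M d] :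
    Df M (fun v => Step (lF (a v)) (b v) (c v) (d v)) :=
  df_subst ((d0_step (a := 0) (b := 1) (c := 2) (d := 3)).df (trn_model M))
    (cns a (cns b (cns c fun _ => d))) (tm_cns ha (tm_cns hb (tm_cns hc fun _ => hd)))

section

variable {κ : ZF} (hκ : Hart M om κ) (hl : LK M om κ)
include hκ hl

theorem clo : Clo (LS κ) := (hart_lim hκ inf_omega).clo

theorem up {x : ZF} (hx : x ∈ LS κ) : ∃ δ ∈ κ, Lim δ ∧ x ∈ LS δ := by
  obtain ⟨β, h1, h2⟩ := (hart_lim hκ inf_omega).mem_LS.1 hx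
  obtain ⟨δ, h3, h4, h5⟩ := hl.lim β h1
  exact ⟨δ, h3, h5, LS_mono (h5.1.subset_of_mem h4) h2⟩

theorem ls_sub {β : ZF} (hβ : β ∈ κ) : LS β ⊆ LS κ := LS_mono (hκ.ord.subset_of_mem hβ)

theorem ls_mem {β : ZF} (hβ : β ∈ κ) : LS β ∈ LS κ := by
  have := In.mk' (tr hκ.mem hβ)
  exact hl.small _ (In.mem _) (ls_sub hκ hl hβ) (hl.le β hβ)

theorem lw_mem {β : ZF} (hβ : β ∈ κ) : LW β ∈ LS κ := by
  have := In.mk' (tr hκ.mem hβ)
  refine hl.small _ (In.mem _) (fun p hp => ?_)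
    ((inf_omega.prod (hl.le β hβ) (hl.le β hβ)).mono fun p hp => ?_)
  · obtain ⟨u, hu, u', hu', rfl, -⟩ := mem_LW.1 hp
    exact (clo hκ hl).2.pair (ls_sub hκ hl hβ hu) (ls_sub hκ hl hβ hu')
  · obtain ⟨u, hu, u', hu', rfl, -⟩ := mem_LW.1 hp
    exact pair_mem_prod.2 ⟨hu, hu'⟩

theorem graph_mem {F : ZF → ZF} (hF : Tm M (fun v => F (v 0))) {a : ZF} (ha : a ∈ M)
    (h1 : Le M a om) (h2 : a ⊆ LS κ) (h3 : ∀ x ∈ a, F x ∈ LS κ) : graph F a ∈ LS κ := by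
  have := fun s [Tm M s] => hF.one s
  have := In.mk' ha
  refine hl.small _ (In.mem _) (fun p hp => ?_) (inf_omega.img _ inferInstance ha h1)
  obtain ⟨x, hx, rfl⟩ := mem_graph.1 hp
  exact (clo hκ hl).2.pair (h2 hx) (h3 x hx)

theorem exists_cc {ξ g : ZF} (hξ : ξ ∈ κ) (hg : g ∈ M) (h : IsFunc ξ (LS κ) g) :
    ∃ γ, γ ∈ κ ∧ CC g ξ (LS γ) := by
  obtain ⟨f, hf, h1⟩ := hκ.le ξ hξ
  have := In.mk' hf
  have := In.mk' hg
  have := In.mk' (tr hκ.mem hξ)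
  have h2 : graph (app f) (ZFSet.sep (fun n => app f n ∈ ξ) om) ∈ LS κ :=
    graph_mem hκ hl inferInstance (In.mem _) ((Le.refl hM.infinity).mono sep_subset)
      (fun n hn => (clo hκ hl).2.om (mem_sep.1 hn).1)
      fun n hn => hl.ord (hκ.ord.mem_trans (mem_sep.1 hn).2 hξ)
  have h3 : img (app g) ξ ∈ LS κ :=
    hl.small _ (In.mem _) (fun y hy => by
      obtain ⟨x, hx, rfl⟩ := mem_img.1 hy
      exact h.app_mem' hx) (inf_omega.img _ inferInstance (In.mem _) (hκ.le ξ hξ))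
  obtain ⟨γ, h4, h5, h6⟩ := up hκ hl ((clo hκ hl).2.pair h2 h3)
  refine ⟨γ, h4, ⟨_, h5.clo.fst h6, fun n a b ha hb => ?_, fun β hβ => ?_⟩, h5.clo,
    fun β hβ U hU => h5.clo.1 _ (h5.clo.snd h6) (mem_img.2 ⟨β, hβ, h.app_eq hU⟩)⟩
  · exact (pair_mem_graph.1 ha).2.symm.trans (pair_mem_graph.1 hb).2
  · obtain ⟨n, hn, e⟩ := h1 β hβ
    exact ⟨n, pair_mem_graph.2 ⟨mem_sep.2 ⟨hn, e.symm ▸ hβ⟩, e⟩, isNat_iff.2 hn⟩

theorem stage (h2 : S_Fus) {ξ g : ZF} (hξ : ξ ∈ κ) (hg : g ∈ M) (h : IsFunc ξ (LS κ) g)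
    (H : ∀ η ∈ ξ, Step lT g η (app g η)) : ∃ U, ∃ γ ∈ κ, ∃ δ ∈ κ, StepT g ξ U γ δ := by
  obtain ⟨γ, ⟨k1, k2⟩, k3⟩ := exists_min (exists_cc hκ hl hξ hg h)
  have := In.mk' hg
  have := In.mk' (tr hκ.mem hξ)
  have := In.mk' (tr hκ.mem k1)
  have k4 : JJ g ξ ⊆ LS γ := fun T hT => by
    obtain ⟨β, hβ, hT⟩ := mem_bun.1 hT
    exact k2.2.1.1 _ (k2.2.2 β hβ _ (h.app_mem hβ)) hT
  have k5 : ∀ η ∈ ξ, T1 Fn (app g η) ∧ T2 (app g η) := fun η hη => by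
    obtain ⟨γ0, -, -, -, J, -, k⟩ := (H η hη).out
    exact ⟨k.2.1, k.2.2.1⟩
  obtain ⟨U, hU, k6, k7⟩ := h2 M (LS γ) (In.mem _) k2.2.1 (hl.le γ k1) (JJ g ξ) (In.mem _) k4
    (T1.bun fun η hη => (k5 η hη).1) (T2.bun fun η hη => (k5 η hη).2)
  have := In.mk' hU
  have k8 : U ⊆ LS κ := fun T hT => by
    refine hl.small T (tr hU hT) (fun t ht => ?_) (le_Nds.mono fun t ht => k7.2.1.nds hT ht)
    obtain ⟨k, k'⟩ := mem_Nds.1 (k7.2.1.nds hT ht)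
    exact (clo hκ hl).2.fin k (k'.subset_of_ins (clo hκ hl).2)
  have k9 : JJ g ξ ⊆ LS κ := fun T hT => ls_sub hκ hl k1 (k4 hT)
  have k10 : Le M (JJ g ξ) om := (hl.le γ k1).mono k4
  have k11 : JJ g ξ ∪ U ∈ LS κ := hl.small _ (In.mem _)
    (fun T hT => (mem_union.1 hT).elim (fun h => k9 h) fun h => k8 h)
    (inf_omega.union (In.mem _) hU k10 k6)
  obtain ⟨δ0, l1, l2, l3⟩ := up hκ hl ((clo hκ hl).2.pair (ls_mem hκ hl k1)
    ((clo hκ hl).2.pair (hl.small U hU k8 k6)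
      ((clo hκ hl).2.pair (hl.small _ (In.mem _) k9 k10) k11)))
  have l4 := l2.clo.snd l3
  have l5 := l2.clo.snd l4
  obtain ⟨δ, ⟨m1, m2⟩, m3⟩ := exists_min
    (P := fun δ => δ ∈ κ ∧ ∃ U' ∈ LS δ, OK g ξ (LS γ) (LS δ) U')
    ⟨δ0, l1, U, l2.clo.fst l4, ok_iff.2 ⟨l2.clo.1 _ (l2.clo.fst l3), l2.clo, _, l2.clo.fst l5,
      l2.clo.snd l5, (isJ_iff h fun _ hx => hx).2 rfl, k7⟩⟩
  obtain ⟨U0, m4, m5, m6⟩ := LW_min (hκ.ord.mem m1) _ m2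
  exact ⟨U0, γ, k1, δ, m1, hκ.ord.mem k1, k2,
    fun γ' hγ' k => k3 γ' hγ' ⟨hκ.ord.mem_trans hγ' k1, k⟩, hκ.ord.mem m1, m4, m5,
    fun U' _ k => m6 U' k, fun δ' hδ' U' k k' => m3 δ' hδ' ⟨hκ.ord.mem_trans hδ' m1, U', k, k'⟩⟩

theorem exists_seq (h2 : S_Fus) : ∃ s ∈ M, IsFunc κ (LS κ) s ∧
    ∀ η ∈ κ, Step (lF (graph LL κ)) s η (app s η) := by
  have := In.mk' hκ.mem
  have key : ∀ ξ g, ξ ⊆ κ → IsOrdinal ξ → IsFunc ξ (LS κ) g → ∀ η ∈ ξ,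
      Step (lF (graph LL κ)) (res g η) (dom (res g η)) (app g η) →
        Step (lF (graph LL κ)) g η (app g η) := fun ξ g _ ho h η hη k => by
    rw [(h.res (ho.subset_of_mem hη)).dom_eq] at k
    exact (ag_res fun _ hx => hx).step.1 k
  obtain ⟨s, hs, h3, h4⟩ := tdc (M := M) (fun g y => Step (lF (graph LL κ)) g (dom g) y)
    (df_step _ _ _ _) hκ.ord hκ.mem (In.mem (LS κ)) fun ξ hξ g hg h H => by
      obtain ⟨U, γ, k1, δ, k2, k3⟩ := stage hκ hl h2 hξ hg h fun η hη =>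
        step_hier (hier_graph hκ.ord)
          (key ξ g (hκ.ord.subset_of_mem hξ) (hκ.ord.mem hξ) h η hη (H η hη))
      refine ⟨U, ls_sub hκ hl k2 k3.2.2.2.2.1, ?_⟩
      rw [h.dom_eq]
      exact (step_graph hκ.ord).2 ⟨γ, k1, δ, k2, k3⟩
  exact ⟨s, hs, h3, fun η hη => key κ s (fun _ hx => hx) hκ.ord h3 η hη (h4 η hη)⟩

theorem local_seq {s α : ZF} (hs : s ∈ M) (h : IsFunc κ (LS κ) s)
    (H : ∀ η ∈ κ, Step (lF (graph LL κ)) s η (app s η)) (hα : α ∈ κ) :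
    ∃ f ∈ LS κ, ∃ s' ∈ LS κ, Hier f ∧ Seq (lF f) s' ∧ pair α (app s α) ∈ s' := by
  have := In.mk' hs
  have h1 := hκ.succ inf_omega hα
  have h2 := hκ.ord.subset_of_mem h1
  obtain ⟨η, hη, h3⟩ := hκ.bdd_wit inf_omega
    (fun β ξ => Step (lF (graph LL ξ)) s β (app s β)) (df_step _ _ _ _) (tr hκ.mem h1)
    (hκ.le _ h1) fun β hβ => by
      obtain ⟨γ, k1, δ, k2, k3⟩ := (step_graph hκ.ord).1 (H β (h2 hβ))
      have k4 := hκ.union k1 k2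
      exact ⟨_, hκ.succ inf_omega k4, (step_graph (isOrdinal_succ (hκ.ord.mem k4))).2
        ⟨γ, (mem_succ_iff (hκ.ord.mem k1) (hκ.ord.mem k4)).2 fun _ hx => mem_union.2 (Or.inl hx),
          δ, (mem_succ_iff (hκ.ord.mem k2) (hκ.ord.mem k4)).2 fun _ hx => mem_union.2 (Or.inr hx),
          k3⟩⟩
  have ho := hκ.ord.mem hη
  refine ⟨graph LL η, graph_mem hκ hl inferInstance (tr hκ.mem hη) (hκ.le η hη)
    (fun x hx => hl.ord (hκ.ord.mem_trans hx hη)) fun x hx => ?_, graph (app s) (insert α α),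
    graph_mem hκ hl inferInstance (tr hκ.mem h1) (hκ.le _ h1) (fun x hx => hl.ord (h2 hx))
      fun x hx => h.app_mem' (h2 hx), hier_graph ho, fun β U hU => ?_,
    pair_mem_graph.2 ⟨mem_insert _ _, rfl⟩⟩
  · rw [LL_eq]
    exact (clo hκ hl).2.pair (ls_mem hκ hl (hκ.ord.mem_trans hx hη))
      (lw_mem hκ hl (hκ.ord.mem_trans hx hη))
  · obtain ⟨hβ, rfl⟩ := pair_mem_graph.1 hU
    have k0 := (hκ.ord.mem h1).subset_of_mem hβ
    refine ⟨hκ.ord.mem (h2 hβ), fun β' hβ' => ⟨_, pair_mem_graph.2 ⟨k0 hβ', rfl⟩⟩, ?_⟩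
    obtain ⟨ξ, k1, k2⟩ := h3 β hβ
    obtain ⟨γ, k3, δ, k4, k5⟩ := (step_graph (ho.mem k1)).1 k2
    have e : Ag β (graph (app s) (insert α α)) s := fun β' hβ' V => by
      rw [pair_mem_graph]
      exact ⟨fun k => k.2 ▸ h.app_mem (h2 k.1), fun k => ⟨k0 hβ', h.app_eq k⟩⟩
    exact e.step.2 ((step_graph ho).2 ⟨γ, ho.mem_trans k3 k1, δ, ho.mem_trans k4 k1, k5⟩)

end

end SeqAP

open SeqAP in
theorem seqA (h1 : S_LK) (h2 : S_Fus) : S_SeqA := by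
  intro M hM hV κ hκ
  have hl := h1 M hV om κ inf_omega hκ
  obtain ⟨s, hs, h3, h4⟩ := exists_seq hκ hl h2
  have h5 : Seq lT s := fun α U hU => by
    have hα := (h3.mem hU).1
    refine ⟨hκ.ord.mem hα, fun β hβ => ⟨_, h3.app_mem (hκ.ord.mem_trans hβ hα)⟩, ?_⟩
    rw [← h3.app_eq hU]
    exact step_hier (hier_graph hκ.ord) (h4 α hα)
  obtain ⟨φ, hφ⟩ : D0 (fun v => Hier (v 1) → Seq (lF (v 1)) (v 0) →
    ∀ α U, pair α U ∈ v 0 → ∃ V ∈ U, Br (v 2) V) := inferInstance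
  refine ⟨s, hs, h3, h5, .all (.all φ), fun x hx w hw hr hxw f hf s' hs' => ?_, fun α hα => ?_⟩
  · refine (hφ w (trn_coe hw) _ (EIn.cons (EIn.cons (fun _ => hxw) hf) hs')).1
      fun k1 k2 α U hU => ?_
    have k3 : Seq lT s' := fun β V hV' =>
      ⟨(k2 β V hV').1, (k2 β V hV').2.1, step_hier k1 (k2 β V hV').2.2⟩
    have k4 : α ∈ κ := ((k3 α U hU).1.rank_lt_iff_mem hκ.ord).1
      (hr α ((trn_coe hw).fst (hw s' hs' hU)))
    rw [seq_uniq k3 h5 α U _ hU (h3.app_mem k4)]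
    exact hx α k4
  · obtain ⟨f, hf, s', hs', k1, k2, k3⟩ := local_seq hκ hl hs h3 h4 hα
    obtain ⟨δ, k4, k5, k6⟩ := up hκ hl ((clo hκ hl).2.pair hf hs')
    have := In.mk' (tr hκ.mem k4)
    refine ⟨LS δ, In.mem _, k5.clo, hl.le δ k4, fun x hx k7 k8 => k7 ?_⟩
    have k9 : IsTransitive (insert x (LS δ)) := fun y hy z hz => by
      rcases mem_insert_iff.1 hy with rfl | hy
      exacts [mem_insert_of_mem _ (hx hz), mem_insert_of_mem _ (k5.clo.1 y hy hz)]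
    have hf' : f ∈ insert x (LS δ) := mem_insert_of_mem _ (k5.clo.fst k6)
    have hs'' : s' ∈ insert x (LS δ) := mem_insert_of_mem _ (k5.clo.snd k6)
    exact (hφ _ (trn_coe k9) _ (EIn.cons (EIn.cons (fun _ => mem_insert _ _) hf') hs'')).2
      (k8 f hf' s' hs'') k1 k2 α _ k3

end Pool.Agent.P.MP_9a7e1f_lc
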