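import Pool.Agent.P.MP_9a7e1f_lc.St2

/-! The sealing induction: properties of the union of all the families of trees. -/

set_option linter.unusedSectionVars false

namespace Pool.Agent.P.MP_9a7e1f_lc

open ZFSet Pool.Agent.P.MP_3ab3de_lc

namespace SeqBP

theorem mem_JJ {s α T : ZF} : T ∈ JJ s α ↔ ∃ β ∈ α, T ∈ app s β := mem_bun

theorem JJ_mono {s α β : ZF} (h : α ⊆ β) : JJ s α ⊆ JJ s β := fun _ hT => by
  obtain ⟨γ, h1, h2⟩ := mem_JJ.1 hT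
  exact mem_JJ.2 ⟨γ, h h1, h2⟩

theorem JJ_succ (s α : ZF) : JJ s (insert α α) = JJ s α ∪ app s α := by
  ext T
  rw [mem_union, mem_JJ, mem_JJ]
  constructor
  · rintro ⟨β, h1, h2⟩
    rcases mem_insert_iff.1 h1 with rfl | h1
    exacts [Or.inr h2, Or.inl ⟨β, h1, h2⟩]
  · rintro (⟨β, h1, h2⟩ | h)
    exacts [⟨β, mem_insert_of_mem _ h1, h2⟩, ⟨α, mem_insert _ _, h⟩]

theorem succ_sub {β β' : ZF} (hβ : IsOrdinal β) (h : β' ∈ β) : insert β' β' ⊆ β := fun x hx => by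
  rcases mem_insert_iff.1 hx with rfl | hx
  exacts [h, hβ.subset_of_mem h hx]

theorem sub_succ (β : ZF) : β ⊆ insert β β := fun _ h => mem_insert_of_mem _ h

theorem succ_mono {β β' : ZF} (h1 : IsOrdinal β) (h2 : IsOrdinal β') (h : β ⊆ β') :
    insert β β ⊆ insert β' β' := by
  rcases (h1.subset_iff_eq_or_mem h2).1 h with rfl | h3
  · exact fun _ h => h
  · exact fun _ hx => sub_succ _ (succ_sub h2 h3 hx)

theorem cov_mono {α α' S S' : ZF} (h : Cov α' S) (h1 : α ⊆ α') (h2 : S ⊆ S') : Cov α S' := by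
  obtain ⟨g, k1, k2, k3⟩ := h
  exact ⟨g, h2 k1, k2, fun β hβ => k3 β (h1 hβ)⟩

theorem cc_mono {s α α' S : ZF} (h : CC s α' S) (h1 : α ⊆ α') : CC s α S :=
  ⟨cov_mono h.1 h1 fun _ h => h, h.2.1, fun β hβ => h.2.2 β (h1 hβ)⟩

/-- a finite condition over the stage `β` lives over an earlier successor stage -/
theorem val_early {s α β I E p : ZF} (hβ : IsOrdinal β) (hα : α ∈ β) (hp : Fn p)
    (h : Val I E (JJ s β) p) : ∃ β' ∈ β, α ⊆ β' ∧ Val I E (JJ s (insert β' β')) p := by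
  have key : ∃ β' ∈ β, α ⊆ β' ∧ ∀ i T, tA i T ∈ p → T ∈ JJ s (insert β' β') := by
    refine hp.ind (Q := fun b => ∃ β' ∈ β, α ⊆ β' ∧ ∀ i T, tA i T ∈ b → T ∈ JJ s (insert β' β'))
      ⟨α, hα, fun _ h => h, fun _ _ h => absurd h (notMem_empty _)⟩ ?_
    rintro x b hx - - - ⟨β', h1, h2, h3⟩
    rcases h.cases hx with ⟨i, T, rfl⟩ | ⟨e, rfl⟩
    · obtain ⟨γ, h4, h5⟩ := mem_JJ.1 (h.tA hx).2.1
      rcases (hβ.mem h1).subset_total (hβ.mem h4) with h6 | h6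
      · refine ⟨γ, h4, fun _ h => h6 (h2 h), fun j S hS => ?_⟩
        rcases mem_insert_iff.1 hS with e | hS
        · exact (tA_inj.1 e).2 ▸ mem_JJ.2 ⟨γ, mem_insert _ _, h5⟩
        · exact JJ_mono (succ_mono (hβ.mem h1) (hβ.mem h4) h6) (h3 j S hS)
      · refine ⟨β', h1, h2, fun j S hS => ?_⟩
        rcases mem_insert_iff.1 hS with e | hS
        · exact (tA_inj.1 e).2 ▸
            mem_JJ.2 ⟨γ, succ_mono (hβ.mem h4) (hβ.mem h1) h6 (mem_insert _ _), h5⟩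
        · exact h3 j S hS
    · refine ⟨β', h1, h2, fun j S hS => h3 j S ?_⟩
      exact (mem_insert_iff.1 hS).resolve_left tA_ne_nA
  obtain ⟨β', h1, h2, h3⟩ := key
  refine ⟨β', h1, h2, fun a ha => (h a ha).imp ?_ id⟩
  rintro ⟨i, k1, T, -, rfl, k2⟩
  exact ⟨i, k1, T, h3 i T ha, rfl, k2⟩

/-- the sealing induction -/
theorem sealing {κ s α I E c V W : ZF} (hα : IsOrdinal α)
    (hs : ∀ β ∈ κ, α ⊆ β → Pre Fn I E (JJ s β) c V W → Pre Fn I E (JJ s (insert β β)) c V W)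
    (h0 : Pre Fn I E (JJ s α) c V W) (β : ZF) :
    IsOrdinal β → β ⊆ κ → α ⊆ β → Pre Fn I E (JJ s β) c V W := by
  induction β using ZFSet.inductionOn with
  | _ β ih =>
    intro h1 h2 h3
    rcases (hα.subset_iff_eq_or_mem h1).1 h3 with rfl | h4
    · exact h0
    intro p hp hv
    obtain ⟨β', k1, k2, k3⟩ := val_early h1 h4 hp hv
    obtain ⟨r, r1, r2, r3⟩ := hs β' (h2 k1) k2
      (ih β' k1 (h1.mem k1) (fun _ h => h2 (h1.subset_of_mem k1 h)) k2) p hp k3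
    exact ⟨r, r1, r2.mono (fun _ h => h) (fun _ h => h) (JJ_mono (succ_sub h1 k1)), r3⟩

end SeqBP

open SeqBP in
theorem seqB : S_SeqB := by
  intro κ Q s hκ hf hs
  have key : ∀ α, ∃ γ, α ∈ κ → IsOrdinal γ ∧ CC s α (LS γ) ∧ (∀ γ' ∈ γ, ¬ CC s α (LS γ')) ∧
      GenU Fn (app s α) (JJ s α) (JJ s (insert α α)) (LS γ) := fun α => by
    by_cases hα : α ∈ κ
    · obtain ⟨γ, h1, h2, h3, J, h4, h5⟩ := (hs α _ (hf.app_mem hα)).2.2.out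
      obtain rfl := (isJ_iff hf (hκ.1.subset_of_mem hα)).1 h4
      exact ⟨γ, fun _ => ⟨h1, h2, h3, JJ_succ s α ▸ h5⟩⟩
    · exact ⟨∅, fun h => absurd h hα⟩
  choose γ hγ using key
  have mono : ∀ α ∈ κ, ∀ β ∈ κ, α ⊆ β → LS (γ α) ⊆ LS (γ β) := fun α hα β hβ h =>
    LS_mono (((hγ β hβ).1.notMem_iff_subset (hγ α hα).1).1 fun k =>
      (hγ α hα).2.2.1 _ k (cc_mono (hγ β hβ).2.1 h))
  have ne : ∀ α, ∅ ∈ α → ∃ T, T ∈ JJ s α := fun α hα => by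
    obtain ⟨T, hT⟩ := (hγ ∅ hκ.2.1).2.2.2.1
    exact ⟨T, mem_JJ.2 ⟨∅, hα, hT⟩⟩
  have sl : ∀ α ∈ κ, (∃ T, T ∈ JJ s α) → ∀ I E c V W, (∀ β ∈ κ, α ⊆ β → I ∈ LS (γ β) ∧
      E ∈ LS (γ β) ∧ c ∈ LS (γ β) ∧ V ∈ LS (γ β) ∧ W ∈ LS (γ β)) →
      Pre Fn I E (JJ s α) c V W → Pre Fn I E (JJ s κ) c V W := fun α hα hne I E c V W hw h0 => by
    refine sealing (hκ.1.mem hα) (fun β hβ h => ?_) h0 κ hκ.1 (fun _ h => h) (hκ.1.subset_of_mem hα)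
    obtain ⟨k1, k2, k3, k4, k5⟩ := hw β hβ h
    exact ((hγ β hβ).2.2.2.2.2.2.2 (hne.imp fun _ hT => JJ_mono h hT) I k1 E k2 c k3 W k5).1 V k4
  have ne' : ∀ α ∈ κ, ∃ T, T ∈ JJ s (insert α α) := fun α hα => by
    obtain ⟨T, hT⟩ := (hγ α hα).2.2.2.1
    exact ⟨T, mem_JJ.2 ⟨α, mem_insert _ _, hT⟩⟩
  have inU : ∀ α ∈ κ, ∀ β ∈ κ, insert α α ⊆ β → app s α ∈ LS (γ β) := fun α hα β hβ h =>
    (hγ β hβ).2.1.2.2 α (h (mem_insert _ _)) _ (hf.app_mem hα)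
  refine ⟨ne κ hκ.2.1, T1.bun fun α hα => (hγ α hα).2.2.2.2.1,
    T2.bun fun α hα => (hγ α hα).2.2.2.2.2.1, fun α hα T hT => ?_,
    fun α hα h0 β hβ hc I hI E hE c hc' => ?_⟩
  · have h1 : Pre Fn {∅} ∅ (JJ s (insert α α)) ∅ ∅ (app s α) := fun p hp hv => by
      obtain ⟨T0, k1, k2⟩ := hv.low (ne' α hα) ∅
      obtain ⟨V, k3, k4⟩ : ∃ V ∈ app s α, V ⊆ T0 := by
        rw [JJ_succ] at k1
        rcases mem_union.1 k1 with k1 | k1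
        exacts [(hγ α hα).2.2.2.2.2.2.1 T0 k1, ⟨T0, k1, fun _ h => h⟩]
      exact ⟨_, hp.insert _, hv.add_tA (mem_singleton.2 rfl) (mem_JJ.2 ⟨α, mem_insert _ _, k3⟩)
        fun T' h _ hx => k2 T' h (k4 hx), leq_add_tA p ∅ V, Or.inr ⟨V, k3, ∅, mem_insert _ _⟩⟩
    have h2 := sl _ (hκ.2.2 α hα) (ne' α hα) _ _ _ _ _ (fun β hβ h =>
      ⟨(hγ β hβ).2.1.2.1.2.singleton (empty_mem_LS _), empty_mem_LS _, empty_mem_LS _,
        empty_mem_LS _, inU α hα β hβ h⟩) h1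
    obtain ⟨r, -, r2, r3, r4⟩ := h2 (insert (tA ∅ T) ∅) (fn_empty.insert _)
      ((val_empty _ _ _).add_tA (mem_singleton.2 rfl) hT fun _ h => absurd h (notMem_empty _))
    rcases r4 with ⟨d, σ, h, -⟩ | ⟨V, k1, i, k2⟩
    · exact absurd h (notMem_empty _)
    · obtain rfl := mem_singleton.1 (r2.tA k2).1
      obtain ⟨T', k3, k4⟩ := (r2.tA k2).2.2
      exact ⟨T', (r2.tA k3).2.1, V, k1, k4 T (r3.1 (mem_insert _ _)), k4 V k2⟩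
  · have h1 : LS β ⊆ LS (γ α) := by
      rcases hβ.subset_total (hγ α hα).1 with h | h
      exacts [LS_mono h, absurd (cov_mono (hγ α hα).2.1.1 (fun _ h => h) (LS_mono h)) hc]
    have h2 : ∀ δ ∈ κ, α ⊆ δ → LS β ⊆ LS (γ δ) := fun δ hδ h _ hx => mono α hα δ hδ h (h1 hx)
    refine ⟨sl α hα (ne α h0) _ _ _ _ _ fun δ hδ h => ⟨h2 δ hδ h hI, h2 δ hδ h hE, h2 δ hδ h hc',
      empty_mem_LS _, empty_mem_LS _⟩, fun hy V hV => ?_⟩
    refine sl _ (hκ.2.2 α hα) (ne' α hα) _ _ _ _ _ (fun δ hδ h => ?_)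
      (((hγ α hα).2.2.2.2.2.2.2 (ne α h0) I (h1 hI) E (h1 hE) c (h1 hc') ∅ (empty_mem_LS _)).2
        hy V hV)
    have h3 : α ⊆ δ := fun _ hx => h (sub_succ α hx)
    exact ⟨h2 δ hδ h3 hI, h2 δ hδ h3 hE, h2 δ hδ h3 hc',
      (hγ δ hδ).2.1.2.1.1 _ (inU α hα δ hδ h) hV, empty_mem_LS _⟩

end Pool.Agent.P.MP_9a7e1f_lc
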