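import Pool.Agent.P.MP_9a7e1f_lc.Base

/-! Statements of the packages that do not mention the forcing notion. -/

set_option linter.unusedSectionVars false

namespace Pool.Agent.P.MP_9a7e1f_lc

open ZFSet Pool.Agent.P.MP_3ab3de_lc

/-! ### the constructible model, hulls -/

def S_LMod : Prop := ∀ (M : Set ZF) [TModel M], TModel (LM M) ∧ VL (LM M)

/-- `H` contains witnesses for `Q` -/
def Wit (M : Set ZF) (H : ZF) (Q : ZF → ZF → Prop) : Prop :=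
  ∀ x ∈ H, (∃ y ∈ M, Q x y) → ∃ y ∈ H, Q x y

def S_Hull : Prop := ∀ (M : Set ZF) [TModel M], VL M → ∀ R, Inf M R → ∀ X ∈ M, Le M X R →
  ∀ l : List (ZF → ZF → Prop), (∀ Q ∈ l, Df M (fun v => Q (v 0) (v 1))) →
  ∀ l0 : List (Env → Prop), (∀ P ∈ l0, D0 P) →
  ∃ H ∈ M, X ⊆ H ∧ Le M H R ∧ Ins H ∧ (∀ Q ∈ l, Wit M H Q) ∧
    (∀ x ∈ H, ∀ y ∈ H, col H x = col H y → x = y) ∧
    ∀ P ∈ l0, ∀ v : Env, (∀ n, v n ∈ H) → (P v ↔ P (fun n => col H (v n)))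

/-- `S` contains a function from naturals that covers `α` -/
def Cov (α S : ZF) : Prop := ∃ g ∈ S, (∀ n a b, pair n a ∈ g → pair n b ∈ g → a = b) ∧
  ∀ β ∈ α, ∃ n, pair n β ∈ g ∧ IsNat n

instance d0_cov {a b : ℕ} : D0 (fun v => Cov (v a) (v b)) := by unfold Cov; infer_instance

/-- the level at a successor cardinal -/
structure LK (M : Set ZF) (R k : ZF) : Prop where
  ord : k ⊆ LS k
  le : ∀ δ ∈ k, Le M (LS δ) R
  small : ∀ c ∈ M, c ⊆ LS k → Le M c R → c ∈ LS k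
  lim : ∀ γ ∈ k, ∃ δ ∈ k, γ ∈ δ ∧ Lim δ

def S_LK : Prop := ∀ (M : Set ZF) [TModel M], VL M → ∀ R k, Inf M R → Hart M R k → LK M R k

def S_Cnt : Prop := ∀ (M : Set ZF) [TModel M], VL M → ∀ R k, Inf M R → Hart M R k →
  ∀ X ∈ M, Le M X k → Le M (cs M X) k

/-- a countable hull -/
structure H1 (M : Set ZF) (κ X H : ZF) : Prop where
  mem : H ∈ M
  le : Le M H om
  base : X ∈ H
  ins : Ins H
  inj : ∀ x ∈ H, ∀ y ∈ H, col H x = col H y → x = y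
  unp : ∀ a b, pair a b ∈ H → a ∈ H ∧ b ∈ H
  cnt : ∀ x ∈ H, Le M x om → x ⊆ H
  fix : ∀ x ∈ H, x ∈ LS κ → col H x = x
  cut : H ∩ κ ∈ κ
  lev : ∃ β, IsOrdinal β ∧ col H X ∈ LS β ∧ ¬ Cov (H ∩ κ) (LS β)

def S_H1 : Prop := ∀ (M : Set ZF) [TModel M], VL M → ∀ κ, Hart M om κ → ∀ X ∈ M,
  ∀ l : List (ZF → ZF → Prop), (∀ Q ∈ l, Df M (fun v => Q (v 0) (v 1))) →
  ∃ H, H1 M κ X H ∧ ∀ Q ∈ l, Wit M H Q

/-! ### projective predicates of sequences of reals -/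

/-- an assignment of reals -/
def RE (N : Set ZF) (v : Env) : Prop := ∀ i, Real N (v i)

/-- agreement of the first `m` values of the first `m` reals -/
def Agr (m : ℕ) (v w : Env) : Prop := ∀ i < m, ∀ j < m, app (v i) (num j) = app (w i) (num j)

/-- boldface `Σ¹ₙ` predicates -/
def SG (N : Set ZF) : ℕ → (Env → Prop) → Prop
  | 0, P => (∃ P', Df N P' ∧ ∀ v, RE N v → (P v ↔ P' v)) ∧
      ∀ v, RE N v → P v → ∃ m, ∀ w, RE N w → Agr m v w → P w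
  | n + 1, P => ∃ Q, SG N n Q ∧ ∀ v, RE N v → (P v ↔ ∃ y, Real N y ∧ ¬ Q (cons y v))

theorem SG.congr {N : Set ZF} {n : ℕ} {P Q : Env → Prop} (h : SG N n P)
    (e : ∀ v, RE N v → (Q v ↔ P v)) : SG N n Q := by
  cases n with
  | zero =>
    obtain ⟨⟨P', h1, h2⟩, h3⟩ := h
    refine ⟨⟨P', h1, fun v hv => (e v hv).trans (h2 v hv)⟩, fun v hv hq => ?_⟩
    exact (h3 v hv ((e v hv).1 hq)).imp fun m hm w hw ha => (e w hw).2 (hm w hw ha)
  | succ n =>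
    obtain ⟨R, h1, h2⟩ := h
    exact ⟨R, h1, fun v hv => (e v hv).trans (h2 v hv)⟩

/-- the constant real -/
noncomputable def cst (j : ZF) : ZF := prod om {j}

structure Calc (N : Set ZF) : Prop where
  ren : ∀ n P (ρ : ℕ → ℕ), SG N n P → SG N n (fun v => P (fun i => v (ρ i)))
  mono : ∀ n P, SG N n P → SG N (n + 1) P
  neg : ∀ n P, SG N n P → SG N (n + 1) (fun v => ¬ P v)
  and : ∀ n P Q, SG N n P → SG N n Q → SG N n (fun v => P v ∧ Q v)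
  or : ∀ n P Q, SG N n P → SG N n Q → SG N n (fun v => P v ∨ Q v)
  ex : ∀ n P, SG N (n + 1) P → SG N (n + 1) (fun v => ∃ y, Real N y ∧ P (cons y v))
  alln : ∀ P, SG N 1 P → SG N 1 (fun v => ∀ j ∈ om, P (cons (cst j) v))
  exn : ∀ P, SG N 1 P → SG N 1 (fun v => ∃ j ∈ om, P (cons (cst j) v))
  delta : ∀ n P, SG N n P → SG N n (fun v => ¬ P v) → ∃ R, Delta N n 2 R ∧
    ∀ x y, Real N x → Real N y → (pt2 x y ∈ R ↔ P (cons x fun _ => y))

def S_Calc : Prop := ∀ (N : Set ZF) [TModel N], Calc N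

/-- only finitely many nodes of `r` lie on `(x, y)` -/
def FF (r x y : ZF) : Prop :=
  ∃ n ∈ om, ∀ s t, pair s t ∈ r → s ⊆ x → t ⊆ y → ∀ j, pair n j ∉ s

def S_Low : Prop := ∀ (N : Set ZF) [TModel N] (κ : ZF), Hart N om κ → ∀ (φ : Fml) (A : ZF → Prop),
  (∀ x, Real N x → A x → ∀ w : ZF, IsTransitive w → (∀ y ∈ w, rank y < rank κ) → x ∈ w →
    Sat (w : Set ZF) φ (fun _ => x)) →
  (∀ x, Real N x → ¬ A x → ∃ w ∈ N, IsTransitive w ∧ Le N w om ∧ x ∈ w ∧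
    ¬ Sat (w : Set ZF) φ (fun _ => x)) →
  ∀ r ∈ N, (∀ s t, pair s t ∈ r → Fn s ∧ Fn t) → ∀ m, 3 ≤ m → ∃ R, Delta N m 2 R ∧
    ∀ x y, Real N x → Real N y → (pt2 x y ∈ R ↔ ¬ A y ∨ (A x ∧ FF r x y))

/-! ### forcing of projective statements -/

/-- value of a name for a subset of a ground model set -/
noncomputable def vl (G A : ZF) : ZF := img snd (ZFSet.sep (fun z => ∃ p ∈ G, z = pair p (snd z)) A)

theorem mem_vl {G A b : ZF} : b ∈ vl G A ↔ ∃ p ∈ G, pair p b ∈ A := by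
  simp only [vl, mem_img, mem_sep]
  constructor
  · rintro ⟨z, ⟨h1, p, hp, e⟩, rfl⟩
    exact ⟨p, hp, e ▸ h1⟩
  · rintro ⟨p, hp, h⟩
    exact ⟨_, ⟨h, p, hp, by rw [snd_pair]⟩, snd_pair _ _⟩

/-- `p` puts `b` into the value of `A` -/
def dec (L p A b : ZF) : Prop := ∃ d, pair d b ∈ A ∧ pair p d ∈ L

/-- the countable chain condition -/
def CCC (M : Set ZF) (P L : ZF) : Prop := ∀ D ∈ M, D ⊆ P → ∃ D' ∈ M, D' ⊆ D ∧ Le M D' om ∧
  ∀ d ∈ D, ∀ r, pair r d ∈ L → ∃ d' ∈ D', ∃ r', pair r' r ∈ L ∧ pair r' d' ∈ L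

/-- countable names for reals -/
noncomputable def NN (M : Set ZF) (P : ZF) : ZF := cs M (prod P (prod om om))

/-- `p` forces that `A` names a real -/
def RealF (L p A : ZF) : Prop :=
  (∀ n ∈ om, ∀ q, pair q p ∈ L → ∃ r, pair r q ∈ L ∧ ∃ j ∈ om, dec L r A (pair n j)) ∧
    ∀ q, pair q p ∈ L → ∀ n ∈ om, ∀ j ∈ om, ∀ j' ∈ om, dec L q A (pair n j) →
      dec L q A (pair n j') → j = j'

/-- the name of `app1 k e y` -/
noncomputable def ext (k : ℕ) (U A : ZF) : ZF :=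
  U ∪ img (fun z => pair (fst z) (pair (pair (num k) (fst (snd z))) (snd (snd z)))) A

/-- evaluation of a code `T` of an open set under `n` alternating quantifiers -/
def Ev (N : Set ZF) : ℕ → ℕ → ZF → ZF → Prop
  | 0, _, T, e => ∃ s ∈ T, s ⊆ e
  | n + 1, k, T, e => ∃ y, Real N y ∧ ¬ Ev N n (k + 1) T (app1 k e y)

/-- strong forcing of `Ev` -/
def Fo (M : Set ZF) (P L : ZF) : ℕ → ℕ → ZF → ZF → ZF → Prop
  | 0, _, p, T, U => ∃ s, dec L p T s ∧ ∀ b ∈ s, dec L p U b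
  | n + 1, k, p, T, U => ∃ A ∈ NN M P, RealF L p A ∧
      ∀ r, pair r p ∈ L → ¬ Fo M P L n (k + 1) r T (ext k U A)

instance df_dec {M : Set ZF} [TModel M] {a b c d : Env → ZF} [Tm M a] [Tm M b] [Tm M c] [Tm M d] :
    Df M (fun v => dec (a v) (b v) (c v) (d v)) := by unfold dec; infer_instance

set_option synthInstance.maxSize 1024 in
instance df_realF {M : Set ZF} [TModel M] {a b c : Env → ZF} [Tm M a] [Tm M b] [Tm M c] :
    Df M (fun v => RealF (a v) (b v) (c v)) := by unfold RealF; infer_instance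

instance tm_ext {M : Set ZF} [TModel M] {k : ℕ} {a b : Env → ZF} [Tm M a] [Tm M b] :
    Tm M (fun v => ext k (a v) (b v)) := by unfold ext; infer_instance

instance tm_NN {M : Set ZF} [TModel M] {a : Env → ZF} [Tm M a] : Tm M (fun v => NN M (a v)) := by
  unfold NN; infer_instance

instance tm_vl {M : Set ZF} [TModel M] {a b : Env → ZF} [Tm M a] [Tm M b] :
    Tm M (fun v => vl (a v) (b v)) := by unfold vl; infer_instance

instance df_fo {M : Set ZF} [TModel M] {P L : ZF} [In M P] [In M L] (n : ℕ) :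
    ∀ (k : ℕ) (a b c : Env → ZF) [Tm M a] [Tm M b] [Tm M c],
      Df M (fun v => Fo M P L n k (a v) (b v) (c v)) := by
  induction n with
  | zero => intro k a b c _ _ _; unfold Fo dec; infer_instance
  | succ n ih => intro k a b c _ _ _; unfold Fo; infer_instance

/-- a generic extension by a c.c.c. preorder -/
structure FX (M N : Set ZF) (P L G : ZF) : Prop where
  hP : P ∈ M
  hL : L ∈ M
  po : PO P L
  ccc : CCC M P L
  gen : Gen M P L G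
  ne : ∃ p, p ∈ G
  ext : Ext M N P G

def S_Nice : Prop := ∀ (M N : Set ZF) [TModel M] (P L G : ZF), FX M N P L G →
  ∀ a ∈ M, Le M a om → ∀ X ∈ N, X ⊆ a → ∃ A ∈ cs M (prod P a), vl G A = X

def S_Truth : Prop := ∀ (M N : Set ZF) [TModel M] (P L G : ZF), FX M N P L G →
  ∀ (n k : ℕ), ∀ T ∈ M, ∀ U ∈ M, (∀ s ∈ vl G T, Fn s) →
    (Ev N n k (vl G T) (vl G U) ↔ ∃ p ∈ G, Fo M P L n k p T U)

def S_Card : Prop := ∀ (M N : Set ZF) [TModel M] (P L G : ZF), FX M N P L G →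
  ∀ R k, Inf M R → Hart M R k → Hart N R k

/-- partial isomorphisms of the preorder -/
def CF0 (M : Set ZF) (P L H : ZF) : Prop :=
  H ∈ M ∧ (∀ p p', pair p p' ∈ H → p ∈ P ∧ p' ∈ P) ∧
    ∀ p p' q q', pair p p' ∈ H → pair q q' ∈ H → (pair p q ∈ L ↔ pair p' q' ∈ L)

/-- partial isomorphisms that survive `k` countable moves -/
def CF (M : Set ZF) (P L : ZF) : ℕ → ZF → Prop
  | 0, H => CF0 M P L H
  | k + 1, H => CF0 M P L H ∧
      (∀ X ∈ cs M P, ∃ H', H ⊆ H' ∧ CF M P L k H' ∧ ∀ p ∈ X, ∃ p', pair p p' ∈ H') ∧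
      ∀ X ∈ cs M P, ∃ H', H ⊆ H' ∧ CF M P L k H' ∧ ∀ p' ∈ X, ∃ p, pair p p' ∈ H'

/-- related names -/
def RelN (H A A' : ZF) : Prop :=
  (∀ d b, pair d b ∈ A → ∃ d', pair d d' ∈ H ∧ pair d' b ∈ A') ∧
    ∀ d' b, pair d' b ∈ A' → ∃ d, pair d d' ∈ H ∧ pair d b ∈ A

/-- among `κ` many conditions with names, two can be swapped -/
def Hom (M : Set ZF) (P L κ : ZF) (k : ℕ) : Prop :=
  ∀ X ∈ cs M P, ∀ f ∈ M, ∀ g ∈ M, (∀ ξ ∈ κ, app f ξ ∈ P ∧ app g ξ ∈ NN M P) →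
    ∃ ξ ∈ κ, ∃ η ∈ κ, ξ ≠ η ∧ ∃ q H, pair q (app f ξ) ∈ L ∧ pair q (app f η) ∈ L ∧
      CF M P L k H ∧ pair q q ∈ H ∧ (∀ d ∈ X, pair d d ∈ H) ∧
      RelN H (app g ξ) (app g η) ∧ RelN H (app g η) (app g ξ)

def S_EF : Prop := ∀ (M : Set ZF) [TModel M] (P L : ZF), P ∈ M → L ∈ M → PO P L →
  ∀ (n k : ℕ) (H p p' T T' U U' : ZF), CF M P L (2 * n + 1) H → pair p p' ∈ H → RelN H T T' →
    RelN H U U' → (Fo M P L n k p T U ↔ Fo M P L n k p' T' U')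

def S_Upper : Prop := ∀ (M N : Set ZF) [TModel M] (P L G : ZF), FX M N P L G →
  ∀ κ ∈ M, IsOrdinal κ → (∀ k, Hom M P L κ k) →
  ∀ (n : ℕ) (R α : ZF), Sigma N n 2 R → PwoLen N R α → α ⊆ κ

/-! ### back and forth between ordinals -/

/-- order preserving relations -/
def EO0 (M : Set ZF) (X X' e : ZF) : Prop :=
  e ∈ M ∧ e ⊆ prod X X' ∧ ∀ x x' y y', pair x x' ∈ e → pair y y' ∈ e → (x ⊆ y ↔ x' ⊆ y')

/-- order preserving relations that survive `k` countable moves -/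
def EO (M : Set ZF) : ℕ → ZF → ZF → ZF → Prop
  | 0, X, X', e => EO0 M X X' e
  | k + 1, X, X', e => EO0 M X X' e ∧
      (∀ Y ∈ cs M X, ∃ e' ∈ M, e ⊆ e' ∧ EO M k X X' e' ∧ ∀ x ∈ Y, ∃ x', pair x x' ∈ e') ∧
      ∀ Y ∈ cs M X', ∃ e' ∈ M, e ⊆ e' ∧ EO M k X X' e' ∧ ∀ x' ∈ Y, ∃ x, pair x x' ∈ e'

set_option synthInstance.maxSize 1024 in
instance df_eo0 {M : Set ZF} [TModel M] {a b c : Env → ZF} [Tm M a] [Tm M b] [Tm M c] :
    Df M (fun v => EO0 M (a v) (b v) (c v)) := by unfold EO0; infer_instance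

set_option synthInstance.maxSize 1024 in
instance df_eo {M : Set ZF} [TModel M] (k : ℕ) :
    ∀ (a b c : Env → ZF) [Tm M a] [Tm M b] [Tm M c], Df M (fun v => EO M k (a v) (b v) (c v)) := by
  induction k with
  | zero => intro a b c _ _ _; unfold EO; infer_instance
  | succ k ih => intro a b c _ _ _; unfold EO; infer_instance

theorem EO.zero {M : Set ZF} {k : ℕ} {X X' e : ZF} (h : EO M k X X' e) : EO0 M X X' e := by
  cases k
  exacts [h, h.1]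

/-- a total and onto order preserving relation survives for ever -/
theorem EO.of_total {M : Set ZF} {X X' e : ZF} (h : EO0 M X X' e) (h1 : ∀ x ∈ X, ∃ x', pair x x' ∈ e)
    (h2 : ∀ x' ∈ X', ∃ x, pair x x' ∈ e) (k : ℕ) : EO M k X X' e := by
  induction k with
  | zero => exact h
  | succ k ih =>
    exact ⟨h, fun Y hY => ⟨e, h.1, fun _ h => h, ih, fun x hx => h1 x ((mem_cs.1 hY).1.1 hx)⟩,
      fun Y hY => ⟨e, h.1, fun _ h => h, ih, fun x hx => h2 x ((mem_cs.1 hY).1.1 hx)⟩⟩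

/-- the left end of the gap of `Y` below `b` -/
noncomputable def gl (Y b : ZF) : ZF := bun (fun y => insert y y) (Y ∩ b)

instance tm_gl {M : Set ZF} [TModel M] {a b : Env → ZF} [Tm M a] [Tm M b] :
    Tm M (fun v => gl (a v) (b v)) := by unfold gl; infer_instance

/-- ordered sums -/
def S_Sum : Prop := ∀ (M : Set ZF) [TModel M] (k : ℕ), ∀ B ∈ M, ∀ X ∈ M, ∀ X' ∈ M, ∀ e ∈ M,
  (∀ b ∈ B, EO M k (app X b) (app X' b) (app e b)) →
  (∀ b ∈ B, ∀ c ∈ B, b ≠ c → ∀ x ∈ app X b, ∀ x' ∈ app X' b, ∀ y ∈ app X c, ∀ y' ∈ app X' c,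
    (x ⊆ y ↔ x' ⊆ y')) →
  EO M k (bun (app X) B) (bun (app X') B) (bun (app e) B)

/-- intervals of ordinals fall into few classes -/
def S_Gap : Prop := ∀ (M : Set ZF) [TModel M] (κ1 R κ : ZF), Hart M om κ1 → Inf M R → Le M κ1 R →
  Hart M R κ → ∀ k : ℕ, ∃ Z ∈ M, Le M Z R ∧ ∃ t ∈ M, (∀ l ∈ κ, ∀ b ∈ κ, app t (pair l b) ∈ Z) ∧
    ∀ l ∈ κ, ∀ b ∈ κ, ∀ l' ∈ κ, ∀ b' ∈ κ, l ⊆ b → l' ⊆ b' →
      app t (pair l b) = app t (pair l' b') → EO M k (b \ l) (b' \ l') ∅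

def S_Typ : Prop := ∀ (M : Set ZF) [TModel M] (κ1 R κ : ZF), Hart M om κ1 → Inf M R → Le M κ1 R →
  Hart M R κ → ∀ k : ℕ, ∃ Z ∈ M, Le M Z R ∧ ∃ t ∈ M, (∀ l ∈ κ, ∀ b ∈ κ, app t (pair l b) ∈ Z) ∧
    ∀ ζ ∈ κ, ∀ ζ' ∈ κ, ∀ e, EO0 M ζ ζ' e →
      (∀ b b', pair b b' ∈ e ∨ (b = ζ ∧ b' = ζ') →
        app t (pair (gl (img fst e) b) b) = app t (pair (gl (img snd e) b') b')) →
      EO M k ζ ζ' e

end Pool.Agent.P.MP_9a7e1f_lc
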