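import Pool.Agent.P.MP_9a7e1f_lc.Pos

/-! Statements of the packages about the forcing notion and the sequence of tree families. -/

set_option linter.unusedSectionVars false

namespace Pool.Agent.P.MP_9a7e1f_lc

open ZFSet Pool.Agent.P.MP_3ab3de_lc

theorem pre_iff {I E J c V W : ZF} : Pre Fn I E J c V W ↔
    ∀ p ∈ PP I E J, ∃ r ∈ PP I E J, Leq r p ∧ Hit c V W r := by
  simp only [Pre, mem_PP, and_imp, and_assoc]

/-! ### the index set and the coded relations -/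

noncomputable def BB (κ : ZF) : ZF := ZFSet.sep (fun b => snd b ∈ fst b) (prod κ κ)

/-- the indices of the generic reals -/
noncomputable def II (M : Set ZF) (κ : ZF) : ZF := cs M (BB κ)

/-- the least point of `i` at coordinate `ζ` is at most that of `j` -/
def Rl (ζ i j : ZF) : Prop := ∀ γ', pair ζ γ' ∈ j → ∃ γ, pair ζ γ ∈ i ∧ γ ⊆ γ'

/-- the allowed atoms besides the tree atoms -/
noncomputable def EE (M : Set ZF) (κ : ZF) : ZF :=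
  img (fun z => ndE (fst z) (fst (snd z)) (snd (snd z))) (prod κ (prod Nds Nds)) ∪
    img (fun z => prE (fst z) (fst (snd z)) (snd (snd z)))
      (ZFSet.sep (fun z => Rl (fst z) (fst (snd z)) (snd (snd z))) (prod κ (prod (II M κ) (II M κ))))

theorem pair_mem_BB {κ ζ γ : ZF} : pair ζ γ ∈ BB κ ↔ ζ ∈ κ ∧ γ ∈ κ ∧ γ ∈ ζ := by
  simp [BB, and_assoc]

theorem mem_BB {κ b : ZF} (h : b ∈ BB κ) : ∃ ζ ∈ κ, ∃ γ ∈ ζ, b = pair ζ γ := by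
  obtain ⟨ζ, h1, γ, -, rfl⟩ := mem_prod.1 (mem_sep.1 h).1
  exact ⟨ζ, h1, γ, (pair_mem_BB.1 h).2.2, rfl⟩

theorem mem_II {M : Set ZF} {κ i : ZF} : i ∈ II M κ ↔ (i ⊆ BB κ ∧ i ∈ M) ∧ Le M i om := mem_cs

theorem mem_EE {M : Set ZF} {κ e : ZF} : e ∈ EE M κ ↔
    (∃ ζ ∈ κ, ∃ s ∈ Nds, ∃ t ∈ Nds, e = ndE ζ s t) ∨
      ∃ ζ ∈ κ, ∃ i ∈ II M κ, ∃ j ∈ II M κ, Rl ζ i j ∧ e = prE ζ i j := by
  simp only [EE, mem_union, mem_img, mem_sep]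
  refine or_congr ⟨?_, ?_⟩ ⟨?_, ?_⟩
  · rintro ⟨z, hz, rfl⟩
    obtain ⟨ζ, h1, y, hy, rfl⟩ := mem_prod.1 hz
    obtain ⟨s, h2, t, h3, rfl⟩ := mem_prod.1 hy
    exact ⟨ζ, h1, s, h2, t, h3, by simp⟩
  · rintro ⟨ζ, h1, s, h2, t, h3, rfl⟩
    exact ⟨pair ζ (pair s t), by simp [h1, h2, h3], by simp⟩
  · rintro ⟨z, ⟨hz, h⟩, rfl⟩
    obtain ⟨ζ, h1, y, hy, rfl⟩ := mem_prod.1 hz
    obtain ⟨s, h2, t, h3, rfl⟩ := mem_prod.1 hy
    exact ⟨ζ, h1, s, h2, t, h3, by simpa using h, by simp⟩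
  · rintro ⟨ζ, h1, s, h2, t, h3, h, rfl⟩
    exact ⟨pair ζ (pair s t), by simp [h1, h2, h3, h], by simp⟩

theorem ndE_mem_EE {M : Set ZF} {κ ζ s t : ZF} : ndE ζ s t ∈ EE M κ ↔ ζ ∈ κ ∧ s ∈ Nds ∧ t ∈ Nds := by
  simp [mem_EE]

theorem prE_mem_EE {M : Set ZF} {κ ζ i j : ZF} :
    prE ζ i j ∈ EE M κ ↔ ζ ∈ κ ∧ i ∈ II M κ ∧ j ∈ II M κ ∧ Rl ζ i j := by
  simp only [mem_EE, prE_ne_ndE, and_false, exists_false, false_or, prE_inj]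
  constructor
  · rintro ⟨_, h1, _, h2, _, h3, h4, rfl, rfl, rfl⟩
    exact ⟨h1, h2, h3, h4⟩
  · rintro ⟨h1, h2, h3, h4⟩
    exact ⟨_, h1, _, h2, _, h3, h4, rfl, rfl, rfl⟩

theorem Rl.refl (ζ i : ZF) : Rl ζ i i := fun γ h => ⟨γ, h, fun _ h => h⟩

theorem Rl.trans {ζ i j k : ZF} (h : Rl ζ i j) (h' : Rl ζ j k) : Rl ζ i k := fun γ h1 => by
  obtain ⟨γ1, h2, h3⟩ := h' γ h1
  obtain ⟨γ2, h4, h5⟩ := h γ1 h2
  exact ⟨γ2, h4, fun _ hx => h3 (h5 hx)⟩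

/-- `σ` is an involution of `κ` -/
def Inv (κ σ : ZF) : Prop := ∀ ζ ∈ κ, app σ ζ ∈ κ ∧ app σ (app σ ζ) = ζ

def RS (κ σ ζ ζ' : ZF) : Prop := ζ ∈ κ ∧ ζ' = app σ ζ

def RI (M : Set ZF) (κ σ e i i' : ZF) : Prop := i ∈ II M κ ∧ i' ∈ II M κ ∧
  (∀ ζ γ, pair ζ γ ∈ i → ∃ γ', pair (app σ ζ) γ' ∈ i' ∧ pair γ γ' ∈ app e ζ) ∧
    ∀ ζ ∈ κ, ∀ γ', pair (app σ ζ) γ' ∈ i' → ∃ γ, pair ζ γ ∈ i ∧ pair γ γ' ∈ app e ζ

/-- the relation on conditions given by `σ` and the family `e` -/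
noncomputable def HH (M : Set ZF) (κ J σ e : ZF) : ZF :=
  ZFSet.sep (fun z => RC (RS κ σ) (RI M κ σ e) (fst z) (snd z))
    (prod (PP (II M κ) (EE M κ) J) (PP (II M κ) (EE M κ) J))

theorem mem_HH {M : Set ZF} {κ J σ e p p' : ZF} : pair p p' ∈ HH M κ J σ e ↔
    p ∈ PP (II M κ) (EE M κ) J ∧ p' ∈ PP (II M κ) (EE M κ) J ∧ RC (RS κ σ) (RI M κ σ e) p p' := by
  simp [HH, and_assoc]

theorem biU_RS {κ σ : ZF} (h : Inv κ σ) : BiU (RS κ σ) := by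
  rintro a _ b _ ⟨h1, rfl⟩ ⟨h2, rfl⟩
  exact ⟨fun e => e ▸ rfl, fun e => by rw [← (h a h1).2, e, (h b h2).2]⟩

theorem EO0.uniq {M : Set ZF} {X X' e x x' y y' : ZF} (h : EO0 M X X' e) (h1 : pair x x' ∈ e)
    (h2 : pair y y' ∈ e) : x = y ↔ x' = y' := by
  rw [subset_antisymm_iff, subset_antisymm_iff, h.2.2 _ _ _ _ h1 h2, h.2.2 _ _ _ _ h2 h1]

theorem biU_RI {M : Set ZF} {κ σ e : ZF} (h : Inv κ σ)
    (he : ∀ ζ ∈ κ, EO0 M ζ (app σ ζ) (app e ζ)) : BiU (RI M κ σ e) := by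
  have k1 : ∀ i i' j', RI M κ σ e i i' → RI M κ σ e i j' → i' ⊆ j' := fun i i' j' h1 h2 b hb => by
    obtain ⟨ζ', h3, γ', -, rfl⟩ := mem_BB ((mem_II.1 h1.2.1).1.1 hb)
    obtain ⟨h4, h5⟩ := h ζ' h3
    obtain ⟨γ, h6, h7⟩ := h1.2.2.2 _ h4 γ' (h5.symm ▸ hb)
    obtain ⟨γ'', h8, h9⟩ := h2.2.2.1 _ _ h6
    rw [((he _ h4).uniq h7 h9).1 rfl]
    rwa [h5] at h8
  have k2 : ∀ i j i', RI M κ σ e i i' → RI M κ σ e j i' → i ⊆ j := fun i j i' h1 h2 b hb => by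
    obtain ⟨ζ, h3, γ, -, rfl⟩ := mem_BB ((mem_II.1 h1.1).1.1 hb)
    obtain ⟨γ', h6, h7⟩ := h1.2.2.1 _ _ hb
    obtain ⟨γ2, h8, h9⟩ := h2.2.2.2 _ h3 _ h6
    rwa [((he _ h3).uniq h7 h9).2 rfl]
  intro i i' j j' h1 h2
  constructor
  · rintro rfl
    exact subset_antisymm (k1 _ _ _ h1 h2) (k1 _ _ _ h2 h1)
  · rintro rfl
    exact subset_antisymm (k2 _ _ _ h1 h2) (k2 _ _ _ h2 h1)

section df

variable {M : Set ZF} [hM : TModel M] {a b c d e f : Env → ZF} [Tm M a] [Tm M b] [Tm M c] [Tm M d]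
  [Tm M e] [Tm M f]

instance tm_BB : Tm M (fun v => BB (a v)) := by unfold BB; infer_instance

instance tm_II : Tm M (fun v => II M (a v)) := by unfold II; infer_instance

instance df_rl : Df M (fun v => Rl (a v) (b v) (c v)) := by unfold Rl; infer_instance

set_option synthInstance.maxSize 1024 in
instance tm_EE : Tm M (fun v => EE M (a v)) := by unfold EE; infer_instance

instance df_rs : Df M (fun v => RS (a v) (b v) (c v) (d v)) := by unfold RS; infer_instance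

set_option synthInstance.maxSize 1024 in
instance df_ri : Df M (fun v => RI M (a v) (b v) (c v) (d v) (e v)) := by unfold RI; infer_instance

set_option synthInstance.maxSize 4096 in
instance df_ra : Df M (fun v => RA (RS (a v) (b v)) (RI M (a v) (b v) (c v)) (d v) (e v)) := by
  unfold RA; infer_instance

instance df_rc : Df M (fun v => RC (RS (a v) (b v)) (RI M (a v) (b v) (c v)) (d v) (e v)) := by
  unfold RC; infer_instance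

instance tm_HH : Tm M (fun v => HH M (a v) (b v) (c v) (d v)) := by unfold HH; infer_instance

instance df_pre : Df M (fun v => Pre Fn (a v) (b v) (c v) (d v) (e v) (f v)) :=
  (inferInstance : Df M (fun v => ∀ p ∈ PP (a v) (b v) (c v), ∃ r ∈ PP (a v) (b v) (c v),
    Leq r p ∧ Hit (d v) (e v) (f v) r)).congr fun _ _ => pre_iff

end df

def S_Prod : Prop := ∀ (M : Set ZF) [TModel M], ∀ κ ∈ M, IsOrdinal κ → ∀ J ∈ M, ∀ σ ∈ M, Inv κ σ →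
  ∀ (k : ℕ), ∀ e ∈ M, (∀ ζ ∈ κ, EO M k ζ (app σ ζ) (app e ζ)) →
    CF M (PP (II M κ) (EE M κ) J) (LP (II M κ) (EE M κ) J) k (HH M κ J σ e)

def S_Pig : Prop := ∀ (M : Set ZF) [TModel M] (κ1 R κ : ZF), Hart M om κ1 → Inf M R → Le M κ1 R →
  Hart M R κ → (∀ X ∈ M, Le M X R → Le M (cs M X) R) → ∀ J ∈ M, Le M J R →
  ∀ k, Hom M (PP (II M κ) (EE M κ) J) (LP (II M κ) (EE M κ) J) κ k

/-! ### the sequence of families of trees -/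

def S_Fus : Prop := ∀ (M : Set ZF) [TModel M], ∀ w ∈ M, Clo w → Le M w om → ∀ J ∈ M, J ⊆ w →
  T1 Fn J → T2 J → ∃ U ∈ M, Le M U om ∧ GenU Fn U J (J ∪ U) w

/-- `J` is the union of the values of `s` below `α` -/
def IsJ (J s α : ZF) : Prop := (∀ T ∈ J, ∃ β ∈ α, ∃ U, pair β U ∈ s ∧ T ∈ U) ∧
  ∀ β ∈ α, ∀ U, pair β U ∈ s → U ⊆ J

def IsUn (J' J U : ZF) : Prop := J ⊆ J' ∧ U ⊆ J' ∧ ∀ T ∈ J', T ∈ J ∨ T ∈ U

def CC (s α S : ZF) : Prop := Cov α S ∧ Clo S ∧ ∀ β ∈ α, ∀ U, pair β U ∈ s → U ∈ S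

def OK (s α S u U : ZF) : Prop :=
  S ⊆ u ∧ Clo u ∧ ∃ J ∈ u, ∃ J' ∈ u, IsJ J s α ∧ IsUn J' J U ∧ GenU (KB u) U J J' S

/-- `U` is the family chosen at stage `α`, with the levels read from `lev` -/
def Step (lev : ZF → ZF → ZF → Prop) (s α U : ZF) : Prop :=
  ∃ γ S W, lev γ S W ∧ IsOrdinal γ ∧ CC s α S ∧
    (∀ γ' ∈ γ, ∀ S' W', lev γ' S' W' → ¬ CC s α S') ∧
    ∃ δ u W', lev δ u W' ∧ IsOrdinal δ ∧ U ∈ u ∧ OK s α S u U ∧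
      (∀ U' ∈ u, OK s α S u U' → pair U' U ∉ W') ∧
      ∀ δ' ∈ δ, ∀ u' W'', lev δ' u' W'' → ∀ U' ∈ u', ¬ OK s α S u' U'

def Seq (lev : ZF → ZF → ZF → Prop) (s : ZF) : Prop :=
  ∀ α U, pair α U ∈ s → IsOrdinal α ∧ (∀ β ∈ α, ∃ U', pair β U' ∈ s) ∧ Step lev s α U

/-- the levels read from `f` -/
def lF (f β S W : ZF) : Prop := pair β (pair S W) ∈ f

instance d0_isJ {a b c : ℕ} : D0 (fun v => IsJ (v a) (v b) (v c)) := by unfold IsJ; infer_instance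

instance d0_isUn {a b c : ℕ} : D0 (fun v => IsUn (v a) (v b) (v c)) := by unfold IsUn; infer_instance

instance d0_cc {a b c : ℕ} : D0 (fun v => CC (v a) (v b) (v c)) := by unfold CC; infer_instance

instance d0_ok {a b c d e : ℕ} : D0 (fun v => OK (v a) (v b) (v c) (v d) (v e)) := by
  unfold OK; infer_instance

set_option synthInstance.maxSize 4096 in
instance d0_step {a b c d : ℕ} : D0 (fun v => Step (lF (v a)) (v b) (v c) (v d)) := by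
  unfold Step lF; infer_instance

instance d0_seq {a b : ℕ} : D0 (fun v => Seq (lF (v a)) (v b)) := by unfold Seq; infer_instance

theorem isUn_iff {J' J U : ZF} : IsUn J' J U ↔ J' = J ∪ U := by
  constructor
  · rintro ⟨h1, h2, h3⟩
    ext T
    rw [mem_union]
    exact ⟨h3 T, fun h => h.elim (fun h => h1 h) fun h => h2 h⟩
  · rintro rfl
    exact ⟨fun _ h => mem_union.2 (Or.inl h), fun _ h => mem_union.2 (Or.inr h),
      fun _ h => mem_union.1 h⟩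

/-- the union of the families below `α` -/
noncomputable def JJ (s α : ZF) : ZF := bun (app s) α

instance tm_JJ {M : Set ZF} [TModel M] {a b : Env → ZF} [Tm M a] [Tm M b] :
    Tm M (fun v => JJ (a v) (b v)) := by unfold JJ; infer_instance

theorem isJ_iff {o Q s α J : ZF} (h : IsFunc o Q s) (hα : α ⊆ o) : IsJ J s α ↔ J = JJ s α := by
  constructor
  · rintro ⟨h1, h2⟩
    ext T
    rw [JJ, mem_bun]
    constructor
    · intro hT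
      obtain ⟨β, h3, U, h4, h5⟩ := h1 T hT
      exact ⟨β, h3, h.app_eq h4 ▸ h5⟩
    · rintro ⟨β, h3, h4⟩
      exact h2 β h3 _ (h.app_mem (hα h3)) h4
  · rintro rfl
    refine ⟨fun T hT => ?_, fun β h1 U h2 T hT => mem_bun.2 ⟨β, h1, (h.app_eq h2).symm ▸ hT⟩⟩
    obtain ⟨β, h3, h4⟩ := mem_bun.1 hT
    exact ⟨β, h3, _, h.app_mem (hα h3), h4⟩

theorem ok_iff {s α S u U : ZF} : OK s α S u U ↔
    S ⊆ u ∧ Clo u ∧ ∃ J ∈ u, J ∪ U ∈ u ∧ IsJ J s α ∧ GenU Fn U J (J ∪ U) S := by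
  refine and_congr_right fun h1 => and_congr_right fun h2 => exists_congr fun J =>
    and_congr_right fun h3 => ⟨?_, ?_⟩
  · rintro ⟨J', h4, h5, h6, h7⟩
    obtain rfl := isUn_iff.1 h6
    exact ⟨h4, h5, (genU_bnd h2 (h2.1 _ h3) (h2.1 _ h4) h1).1 h7⟩
  · rintro ⟨h4, h5, h7⟩
    exact ⟨_, h4, h5, isUn_iff.2 rfl, (genU_bnd h2 (h2.1 _ h3) (h2.1 _ h4) h1).2 h7⟩

/-- what a true step gives -/
theorem Step.out {s α U : ZF} (h : Step lT s α U) : ∃ γ, IsOrdinal γ ∧ CC s α (LS γ) ∧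
    (∀ γ' ∈ γ, ¬ CC s α (LS γ')) ∧ ∃ J, IsJ J s α ∧ GenU Fn U J (J ∪ U) (LS γ) := by
  obtain ⟨γ, _, _, ⟨rfl, rfl⟩, h1, h2, h3, δ, u, W', -, -, -, h4, -⟩ := h
  obtain ⟨-, -, J, -, -, h5, h6⟩ := ok_iff.1 h4
  exact ⟨γ, h1, h2, fun γ' hγ' => h3 γ' hγ' _ _ ⟨rfl, rfl⟩, J, h5, h6⟩

/-- `x` is a branch of a tree of every family -/
def AA (s κ x : ZF) : Prop := ∀ α ∈ κ, ∃ V ∈ app s α, Br x V

/-- the definability of `AA` -/
def Dfb (M : Set ZF) (κ s : ZF) : Prop := ∃ φ : Fml,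
  (∀ x, AA s κ x → ∀ w : ZF, IsTransitive w → (∀ y ∈ w, rank y < rank κ) → x ∈ w →
    Sat (w : Set ZF) φ (fun _ => x)) ∧
  ∀ α ∈ κ, ∃ w ∈ M, Clo w ∧ Le M w om ∧ ∀ x, x ⊆ w → (¬ ∃ V ∈ app s α, Br x V) →
    ¬ Sat ((insert x w : ZF) : Set ZF) φ (fun _ => x)

def S_SeqA : Prop := ∀ (M : Set ZF) [TModel M], VL M → ∀ κ, Hart M om κ →
  ∃ s ∈ M, IsFunc κ (LS κ) s ∧ Seq lT s ∧ Dfb M κ s

/-- the properties of the union `J` of all families -/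
structure Jen (κ s : ZF) : Prop where
  ne : ∃ T, T ∈ JJ s κ
  t1 : T1 Fn (JJ s κ)
  t2 : T2 (JJ s κ)
  ref : ∀ α ∈ κ, ∀ T ∈ JJ s κ, ∃ T' ∈ JJ s κ, ∃ V ∈ app s α, T' ⊆ T ∧ T' ⊆ V
  sl : ∀ α ∈ κ, ∅ ∈ α → ∀ β, IsOrdinal β → ¬ Cov α (LS β) → ∀ I ∈ LS β, ∀ E ∈ LS β, ∀ c ∈ LS β,
    (Pre Fn I E (JJ s α) c ∅ ∅ → Pre Fn I E (JJ s κ) c ∅ ∅) ∧
      (Hyp Fn I E (JJ s α) c → ∀ V ∈ app s α, Pre Fn I E (JJ s κ) c V ∅)

def S_SeqB : Prop := ∀ κ Q s, Lim κ → IsFunc κ Q s → Seq lT s → Jen κ s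

/-! ### sealing -/

/-- the section of `i` at `ζ` -/
noncomputable def sec (ζ i : ZF) : ZF := ZFSet.sep (fun b => fst b = ζ) i

def S_Copy : Prop := ∀ (M : Set ZF) [TModel M], ∀ κ ∈ M, om ⊆ κ → ∀ H J c V, Ins H →
  (∀ a b, pair a b ∈ H → a ∈ H ∧ b ∈ H) → (∀ a ∈ H, ∀ b ∈ H, a ∪ b ∈ H ∧ sec a b ∈ H) →
  Pre Fn (II M κ ∩ H) (EE M κ ∩ H) J c V ∅ → Pre Fn (II M κ) (EE M κ) J c V ∅

/-- every name of a new real avoids all the trees of some family -/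
def Av (M : Set ZF) (I E κ1 s : ZF) : Prop := ∀ c ∈ M,
  (∀ z ∈ c, ∃ d ∈ PP I E (JJ s κ1), ∃ σ, z = pair d σ) → Hyp Fn I E (JJ s κ1) c →
    ∃ α ∈ κ1, ∀ V ∈ app s α, Pre Fn I E (JJ s κ1) c V ∅

def S_Seal : Prop := ∀ (M : Set ZF) [TModel M], VL M → ∀ κ1, Hart M om κ1 → ∀ s ∈ M,
  IsFunc κ1 (LS κ1) s → Jen κ1 s → ∀ κ ∈ M, om ⊆ κ →
    CCC M (PP (II M κ) (EE M κ) (JJ s κ1)) (LP (II M κ) (EE M κ) (JJ s κ1)) ∧
      Av M (II M κ) (EE M κ) κ1 s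

/-! ### the generic objects -/

/-- the generic real with index `i` -/
noncomputable def aR (G i : ZF) : ZF :=
  ZFSet.sUnion (ZFSet.sep (fun s => ∀ T, tA i T ∈ ZFSet.sUnion G → s ∈ T) Nds)

/-- the generic code with coordinate `ζ` -/
noncomputable def rR (G ζ : ZF) : ZF :=
  ZFSet.sep (fun z => nA (ndE ζ (fst z) (snd z)) ∈ ZFSet.sUnion G) (prod Nds Nds)

instance tm_aR {M : Set ZF} [TModel M] {a b : Env → ZF} [Tm M a] [Tm M b] :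
    Tm M (fun v => aR (a v) (b v)) := by unfold aR; infer_instance

instance tm_rR {M : Set ZF} [TModel M] {a b : Env → ZF} [Tm M a] [Tm M b] :
    Tm M (fun v => rR (a v) (b v)) := by unfold rR; infer_instance

/-- a generic extension by the forcing notion -/
structure PX (M N : Set ZF) (I E J G : ZF) : Prop where
  hI : I ∈ M
  hE : E ∈ M
  hJ : J ∈ M
  ne : ∃ T, T ∈ J
  t1 : T1 Fn J
  t2 : T2 J
  gen : Gen M (PP I E J) (LP I E J) G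
  ext : Ext M N (PP I E J) G

def S_Real : Prop := ∀ (M N : Set ZF) [TModel M] (I E J G : ZF), PX M N I E J G → ∀ i ∈ I,
  Real N (aR G i) ∧ (∀ s ∈ Nds, s ⊆ aR G i ↔ ∀ T, tA i T ∈ ZFSet.sUnion G → s ∈ T) ∧
    ∀ U ∈ M, U ⊆ J → (∀ T ∈ J, ∃ T' ∈ J, ∃ V ∈ U, T' ⊆ T ∧ T' ⊆ V) → ∃ V ∈ U, Br (aR G i) V

def S_Code : Prop := ∀ (M N : Set ZF) [TModel M] (κ J G : ZF), κ ∈ M →
  PX M N (II M κ) (EE M κ) J G → ∀ ζ ∈ κ, ∀ i ∈ II M κ, ∀ j ∈ II M κ,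
    (FF (rR G ζ) (aR G i) (aR G j) ↔ Rl ζ i j)

def S_Uniq : Prop := ∀ (M N : Set ZF) [TModel M] (I E κ1 s G : ZF), PX M N I E (JJ s κ1) G →
  Av M I E κ1 s → ∀ x, Real N x → AA s κ1 x → ∃ i ∈ I, x = aR G i

end Pool.Agent.P.MP_9a7e1f_lc
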