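import Pool.Agent.P.MP_9a7e1f_lc.St1

/-! Ordered sums of back and forth systems. -/

set_option linter.unusedSectionVars false

namespace Pool.Agent.P.MP_9a7e1f_lc

open ZFSet Pool.Agent.P.MP_3ab3de_lc

namespace SumP

theorem bun_congr {F G : ZF → ZF} {a : ZF} (h : ∀ x ∈ a, F x = G x) : bun F a = bun G a := by
  ext y
  simp only [mem_bun]
  exact exists_congr fun x => and_congr_right fun hx => by rw [h x hx]

theorem bun_mono {F G : ZF → ZF} {a : ZF} (h : ∀ x ∈ a, F x ⊆ G x) : bun F a ⊆ bun G a :=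
  fun _ hy => by
    obtain ⟨x, hx, h1⟩ := mem_bun.1 hy
    exact mem_bun.2 ⟨x, hx, h x hx h1⟩

variable {M : Set ZF} [TModel M]

theorem bun_app_mem {e B : ZF} (he : e ∈ M) (hB : B ∈ M) : bun (app e) B ∈ M := by
  have := In.mk' he
  have := In.mk' hB
  exact In.mem (bun (fun x => app e x) B)

theorem sum0 {B X X' e : ZF} (hB : B ∈ M) (he : e ∈ M)
    (h1 : ∀ b ∈ B, EO0 M (app X b) (app X' b) (app e b))
    (h2 : ∀ b ∈ B, ∀ c ∈ B, b ≠ c → ∀ x ∈ app X b, ∀ x' ∈ app X' b, ∀ y ∈ app X c, ∀ y' ∈ app X' c,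
      (x ⊆ y ↔ x' ⊆ y')) : EO0 M (bun (app X) B) (bun (app X') B) (bun (app e) B) := by
  refine ⟨bun_app_mem he hB, fun p hp => ?_, fun x x' y y' hx hy => ?_⟩
  · obtain ⟨b, hb, hp⟩ := mem_bun.1 hp
    obtain ⟨x, hx, x', hx', rfl⟩ := mem_prod.1 ((h1 b hb).2.1 hp)
    exact pair_mem_prod.2 ⟨mem_bun.2 ⟨b, hb, hx⟩, mem_bun.2 ⟨b, hb, hx'⟩⟩
  · obtain ⟨b, hb, hx⟩ := mem_bun.1 hx
    obtain ⟨c, hc, hy⟩ := mem_bun.1 hy
    by_cases h : b = c
    · subst h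
      exact (h1 b hb).2.2 x x' y y' hx hy
    · have a1 := pair_mem_prod.1 ((h1 b hb).2.1 hx)
      have a2 := pair_mem_prod.1 ((h1 c hc).2.1 hy)
      exact h2 b hb c hc h x a1.1 x' a1.2 y a2.1 y' a2.2

theorem cs_inter {Y X Z : ZF} (hY : Y ∈ cs M Z) (hX : X ∈ M) : Y ∩ X ∈ cs M X := by
  obtain ⟨⟨-, h2⟩, h3⟩ := mem_cs.1 hY
  have := In.mk' h2
  have := In.mk' hX
  exact mem_cs.2 ⟨⟨fun x hx => (mem_inter.1 hx).2, In.mem _⟩,
    h3.mono fun x hx => (mem_inter.1 hx).1⟩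

end SumP

open SumP

theorem sum' : S_Sum := by
  intro M _ k B hB X hX X' hX' e he h1 h2
  have := In.mk' hX
  have := In.mk' hX'
  have := In.mk' hB
  induction k generalizing e with
  | zero => exact sum0 hB he h1 h2
  | succ k ih =>
    have := In.mk' he
    refine ⟨sum0 hB he (fun b hb => (h1 b hb).1) h2, fun Y hY => ?_, fun Y hY => ?_⟩
    · have := In.mk' (mem_cs.1 hY).1.2
      obtain ⟨f, hf, h3⟩ := skolem (M := M) (fun b e' => app e b ⊆ e' ∧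
        EO M k (app X b) (app X' b) e' ∧ ∀ x ∈ Y ∩ app X b, ∃ x', pair x x' ∈ e') inferInstance hB
        fun b hb => by
          have := In.mk' (tr hB hb)
          exact (h1 b hb).2.1 _ (cs_inter hY (In.mem _))
      refine ⟨_, bun_app_mem hf hB, bun_mono fun b hb => (h3 b hb).1,
        ih f hf fun b hb => (h3 b hb).2.1, fun x hx => ?_⟩
      obtain ⟨b, hb, h4⟩ := mem_bun.1 ((mem_cs.1 hY).1.1 hx)
      obtain ⟨x', h5⟩ := (h3 b hb).2.2 x (mem_inter.2 ⟨hx, h4⟩)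
      exact ⟨x', mem_bun.2 ⟨b, hb, h5⟩⟩
    · have := In.mk' (mem_cs.1 hY).1.2
      obtain ⟨f, hf, h3⟩ := skolem (M := M) (fun b e' => app e b ⊆ e' ∧
        EO M k (app X b) (app X' b) e' ∧ ∀ x' ∈ Y ∩ app X' b, ∃ x, pair x x' ∈ e') inferInstance hB
        fun b hb => by
          have := In.mk' (tr hB hb)
          exact (h1 b hb).2.2 _ (cs_inter hY (In.mem _))
      refine ⟨_, bun_app_mem hf hB, bun_mono fun b hb => (h3 b hb).1,
        ih f hf fun b hb => (h3 b hb).2.1, fun x hx => ?_⟩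
      obtain ⟨b, hb, h4⟩ := mem_bun.1 ((mem_cs.1 hY).1.1 hx)
      obtain ⟨x', h5⟩ := (h3 b hb).2.2 x (mem_inter.2 ⟨hx, h4⟩)
      exact ⟨x', mem_bun.2 ⟨b, hb, h5⟩⟩

namespace SumP

/-- sums of definable families -/
theorem sumF (h : S_Sum) {M : Set ZF} [TModel M] {k : ℕ} {B : ZF} (hB : B ∈ M)
    {X X' e : ZF → ZF} (hX : Tm M (fun v => X (v 0))) (hX' : Tm M (fun v => X' (v 0)))
    (he : Tm M (fun v => e (v 0))) (h1 : ∀ b ∈ B, EO M k (X b) (X' b) (e b))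
    (h2 : ∀ b ∈ B, ∀ c ∈ B, b ≠ c → ∀ x ∈ X b, ∀ x' ∈ X' b, ∀ y ∈ X c, ∀ y' ∈ X' c,
      (x ⊆ y ↔ x' ⊆ y')) : EO M k (bun X B) (bun X' B) (bun e B) := by
  have := In.mk' hB
  have := h M k B hB (graph X B) (In.mem _) (graph X' B) (In.mem _) (graph e B) (In.mem _)
    (fun b hb => by simpa only [app_graph hb] using h1 b hb)
    (fun b hb c hc => by simpa only [app_graph hb, app_graph hc] using h2 b hb c hc)
  rwa [bun_congr fun b hb => app_graph (F := X) hb, bun_congr fun b hb => app_graph (F := X') hb,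
    bun_congr fun b hb => app_graph (F := e) hb] at this

open Classical in
/-- the point block (`s = ∅`) and the gap block at `b` -/
noncomputable def bl (D s b : ZF) : ZF := if s = ∅ then {b} else b \ gl D b

instance tm_bl {M : Set ZF} [TModel M] {a b c : Env → ZF} [Tm M a] [Tm M b] [Tm M c] :
    Tm M (fun v => bl (a v) (b v) (c v)) := by unfold bl; infer_instance

theorem one_ne : num 1 ≠ ∅ := fun h => absurd (num_inj.1 (h : num 1 = num 0)) one_ne_zero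

theorem bl_zero (D b : ZF) : bl D ∅ b = {b} := if_pos rfl

theorem bl_one (D b : ZF) : bl D (num 1) b = b \ gl D b := if_neg one_ne

theorem mem_gl {D b x : ZF} : x ∈ gl D b ↔ ∃ y ∈ D, y ∈ b ∧ (x = y ∨ x ∈ y) := by
  simp [gl, and_assoc]

theorem gl_subset {D b : ZF} (hb : IsOrdinal b) : gl D b ⊆ b := fun x hx => by
  obtain ⟨y, -, h1, rfl | h2⟩ := mem_gl.1 hx
  exacts [h1, hb.mem_trans h2 h1]

theorem gl_ord {D b : ZF} (hb : IsOrdinal b) : IsOrdinal (gl D b) :=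
  ord_of_trans_subset hb (gl_subset hb) fun x hx z hz => by
    obtain ⟨y, h0, h1, rfl | h2⟩ := mem_gl.1 hx
    exacts [mem_gl.2 ⟨x, h0, h1, Or.inr hz⟩,
      mem_gl.2 ⟨y, h0, h1, Or.inr ((hb.mem h1).mem_trans hz h2)⟩]

theorem bl_spec {D s b x : ZF} (hb : IsOrdinal b) (hx : x ∈ bl D s b) :
    IsOrdinal x ∧ x ⊆ b ∧ ∀ d ∈ D, d ∈ b → d ∈ x := by
  unfold bl at hx
  split_ifs at hx
  · obtain rfl := mem_singleton.1 hx
    exact ⟨hb, fun _ h => h, fun _ _ h => h⟩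
  · obtain ⟨h1, h2⟩ := mem_sdiff.1 hx
    refine ⟨hb.mem h1, hb.subset_of_mem h1, fun d hd hdb => ?_⟩
    rcases (hb.mem hdb).mem_trichotomous (hb.mem h1) with h | h | h
    · exact h
    · exact absurd (mem_gl.2 ⟨d, hd, hdb, Or.inl h.symm⟩) h2
    · exact absurd (mem_gl.2 ⟨d, hd, hdb, Or.inr h⟩) h2

theorem bl_lt {D s t b c x y : ZF} (hc : IsOrdinal c) (h : b ∈ c) (hD : b ∈ D)
    (hx : x ∈ bl D s b) (hy : y ∈ bl D t c) : x ⊆ y ∧ ¬ y ⊆ x := by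
  obtain ⟨-, a2, -⟩ := bl_spec (hc.mem h) hx
  obtain ⟨b1, -, b3⟩ := bl_spec hc hy
  have h1 := b3 b hD h
  exact ⟨fun z hz => b1.subset_of_mem h1 (a2 hz), fun h2 => mem_irrefl b (a2 (h2 h1))⟩

theorem bl_same {D b x y : ZF} (hb : IsOrdinal b) (hx : x ∈ bl D (num 1) b) (hy : y ∈ bl D ∅ b) :
    x ⊆ y ∧ ¬ y ⊆ x := by
  rw [bl_zero, mem_singleton] at hy
  rw [bl_one] at hx
  subst hy
  exact ⟨hb.subset_of_mem (mem_sdiff.1 hx).1, fun h => mem_irrefl x (h (mem_sdiff.1 hx).1)⟩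

theorem cover {D ζ x : ZF} (hx : x ∈ ζ) (hD : x ∉ D) :
    ∃ b, (b ∈ D ∨ b = ζ) ∧ x ∈ bl D (num 1) b := by
  obtain ⟨b, ⟨h1, h2⟩, h3⟩ := exists_min (P := fun b => (b ∈ D ∨ b = ζ) ∧ x ∈ b) ⟨ζ, Or.inr rfl, hx⟩
  refine ⟨b, h1, ?_⟩
  rw [bl_one]
  refine mem_sdiff.2 ⟨h2, fun h => ?_⟩
  obtain ⟨y, h4, h5, rfl | h6⟩ := mem_gl.1 h
  exacts [hD h4, h3 y h5 ⟨Or.inl h4, h6⟩]

/-- the index set -/
noncomputable def idx (ζ ζ' e : ZF) : ZF := prod {∅} e ∪ prod {num 1} (insert (pair ζ ζ') e)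

theorem idx0 {ζ ζ' e p : ZF} (h : p ∈ e) : pair ∅ p ∈ idx ζ ζ' e :=
  mem_union.2 (Or.inl (pair_mem_prod.2 ⟨mem_singleton.2 rfl, h⟩))

theorem idx1 {ζ ζ' e p : ZF} (h : p ∈ e ∨ p = pair ζ ζ') : pair (num 1) p ∈ idx ζ ζ' e :=
  mem_union.2 (Or.inr (pair_mem_prod.2 ⟨mem_singleton.2 rfl, mem_insert_iff.2 h.symm⟩))

theorem of_idx {ζ ζ' e i : ZF} (he : e ⊆ prod ζ ζ') (h : i ∈ idx ζ ζ' e) : ∃ s b b',
    i = pair s (pair b b') ∧ (pair b b' ∈ e ∨ (b = ζ ∧ b' = ζ')) ∧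
      ((s = ∅ ∧ pair b b' ∈ e) ∨ s = num 1) := by
  rcases mem_union.1 h with h | h
  · obtain ⟨s, hs, p, hp, rfl⟩ := mem_prod.1 h
    obtain ⟨b, -, b', -, rfl⟩ := mem_prod.1 (he hp)
    exact ⟨s, b, b', rfl, Or.inl hp, Or.inl ⟨mem_singleton.1 hs, hp⟩⟩
  · obtain ⟨s, hs, p, hp, rfl⟩ := mem_prod.1 h
    rcases mem_insert_iff.1 hp with rfl | hp
    · exact ⟨s, ζ, ζ', rfl, Or.inr ⟨rfl, rfl⟩, Or.inr (mem_singleton.1 hs)⟩
    · obtain ⟨b, -, b', -, rfl⟩ := mem_prod.1 (he hp)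
      exact ⟨s, b, b', rfl, Or.inl hp, Or.inr (mem_singleton.1 hs)⟩

theorem bun_side {ζ ζ' e ξ : ZF} {π : ZF → ZF} (he : e ⊆ prod ζ ζ') (hξ : IsOrdinal ξ)
    (h1 : π (pair ζ ζ') = ξ) (h2 : ∀ p ∈ e, π p ∈ ξ) :
    bun (fun i => bl (img π e) (fst i) (π (snd i))) (idx ζ ζ' e) = ξ := by
  ext x
  rw [mem_bun]
  constructor
  · rintro ⟨i, hi, hx⟩
    obtain ⟨s, b, b', rfl, h3, h4⟩ := of_idx he hi
    rw [fst_pair, snd_pair] at hx
    rcases h3 with h3 | ⟨rfl, rfl⟩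
    · have h5 := h2 _ h3
      obtain ⟨a1, a2, -⟩ := bl_spec (hξ.mem h5) hx
      exact a1.mem_of_subset_of_mem hξ a2 h5
    · rcases h4 with ⟨rfl, h4⟩ | rfl
      · exact absurd (h1 ▸ h2 _ h4) (mem_irrefl _)
      · rw [bl_one, h1] at hx
        exact (mem_sdiff.1 hx).1
  · intro hx
    by_cases hD : x ∈ img π e
    · obtain ⟨p, hp, rfl⟩ := mem_img.1 hD
      exact ⟨_, idx0 hp, by rw [fst_pair, snd_pair, bl_zero]; exact mem_singleton.2 rfl⟩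
    · obtain ⟨b, h3 | rfl, h4⟩ := cover hx hD
      · obtain ⟨p, hp, rfl⟩ := mem_img.1 h3
        exact ⟨_, idx1 (Or.inl hp), by rwa [fst_pair, snd_pair]⟩
      · exact ⟨_, idx1 (Or.inr rfl), by rwa [fst_pair, snd_pair, h1]⟩

end SumP

open Classical in
theorem typ (h1 : S_Sum) (h2 : S_Gap) : S_Typ := by
  intro M _ κ1 R κ g1 g2 g3 g4 k
  obtain ⟨Z, hZ, z1, t, ht, t1, t2⟩ := h2 M κ1 R κ g1 g2 g3 g4 k
  refine ⟨Z, hZ, z1, t, ht, t1, fun ζ hζ ζ' hζ' e he h => ?_⟩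
  have o1 := g4.ord.mem hζ
  have o2 := g4.ord.mem hζ'
  have := In.mk' (tr g4.mem hζ)
  have := In.mk' (tr g4.mem hζ')
  have := In.mk' he.1
  have hB : idx ζ ζ' e ∈ M := by unfold idx; exact In.mem _
  have hs : ∀ {b b'}, pair b b' ∈ e ∨ (b = ζ ∧ b' = ζ') → b ∈ κ ∧ b' ∈ κ := by
    rintro b b' (hb | ⟨rfl, rfl⟩)
    · have := pair_mem_prod.1 (he.2.1 hb)
      exact ⟨g4.ord.mem_trans this.1 hζ, g4.ord.mem_trans this.2 hζ'⟩
    · exact ⟨hζ, hζ'⟩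
  have hlt : ∀ {b b' c c'}, pair b b' ∈ e ∨ (b = ζ ∧ b' = ζ') → pair c c' ∈ e ∨ (c = ζ ∧ c' = ζ') →
      ¬ (c ⊆ b ∧ c' ⊆ b') → pair b b' ∈ e ∧ b ∈ c ∧ b' ∈ c' := by
    intro b b' c c' hb hc hn
    have ob := g4.ord.mem (hs hb).1
    have ob' := g4.ord.mem (hs hb).2
    have oc := g4.ord.mem (hs hc).1
    have oc' := g4.ord.mem (hs hc).2
    rcases hb with hb | ⟨rfl, rfl⟩ <;> rcases hc with hc | ⟨rfl, rfl⟩
    · have := he.2.2 c c' b b' hc hb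
      exact ⟨hb, (ob.mem_or_subset oc).resolve_right fun a => hn ⟨a, this.1 a⟩,
        (ob'.mem_or_subset oc').resolve_right fun a => hn ⟨this.2 a, a⟩⟩
    · exact ⟨hb, pair_mem_prod.1 (he.2.1 hb)⟩
    · have := pair_mem_prod.1 (he.2.1 hc)
      exact absurd ⟨ob.subset_of_mem this.1, ob'.subset_of_mem this.2⟩ hn
    · exact absurd ⟨fun _ h => h, fun _ h => h⟩ hn
  have key := sumF h1 (k := k) hB (X := fun i => bl (img fst e) (fst i) (fst (snd i)))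
    (X' := fun i => bl (img snd e) (fst i) (snd (snd i)))
    (e := fun i => if fst i = ∅ then {snd i} else ∅) inferInstance inferInstance inferInstance
    (fun i hi => ?_) (fun i hi j hj hne x hx x' hx' y hy y' hy' => ?_)
  · rw [bun_side he.2.1 o1 (fst_pair _ _), bun_side he.2.1 o2 (snd_pair _ _)] at key
    · convert key using 1
      ext p
      rw [mem_bun]
      constructor
      · exact fun hp => ⟨_, idx0 hp, by simp⟩
      · rintro ⟨i, hi, hp⟩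
        obtain ⟨s, b, b', rfl, -, ⟨rfl, h4⟩ | rfl⟩ := of_idx he.2.1 hi
        · simp only [fst_pair, snd_pair, if_true, mem_singleton] at hp
          exact hp ▸ h4
        · simp [one_ne] at hp
    · intro p hp
      obtain ⟨b, -, b', hb', rfl⟩ := mem_prod.1 (he.2.1 hp)
      rwa [snd_pair]
    · intro p hp
      obtain ⟨b, hb, b', -, rfl⟩ := mem_prod.1 (he.2.1 hp)
      rwa [fst_pair]
  · obtain ⟨s, b, b', rfl, h3, ⟨rfl, h4⟩ | rfl⟩ := of_idx he.2.1 hi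
    · simp only [fst_pair, snd_pair, bl_zero, if_true]
      have := In.mk' (tr he.1 h4)
      refine EO.of_total ⟨In.mem _, fun p hp => ?_, fun x x' y y' hx hy => ?_⟩
        (fun x hx => ⟨b', by rw [mem_singleton.1 hx]; exact mem_singleton.2 rfl⟩)
        (fun x hx => ⟨b, by rw [mem_singleton.1 hx]; exact mem_singleton.2 rfl⟩) k
      · rw [mem_singleton.1 hp]
        exact pair_mem_prod.2 ⟨mem_singleton.2 rfl, mem_singleton.2 rfl⟩
      · obtain ⟨rfl, rfl⟩ := pair_inj.1 (mem_singleton.1 hx)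
        obtain ⟨rfl, rfl⟩ := pair_inj.1 (mem_singleton.1 hy)
        exact iff_of_true (fun _ h => h) (fun _ h => h)
    · simp only [fst_pair, snd_pair, bl_one, if_neg one_ne]
      obtain ⟨a1, a2⟩ := hs h3
      have ob := g4.ord.mem a1
      have ob' := g4.ord.mem a2
      exact t2 _ ((gl_ord ob).mem_of_subset_of_mem g4.ord (gl_subset ob) a1) b a1 _
        ((gl_ord ob').mem_of_subset_of_mem g4.ord (gl_subset ob') a2) b' a2 (gl_subset ob)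
        (gl_subset ob') (h b b' h3)
  · obtain ⟨s, b, b', rfl, h3, h4⟩ := of_idx he.2.1 hi
    obtain ⟨u, c, c', rfl, h5, h6⟩ := of_idx he.2.1 hj
    simp only [fst_pair, snd_pair] at hx hx' hy hy'
    have ob := g4.ord.mem (hs h3).1
    have ob' := g4.ord.mem (hs h3).2
    have oc := g4.ord.mem (hs h5).1
    have oc' := g4.ord.mem (hs h5).2
    by_cases a1 : c ⊆ b ∧ c' ⊆ b'
    · by_cases a2 : b ⊆ c ∧ b' ⊆ c'
      · obtain rfl : b = c := subset_antisymm a2.1 a1.1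
        obtain rfl : b' = c' := subset_antisymm a2.2 a1.2
        rcases h4 with ⟨rfl, -⟩ | rfl <;> rcases h6 with ⟨rfl, -⟩ | rfl
        · exact absurd rfl hne
        · exact iff_of_false (bl_same ob hy hx).2 (bl_same ob' hy' hx').2
        · exact iff_of_true (bl_same ob hx hy).1 (bl_same ob' hx' hy').1
        · exact absurd rfl hne
      · obtain ⟨b1, b2, b3⟩ := hlt h5 h3 a2
        exact iff_of_false (bl_lt ob b2 (mem_img.2 ⟨_, b1, fst_pair _ _⟩) hy hx).2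
          (bl_lt ob' b3 (mem_img.2 ⟨_, b1, snd_pair _ _⟩) hy' hx').2
    · obtain ⟨b1, b2, b3⟩ := hlt h3 h5 a1
      exact iff_of_true (bl_lt oc b2 (mem_img.2 ⟨_, b1, fst_pair _ _⟩) hx hy).1
        (bl_lt oc' b3 (mem_img.2 ⟨_, b1, snd_pair _ _⟩) hx' hy').1

end Pool.Agent.P.MP_9a7e1f_lc
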