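import Pool.Agent.P.MP_9a7e1f_lc.St1

/-! Nice names, truth lemma for projective statements, preservation of cardinals. -/

set_option linter.unusedSectionVars false

namespace Pool.Agent.P.MP_9a7e1f_lc

open ZFSet Pool.Agent.P.MP_3ab3de_lc

namespace TruthP

variable {M N : Set ZF} [hM : TModel M] {P L G : ZF}

theorem meet (h : FX M N P L G) (D : ZF → Prop) (hD : Df M (fun v => D (v 0)))
    (hd : ∀ q ∈ P, ∃ r, pair r q ∈ L ∧ D r) : ∃ r ∈ G, D r := by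
  obtain ⟨r, h1, h2⟩ := h.gen.meet (ZFSet.sep D P) (sep_mem' D hD h.hP) fun q hq => by
    obtain ⟨r, h1, h2⟩ := hd q hq
    exact ⟨r, mem_sep.2 ⟨(h.po.mem _ _ h1).1, h2⟩, h1⟩
  exact ⟨r, h1, (mem_sep.1 h2).2⟩

theorem meet_below (h : FX M N P L G) {p : ZF} (hp : p ∈ G) (D : ZF → Prop)
    (hD : Df M (fun v => D (v 0))) (hd : ∀ q, pair q p ∈ L → ∃ r, pair r q ∈ L ∧ D r) :
    ∃ r ∈ G, D r := by
  have := fun s [Tm M s] => hD.one s
  have := In.mk' h.hL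
  have := In.mk' (tr h.hP (h.gen.sub hp))
  obtain ⟨r, h1, h2⟩ := meet h (fun r => D r ∨ ¬ ∃ s, pair s r ∈ L ∧ pair s p ∈ L) inferInstance
    fun q hq => by
      by_cases h3 : ∃ s, pair s q ∈ L ∧ pair s p ∈ L
      · obtain ⟨s, h4, h5⟩ := h3
        obtain ⟨r, h6, h7⟩ := hd s h5
        exact ⟨r, h.po.trans _ _ _ h6 h4, Or.inl h7⟩
      · exact ⟨q, h.po.refl q hq, Or.inr h3⟩
  refine ⟨r, h1, h2.resolve_right fun h3 => h3 ?_⟩
  obtain ⟨s, -, h4⟩ := h.gen.dir r h1 p hp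
  exact ⟨s, h4⟩

omit hM in
theorem dec_mono (po : PO P L) {p q A b : ZF} (hq : pair q p ∈ L) (h : dec L p A b) :
    dec L q A b := by
  obtain ⟨d, h1, h2⟩ := h
  exact ⟨d, h1, po.trans _ _ _ hq h2⟩

omit hM in
theorem vl_iff (h : FX M N P L G) {A b : ZF} : b ∈ vl G A ↔ ∃ p ∈ G, dec L p A b := by
  rw [mem_vl]
  constructor
  · rintro ⟨p, hp, h1⟩
    exact ⟨p, hp, p, h1, h.po.refl p (h.gen.sub hp)⟩
  · rintro ⟨p, hp, d, h1, h2⟩
    exact ⟨d, h.gen.up p hp d h2, h1⟩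

omit hM in
theorem vl_below (h : FX M N P L G) {A b p : ZF} (hp : p ∈ G) (hb : b ∈ vl G A) :
    ∃ r ∈ G, pair r p ∈ L ∧ dec L r A b := by
  obtain ⟨q, hq, h1⟩ := (vl_iff h).1 hb
  obtain ⟨r, hr, h2, h3⟩ := h.gen.dir p hp q hq
  exact ⟨r, hr, h2, dec_mono h.po h3 h1⟩

omit hM in
theorem realF_mono (po : PO P L) {p q A : ZF} (hq : pair q p ∈ L) (h : RealF L p A) :
    RealF L q A :=
  ⟨fun n hn r hr => h.1 n hn r (po.trans _ _ _ hr hq), fun r hr => h.2 r (po.trans _ _ _ hr hq)⟩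

omit hM in
theorem fo_mono (po : PO P L) {n k : ℕ} {p q T U : ZF} (hq : pair q p ∈ L)
    (h : Fo M P L n k p T U) : Fo M P L n k q T U := by
  cases n with
  | zero =>
    obtain ⟨s, h1, h2⟩ := h
    exact ⟨s, dec_mono po hq h1, fun b hb => dec_mono po hq (h2 b hb)⟩
  | succ n =>
    obtain ⟨A, h1, h2, h3⟩ := h
    exact ⟨A, h1, realF_mono po hq h2, fun r hr => h3 r (po.trans _ _ _ hr hq)⟩

omit hM in
theorem fin_below (h : FX M N P L G) {U s p : ZF} (hp : p ∈ G) (hs : Fn s) (hU : s ⊆ vl G U) :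
    ∃ r ∈ G, pair r p ∈ L ∧ ∀ b ∈ s, dec L r U b := by
  refine hs.ind (Q := fun t => ∃ r ∈ G, pair r p ∈ L ∧ ∀ b ∈ t, dec L r U b)
    ⟨p, hp, h.po.refl p (h.gen.sub hp), fun b hb => absurd hb (notMem_empty b)⟩ ?_
  rintro x t hx - - - ⟨r, hr, h1, h2⟩
  obtain ⟨r', hr', h3, h4⟩ := vl_below h hr (hU hx)
  refine ⟨r', hr', h.po.trans _ _ _ h3 h1, fun b hb => ?_⟩
  rcases mem_insert_iff.1 hb with rfl | hb
  exacts [h4, dec_mono h.po h3 (h2 b hb)]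

omit hM in
theorem vl_sub {A a : ZF} (hA : A ⊆ prod P a) : vl G A ⊆ a := fun b hb => by
  obtain ⟨p, -, h⟩ := mem_vl.1 hb
  exact (pair_mem_prod.1 (hA h)).2

omit hM in
theorem vl_ext (k : ℕ) (U : ZF) {A : ZF} (hA : A ⊆ prod P (prod om om)) :
    vl G (ext k U A) = app1 k (vl G U) (vl G A) := by
  ext b
  simp only [mem_vl, ext, app1, mem_union, mem_sep, mem_img, nm_eq]
  constructor
  · rintro ⟨p, hp, h | ⟨z, hz, e⟩⟩
    · exact Or.inl ⟨p, hp, h⟩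
    · obtain ⟨d, -, w, hw, rfl⟩ := mem_prod.1 (hA hz)
      obtain ⟨n, hn, j, hj, rfl⟩ := mem_prod.1 hw
      simp only [fst_pair, snd_pair, pair_inj] at e
      obtain ⟨rfl, rfl⟩ := e
      exact Or.inr ⟨pair_mem_prod.2 ⟨pair_mem_prod.2 ⟨mem_singleton.2 rfl, hn⟩, hj⟩,
        n, j, ⟨d, hp, hz⟩, rfl⟩
  · rintro (⟨p, hp, h⟩ | ⟨-, n, j, ⟨p, hp, h⟩, rfl⟩)
    · exact ⟨p, hp, Or.inl h⟩
    · exact ⟨p, hp, Or.inr ⟨_, h, by simp only [fst_pair, snd_pair]⟩⟩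

theorem real_of (h : FX M N P L G) {p A : ZF} (hp : p ∈ G) (hA : A ∈ NN M P) (hr : RealF L p A) :
    Real N (vl G A) := by
  obtain ⟨⟨h1, h2⟩, -⟩ := mem_cs.1 hA
  have h3 : vl G A ⊆ prod om om := vl_sub h1
  refine ⟨?_, h3, fun n hn => ?_⟩
  · have := h.ext.model
    have := In.mk' h.ext.gen
    have := In.mk' (h.ext.sub h2)
    exact In.mem (M := N) _
  · have := In.mk' h.hL
    have := In.mk' h2
    have := In.mk' (tr hM.infinity hn)
    obtain ⟨r, hr', j, hj, h4⟩ := meet_below h hp (fun r => ∃ j ∈ om, dec L r A (pair n j))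
      inferInstance (hr.1 n hn)
    refine ⟨j, (vl_iff h).2 ⟨r, hr', h4⟩, fun j' h5 => ?_⟩
    obtain ⟨q, hq, h6, h7⟩ := h.gen.dir p hp r hr'
    obtain ⟨s, -, h8, h9⟩ := vl_below h hq h5
    exact hr.2 s (h.po.trans _ _ _ h8 h6) n hn j' (pair_mem_prod.1 (h3 h5)).2 j hj h9
      (dec_mono h.po (h.po.trans _ _ _ h8 h7) h4)

set_option synthInstance.maxSize 2048 in
theorem exists_realF (h : FX M N P L G) {A : ZF} (hA : A ∈ M) (hr : Real N (vl G A)) :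
    ∃ p ∈ G, RealF L p A := by
  have := In.mk' h.hL
  have := In.mk' hA
  obtain ⟨q, hq, h1⟩ := meet h (fun q => RealF L q A ∨
    (∃ n ∈ om, ∀ r, pair r q ∈ L → ¬ ∃ j ∈ om, dec L r A (pair n j)) ∨
    ∃ n ∈ om, ∃ j ∈ om, ∃ j' ∈ om, dec L q A (pair n j) ∧ dec L q A (pair n j') ∧ j ≠ j')
    inferInstance fun p hp => by
      by_cases h1 : RealF L p A
      · exact ⟨p, h.po.refl p hp, Or.inl h1⟩
      · rcases not_and_or.1 h1 with h2 | h2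
        · push Not at h2
          obtain ⟨n, hn, q, h3, h4⟩ := h2
          exact ⟨q, h3, Or.inr (Or.inl ⟨n, hn, fun r h5 ⟨j, hj, h6⟩ => h4 r h5 j hj h6⟩)⟩
        · push Not at h2
          obtain ⟨q, h3, n, hn, j, hj, j', hj', h4⟩ := h2
          exact ⟨q, h3, Or.inr (Or.inr ⟨n, hn, j, hj, j', hj', h4⟩)⟩
  rcases h1 with h1 | ⟨n, hn, h1⟩ | ⟨n, -, j, -, j', -, h1, h2, h3⟩
  · exact ⟨q, hq, h1⟩
  · obtain ⟨r, -, h2, h3⟩ := vl_below h hq (hr.2.app_mem hn)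
    exact absurd ⟨_, hr.2.app_mem' hn, h3⟩ (h1 r h2)
  · exact absurd (hr.2.uniq ((vl_iff h).2 ⟨q, hq, h1⟩) ((vl_iff h).2 ⟨q, hq, h2⟩)) h3

set_option synthInstance.maxSize 2048 in
theorem vals (h : FX M N P L G) {A k p x : ZF} (hA : A ∈ M) (hk : k ∈ M) (hp : p ∈ M) (hx : x ∈ M)
    (hu : ∀ r, pair r p ∈ L → ∀ y ∈ k, ∀ y' ∈ k, dec L r A (pair x y) → dec L r A (pair x y') →
      y = y') :
    Le M (ZFSet.sep (fun y => ∃ q, pair q p ∈ L ∧ dec L q A (pair x y)) k) om := by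
  have := In.mk' h.hL
  have := In.mk' h.hP
  have := In.mk' hA
  have := In.mk' hk
  have := In.mk' hp
  have := In.mk' hx
  obtain ⟨D', h1, h2, h3, h4⟩ := h.ccc
    (ZFSet.sep (fun q => pair q p ∈ L ∧ ∃ y ∈ k, dec L q A (pair x y)) P) (In.mem _) sep_subset
  refine (inf_omega.img (fun d => ZFSet.sUnion (ZFSet.sep (fun y => dec L d A (pair x y)) k))
    inferInstance h1 h3).mono fun y hy => ?_
  obtain ⟨hy, q, h5, h6⟩ := mem_sep.1 hy
  have hq := (h.po.mem _ _ h5).1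
  obtain ⟨d, hd, r, h7, h8⟩ := h4 q (mem_sep.2 ⟨hq, h5, y, hy, h6⟩) q (h.po.refl q hq)
  obtain ⟨-, -, y', hy', h9⟩ := mem_sep.1 (h2 hd)
  have key : ∀ z ∈ k, dec L d A (pair x z) → z = y := fun z hz h' =>
    hu r (h.po.trans _ _ _ h7 h5) z hz y hy (dec_mono h.po h8 h') (dec_mono h.po h7 h6)
  have e : ZFSet.sep (fun y => dec L d A (pair x y)) k = {y} := by
    ext z
    simp only [mem_sep, mem_singleton]
    refine ⟨fun h' => key z h'.1 h'.2, ?_⟩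
    rintro rfl
    exact ⟨hy, key y' hy' h9 ▸ h9⟩
  exact mem_img.2 ⟨d, hd, by rw [e, sUnion_singleton]⟩

end TruthP

open TruthP

set_option synthInstance.maxSize 2048 in
theorem nice : S_Nice := by
  intro M N _ P L G h a ha hao X hX hXa
  obtain ⟨A0, hA0, -, h1⟩ := h.ext.cap X hX a ha hXa
  have := In.mk' h.hL
  have := In.mk' h.hP
  have := In.mk' hA0
  have := In.mk' ha
  obtain ⟨f, hf, h2⟩ := skolem (M := M) (fun b D' => D' ⊆ ZFSet.sep (fun p => pair p b ∈ A0) P ∧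
      Le M D' om ∧ ∀ d ∈ ZFSet.sep (fun p => pair p b ∈ A0) P, ∀ r, pair r d ∈ L →
        ∃ d' ∈ D', ∃ r', pair r' r ∈ L ∧ pair r' d' ∈ L) inferInstance ha fun b hb => by
    have := In.mk' (tr ha hb)
    exact h.ccc _ (In.mem _) sep_subset
  have := In.mk' hf
  have hm : ∀ d b, pair d b ∈ bun (fun b => img (fun d => pair d b) (app f b)) a ↔
      b ∈ a ∧ d ∈ app f b := fun d b => by
    simp only [mem_bun, mem_img, pair_inj]
    constructor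
    · rintro ⟨b', h3, d', h4, rfl, rfl⟩
      exact ⟨h3, h4⟩
    · rintro ⟨h3, h4⟩
      exact ⟨b, h3, d, h4, rfl, rfl⟩
  refine ⟨bun (fun b => img (fun d => pair d b) (app f b)) a,
    mem_cs.2 ⟨⟨fun z hz => ?_, In.mem _⟩, ?_⟩, ?_⟩
  · obtain ⟨b, hb, hz⟩ := mem_bun.1 hz
    obtain ⟨d, hd, rfl⟩ := mem_img.1 hz
    exact pair_mem_prod.2 ⟨(mem_sep.1 ((h2 b hb).1 hd)).1, hb⟩
  · refine inf_omega.bun _ inferInstance ha hao fun b hb => ?_
    have := In.mk' (tr ha hb)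
    exact inf_omega.img _ inferInstance (In.mem _) (h2 b hb).2.1
  · ext b
    rw [mem_vl, h1]
    constructor
    · rintro ⟨p, hp, h3⟩
      obtain ⟨h4, h5⟩ := (hm _ _).1 h3
      exact ⟨p, hp, (mem_sep.1 ((h2 b h4).1 h5)).2⟩
    · rintro ⟨p, hp, h3⟩
      have hb : b ∈ a := hXa ((h1 b).2 ⟨p, hp, h3⟩)
      have := In.mk' (tr ha hb)
      obtain ⟨r, hr, d, hd, h4⟩ := meet_below h hp (fun r => ∃ d ∈ app f b, pair r d ∈ L)
        inferInstance fun q hq => by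
          obtain ⟨d, hd, r, h4, h5⟩ := (h2 b hb).2.2 p (mem_sep.2 ⟨h.gen.sub hp, h3⟩) q hq
          exact ⟨r, h4, d, hd, h5⟩
      exact ⟨d, h.gen.up r hr d h4, (hm _ _).2 ⟨hb, hd⟩⟩

theorem truth (hn : S_Nice) : S_Truth := by
  intro M N _ P L G h n
  have := In.mk' h.hL
  have := In.mk' h.hP
  induction n with
  | zero =>
    intro k T _ U _ hT
    constructor
    · rintro ⟨s, h1, h2⟩
      obtain ⟨p, hp, h3⟩ := (vl_iff h).1 h1
      obtain ⟨r, hr, h4, h5⟩ := fin_below h hp (hT s h1) h2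
      exact ⟨r, hr, s, dec_mono h.po h4 h3, h5⟩
    · rintro ⟨p, hp, s, h1, h2⟩
      exact ⟨s, (vl_iff h).2 ⟨p, hp, h1⟩, fun b hb => (vl_iff h).2 ⟨p, hp, h2 b hb⟩⟩
  | succ n ih =>
    intro k T hTM U hU hT
    have := In.mk' hTM
    have := In.mk' hU
    constructor
    · rintro ⟨y, hy, h1⟩
      obtain ⟨A, hA, rfl⟩ := hn M N P L G h (prod om om) (In.mem _) inf_omega.sq y hy.1 hy.2.1
      obtain ⟨⟨h2, h3⟩, -⟩ := mem_cs.1 hA
      have := In.mk' h3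
      rw [← vl_ext k U h2, ih (k + 1) T hTM _ (In.mem _) hT] at h1
      obtain ⟨p, hp, h4⟩ := exists_realF h h3 hy
      obtain ⟨q, hq, h5⟩ := meet h (fun q => Fo M P L n (k + 1) q T (ext k U A) ∨
        ∀ r, pair r q ∈ L → ¬ Fo M P L n (k + 1) r T (ext k U A)) inferInstance fun q hq => by
          by_cases h5 : ∃ r, pair r q ∈ L ∧ Fo M P L n (k + 1) r T (ext k U A)
          · obtain ⟨r, h6, h7⟩ := h5
            exact ⟨r, h6, Or.inl h7⟩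
          · exact ⟨q, h.po.refl q hq, Or.inr fun r h6 h7 => h5 ⟨r, h6, h7⟩⟩
      have h6 := h5.resolve_left fun h6 => h1 ⟨q, hq, h6⟩
      obtain ⟨r, hr, h7, h8⟩ := h.gen.dir p hp q hq
      exact ⟨r, hr, A, hA, realF_mono h.po h7 h4, fun s hs => h6 s (h.po.trans _ _ _ hs h8)⟩
    · rintro ⟨p, hp, A, hA, h1, h2⟩
      obtain ⟨⟨h3, h4⟩, -⟩ := mem_cs.1 hA
      have := In.mk' h4
      refine ⟨vl G A, real_of h hp hA h1, ?_⟩
      rw [← vl_ext k U h3, ih (k + 1) T hTM _ (In.mem _) hT]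
      rintro ⟨q, hq, h5⟩
      obtain ⟨r, -, h6, h7⟩ := h.gen.dir p hp q hq
      exact h2 r h6 (fo_mono h.po h7 h5)

set_option synthInstance.maxSize 2048 in
theorem card : S_Card := by
  intro M N _ P L G h R k hR hk
  refine ⟨h.ext.sub hk.mem, hk.ord, ?_, fun ξ hξ => ?_⟩
  swap
  · obtain ⟨f, hf, h1⟩ := hk.le ξ hξ
    exact ⟨f, h.ext.sub hf, h1⟩
  rintro ⟨f, hf, h1⟩
  have hX : ZFSet.sep (fun z => app f (fst z) = snd z) (prod R k) ∈ N := by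
    have := h.ext.model
    have := In.mk' hf
    have := In.mk' (h.ext.sub hR.mem)
    have := In.mk' (h.ext.sub hk.mem)
    exact In.mem (M := N) _
  have := In.mk' h.hL
  have := In.mk' hR.mem
  have := In.mk' hk.mem
  obtain ⟨A, hA, -, h2⟩ := h.ext.cap _ hX (prod R k) (In.mem _) sep_subset
  have := In.mk' hA
  have h3 : ∀ x y, pair x y ∈ vl G A ↔ (x ∈ R ∧ y ∈ k) ∧ app f x = y := fun x y => by
    rw [mem_vl, ← h2, mem_sep, pair_mem_prod, fst_pair, snd_pair]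
  obtain ⟨p, hp, h4⟩ := meet h (fun q => (∀ x ∈ R, ∀ r, pair r q ∈ L → ∀ y ∈ k, ∀ y' ∈ k,
      dec L r A (pair x y) → dec L r A (pair x y') → y = y') ∨
      ∃ x ∈ R, ∃ y ∈ k, ∃ y' ∈ k, dec L q A (pair x y) ∧ dec L q A (pair x y') ∧ y ≠ y')
    inferInstance fun q hq => by
      by_cases h4 : ∀ x ∈ R, ∀ r, pair r q ∈ L → ∀ y ∈ k, ∀ y' ∈ k,
          dec L r A (pair x y) → dec L r A (pair x y') → y = y'
      · exact ⟨q, h.po.refl q hq, Or.inl h4⟩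
      · push Not at h4
        obtain ⟨x, hx, r, h5, y, hy, y', hy', h6⟩ := h4
        exact ⟨r, h5, Or.inr ⟨x, hx, y, hy, y', hy', h6⟩⟩
  have h5 := h4.resolve_right fun ⟨x, _, y, _, y', _, h5, h6, h7⟩ =>
    h7 ((((h3 _ _).1 ((vl_iff h).2 ⟨p, hp, h5⟩)).2).symm.trans
      ((h3 _ _).1 ((vl_iff h).2 ⟨p, hp, h6⟩)).2)
  have hpM := tr h.hP (h.gen.sub hp)
  have := In.mk' hpM
  refine hk.not_le ((hR.bun
    (fun x => ZFSet.sep (fun y => ∃ q, pair q p ∈ L ∧ dec L q A (pair x y)) k) inferInstance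
    hR.mem (Le.refl hR.mem) fun x hx =>
      (vals h hA hk.mem hpM (tr hR.mem hx) (h5 x hx)).trans hR.omLe hR.mem).mono fun y hy => ?_)
  obtain ⟨x, hx, e⟩ := h1 y hy
  obtain ⟨r, -, h6, h7⟩ := vl_below h hp ((h3 x y).2 ⟨⟨hx, hy⟩, e⟩)
  exact mem_bun.2 ⟨x, hx, mem_sep.2 ⟨hy, r, h6, h7⟩⟩

end Pool.Agent.P.MP_9a7e1f_lc
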