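import Pool.Agent.P.MP_9a7e1f_lc.St2

/-! The generic reals are the only common branches. -/

set_option linter.unusedSectionVars false

namespace Pool.Agent.P.MP_9a7e1f_lc

open ZFSet Pool.Agent.P.MP_3ab3de_lc

namespace UniqP

/-- long nodes miss a subtree -/
theorem miss {J T : ZF} (h1 : T1 Fn J) (h2 : T2 J) (hT : T ∈ J) : ∃ n : ℕ, ∀ σ j, Sq σ →
    pair (num n) j ∈ σ → ∃ T' ∈ J, T' ⊆ T ∧ σ ∉ T' := by
  obtain ⟨T0, hT0, T1', hT1, s0, h0, s1, h1', h3, h4, h5, h6, h7, h8⟩ := h2 T hT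
  obtain ⟨n0, hn0⟩ := nds_iff.1 (h1.nds hT0 h0)
  obtain ⟨n1, hn1⟩ := nds_iff.1 (h1.nds hT1 h1')
  refine ⟨n0 + n1, fun σ j hσ hj => ?_⟩
  have key : ∀ n t, IsFunc (num n) om t → n ≤ n0 + n1 → ¬ σ ⊆ t := fun n t ht hn h =>
    absurd (num_mem_num.1 (ht.mem (h hj)).1) (not_lt.2 hn)
  by_cases h : σ ∈ T0
  · refine ⟨T1', hT1, h4, fun h' => ?_⟩
    exact ((h1 T0 hT0 s0 h0).1.2.comp (h1 T1' hT1 s1 h1').1.2 hσ
      ((h5 σ h).resolve_left (key n0 s0 hn0 (by omega)))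
      ((h6 σ h').resolve_left (key n1 s1 hn1 (by omega)))).elim h7 h8
  · exact ⟨T0, hT0, h3, h⟩

theorem seg {y : ZF} (hy : IsFunc om om y) (n : ℕ) : ∃ σ ∈ Nds, σ ⊆ y ∧
    pair (num n) (app y (num n)) ∈ σ := by
  refine ⟨res y (num (n + 1)), nds_iff.2 ⟨n + 1, hy.res
    (isOrdinal_omega.subset_of_mem (num_mem_omega _))⟩, res_subset _ _, mem_res.2
      ⟨hy.app_mem (num_mem_omega n), ?_⟩⟩
  rw [fst_pair]
  exact num_mem_num.2 (Nat.lt_succ_self n)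

theorem sq_real {y : ZF} (hy : IsFunc om om y) : Sq y :=
  sq_of_isFunc isOrdinal_omega (fun _ h => h) hy

/-- the zero real -/
noncomputable def zr : ZF := graph (fun _ => num 0) om

theorem zr_fn : IsFunc om om zr := graph_isFunc fun _ _ => num_mem_omega 0

/-- a node inside a branch is in the tree -/
theorem mem_of_br {J V x σ : ZF} (h1 : T1 Fn J) (hV : V ∈ J) (hx : IsFunc om om x) (hb : Br x V)
    (hσ : σ ∈ Nds) (h : σ ⊆ x) : σ ∈ V := by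
  obtain ⟨n, hn⟩ := nds_iff.1 hσ
  obtain ⟨t, ht, h2, h3⟩ := hb _ (hx.app_mem (num_mem_omega n))
  have hs := (mem_Nds.1 hσ).2
  rcases hs.comp (h1 V hV t ht).1.2 (sq_real hx) h h2 with k | k
  · exact h1.down hV ht hs k
  · exact absurd (hn.mem (k h3)).1 (mem_irrefl _)

/-- the bad conditions -/
def Bad (I L A q : ZF) : Prop :=
  (∃ i ∈ I, ∀ r, pair r q ∈ L → ¬ ∃ σ ∈ Nds, dec L r A σ ∧ ∃ T, tA i T ∈ r ∧ σ ∉ T) ∨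
  (∃ n ∈ om, ∀ r, pair r q ∈ L → ¬ ∃ σ ∈ Nds, dec L r A σ ∧ ∃ j, pair n j ∈ σ) ∨
  ∃ σ ∈ Nds, ∃ σ' ∈ Nds, dec L q A σ ∧ dec L q A σ' ∧ ¬ σ ⊆ σ' ∧ ¬ σ' ⊆ σ

set_option synthInstance.maxSize 4096 in
instance df_bad {M : Set ZF} [TModel M] {a b c d : Env → ZF} [Tm M a] [Tm M b] [Tm M c] [Tm M d] :
    Df M (fun v => Bad (a v) (b v) (c v) (d v)) := by unfold Bad; infer_instance

/-- the name -/
noncomputable def cN (P L A p0 : ZF) : ZF :=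
  ZFSet.sep (fun z => (pair (fst z) p0 ∈ L ∧ dec L (fst z) A (snd z)) ∨
    ((¬ ∃ r, pair r (fst z) ∈ L ∧ pair r p0 ∈ L) ∧ snd z ⊆ zr)) (prod P Nds)

theorem mem_cN {P L A p0 d σ : ZF} : pair d σ ∈ cN P L A p0 ↔ (d ∈ P ∧ σ ∈ Nds) ∧
    ((pair d p0 ∈ L ∧ dec L d A σ) ∨ ((¬ ∃ r, pair r d ∈ L ∧ pair r p0 ∈ L) ∧ σ ⊆ zr)) := by
  rw [cN, mem_sep, pair_mem_prod, fst_pair, snd_pair]

set_option synthInstance.maxSize 2048 in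
theorem cN_mem {M : Set ZF} [TModel M] {P L A p0 : ZF} (hP : P ∈ M) (hL : L ∈ M) (hA : A ∈ M)
    (hp : p0 ∈ M) : cN P L A p0 ∈ M := by
  have := In.mk' hP
  have := In.mk' hL
  have := In.mk' hA
  have := In.mk' hp
  unfold cN zr
  exact In.mem _

theorem dec_mono {P L p q A b : ZF} (po : PO P L) (hq : pair q p ∈ L) (h : dec L p A b) :
    dec L q A b := by
  obtain ⟨d, h1, h2⟩ := h
  exact ⟨d, h1, po.trans _ _ _ hq h2⟩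

theorem hyp_cN {I E J A p0 : ZF} (hne : ∃ T, T ∈ J) (h1 : T1 Fn J) (h2 : T2 J)
    (hg : ∀ q, pair q p0 ∈ LP I E J → ¬ Bad I (LP I E J) A q) :
    Hyp Fn I E J (cN (PP I E J) (LP I E J) A p0) := by
  have po := po_PP I E J
  have long : ∀ p ∈ PP I E J, ∀ n : ℕ, ∃ r ∈ PP I E J, Leq r p ∧ ∃ σ j,
      pair r σ ∈ cN (PP I E J) (LP I E J) A p0 ∧ pair (num n) j ∈ σ := by
    intro p hp n
    by_cases hc : ∃ q, pair q p ∈ LP I E J ∧ pair q p0 ∈ LP I E J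
    · obtain ⟨q, k1, k2⟩ := hc
      by_contra hn
      refine hg q k2 (Or.inr (Or.inl ⟨num n, num_mem_omega n, fun r k3 ⟨σ, k4, k5, j, k6⟩ => ?_⟩))
      have k7 := mem_LP.1 (po.trans _ _ _ k3 k1)
      exact hn ⟨r, k7.1, k7.2.2, σ, j,
        mem_cN.2 ⟨⟨k7.1, k4⟩, Or.inl ⟨po.trans _ _ _ k3 k2, k5⟩⟩, k6⟩
    · obtain ⟨σ, k1, k2, k3⟩ := seg zr_fn n
      exact ⟨p, hp, Leq.refl p, σ, _, mem_cN.2 ⟨⟨hp, k1⟩, Or.inr ⟨hc, k2⟩⟩, k3⟩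
  refine ⟨fun d σ h => mem_Nds.1 (mem_cN.1 h).1.2, fun p hp hv i hi => ?_,
    fun p hp hv T hT => ?_, fun r hr hv d σ d' σ' k1 k2 k3 k4 => ?_⟩
  · have hP : p ∈ PP I E J := mem_PP.2 ⟨hp, hv⟩
    by_cases hc : ∃ q, pair q p ∈ LP I E J ∧ pair q p0 ∈ LP I E J
    · obtain ⟨q, k1, k2⟩ := hc
      by_contra hn
      refine hg q k2 (Or.inl ⟨i, hi, fun r k3 ⟨σ, k4, k5, k6⟩ => ?_⟩)
      have k7 := mem_LP.1 (po.trans _ _ _ k3 k1)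
      exact hn ⟨r, (mem_PP.1 k7.1).1, (mem_PP.1 k7.1).2, k7.2.2, r, σ,
        mem_cN.2 ⟨⟨k7.1, k4⟩, Or.inl ⟨po.trans _ _ _ k3 k2, k5⟩⟩, Leq.refl r, k6⟩
    · obtain ⟨T, hT, k0⟩ := hv.low hne i
      obtain ⟨n, hn⟩ := miss h1 h2 hT
      obtain ⟨σ, k1, k2, k3⟩ := seg zr_fn n
      obtain ⟨T', k4, k5, k6⟩ := hn σ _ (mem_Nds.1 k1).2 k3
      exact ⟨insert (tA i T') p, hp.insert _,
        hv.add_tA hi k4 fun T'' k7 _ hx => k0 T'' k7 (k5 hx), leq_add_tA p i T', p, σ,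
        mem_cN.2 ⟨⟨hP, k1⟩, Or.inr ⟨hc, k2⟩⟩, leq_add_tA p i T', T', mem_insert _ _, k6⟩
  · obtain ⟨n, hn⟩ := miss h1 h2 hT
    obtain ⟨r, k1, k2, σ, j, k3, k4⟩ := long p (mem_PP.2 ⟨hp, hv⟩) n
    exact ⟨r, (mem_PP.1 k1).1, (mem_PP.1 k1).2, k2, r, σ, k3, Leq.refl r,
      hn σ j (mem_Nds.1 (mem_cN.1 k3).1.2).2 k4⟩
  · have hP : r ∈ PP I E J := mem_PP.2 ⟨hr, hv⟩
    obtain ⟨⟨a1, a2⟩, a3⟩ := mem_cN.1 k1
    obtain ⟨⟨b1, b2⟩, b3⟩ := mem_cN.1 k2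
    have l1 : pair r d ∈ LP I E J := mem_LP.2 ⟨hP, a1, k3⟩
    have l2 : pair r d' ∈ LP I E J := mem_LP.2 ⟨hP, b1, k4⟩
    rcases a3 with a3 | a3 <;> rcases b3 with b3 | b3
    · by_contra hn
      rw [not_or] at hn
      exact hg r (po.trans _ _ _ l1 a3.1) (Or.inr (Or.inr ⟨σ, a2, σ', b2,
        dec_mono po l1 a3.2, dec_mono po l2 b3.2, hn⟩))
    · exact absurd ⟨r, l2, po.trans _ _ _ l1 a3.1⟩ b3.1
    · exact absurd ⟨r, l1, po.trans _ _ _ l2 b3.1⟩ a3.1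
    · exact (mem_Nds.1 a2).2.comp (mem_Nds.1 b2).2 (sq_real zr_fn) a3.2 b3.2

end UniqP

open UniqP

theorem uniq (h : S_Real) : S_Uniq := by
  intro M N _ I E κ1 s G hX hAv x hx hAA
  by_contra hne
  have po := po_PP I E (JJ s κ1)
  have := In.mk' hX.hI
  have := In.mk' hX.hE
  have := In.mk' hX.hJ
  have hP : PP I E (JJ s κ1) ∈ M := In.mem _
  have hL : LP I E (JJ s κ1) ∈ M := In.mem _
  have hXN : ZFSet.sep (fun σ => σ ⊆ x) Nds ∈ N := by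
    have := hX.ext.model
    have := In.mk' hx.1
    exact In.mem (M := N) _
  obtain ⟨A, hA, -, hA2⟩ := hX.ext.cap _ hXN Nds (In.mem _) sep_subset
  have := In.mk' hA
  have f1 : ∀ q ∈ G, ∀ σ, dec (LP I E (JJ s κ1)) q A σ → σ ⊆ x := fun q hq σ ⟨d, k1, k2⟩ =>
    (mem_sep.1 ((hA2 σ).2 ⟨d, hX.gen.up q hq d k2, k1⟩)).2
  have f2 : ∀ q ∈ G, ∀ σ ∈ Nds, σ ⊆ x → ∃ r ∈ G, pair r q ∈ LP I E (JJ s κ1) ∧
      dec (LP I E (JJ s κ1)) r A σ := fun q hq σ k1 k2 => by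
    obtain ⟨d, k3, k4⟩ := (hA2 σ).1 (mem_sep.2 ⟨k1, k2⟩)
    obtain ⟨r, k5, k6, k7⟩ := hX.gen.dir q hq d k3
    exact ⟨r, k5, k6, d, k4, k7⟩
  have nb : ∀ q ∈ G, ¬ Bad I (LP I E (JJ s κ1)) A q := by
    rintro q hq (⟨i, hi, k⟩ | ⟨n, hn, k⟩ | ⟨σ, a1, σ', a2, a3, a4, a5, a6⟩)
    · obtain ⟨r1, r2, -⟩ := h M N I E _ G hX i hi
      have k1 : ¬ x ⊆ aR G i := fun k1 => hne ⟨i, hi, hx.2.eq_of_subset r1.2 k1⟩
      simp only [subset_def, not_forall] at k1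
      obtain ⟨a, ha, ha'⟩ := k1
      obtain ⟨m, hm, j, -, rfl⟩ := hx.2.exists_pair ha
      obtain ⟨n, rfl⟩ := mem_omega.1 hm
      obtain ⟨σ, k2, k3, k4⟩ := seg hx.2 n
      rw [hx.2.app_eq ha] at k4
      have k5 : ¬ ∀ T, tA i T ∈ ZFSet.sUnion G → σ ∈ T := fun k5 => ha' ((r2 σ k2).2 k5 k4)
      simp only [not_forall] at k5
      obtain ⟨T, k6, k7⟩ := k5
      obtain ⟨p, k8, k9⟩ := mem_sUnion.1 k6
      obtain ⟨r, b1, b2, b3⟩ := f2 q hq σ k2 k3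
      obtain ⟨r', -, c2, c3⟩ := hX.gen.dir r b1 p k8
      exact k r' (po.trans _ _ _ c2 b2) ⟨σ, k2, dec_mono po c2 b3, T, (mem_LP.1 c3).2.2.1 k9, k7⟩
    · obtain ⟨n, rfl⟩ := mem_omega.1 hn
      obtain ⟨σ, k2, k3, k4⟩ := seg hx.2 n
      obtain ⟨r, -, b2, b3⟩ := f2 q hq σ k2 k3
      exact k r b2 ⟨σ, k2, b3, _, k4⟩
    · exact ((mem_Nds.1 a1).2.comp (mem_Nds.1 a2).2 (sq_real hx.2) (f1 q hq σ a3)
        (f1 q hq σ' a4)).elim a5 a6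
  obtain ⟨p0, hp0, hg⟩ := hX.gen.meet (ZFSet.sep (fun q => Bad I (LP I E (JJ s κ1)) A q ∨
      ∀ r, pair r q ∈ LP I E (JJ s κ1) → ¬ Bad I (LP I E (JJ s κ1)) A r) (PP I E (JJ s κ1)))
    (In.mem _) fun p hp => by
      by_cases k : ∃ r, pair r p ∈ LP I E (JJ s κ1) ∧ Bad I (LP I E (JJ s κ1)) A r
      · obtain ⟨r, k1, k2⟩ := k
        exact ⟨r, mem_sep.2 ⟨(po.mem _ _ k1).1, Or.inl k2⟩, k1⟩
      · exact ⟨p, mem_sep.2 ⟨hp, Or.inr fun r k1 k2 => k ⟨r, k1, k2⟩⟩, po.refl p hp⟩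
  have hg' := (mem_sep.1 hg).2.resolve_left (nb p0 hp0)
  have hc := cN_mem hP hL hA (tr hP (hX.gen.sub hp0))
  obtain ⟨α, hα, hpre⟩ := hAv _ hc (fun z hz => by
    obtain ⟨d, hd, σ, -, rfl⟩ := mem_prod.1 (mem_sep.1 hz).1
    exact ⟨d, hd, σ, rfl⟩) (hyp_cN hX.ne hX.t1 hX.t2 hg')
  obtain ⟨V, hV, hbr⟩ := hAA α hα
  have hVJ : V ∈ JJ s κ1 := mem_bun.2 ⟨α, hα, hV⟩
  have := In.mk' hc
  have := In.mk' (tr hX.hJ hVJ)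
  obtain ⟨r, hr, hh⟩ := hX.gen.meet (ZFSet.sep
      (fun r => Hit (cN (PP I E (JJ s κ1)) (LP I E (JJ s κ1)) A p0) V ∅ r) (PP I E (JJ s κ1)))
    (In.mem _) fun p hp => by
      obtain ⟨r, k1, k2, k3⟩ := pre_iff.1 (hpre V hV) p hp
      exact ⟨r, mem_sep.2 ⟨k1, k3⟩, mem_LP.2 ⟨k1, hp, k2⟩⟩
  obtain ⟨hrP, ⟨d, σ, k1, k2, k3⟩ | ⟨T, k1, -⟩⟩ := mem_sep.1 hh
  · obtain ⟨⟨a1, a2⟩, a3⟩ := mem_cN.1 k1
    have hd : d ∈ G := hX.gen.up r hr d (mem_LP.2 ⟨hrP, a1, k3⟩)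
    rcases a3 with a3 | a3
    · exact k2 (mem_of_br hX.t1 hVJ hx.2 hbr a2 (f1 d hd σ a3.2))
    · obtain ⟨q, -, b⟩ := hX.gen.dir d hd p0 hp0
      exact a3.1 ⟨q, b⟩
  · exact notMem_empty _ k1

end Pool.Agent.P.MP_9a7e1f_lc
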