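import Pool.Agent.P.MP_9a7e1f_lc.St1

/-! The back and forth lemma for the forcing relation, and the upper bound. -/

set_option linter.unusedSectionVars false

namespace Pool.Agent.P.MP_9a7e1f_lc

open ZFSet Pool.Agent.P.MP_3ab3de_lc

namespace UpperP

/-- the inverse relation -/
noncomputable def swp (H : ZF) : ZF :=
  img (fun z => pair (snd z) (fst z)) (ZFSet.sep (fun z => z = pair (fst z) (snd z)) H)

theorem mem_swp {H a b : ZF} : pair a b ∈ swp H ↔ pair b a ∈ H := by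
  simp only [swp, mem_img, mem_sep]
  constructor
  · rintro ⟨z, ⟨h1, h2⟩, h3⟩
    obtain ⟨rfl, rfl⟩ := pair_inj.1 h3
    exact h2 ▸ h1
  · exact fun h => ⟨_, ⟨h, by simp⟩, by simp⟩

theorem swp_mono {H H' : ZF} (h : H ⊆ H') : swp H ⊆ swp H' := fun z hz => by
  obtain ⟨w, hw, rfl⟩ := mem_img.1 hz
  exact img_mem (mem_sep.2 ⟨h (mem_sep.1 hw).1, (mem_sep.1 hw).2⟩)

theorem rel_swp {H A A' : ZF} (h : RelN H A A') : RelN (swp H) A' A :=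
  ⟨fun d b hd => (h.2 d b hd).imp fun _ h => ⟨mem_swp.2 h.1, h.2⟩,
    fun d b hd => (h.1 d b hd).imp fun _ h => ⟨mem_swp.2 h.1, h.2⟩⟩

theorem rel_mono {H H' A A' : ZF} (h : RelN H A A') (e : H ⊆ H') : RelN H' A A' :=
  ⟨fun d b hd => (h.1 d b hd).imp fun _ h => ⟨e h.1, h.2⟩,
    fun d b hd => (h.2 d b hd).imp fun _ h => ⟨e h.1, h.2⟩⟩

theorem rel_empty (H : ZF) : RelN H ∅ ∅ :=
  ⟨fun _ _ h => absurd h (notMem_empty _), fun _ _ h => absurd h (notMem_empty _)⟩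

theorem mem_ext {k : ℕ} {U A X Y d b : ZF} (hA : A ⊆ prod X Y) : pair d b ∈ ext k U A ↔
    pair d b ∈ U ∨ ∃ c, pair d c ∈ A ∧ b = pair (pair (num k) (fst c)) (snd c) := by
  rw [ext, mem_union, mem_img]
  refine or_congr_right ⟨?_, ?_⟩
  · rintro ⟨z, hz, e⟩
    obtain ⟨x, -, y, -, rfl⟩ := mem_prod.1 (hA hz)
    simp only [fst_pair, snd_pair, pair_inj] at e
    exact ⟨y, e.1 ▸ hz, e.2.symm⟩
  · rintro ⟨c, hc, rfl⟩
    exact ⟨_, hc, by simp⟩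

theorem rel_ext {k : ℕ} {H U U' A A' X Y : ZF} (hA : A ⊆ prod X Y) (hA' : A' ⊆ prod X Y)
    (h : RelN H U U') (h' : RelN H A A') : RelN H (ext k U A) (ext k U' A') := by
  constructor
  · intro d b hd
    rcases (mem_ext hA).1 hd with h1 | ⟨c, h1, h2⟩
    · exact (h.1 d b h1).imp fun _ h => ⟨h.1, (mem_ext hA').2 (Or.inl h.2)⟩
    · exact (h'.1 d c h1).imp fun _ h => ⟨h.1, (mem_ext hA').2 (Or.inr ⟨c, h.2, h2⟩)⟩
  · intro d b hd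
    rcases (mem_ext hA').1 hd with h1 | ⟨c, h1, h2⟩
    · exact (h.2 d b h1).imp fun _ h => ⟨h.1, (mem_ext hA).2 (Or.inl h.2)⟩
    · exact (h'.2 d c h1).imp fun _ h => ⟨h.1, (mem_ext hA).2 (Or.inr ⟨c, h.2, h2⟩)⟩

theorem dec_mono {P L p r A b : ZF} (po : PO P L) (h : dec L p A b) (hr : pair r p ∈ L) :
    dec L r A b := h.imp fun _ h => ⟨h.1, po.trans _ _ _ hr h.2⟩

variable {M : Set ZF} {P L : ZF}

theorem fo_mono (po : PO P L) {n k : ℕ} {p r T U : ZF} (h : Fo M P L n k p T U)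
    (hr : pair r p ∈ L) : Fo M P L n k r T U := by
  cases n with
  | zero =>
    obtain ⟨s, h1, h2⟩ := h
    exact ⟨s, dec_mono po h1 hr, fun b hb => dec_mono po (h2 b hb) hr⟩
  | succ n =>
    obtain ⟨A, h1, h2, h3⟩ := h
    exact ⟨A, h1, ⟨fun n hn q hq => h2.1 n hn q (po.trans _ _ _ hq hr),
      fun q hq => h2.2 q (po.trans _ _ _ hq hr)⟩, fun q hq => h3 q (po.trans _ _ _ hq hr)⟩

theorem cf_zero {k : ℕ} {H : ZF} (h : CF M P L k H) : CF0 M P L H := by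
  cases k
  exacts [h, h.1]

theorem dec_fwd {H p p' A A' b : ZF} (h : CF0 M P L H) (hp : pair p p' ∈ H) (hA : RelN H A A')
    (hd : dec L p A b) : dec L p' A' b := by
  obtain ⟨d, h1, h2⟩ := hd
  obtain ⟨d', h3, h4⟩ := hA.1 d b h1
  exact ⟨d', h4, (h.2.2 _ _ _ _ hp h3).1 h2⟩

theorem dec_bwd {H p p' A A' b : ZF} (h : CF0 M P L H) (hp : pair p p' ∈ H) (hA : RelN H A A')
    (hd : dec L p' A' b) : dec L p A b := by
  obtain ⟨d', h1, h2⟩ := hd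
  obtain ⟨d, h3, h4⟩ := hA.2 d' b h1
  exact ⟨d, h4, (h.2.2 _ _ _ _ hp h3).2 h2⟩

variable [TModel M]

theorem cf0_swp {H : ZF} (h : CF0 M P L H) : CF0 M P L (swp H) := by
  have := In.mk' h.1
  refine ⟨?_, fun p p' hp => (h.2.1 _ _ (mem_swp.1 hp)).symm,
    fun p p' q q' hp hq => (h.2.2 _ _ _ _ (mem_swp.1 hp) (mem_swp.1 hq)).symm⟩
  unfold swp
  exact In.mem _

theorem cf_swp (k : ℕ) : ∀ {H : ZF}, CF M P L k H → CF M P L k (swp H) := by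
  induction k with
  | zero => exact cf0_swp
  | succ k ih =>
    rintro H ⟨h1, h2, h3⟩
    refine ⟨cf0_swp h1, fun X hX => ?_, fun X hX => ?_⟩
    · obtain ⟨H', h4, h5, h6⟩ := h3 X hX
      exact ⟨swp H', swp_mono h4, ih h5, fun p hp => (h6 p hp).imp fun _ h => mem_swp.2 h⟩
    · obtain ⟨H', h4, h5, h6⟩ := h2 X hX
      exact ⟨swp H', swp_mono h4, ih h5, fun p hp => (h6 p hp).imp fun _ h => mem_swp.2 h⟩

theorem sing_cs (hP : P ∈ M) {q : ZF} (hq : q ∈ P) : ({q} : ZF) ∈ cs M P := by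
  have := In.mk' (tr hP hq)
  exact mem_cs.2 ⟨⟨fun x hx => mem_singleton.1 hx ▸ hq, In.mem _⟩, inf_omega.singleton (tr hP hq)⟩

theorem forth1 (hP : P ∈ M) {k : ℕ} {H q : ZF} (h : CF M P L (k + 1) H) (hq : q ∈ P) :
    ∃ H' q', H ⊆ H' ∧ CF M P L k H' ∧ pair q q' ∈ H' := by
  obtain ⟨H', h1, h2, h3⟩ := h.2.1 _ (sing_cs hP hq)
  obtain ⟨q', h4⟩ := h3 q (mem_singleton.2 rfl)
  exact ⟨H', q', h1, h2, h4⟩

theorem back1 (hP : P ∈ M) {k : ℕ} {H q' : ZF} (h : CF M P L (k + 1) H) (hq : q' ∈ P) :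
    ∃ H' q, H ⊆ H' ∧ CF M P L k H' ∧ pair q q' ∈ H' := by
  obtain ⟨H', h1, h2, h3⟩ := h.2.2 _ (sing_cs hP hq)
  obtain ⟨q, h4⟩ := h3 q' (mem_singleton.2 rfl)
  exact ⟨H', q, h1, h2, h4⟩

theorem dom_cs {A Y : ZF} (hA : A ∈ cs M (prod P Y)) : img fst A ∈ cs M P := by
  obtain ⟨⟨h1, h2⟩, h3⟩ := mem_cs.1 hA
  have := In.mk' h2
  refine mem_cs.2 ⟨⟨fun x hx => ?_, In.mem _⟩, inf_omega.img _ inferInstance h2 h3⟩
  obtain ⟨z, hz, rfl⟩ := mem_img.1 hx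
  obtain ⟨a, ha, b, -, rfl⟩ := mem_prod.1 (h1 hz)
  simpa using ha

/-- moving a name -/
theorem move {k : ℕ} {H A : ZF} (h : CF M P L (k + 1) H) (hA : A ∈ NN M P) :
    ∃ H' A', H ⊆ H' ∧ CF M P L k H' ∧ A' ∈ NN M P ∧ RelN H' A A' := by
  obtain ⟨H', h1, h2, h3⟩ := h.2.1 _ (dom_cs hA)
  obtain ⟨⟨a1, a2⟩, a3⟩ := mem_cs.1 hA
  have c0 := cf_zero h2
  have := In.mk' c0.1
  have := In.mk' a2
  obtain ⟨f, hf, h4⟩ := skolem (M := M) (fun d d' => pair d d' ∈ H') inferInstance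
    (In.mem (img fst A)) fun d hd => (h3 d hd).imp fun d' h => ⟨snd_mem (tr c0.1 h), h⟩
  have := In.mk' hf
  have h5 : ∀ d b, pair d b ∈ A → pair d (app f d) ∈ H' := fun d b hd =>
    h4 d (mem_img.2 ⟨_, hd, fst_pair _ _⟩)
  refine ⟨H', img (fun z => pair (app f (fst z)) (snd z)) A, h1, h2,
    mem_cs.2 ⟨⟨fun x hx => ?_, In.mem _⟩, inf_omega.img _ inferInstance a2 a3⟩,
    fun d b hd => ⟨_, h5 d b hd, mem_img.2 ⟨_, hd, by simp⟩⟩, fun d' b hd => ?_⟩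
  · obtain ⟨z, hz, rfl⟩ := mem_img.1 hx
    obtain ⟨a, -, b, hb, rfl⟩ := mem_prod.1 (a1 hz)
    simp only [fst_pair, snd_pair]
    exact pair_mem_prod.2 ⟨(c0.2.1 _ _ (h5 a b hz)).2, hb⟩
  · obtain ⟨z, hz, e⟩ := mem_img.1 hd
    obtain ⟨a, -, c, -, rfl⟩ := mem_prod.1 (a1 hz)
    simp only [fst_pair, snd_pair, pair_inj] at e
    exact ⟨a, e.1 ▸ h5 a c hz, e.2 ▸ hz⟩

theorem realF_fwd (hP : P ∈ M) (po : PO P L) {k : ℕ} {H p p' A A' : ZF}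
    (h : CF M P L (k + 1 + 1) H) (hp : pair p p' ∈ H) (hA : RelN H A A') (hr : RealF L p A) :
    RealF L p' A' := by
  constructor
  · intro n hn q' hq'
    obtain ⟨H2, q, h1, h2, h3⟩ := back1 hP h (po.mem _ _ hq').1
    obtain ⟨r, h4, j, hj, h5⟩ := hr.1 n hn q (((cf_zero h2).2.2 _ _ _ _ h3 (h1 hp)).2 hq')
    obtain ⟨H3, r', h6, h7, h8⟩ := forth1 hP h2 (po.mem _ _ h4).1
    exact ⟨r', ((cf_zero h7).2.2 _ _ _ _ h8 (h6 h3)).1 h4, j, hj,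
      dec_fwd (cf_zero h7) h8 (rel_mono (rel_mono hA h1) h6) h5⟩
  · intro q' hq' n hn j hj j' hj' d1 d2
    obtain ⟨H2, q, h1, h2, h3⟩ := back1 hP h (po.mem _ _ hq').1
    exact hr.2 q (((cf_zero h2).2.2 _ _ _ _ h3 (h1 hp)).2 hq') n hn j hj j' hj'
      (dec_bwd (cf_zero h2) h3 (rel_mono hA h1) d1) (dec_bwd (cf_zero h2) h3 (rel_mono hA h1) d2)

theorem ef1 (hP : P ∈ M) (po : PO P L) (n : ℕ) : ∀ (k : ℕ) (H p p' T T' U U' : ZF),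
    CF M P L (2 * n + 1) H → pair p p' ∈ H → RelN H T T' → RelN H U U' →
    Fo M P L n k p T U → Fo M P L n k p' T' U' := by
  induction n with
  | zero =>
    rintro k H p p' T T' U U' h hp hT hU ⟨s, h1, h2⟩
    exact ⟨s, dec_fwd h.1 hp hT h1, fun b hb => dec_fwd h.1 hp hU (h2 b hb)⟩
  | succ n ih =>
    rintro k H p p' T T' U U' h hp hT hU ⟨A, h1, h2, h3⟩
    obtain ⟨H1, A', h4, h5, h6, h7⟩ := move (k := 2 * n + 1 + 1) h h1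
    refine ⟨A', h6, realF_fwd hP po h5 (h4 hp) h7 h2, fun r' hr' hf => ?_⟩
    obtain ⟨H2, r, h8, h9, h10⟩ := back1 hP h5 (po.mem _ _ hr').1
    refine h3 r (((cf_zero h9).2.2 _ _ _ _ h10 (h8 (h4 hp))).2 hr')
      (ih _ (swp H2) r' r T' T _ _ (cf_swp _ h9) (mem_swp.2 h10)
        (rel_swp (rel_mono (rel_mono hT h4) h8)) (rel_swp ?_) hf)
    exact rel_ext (mem_cs.1 h1).1.1 (mem_cs.1 h6).1.1 (rel_mono (rel_mono hU h4) h8)
      (rel_mono h7 h8)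

/-! ### points and codes of open sets -/

theorem mem_app1 {k : ℕ} {e y p : ZF} (hy : y ⊆ prod om om) : p ∈ app1 k e y ↔
    p ∈ e ∨ ∃ n j, pair n j ∈ y ∧ p = pair (pair (num k) n) j := by
  rw [app1, mem_union, mem_sep, nm_eq]
  refine or_congr_right ⟨fun h => h.2, fun h => ⟨?_, h⟩⟩
  obtain ⟨n, j, h1, rfl⟩ := h
  have h2 := pair_mem_prod.1 (hy h1)
  exact pair_mem_prod.2 ⟨pair_mem_prod.2 ⟨mem_singleton.2 rfl, h2.1⟩, h2.2⟩

theorem pt_zero : Pt M 0 ∅ := by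
  refine ⟨empty_mem, fun _ h => absurd h (notMem_empty _), fun z hz => ?_⟩
  obtain ⟨a, ha, -⟩ := mem_prod.1 hz
  rw [nm_eq] at ha
  exact absurd ha (notMem_empty _)

theorem pt_app1 {k : ℕ} {e y : ZF} (he : Pt M k e) (hy : Real M y) : Pt M (k + 1) (app1 k e y) := by
  obtain ⟨e1, e2⟩ := he
  obtain ⟨y1, y2⟩ := hy
  rw [nm_eq] at e2
  refine ⟨?_, ?_⟩
  · have := In.mk' e1
    have := In.mk' y1
    unfold app1
    rw [nm_eq]
    exact In.mem _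
  · rw [nm_eq]
    refine ⟨fun p hp => ?_, fun z hz => ?_⟩
    · rcases (mem_app1 y2.1).1 hp with h | ⟨n, j, h, rfl⟩
      · obtain ⟨z, hz, j, hj, rfl⟩ := e2.exists_pair h
        obtain ⟨a, ha, b, hb, rfl⟩ := mem_prod.1 hz
        exact pair_mem_prod.2 ⟨pair_mem_prod.2 ⟨mem_insert_of_mem _ ha, hb⟩, hj⟩
      · exact pair_mem_prod.2 ⟨pair_mem_prod.2 ⟨mem_insert _ _, (y2.mem h).1⟩, (y2.mem h).2⟩
    · obtain ⟨a, ha, b, hb, rfl⟩ := mem_prod.1 hz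
      rcases mem_insert_iff.1 ha with rfl | ha
      · refine ⟨app y b, (mem_app1 y2.1).2 (Or.inr ⟨b, _, y2.app_mem hb, rfl⟩), fun w hw => ?_⟩
        rcases (mem_app1 y2.1).1 hw with h | ⟨n, j, h, e⟩
        · exact absurd (pair_mem_prod.1 (e2.mem h).1).1 (mem_irrefl _)
        · simp only [pair_inj, true_and] at e
          obtain ⟨rfl, rfl⟩ := e
          exact (y2.app_eq h).symm
      · refine ⟨app e (pair a b), (mem_app1 y2.1).2 (Or.inl (e2.app_mem (pair_mem_prod.2 ⟨ha, hb⟩))),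
          fun w hw => ?_⟩
        rcases (mem_app1 y2.1).1 hw with h | ⟨n, j, h, e⟩
        · exact (e2.app_eq h).symm
        · simp only [pair_inj] at e
          exact absurd (e.1.1 ▸ ha) (mem_irrefl _)

theorem bridge (n : ℕ) : ∀ (k : ℕ) (A : ZF), Sigma M n k A → ∃ T ∈ M,
    T ⊆ fs (prod (prod om om) om) ∧ ∀ e, Pt M k e → (e ∈ A ↔ Ev M n k T e) := by
  induction n with
  | zero =>
    rintro k A ⟨h1, h2⟩
    have := In.mk' h1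
    refine ⟨ZFSet.sep (fun s => ∀ e ∈ M, IsFunc (prod (num k) om) om e → s ⊆ e → e ∈ A)
      (fs (prod (prod om om) om)), In.mem _, sep_subset, fun e he => ⟨fun h => ?_, ?_⟩⟩
    · obtain ⟨-, s, h3, h4, h5⟩ := h2 e h
      refine ⟨s, mem_sep.2 ⟨mem_fs.2 ⟨fun p hp => ?_, h4⟩,
        fun e' h6 h7 => h5 e' ⟨h6, by rwa [nm_eq]⟩⟩, h3⟩
      obtain ⟨z, hz, j, hj, rfl⟩ := he.2.exists_pair (h3 hp)
      obtain ⟨a, ha, b, hb, rfl⟩ := mem_prod.1 hz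
      rw [nm_eq] at ha
      exact pair_mem_prod.2
        ⟨pair_mem_prod.2 ⟨isOrdinal_omega.mem_trans ha (num_mem_omega k), hb⟩, hj⟩
    · rintro ⟨s, h3, h4⟩
      exact (mem_sep.1 h3).2 e he.1 (nm_eq k ▸ he.2) h4
  | succ n ih =>
    rintro k A ⟨-, C, h2, h3⟩
    obtain ⟨T, h4, h5, h6⟩ := ih (k + 1) C h2
    refine ⟨T, h4, h5, fun e he => (h3 e).trans ((and_iff_right he).trans ?_)⟩
    exact exists_congr fun y => and_congr_right fun hy => not_congr (h6 _ (pt_app1 he hy))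

omit [TModel M] in
theorem vl_ext {k : ℕ} {G U A : ZF} (hA : A ∈ NN M P) :
    vl G (ext k U A) = app1 k (vl G U) (vl G A) := by
  have h1 := (mem_cs.1 hA).1.1
  have h2 : vl G A ⊆ prod om om := fun b hb => by
    obtain ⟨p, -, h⟩ := mem_vl.1 hb
    exact (pair_mem_prod.1 (h1 h)).2
  ext b
  simp only [mem_app1 h2, mem_vl, mem_ext h1]
  constructor
  · rintro ⟨p, hp, h | ⟨c, h, rfl⟩⟩
    · exact Or.inl ⟨p, hp, h⟩
    · obtain ⟨n, -, j, -, rfl⟩ := mem_prod.1 (pair_mem_prod.1 (h1 h)).2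
      exact Or.inr ⟨n, j, ⟨p, hp, h⟩, by simp⟩
  · rintro (⟨p, hp, h⟩ | ⟨n, j, ⟨p, hp, h⟩, rfl⟩)
    · exact ⟨p, hp, Or.inl h⟩
    · exact ⟨p, hp, Or.inr ⟨_, h, by simp⟩⟩

theorem vl_empty (G : ZF) : vl G ∅ = ∅ := (eq_empty _).2 fun _ hb => by
  obtain ⟨p, -, h⟩ := mem_vl.1 hb
  exact notMem_empty _ h

/-- the name of a point of the plane -/
noncomputable def pn (A A' : ZF) : ZF := ext 1 (ext 0 ∅ A) A'

instance tm_pn {a b : Env → ZF} [Tm M a] [Tm M b] : Tm M (fun v => pn (a v) (b v)) := by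
  unfold pn; infer_instance

omit [TModel M] in
theorem vl_pn {G A A' : ZF} (hA : A ∈ NN M P) (hA' : A' ∈ NN M P) :
    vl G (pn A A') = pt2 (vl G A) (vl G A') := by
  rw [pn, vl_ext hA', vl_ext hA, vl_empty, pt2]

/-- `q` forces a wrong comparison -/
def Bad (M : Set ZF) (P L κ E T : ZF) (n : ℕ) (q : ZF) : Prop :=
  ∃ A ∈ NN M P, ∃ A' ∈ NN M P, ∃ ξ ∈ κ, ∃ η ∈ κ, dec L q E (pair A ξ) ∧ dec L q E (pair A' η) ∧
    ((ξ ⊆ η ∧ ∀ r, pair r q ∈ L → ¬ Fo M P L n 2 r T (pn A A')) ∨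
      (¬ ξ ⊆ η ∧ Fo M P L n 2 q T (pn A A')))

set_option synthInstance.maxSize 2048 in
instance df_bad {κ E T : ZF} [In M P] [In M L] [In M κ] [In M E] [In M T] {n : ℕ} {a : Env → ZF}
    [Tm M a] : Df M (fun v => Bad M P L κ E T n (a v)) := by
  unfold Bad; infer_instance

theorem swap_bad (h3 : S_EF) (hP : P ∈ M) (hL : L ∈ M) (po : PO P L) {κ E T H q A A' ξ η : ZF}
    {n : ℕ} (ho : IsOrdinal κ) (hq : ∀ r, pair r q ∈ L → ¬ Bad M P L κ E T n r) (hq' : q ∈ P)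
    (hH : CF M P L (2 * n + 1 + 1) H) (hqq : pair q q ∈ H) (hT : RelN H T T) (hA : A ∈ NN M P)
    (hA' : A' ∈ NN M P) (hξ : ξ ∈ κ) (hη : η ∈ κ) (hlt : ξ ∈ η) (d1 : dec L q E (pair A ξ))
    (d2 : dec L q E (pair A' η)) (r1 : RelN H A A') (r2 : RelN H A' A) : False := by
  have h4 : ∃ r, pair r q ∈ L ∧ Fo M P L n 2 r T (pn A A') := by
    by_contra h
    exact hq q (po.refl q hq') ⟨A, hA, A', hA', ξ, hξ, η, hη, d1, d2,
      Or.inl ⟨(ho.mem hη).subset_of_mem hlt, fun r hr hf => h ⟨r, hr, hf⟩⟩⟩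
  obtain ⟨r, h5, h6⟩ := h4
  obtain ⟨H', r', h7, h8, h9⟩ := forth1 hP hH (po.mem _ _ h5).1
  have h10 : pair r' q ∈ L := ((cf_zero h8).2.2 _ _ _ _ h9 (h7 hqq)).1 h5
  have a1 := (mem_cs.1 hA).1.1
  have a2 := (mem_cs.1 hA').1.1
  have h11 : RelN H' (pn A A') (pn A' A) :=
    rel_ext a2 a1 (rel_ext a1 a2 (rel_empty _) (rel_mono r1 h7)) (rel_mono r2 h7)
  exact hq r' h10 ⟨A', hA', A, hA, η, hη, ξ, hξ, dec_mono po d2 h10, dec_mono po d1 h10,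
    Or.inr ⟨fun h => mem_irrefl _ (h hlt),
      (h3 M P L hP hL po n 2 H' r r' T T _ _ h8 h9 (rel_mono hT h7) h11).1 h6⟩⟩

end UpperP

open UpperP

theorem ef : S_EF := fun _ _ _ _ hP _ po n k H p p' T T' U U' h hp hT hU =>
  ⟨ef1 hP po n k H p p' T T' U U' h hp hT hU,
    ef1 hP po n k (swp H) p' p T' T U' U (cf_swp _ h) (mem_swp.2 hp) (rel_swp hT) (rel_swp hU)⟩

theorem upper (h1 : S_Nice) (h2 : S_Truth) (h3 : S_EF) : S_Upper := by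
  intro M N _ P L G fx κ hκ ho hom n R α hR ⟨hα, B, _, hB, ρ, hρ, r1, r2, r3⟩
  have hN : TModel N := fx.ext.model
  by_contra hc
  have hκα : κ ⊆ α := (hα.subset_total ho).resolve_left hc
  have iP := In.mk' fx.hP
  have iL := In.mk' fx.hL
  have iκ := In.mk' hκ
  obtain ⟨T, hT, t1, t2⟩ := bridge (M := N) n 2 R hR
  obtain ⟨T0, hT0, t3⟩ := h1 M N P L G fx _ (In.mem _)
    (le_fs inf_omega (In.mem _) (inf_omega.prod inf_omega.sq (Le.refl (In.mem _)))) T hT t1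
  have mT0 := (mem_cs.1 hT0).1.2
  have iT := In.mk' mT0
  have hX : ZFSet.sep (fun z => pair (vl G (fst z)) (snd z) ∈ ρ) (prod (NN M P) κ) ∈ N := by
    have := In.mk' (fx.ext.sub (In.mem (prod (NN M P) κ)))
    have := In.mk' fx.ext.gen
    have := In.mk' hρ
    exact In.mem _
  obtain ⟨E, hE, -, e2⟩ := fx.ext.cap _ hX _ (In.mem _) sep_subset
  have iE := In.mk' hE
  have e3 : ∀ q ∈ G, ∀ A ξ, dec L q E (pair A ξ) → pair (vl G A) ξ ∈ ρ := by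
    rintro q hq A ξ ⟨d, h4, h5⟩
    simpa using (mem_sep.1 ((e2 _).2 ⟨d, fx.gen.up q hq d h5, h4⟩)).2
  have nb : ∀ q ∈ G, ¬ Bad M P L κ E T0 n q := by
    rintro q hq ⟨A, hA, A', hA', ξ, -, η, -, d1, d2, h4⟩
    have iA := In.mk' (mem_cs.1 hA).1.2
    have iA' := In.mk' (mem_cs.1 hA').1.2
    have x1 := e3 q hq _ _ d1
    have x2 := e3 q hq _ _ d2
    have h5 : ξ ⊆ η ↔ ∃ p ∈ G, Fo M P L n 2 p T0 (pn A A') := by
      rw [← r3 _ _ _ _ x1 x2, ← h2 M N P L G fx n 2 T0 mT0 (pn A A') (In.mem _)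
        (fun s hs => (mem_fs.1 (t1 (t3 ▸ hs))).2), t3, vl_pn hA hA']
      exact t2 _ (pt_app1 (pt_app1 pt_zero ((hB _).1 (r1.mem x1).1)) ((hB _).1 (r1.mem x2).1))
    rcases h4 with ⟨h6, h7⟩ | ⟨h6, h7⟩
    · obtain ⟨p, hp, h8⟩ := h5.1 h6
      obtain ⟨r, -, h9, h10⟩ := fx.gen.dir p hp q hq
      exact h7 r h10 (fo_mono fx.po h8 h9)
    · exact h6 (h5.2 ⟨q, hq, h7⟩)
  obtain ⟨p0, g0, h4⟩ := fx.gen.meet (ZFSet.sep (fun p => Bad M P L κ E T0 n p ∨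
      ∀ r, pair r p ∈ L → ¬ Bad M P L κ E T0 n r) P) (In.mem _) fun p hp => by
    by_cases h : ∃ r, pair r p ∈ L ∧ Bad M P L κ E T0 n r
    · obtain ⟨r, h4, h5⟩ := h
      exact ⟨r, mem_sep.2 ⟨(fx.po.mem _ _ h4).1, Or.inl h5⟩, h4⟩
    · exact ⟨p, mem_sep.2 ⟨hp, Or.inr fun r h4 h5 => h ⟨r, h4, h5⟩⟩, fx.po.refl p hp⟩
  have h5 := (mem_sep.1 h4).2.resolve_left (nb p0 g0)
  have i0 := In.mk' (tr fx.hP (fx.gen.sub g0))
  obtain ⟨f, hf, f1⟩ := skolem (M := M)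
    (fun ξ p => pair p p0 ∈ L ∧ ∃ A ∈ NN M P, dec L p E (pair A ξ)) inferInstance hκ fun ξ hξ => by
      obtain ⟨x, hx⟩ := r2 ξ (hκα hξ)
      have h6 := (hB _).1 (r1.mem hx).1
      obtain ⟨A, hA, h7⟩ := h1 M N P L G fx _ (In.mem _) inf_omega.sq x h6.1 h6.2.1
      obtain ⟨p, hp, h8⟩ := (e2 (pair A ξ)).1
        (mem_sep.2 ⟨pair_mem_prod.2 ⟨hA, hξ⟩, by simpa [h7] using hx⟩)
      obtain ⟨r, hr, h9, h10⟩ := fx.gen.dir p hp p0 g0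
      exact ⟨r, tr fx.hP (fx.gen.sub hr), h10, A, hA, p, h8, h9⟩
  have := In.mk' hf
  obtain ⟨g, hg, g1⟩ := skolem (M := M)
    (fun ξ A => A ∈ NN M P ∧ dec L (app f ξ) E (pair A ξ)) inferInstance hκ fun ξ hξ =>
      (f1 ξ hξ).2.imp fun A h => ⟨(mem_cs.1 h.1).1.2, h⟩
  obtain ⟨ξ, hξ, η, hη, hne, q, H, q1, q2, q3, q4, q5, q6, q7⟩ := hom (2 * n + 1 + 1) _ (dom_cs hT0)
    f hf g hg fun ξ hξ => ⟨(fx.po.mem _ _ (f1 ξ hξ).1).1, (g1 ξ hξ).1⟩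
  have q8 : ∀ r, pair r q ∈ L → ¬ Bad M P L κ E T0 n r := fun r hr =>
    h5 r (fx.po.trans _ _ _ hr (fx.po.trans _ _ _ q1 (f1 ξ hξ).1))
  have q9 : RelN H T0 T0 :=
    ⟨fun d b hd => ⟨d, q5 d (mem_img.2 ⟨_, hd, fst_pair _ _⟩), hd⟩,
      fun d b hd => ⟨d, q5 d (mem_img.2 ⟨_, hd, fst_pair _ _⟩), hd⟩⟩
  have d1 := dec_mono fx.po (g1 ξ hξ).2 q1
  have d2 := dec_mono fx.po (g1 η hη).2 q2
  rcases (ho.mem hξ).mem_trichotomous (ho.mem hη) with h | h | h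
  · exact swap_bad h3 fx.hP fx.hL fx.po ho q8 (fx.po.mem _ _ q1).1 q3 q4 q9 (g1 ξ hξ).1 (g1 η hη).1
      hξ hη h d1 d2 q6 q7
  · exact hne h
  · exact swap_bad h3 fx.hP fx.hL fx.po ho q8 (fx.po.mem _ _ q1).1 q3 q4 q9 (g1 η hη).1 (g1 ξ hξ).1
      hη hξ h d2 d1 q7 q6

end Pool.Agent.P.MP_9a7e1f_lc
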